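import Pool.Agent.TH971.SR.P1
import Pool.Agent.W466.ZS

/-!
The criterion for one point at one prime (helper file for Zilber-Pink for random correspondences).
-/

set_option autoImplicit false

open MvPolynomial

namespace Pool.Agent.TH971.SR

open Pool.Agent.W282.ZP Pool.Agent.W466.EP Pool.Agent.W466.ZP Pool.Agent.W282.RW
  Pool.Agent.TH971.RF Pool.Agent.TH971.SP

/-- A place with prescribed values of independent numbers. -/
theorem exists_place {ι₁ κ₁ κ : Type} (x : ι₁ → ℂ) (rt : κ₁ → ℂ) (τ : κ → ℂ)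
    (h : AlgebraicIndependent ℚ (Sum.elim x (Sum.elim rt τ))) {p : ℕ} (hp : p.Prime)
    (a : ι₁ → ℚ) (b : κ₁ → ℚ) (ha : ∀ i, a i ≠ 0) (hb : ∀ i, b i ≠ 0) :
    ∃ V : ValuationSubring ℂ, SP.Good τ p V ∧ (∀ i, V.valuation ((a i : ℂ) * x i) = 1) ∧
      ∀ i, V.valuation ((b i : ℂ) * rt i) = 1 := by
  have hS' := algInd_smul h (Sum.elim a (Sum.elim b (fun _ => 1)))
    (by
      rintro (j | (b | b))
      · exact ha j
      · exact hb b
      · exact one_ne_zero)
  obtain ⟨V0, hV0⟩ := exists_good _ hS' hp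
  refine ⟨V0, ?_, fun i => ?_, fun i => ?_⟩
  · refine ⟨hV0.hp, fun i => ?_, ?_, hV0.arch⟩
    · have h1 := hV0.mem (Sum.inr (Sum.inr i))
      simpa using h1
    · refine gauss_comp (fun i => Sum.inr (Sum.inr i))
        (fun a b h => Sum.inr_injective (Sum.inr_injective h)) ?_ hV0.gauss
      intro i
      simp
  · have h1 := good_X hp hV0 (Sum.inl i)
    simpa using h1
  · have h1 := good_X hp hV0 (Sum.inr (Sum.inl i))
    simpa using h1

/-- The labels of the coordinates. -/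
theorem patternG {n rZ : ℕ} {κ κ₁ : Type} {τ : κ → ℂ} {rt : κ₁ → ℂ} {Γ : Finset ℂ}
    (cls : Fin n → Option (Fin rZ)) (x : Fin n → ℂ)
    (hconst : ∀ i, cls i = none → IsIntegral (Algebra.adjoin ℤ (Γ : Set ℂ)) (x i))
    (hrel : ∀ i i' l, cls i = some l → cls i' = some l →
      IsIntegral (Algebra.adjoin ℤ {x i}) (x i'))
    (T : Finset (Fin n))
    (hT : AlgebraicIndependent ℚ (Sum.elim (fun j : T => x j) (Sum.elim rt τ)))
    {p : ℕ} (hp : p.Prime)
    (hΓ : ∀ V : ValuationSubring ℂ, SP.Good τ p V → ∀ γ ∈ Γ, γ ≠ 0 → V.valuation γ = 1) :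
    T.card ≤ rZ ∧ ∀ k : ℕ, rZ ≤ T.card + k →
    ∃ lam : Fin n → Option (Fin k), ∀ B : ValuationSubring ℂ,
      (∀ γ ∈ Γ, γ ≠ 0 → B.valuation γ = 1) → (∀ i : T, x i ∈ B) →
      (∀ i, lam i = none → x i ∈ B) ∧
      (∀ i i', lam i ≠ none → lam i' = lam i → x i ∈ B → x i' ∈ B) := by
  classical
  have hbig : ∀ t0 : T, ∃ V : ValuationSubring ℂ, SP.Good τ p V ∧ x t0 ∉ V ∧
      ∀ t : T, t ≠ t0 → x t ∈ V := by
    intro t0
    obtain ⟨V, hV1, hV2, -⟩ := exists_place _ rt τ hT hp (fun t => if t = t0 then (p : ℚ) else 1)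
      (fun _ => 1) (fun t => by
        split_ifs
        · exact_mod_cast hp.ne_zero
        · exact one_ne_zero) (fun _ => one_ne_zero)
    refine ⟨V, hV1, ?_, fun t ht => ?_⟩
    · intro hmem
      have h1 := hV2 t0
      rw [if_pos rfl, map_mul] at h1
      have h2 := (ValuationSubring.valuation_le_one_iff V _).2 hmem
      have h3 : V.valuation (((p : ℚ) : ℂ)) < 1 := by
        push_cast
        exact hV1.lt
      have h4 : V.valuation (((p : ℚ) : ℂ)) * V.valuation (x t0) < 1 :=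
        (mul_le_of_le_one_right' h2).trans_lt h3
      exact h4.ne h1
    · have h1 := hV2 t
      rw [if_neg ht, Rat.cast_one, one_mul] at h1
      exact (ValuationSubring.valuation_le_one_iff V _).1 h1.le
  have hSnone : ∀ i ∈ T, cls i ≠ none := by
    intro i hi hn
    obtain ⟨V, hV1, hV2, -⟩ := hbig ⟨i, hi⟩
    apply hV2
    rw [← ValuationSubring.valuation_le_one_iff]
    exact val_le_one_of_adjoin V (hΓ V hV1) (hconst i hn)
  have hSinj : ∀ i ∈ T, ∀ i' ∈ T, cls i = cls i' → i = i' := by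
    intro i hi i' hi' he
    by_contra hne
    obtain ⟨k', hk⟩ := Option.ne_none_iff_exists'.1 (hSnone i hi)
    obtain ⟨V, hV1, hV2, hV3⟩ := hbig ⟨i', hi'⟩
    apply hV2
    exact H294ZP.mem_of_integral V (hV3 ⟨i, hi⟩ (fun h => hne (congrArg Subtype.val h)))
      (hrel i i' k' hk (he ▸ hk))
  let Hs : Finset (Option (Fin rZ)) := T.image cls
  have hHs : Hs.card = T.card := by
    apply Finset.card_image_of_injOn
    intro i hi i' hi' he
    exact hSinj i hi i' hi' he
  let Hc : Finset (Fin rZ) := Finset.univ.filter (fun c => some c ∈ Hs)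
  have h2 : Hs = Hc.image some := by
    ext c
    simp only [Hs, Hc, Finset.mem_image, Finset.mem_filter, Finset.mem_univ, true_and]
    constructor
    · rintro ⟨i, hi, rfl⟩
      obtain ⟨c', hc'⟩ := Option.ne_none_iff_exists'.1 (hSnone i hi)
      exact ⟨c', ⟨i, hi, hc'⟩, hc'.symm⟩
    · rintro ⟨c', ⟨i, hi, hc'⟩, rfl⟩
      exact ⟨i, hi, hc'⟩
  have h3 : Hs.card = Hc.card := by
    rw [h2]
    exact Finset.card_image_of_injective _ (Option.some_injective _)
  have h4 : Hc.card ≤ rZ := by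
    have := Finset.card_le_univ Hc
    rwa [Fintype.card_fin] at this
  refine ⟨by omega, fun k hk => ?_⟩
  let Cc : Finset (Fin rZ) := Finset.univ.filter (fun c => some c ∉ Hs)
  have hCc : Cc.card ≤ k := by
    have h1 : Hc.card + Cc.card = rZ := by
      have := Finset.card_filter_add_card_filter_not (s := (Finset.univ : Finset (Fin rZ)))
        (fun c => some c ∈ Hs)
      simpa using this
    omega
  let lam : Fin n → Option (Fin k) := fun i =>
    match cls i with
    | none => none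
    | some c => if h : c ∈ Cc then some (Fin.castLE hCc (Cc.equivFin ⟨c, h⟩)) else none
  refine ⟨lam, fun B hBΓ hBx => ⟨?_, ?_⟩⟩
  · intro i hi
    cases hc : cls i with
    | none =>
      rw [← ValuationSubring.valuation_le_one_iff]
      exact val_le_one_of_adjoin B hBΓ (hconst i hc)
    | some c =>
      simp only [lam, hc] at hi
      split_ifs at hi with hmem
      simp only [Cc, Finset.mem_filter, Finset.mem_univ, true_and, not_not, Hs,
        Finset.mem_image] at hmem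
      obtain ⟨i0, hi0, hci0⟩ := hmem
      exact H294ZP.mem_of_integral B (hBx ⟨i0, hi0⟩) (hrel _ _ _ hci0 hc)
  · intro i i' hne hi' hxi
    obtain ⟨j, hi⟩ := Option.ne_none_iff_exists'.1 hne
    rw [hi] at hi'
    cases hc : cls i with
    | none => simp [lam, hc] at hi
    | some c =>
      cases hc' : cls i' with
      | none => simp [lam, hc'] at hi'
      | some c' =>
        simp only [lam, hc] at hi
        simp only [lam, hc'] at hi'
        split_ifs at hi with h1
        split_ifs at hi' with h2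
        have h3 : Fin.castLE hCc (Cc.equivFin ⟨c, h1⟩) = Fin.castLE hCc (Cc.equivFin ⟨c', h2⟩) :=
          Option.some_injective _ (hi.trans hi'.symm)
        have h4 := Cc.equivFin.injective (Fin.castLE_injective hCc h3)
        rw [Subtype.mk.injEq] at h4
        subst h4
        exact H294ZP.mem_of_integral B hxi (hrel _ _ _ hc hc')

variable {σ : Type} [Fintype σ] [DecidableEq σ]

/-- One point and one prime. -/
theorem critP {n r m d kk : ℕ} (D : Fin n → ℕ) {κ : Type} {τ : κ → ℂ} {p : ℕ} (hp : p.Prime)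
    (f : ∀ J : Finset (Fin r), MvPolynomial J ℂ) (α : Fin r → ℤ)
    (hf : ∀ V : ValuationSubring ℂ, SP.Good τ p V → ∀ J : Finset (Fin r), J.card = d + 1 →
      ∀ l, V.valuation ((f J).coeff l) ≤ 1)
    (hcor : ∀ V : ValuationSubring ℂ, SP.Good τ p V → ∀ J : Finset (Fin r), J.card = d + 1 →
      V.valuation (eval (fun j : J => ((α j : ℤ) : ℂ)) (f J)) = 1)
    (Y : Set (σ → ℂ)) (s : Fin (m + 1) → σ → ℤ) (D₀ : ℕ) (hgood : RF.Good Y s D₀)
    (hpD : ¬ p ∣ D₀) (hpM : 0 + r + m < p) (dd : Fin r → ℕ) (lam : Fin n → Option (Fin kk))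
    (C : ∀ x : Fin r × Fin 2 × Expo D, Sym σ (dd x.1) → ℤ)
    (hC : ∀ (j : Fin r) (e : Expo D),
      (∀ u, (p : ℤ) ∣ C (j, 0, e) u - α j * lcoef D lam ((j : ℕ) + 1) e *
        pw _ (vdm s (0 + (j : ℕ))) u) ∧
      (∀ u, (p : ℤ) ∣ C (j, 1, e) u - lcoef D lam ((j : ℕ) + 1) e *
        pw _ (vdm s (0 + (j : ℕ))) u))
    (y : σ → ℂ) (hy : y ≠ 0) (hyY : y ∈ Y) (x : Fin n → ℂ)
    (hz : ∀ J : Finset (Fin r), J.card = d + 1 →
      homV (fun j => mevX (fun e' => ev (C (j, 0, e')) y) x)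
        (fun j => mevX (fun e' => ev (C (j, 1, e')) y) x)
        (rename (Subtype.val : J → Fin r) (f J)) = 0)
    (b0 : Fin (m + 1)) (hb0 : ∑ j, (vdm s (0 + r + (b0 : ℕ)) j : ℂ) * y j ≠ 0)
    (S : Finset (Fin (m + 1))) (T : Finset (Fin n))
    (hS : AlgebraicIndependent ℚ (Sum.elim (fun j : T => x j) (Sum.elim
      (fun b : S => (∑ j, (vdm s (0 + r + (b0 : ℕ)) j : ℂ) * y j)⁻¹ *
        ∑ j, (vdm s (0 + r + ((b : Fin (m + 1)) : ℕ)) j : ℂ) * y j) τ)))
    (hlam : ∀ V : ValuationSubring ℂ, SP.Good τ p V → (∀ i : T, x i ∈ V) →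
      (∀ i, lam i = none → x i ∈ V) ∧
      (∀ i i', lam i ≠ none → lam i' = lam i → x i ∈ V → x i' ∈ V)) :
    S.card + r ≤ kk + d + m := by
  classical
  have hp0 : (p : ℂ) ≠ 0 := by exact_mod_cast hp.ne_zero
  obtain ⟨V, hVτ, hVT, hVS⟩ := exists_place _ _ τ hS hp (fun _ => 1) (fun _ => (p : ℚ)⁻¹)
    (fun _ => one_ne_zero) (fun _ => inv_ne_zero (by exact_mod_cast hp.ne_zero))
  set v := V.valuation with hv
  have hVp : (p : ℂ) ∈ V.nonunits := hVτ.hp
  have hvp : v (p : ℂ) < 1 := hVτ.lt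
  have hTV : ∀ i : T, x i ∈ V := by
    intro i
    have h1 := hVT i
    rw [Rat.cast_one, one_mul] at h1
    exact (ValuationSubring.valuation_le_one_iff V _).1 h1.le
  obtain ⟨hl1, hl2⟩ := hlam V hVτ hTV
  obtain ⟨c, hc0, hcV, -, hbu⟩ := hgood p hp hpD V hVp y hy hyY
  have hle : ∀ b, v (∑ j, (vdm s b j : ℂ) * (c • y) j) ≤ 1 := fun b =>
    (ValuationSubring.valuation_le_one_iff V _).2
      (sum_mem fun j _ => mul_mem (intCast_mem V _) (hcV j))
  -- the forms of `S`
  have hS1 : ∀ b ∈ S, v (∑ j, (vdm s (0 + r + (b : ℕ)) j : ℂ) * (c • y) j) < 1 := by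
    intro b hbS
    have h1 := hVS ⟨b, hbS⟩
    have h3 : v ((∑ j, (vdm s (0 + r + (b0 : ℕ)) j : ℂ) * y j)⁻¹ *
        ∑ j, (vdm s (0 + r + (b : ℕ)) j : ℂ) * y j) = v (p : ℂ) := by
      have h2 : v (((p : ℚ)⁻¹ : ℚ) : ℂ) = (v (p : ℂ))⁻¹ := by
        push_cast
        rw [map_inv₀]
      rw [map_mul, h2] at h1
      have h4 : v (p : ℂ) ≠ 0 := (map_ne_zero _).2 hp0
      rw [inv_mul_eq_one₀ h4] at h1
      exact h1.symm
    have h4 : (∑ j, (vdm s (0 + r + (b : ℕ)) j : ℂ) * (c • y) j) =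
        ((∑ j, (vdm s (0 + r + (b0 : ℕ)) j : ℂ) * y j)⁻¹ *
          ∑ j, (vdm s (0 + r + (b : ℕ)) j : ℂ) * y j) *
        (∑ j, (vdm s (0 + r + (b0 : ℕ)) j : ℂ) * (c • y) j) := by
      rw [lf_smul, lf_smul]
      field_simp
    rw [h4, map_mul, h3]
    exact (mul_le_of_le_one_right' (hle _)).trans_lt hvp
  let Jb : Finset (Fin r) := Finset.univ.filter fun j =>
    v (∑ i, (vdm s (0 + (j : ℕ)) i : ℂ) * (c • y) i) ≠ 1
  have hcard := nonunit_card (m := m) (M := 0 + r + m) (parR (nn := 0)) parR_inj parR_le hp hpM V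
    hVp s (c • y) hcV hbu (((∅ : Finset (Fin 0)).disjSum Jb).disjSum S) (by
      rintro ((i | l) | b) hx'
      · exact i.elim0
      · rw [Finset.inl_mem_disjSum, Finset.inr_mem_disjSum] at hx'
        exact (Finset.mem_filter.1 hx').2
      · rw [Finset.inr_mem_disjSum] at hx'
        exact (hS1 b hx').ne)
  rw [Finset.card_disjSum, Finset.card_disjSum, Finset.card_empty, zero_add] at hcard
  have hJbc : Jbᶜ.card + Jb.card = r := by
    rw [Finset.card_compl, Fintype.card_fin]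
    have h1 := Finset.card_le_univ Jb
    rw [Fintype.card_fin] at h1
    omega
  let lf : Fin r → ℂ := fun j => ∑ i, (vdm s (0 + (j : ℕ)) i : ℂ) * (c • y) i
  have hlf : ∀ j ∈ Jbᶜ, v (lf j) = 1 := by
    intro j hj
    by_contra h4
    exact (Finset.mem_compl.1 hj) (Finset.mem_filter.2 ⟨Finset.mem_univ _, h4⟩)
  have hcastp : v (((p : ℤ) : ℤ) : ℂ) = v (p : ℂ) := by
    push_cast
    rfl
  have hmain := card_lab (D := D) V hp hvp (by omega) lam f α (hf V hVτ) (hcor V hVτ)
    (fun j e' => ev (C (j, 0, e')) (c • y)) (fun j e' => ev (C (j, 1, e')) (c • y)) Jbᶜ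
    (fun j => lf j ^ dd j)
    (fun j hj => by rw [map_pow]; change v (lf j) ^ _ = 1; rw [hlf j hj, one_pow])
    (by
      intro j _ e'
      have h1 := ev_congr V hcV (p : ℤ)
        (c' := fun u => (α j * lcoef D lam ((j : ℕ) + 1) e') * pw _ (vdm s (0 + (j : ℕ))) u)
        (hC j e').1
      rw [ev_zsmul, ev_pw, ← hv, hcastp] at h1
      have h2 : ((α j * lcoef D lam ((j : ℕ) + 1) e' : ℤ) : ℂ) *
          (∑ i, (vdm s (0 + (j : ℕ)) i : ℂ) * (c • y) i) ^ dd j =
          (α j : ℂ) * (lf j ^ dd j * (lcoef D lam ((j : ℕ) + 1) e' : ℂ)) := by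
        push_cast
        ring
      rw [← h2]
      exact h1)
    (by
      intro j _ e'
      have h1 := ev_congr V hcV (p : ℤ)
        (c' := fun u => (lcoef D lam ((j : ℕ) + 1) e') * pw _ (vdm s (0 + (j : ℕ))) u)
        (hC j e').2
      rw [ev_zsmul, ev_pw, ← hv, hcastp] at h1
      have h2 : ((lcoef D lam ((j : ℕ) + 1) e' : ℤ) : ℂ) *
          (∑ i, (vdm s (0 + (j : ℕ)) i : ℂ) * (c • y) i) ^ dd j =
          (lf j ^ dd j * (lcoef D lam ((j : ℕ) + 1) e' : ℂ)) := by
        push_cast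
        ring
      rw [← h2]
      exact h1)
    x (fun i hi => (ValuationSubring.valuation_le_one_iff V _).2 (hl1 i hi))
    (fun i i' l h1 h2 h3 => (ValuationSubring.valuation_le_one_iff V _).2
      (hl2 i i' (by rw [h1]; exact Option.some_ne_none _) (h2.trans h1.symm)
        ((ValuationSubring.valuation_le_one_iff V _).1 h3)))
    (by
      intro J hJ
      have h1 : ∀ (j : Fin r) (a : Fin 2), mevX (fun e' => ev (C (j, a, e')) (c • y)) x =
          c ^ dd j * mevX (fun e' => ev (C (j, a, e')) y) x := by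
        intro j a
        rw [mevX, mevX, Finset.mul_sum]
        refine Finset.sum_congr rfl fun e _ => ?_
        rw [ev_smul, mul_assoc]
      rw [funext fun j => h1 j 0, funext fun j => h1 j 1]
      rw [homV_scale, hz J hJ, mul_zero])
  omega

end Pool.Agent.TH971.SR
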