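import Pool.Agent.TH971.SR.R6
import Pool.Agent.W466.CF
import Pool.Agent.W282.RW.Main

/-!
Combinatorial and field theoretic preparations (helper file for Pink's conjecture for random
subvarieties of abelian schemes).
-/

set_option autoImplicit false

open MvPolynomial

namespace Pool.Agent.TH971.SR

open Pool.Agent.W282.ZP Pool.Agent.W466.EP Pool.Agent.W466.ZP Pool.Agent.W282.RW
  Pool.Agent.TH971.RF Pool.Agent.TH971.SP

theorem alg_mono {F₁ F₂ : IntermediateField ℚ ℂ} (h : F₁ ≤ F₂) {x : ℂ} (hx : IsAlgebraic F₁ x) :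
    IsAlgebraic F₂ x := by
  let _ := (IntermediateField.inclusion h).toAlgebra
  have : IsScalarTower F₁ F₂ ℂ := IsScalarTower.of_algebraMap_eq fun _ => rfl
  exact hx.tower_top (L := F₂)

theorem alg_up {K : IntermediateField ℚ ℂ} {S : Set ℂ} {x : ℂ}
    (hx : IsAlgebraic (IntermediateField.adjoin ℚ S) x) :
    IsAlgebraic (IntermediateField.adjoin K S) x := by
  have h1 : IntermediateField.adjoin ℚ S ≤
      (IntermediateField.adjoin K S).restrictScalars ℚ :=
    IntermediateField.adjoin_le_iff.2 fun _ hx => IntermediateField.subset_adjoin K S hx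
  exact alg_mono h1 hx

theorem alg_down {κ ι : Type} {τ : κ → ℂ} {f : ι → ℂ} {x : ℂ}
    (hx : IsAlgebraic (IntermediateField.adjoin (IntermediateField.adjoin ℚ (Set.range τ))
      (Set.range f)) x) :
    IsAlgebraic (IntermediateField.adjoin ℚ (Set.range (Sum.elim f τ))) x := by
  have h1 : (IntermediateField.adjoin (IntermediateField.adjoin ℚ (Set.range τ))
      (Set.range f)).restrictScalars ℚ ≤ IntermediateField.adjoin ℚ (Set.range (Sum.elim f τ)) := by
    have h2 : IntermediateField.adjoin ℚ (Set.range τ) ≤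
        IntermediateField.adjoin ℚ (Set.range (Sum.elim f τ)) := by
      refine IntermediateField.adjoin.mono ℚ _ _ ?_
      rintro _ ⟨i, rfl⟩
      exact ⟨Sum.inr i, rfl⟩
    have h3 : IntermediateField.adjoin (IntermediateField.adjoin ℚ (Set.range τ)) (Set.range f) ≤
        IntermediateField.extendScalars h2 := by
      rw [IntermediateField.adjoin_le_iff]
      rintro _ ⟨i, rfl⟩
      exact IntermediateField.subset_adjoin ℚ _ ⟨Sum.inl i, rfl⟩
    exact fun z hz => h3 hz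
  exact alg_mono h1 hx

theorem vander {q M : ℕ} (β : Fin q → ℤ) (I : Finset (Fin M)) (hI : I.card = q)
    (hβ : ∀ l ∈ I, ∑ j, β j * (((l : ℕ) + 1) ^ (j : ℕ) : ℕ) = 0) : β = 0 := by
  let f : Polynomial ℤ := ∑ j : Fin q, Polynomial.C (β j) * Polynomial.X ^ (j : ℕ)
  have hf0 : f = 0 := by
    refine Polynomial.eq_zero_of_degree_lt_of_eval_finset_eq_zero
      (I.image fun l : Fin M => ((l : ℕ) : ℤ) + 1) ?_ ?_
    · rw [Finset.card_image_of_injective _ (by
        intro x y hxy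
        apply Fin.ext
        have h2 : (((x : ℕ) : ℤ) + 1) = ((y : ℕ) : ℤ) + 1 := hxy
        omega), hI]
      exact Polynomial.degree_sum_fin_lt β
    · intro x hx
      obtain ⟨l, hl, rfl⟩ := Finset.mem_image.1 hx
      have h2 := hβ l hl
      rw [Polynomial.eval_finsetSum, ← h2]
      refine Finset.sum_congr rfl fun j _ => ?_
      rw [Polynomial.eval_mul, Polynomial.eval_C, Polynomial.eval_pow, Polynomial.eval_X]
      push_cast
      rfl
  funext j
  have h2 := congrArg (fun g => Polynomial.coeff g (j : ℕ)) hf0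
  have h3 : f.coeff (j : ℕ) = β j := by
    change (∑ j' : Fin q, Polynomial.C (β j') * Polynomial.X ^ (j' : ℕ)).coeff (j : ℕ) = _
    rw [Polynomial.finsetSum_coeff, Finset.sum_eq_single j]
    · rw [Polynomial.coeff_C_mul_X_pow, if_pos rfl]
    · intro j' _ hne
      rw [Polynomial.coeff_C_mul_X_pow, if_neg]
      intro h4
      exact hne (Fin.ext h4.symm)
    · intro h4
      exact absurd (Finset.mem_univ j) h4
  simp only [Polynomial.coeff_zero] at h2
  rw [← h3, h2]
  rfl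

/-- The combination of the information at all primes. -/
theorem pigeon {k r : ℕ} (M₂ : Submodule ℤ (Fin k → ℤ))
    (H : ∀ m' : Fin ((k - 1) * (2 ^ k * (r + 1) ^ k) + 1), ∃ U : Finset (Fin k),
      U.card < Module.finrank ℤ M₂ ∧ ∃ χ : Fin k → Fin (r + 1), ∀ a ∈ M₂, (∀ w ∈ U, a w = 0) →
      ∑ w, (a w * ((χ w : ℕ) + 1 : ℕ)) * (((m' : ℕ) + 1) ^ (w : ℕ) : ℕ) = 0) : False := by
  classical
  have hβ : ∀ J : Finset (Fin k), ∃ b : Fin k → ℤ, b ∈ M₂ ∧ (∀ j, j ∉ J → b j = 0) ∧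
      ((∃ r ∈ M₂, r ≠ 0 ∧ ∀ j, j ∉ J → r j = 0) → b ≠ 0) := by
    intro J
    by_cases h : ∃ r ∈ M₂, r ≠ 0 ∧ ∀ j, j ∉ J → r j = 0
    · obtain ⟨r, h1, h2, h3⟩ := h
      exact ⟨r, h1, h3, fun _ => h2⟩
    · exact ⟨0, M₂.zero_mem, fun _ _ => rfl, fun h1 => absurd h1 h⟩
  choose bt hbtM hbtJ hbt0 using hβ
  have hone : ∀ m' : Fin ((k - 1) * (2 ^ k * (r + 1) ^ k) + 1),
      ∃ J : Finset (Fin k) × (Fin k → Fin (r + 1)), bt J.1 ≠ 0 ∧
      ∑ w, (bt J.1 w * ((J.2 w : ℕ) + 1 : ℕ)) * (((m' : ℕ) + 1) ^ (w : ℕ) : ℕ) = 0 := by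
    intro m'
    obtain ⟨U, hU1, χ, hU2⟩ := H m'
    obtain ⟨r', hr, hr0, hrF⟩ := exists_rel M₂ U hU1
    refine ⟨(Uᶜ, χ), ?_, ?_⟩
    · refine hbt0 _ ⟨r', hr, hr0, fun j hj => ?_⟩
      rw [Finset.mem_compl, not_not] at hj
      exact hrF j hj
    · exact hU2 (bt Uᶜ) (hbtM _) fun w hw => hbtJ _ w (by rwa [Finset.mem_compl, not_not])
  choose Jf hJf1 hJf2 using hone
  obtain ⟨J, -, hJ⟩ := Finset.exists_lt_card_fiber_of_mul_lt_card_of_maps_to
    (s := (Finset.univ : Finset (Fin ((k - 1) * (2 ^ k * (r + 1) ^ k) + 1))))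
    (t := (Finset.univ : Finset (Finset (Fin k) × (Fin k → Fin (r + 1))))) (f := Jf) (n := k - 1)
    (fun _ _ => Finset.mem_univ _) (by
      rw [Finset.card_univ, Finset.card_univ, Fintype.card_prod, Fintype.card_finset,
        Fintype.card_fun, Fintype.card_fin, Fintype.card_fin, Fintype.card_fin, mul_comm]
      omega)
  have hJq : k ≤ (Finset.univ.filter fun l => Jf l = J).card := by omega
  obtain ⟨I', hIJ, hIq⟩ := Finset.exists_subset_card_eq hJq
  have hne : (Finset.univ.filter fun l => Jf l = J).Nonempty := by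
    rw [← Finset.card_pos]
    omega
  obtain ⟨l, hl⟩ := hne
  have h1 := hJf1 l
  rw [(Finset.mem_filter.1 hl).2] at h1
  apply h1
  have h2 : (fun w => bt J.1 w * (((J.2 w : ℕ) + 1 : ℕ) : ℤ)) = 0 := by
    refine vander _ I' hIq fun l' hl' => ?_
    have h2 := hJf2 l'
    rwa [(Finset.mem_filter.1 (hIJ hl')).2] at h2
  funext w
  have h3 := congrFun h2 w
  exact (mul_eq_zero.1 h3).resolve_right (by positivity)

variable {σ : Type} [Fintype σ] [DecidableEq σ]

/-- The exchange of coordinates of the base for values of the linear forms. -/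
theorem exch_point {κ : Type} {τ : κ → ℂ} (hτ : AlgebraicIndependent ℚ τ) {Y : Set (σ → ℂ)} {m : ℕ}
    {s : Fin (m + 1) → σ → ℤ} {D₀ : ℕ} (hD₀ : 0 < D₀) (hgood : RF.Good Y s D₀)
    (hY : ∀ (c : ℂ) (y : σ → ℂ), y ∈ Y → c • y ∈ Y) (off : ℕ) {y : σ → ℂ} (hy : y ≠ 0)
    (hyY : y ∈ Y) {j0 : σ} (hj0 : y j0 = 1) {ι₂ : Type} (x : ι₂ → ℂ) (T1 : Finset σ)
    (T2 : Finset ι₂)
    (h : AlgebraicIndependent (IntermediateField.adjoin ℚ (Set.range τ))
      (Sum.elim (fun j : T1 => y j) (fun j : T2 => x j))) :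
    ∃ b0 : Fin (m + 1), ∑ j, (vdm s (off + (b0 : ℕ)) j : ℂ) * y j ≠ 0 ∧
      ∃ (S : Finset (Fin (m + 1))) (T : Finset ι₂), T1.card + T2.card ≤ S.card + T.card ∧
        AlgebraicIndependent ℚ (Sum.elim (fun j : T => x j) (Sum.elim
          (fun b : S => (∑ j, (vdm s (off + (b0 : ℕ)) j : ℂ) * y j)⁻¹ *
            ∑ j, (vdm s (off + ((b : Fin (m + 1)) : ℕ)) j : ℂ) * y j) τ)) ∧
        ∀ j, IsAlgebraic (IntermediateField.adjoin ℚ (Set.range (Sum.elim
          (fun b : S => (∑ j, (vdm s (off + (b0 : ℕ)) j : ℂ) * y j)⁻¹ *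
            ∑ j, (vdm s (off + ((b : Fin (m + 1)) : ℕ)) j : ℂ) * y j) τ))) (y j) := by
  classical
  have hgv := good_vdm hgood off
  have hDM : 0 < D₀ * (off + m).factorial := Nat.mul_pos hD₀ (Nat.factorial_pos _)
  -- a linear form which does not vanish
  obtain ⟨b0, hb0⟩ : ∃ b0 : Fin (m + 1), ∑ j, (vdm s (off + (b0 : ℕ)) j : ℂ) * y j ≠ 0 := by
    obtain ⟨p, hpge, hp⟩ := Nat.exists_infinite_primes (D₀ * (off + m).factorial + 1)
    obtain ⟨V, hV⟩ := H294ZP.exists_val (fun i : Empty => i.elim)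
      (algebraicIndependent_empty_type) hp
    obtain ⟨c, -, -, -, b, hb⟩ := hgv p hp (fun h => by
      have := Nat.le_of_dvd hDM h
      omega) V hV.1 y hy hyY
    refine ⟨b, fun h0 => ?_⟩
    rw [lf_smul, h0, mul_zero, map_zero] at hb
    exact zero_ne_one hb
  refine ⟨b0, hb0, ?_⟩
  set c0 : ℂ := ∑ j, (vdm s (off + (b0 : ℕ)) j : ℂ) * y j with hc0
  have hz : c0⁻¹ • y ≠ 0 := smul_ne_zero (inv_ne_zero hb0) hy
  have hzY : c0⁻¹ • y ∈ Y := hY _ _ hyY
  set K := IntermediateField.adjoin ℚ (Set.range τ) with hK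
  set f : Fin (m + 1) → ℂ := fun b => c0⁻¹ * ∑ j, (vdm s (off + (b : ℕ)) j : ℂ) * y j with hf
  have hrange : (fun b : Fin (m + 1) => ∑ i, (vdm s (off + (b : ℕ)) i : ℂ) * (c0⁻¹ • y) i) = f := by
    funext b
    rw [lf_smul]
  have hyalg : ∀ j, IsAlgebraic (IntermediateField.adjoin ℚ (Set.range f)) (y j) := by
    intro j
    have h1 := alg_coord hDM hgv hz hzY j
    have h2 := alg_coord hDM hgv hz hzY j0
    rw [hrange, mem_cl] at h1 h2
    have h3 : y j = (c0⁻¹ • y) j * ((c0⁻¹ • y) j0)⁻¹ := by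
      rw [Pi.smul_apply, Pi.smul_apply, smul_eq_mul, smul_eq_mul, hj0, mul_one, inv_inv]
      field_simp
    rw [h3]
    exact h1.mul h2.inv
  have hycl : ∀ j, y j ∈ (AlgebraicIndependent.matroid K ℂ).closure (Set.range f) := by
    intro j
    rw [mem_cl]
    exact alg_up (hyalg j)
  obtain ⟨S, T, -, hcard, hind, hfcl⟩ := exchange (K := K) f y T1 x T2 (fun j _ => hycl j) h
  refine ⟨S, T, hcard, ?_, fun j => ?_⟩
  · have h1 : AlgebraicIndependent ℚ (Sum.elim (Sum.elim (fun b : S => f b) (fun j : T => x j)) τ) := by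
      refine hτ.sumElim_of_tower (S := K) ?_ hind
      rintro _ ⟨i, rfl⟩
      exact ⟨⟨τ i, IntermediateField.subset_adjoin _ _ ⟨i, rfl⟩⟩, rfl⟩
    let φ : T ⊕ (S ⊕ κ) → (S ⊕ T) ⊕ κ := Sum.elim (fun j => Sum.inl (Sum.inr j))
      (Sum.elim (fun b => Sum.inl (Sum.inl b)) (fun i => Sum.inr i))
    have hφ : Function.Injective φ := by
      rintro (a | a | a) (b | b | b) hab <;> simp [φ] at hab <;> simp [hab]
    have h2 := h1.comp φ hφ
    convert h2 using 1
    funext j
    rcases j with j | j | j <;> rfl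
  · have h1 : y j ∈ (AlgebraicIndependent.matroid K ℂ).closure (Set.range fun b : S => f b) := by
      have h2 : (AlgebraicIndependent.matroid K ℂ).closure (Set.range f) ⊆
          (AlgebraicIndependent.matroid K ℂ).closure (Set.range fun b : S => f b) := by
        have h3 := (AlgebraicIndependent.matroid K ℂ).closure_subset_closure
          (X := Set.range f) (Y := (AlgebraicIndependent.matroid K ℂ).closure
            (Set.range fun b : S => f b)) (by
            rintro _ ⟨i, rfl⟩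
            exact hfcl i)
        rwa [Matroid.closure_closure] at h3
      exact h2 (hycl j)
    rw [mem_cl] at h1
    exact alg_down h1

end Pool.Agent.TH971.SR
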