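import Pool.Agent.TH971.SR.R6
import Pool.Agent.TH971.SR.R7
import Pool.Agent.TH971.SR.P2

/-!
Preperiodic points of random families of polynomials: one point and one prime.
-/

set_option autoImplicit false

open MvPolynomial

namespace Pool.Agent.TH971.SR

open Pool.Agent.W282.ZP Pool.Agent.W466.EP Pool.Agent.W466.ZP Pool.Agent.W282.RW
  Pool.Agent.TH971.RF Pool.Agent.TH971.SP

/-- The monic polynomial map `x ↦ (∑ k ≤ d, F k * x ^ k) / F d`. -/
noncomputable def dyn {d : ℕ} (F : Fin (d + 1) → ℂ) (x : ℂ) : ℂ :=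
  (∑ k : Fin (d + 1), F k * x ^ (k : ℕ)) / F (Fin.last d)

/-- `x` is preperiodic for `f`. -/
def Prep (f : ℂ → ℂ) (x : ℂ) : Prop := ∃ a b : ℕ, a ≠ b ∧ f^[a] x = f^[b] x

theorem dyn_grow (V : ValuationSubring ℂ) {d : ℕ} (hd : 2 ≤ d) (F : Fin (d + 1) → ℂ)
    (hF : ∀ k, V.valuation (F k) ≤ 1) (hl : V.valuation (F (Fin.last d)) = 1) (x : ℂ)
    (hx : 1 < V.valuation x) : V.valuation x < V.valuation (dyn F x) := by
  have h1 : V.valuation x < V.valuation x ^ d := by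
    calc V.valuation x = V.valuation x ^ 1 := (pow_one _).symm
      _ < V.valuation x ^ d := pow_lt_pow_right₀ hx (by omega)
  have h2 : V.valuation (∑ k : Fin d, F k.castSucc * x ^ (k : ℕ)) < V.valuation x ^ d := by
    refine Valuation.map_sum_lt _ (pow_pos (zero_lt_one.trans hx) _).ne' fun k _ => ?_
    rw [map_mul, map_pow]
    exact (mul_le_of_le_one_left' (hF _)).trans_lt (pow_lt_pow_right₀ hx k.2)
  have h3 : V.valuation (F (Fin.last d) * x ^ d) = V.valuation x ^ d := by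
    rw [map_mul, map_pow, hl, one_mul]
  unfold dyn
  rw [Fin.sum_univ_castSucc, map_div₀, hl, div_one]
  simp only [Fin.val_castSucc, Fin.val_last]
  rw [Valuation.map_add_eq_of_lt_right _ (by rw [h3]; exact h2), h3]
  exact h1

theorem not_prep (V : ValuationSubring ℂ) {d : ℕ} (hd : 2 ≤ d) (F : Fin (d + 1) → ℂ)
    (hF : ∀ k, V.valuation (F k) ≤ 1) (hl : V.valuation (F (Fin.last d)) = 1) (x : ℂ)
    (hx : 1 < V.valuation x) : ¬ Prep (dyn F) x := by
  rintro ⟨a, b, hab, h⟩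
  have h1 : ∀ n, 1 < V.valuation ((dyn F)^[n] x) := by
    intro n
    induction n with
    | zero => exact hx
    | succ n ih =>
      rw [Function.iterate_succ_apply']
      exact ih.trans (dyn_grow V hd F hF hl _ ih)
  have h2 : StrictMono fun n => V.valuation ((dyn F)^[n] x) := by
    refine strictMono_nat_of_lt_succ fun n => ?_
    simp only [Function.iterate_succ_apply']
    exact dyn_grow V hd F hF hl _ (h1 n)
  exact hab (h2.injective (congrArg V.valuation h))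

/-- The sum of the powers. -/
theorem geom_val (V : ValuationSubring ℂ) (D : ℕ) (s : ℂ) (hs : V.valuation s ≠ 1) :
    V.valuation (∑ a : Fin (D + 1), s ^ (a : ℕ)) = max 1 (V.valuation s) ^ D := by
  rcases lt_or_gt_of_ne hs with h | h
  · rw [max_eq_left h.le, one_pow, Fin.sum_univ_succ]
    simp only [Fin.val_zero, pow_zero, Fin.val_succ]
    rw [Valuation.map_add_eq_of_lt_left _ ?_, map_one]
    rw [map_one]
    refine Valuation.map_sum_lt _ one_ne_zero fun k _ => ?_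
    rw [map_pow]
    exact pow_lt_one₀ zero_le h (Nat.succ_ne_zero _)
  · rw [max_eq_right h.le, Fin.sum_univ_castSucc]
    simp only [Fin.val_castSucc, Fin.val_last]
    have h0 : (0 : V.ValueGroup) < V.valuation s ^ D := pow_pos (zero_lt_one.trans h) _
    rw [Valuation.map_add_eq_of_lt_right _ ?_, map_pow]
    rw [map_pow]
    refine Valuation.map_sum_lt _ h0.ne' fun k _ => ?_
    rw [map_pow]
    exact pow_lt_pow_right₀ h k.2

/-- The zeros of a polynomial with given slopes. -/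
theorem eq_val (V : ValuationSubring ℂ) {p : ℂ} (hp0 : p ≠ 0) (hvp : V.valuation p < 1) {n : ℕ}
    (D : Fin n → ℕ) {ω M : ℕ} (hM : ω * ∑ i, D i < M)
    (c : ((i : Fin n) → Fin (D i + 1)) → ℂ) (L : ℂ) (hL : V.valuation L = 1)
    (hc : ∀ f, V.valuation (c f - p ^ (ω * ∑ i, (f i : ℕ)) * L) ≤ V.valuation p ^ M)
    (z : Fin n → ℂ) (hz : ∑ f, c f * ∏ i, z i ^ (f i : ℕ) = 0) :
    ∃ i, V.valuation (p ^ ω * z i) = 1 := by
  classical
  by_contra hcon
  push Not at hcon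
  set v := V.valuation with hv
  have hvp0 : 0 < v p := zero_lt_iff.2 ((map_ne_zero _).2 hp0)
  set X := ∏ i, max 1 (v (p ^ ω * z i)) ^ D i with hX
  have hX1 : 0 < X := Finset.prod_pos fun i _ =>
    pow_pos (lt_of_lt_of_le zero_lt_one (le_max_left _ _)) _
  have hmain : v (∑ f : (i : Fin n) → Fin (D i + 1), p ^ (ω * ∑ i, (f i : ℕ)) * L *
      ∏ i, z i ^ (f i : ℕ)) = X := by
    have h1 : ∑ f : (i : Fin n) → Fin (D i + 1), p ^ (ω * ∑ i, (f i : ℕ)) * L *
        ∏ i, z i ^ (f i : ℕ) = L * ∏ i, ∑ a : Fin (D i + 1), (p ^ ω * z i) ^ (a : ℕ) := by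
      rw [Fintype.prod_sum, Finset.mul_sum]
      refine Finset.sum_congr rfl fun f _ => ?_
      simp only [mul_pow]
      rw [Finset.prod_mul_distrib]
      have h2 : ∏ i, (p ^ ω) ^ (f i : ℕ) = p ^ (ω * ∑ i, (f i : ℕ)) := by
        rw [Finset.prod_pow_eq_pow_sum, ← pow_mul]
      rw [h2]
      ring
    rw [h1, map_mul, hL, one_mul, map_prod]
    exact Finset.prod_congr rfl fun i _ => geom_val V (D i) _ (hcon i)
  have herr : v (∑ f : (i : Fin n) → Fin (D i + 1), (c f - p ^ (ω * ∑ i, (f i : ℕ)) * L) *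
      ∏ i, z i ^ (f i : ℕ)) < X := by
    refine Valuation.map_sum_lt _ hX1.ne' fun f _ => ?_
    rw [map_mul, map_prod]
    have h1 : v p ^ (ω * ∑ i, D i) * ∏ i, v (z i ^ (f i : ℕ)) ≤ X := by
      have h2 : v p ^ (ω * ∑ i, D i) = ∏ i, v p ^ (ω * D i) := by
        rw [Finset.mul_sum, Finset.prod_pow_eq_pow_sum]
      rw [h2, ← Finset.prod_mul_distrib]
      refine Finset.prod_le_prod' fun i _ => ?_
      have h3 : (f i : ℕ) ≤ D i := Nat.lt_succ_iff.1 (f i).2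
      calc v p ^ (ω * D i) * v (z i ^ (f i : ℕ))
          ≤ v p ^ (ω * (f i : ℕ)) * v (z i ^ (f i : ℕ)) :=
            mul_le_mul' (pow_le_pow_right_of_le_one' hvp.le (Nat.mul_le_mul_left _ h3)) le_rfl
        _ = v (p ^ ω * z i) ^ (f i : ℕ) := by
            rw [map_mul, map_pow, map_pow, mul_pow, ← pow_mul]
        _ ≤ max 1 (v (p ^ ω * z i)) ^ (f i : ℕ) := pow_le_pow_left₀ zero_le (le_max_right _ _) _
        _ ≤ max 1 (v (p ^ ω * z i)) ^ D i := pow_le_pow_right₀ (le_max_left _ _) h3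
    obtain ⟨t, ht⟩ : ∃ t, M = ω * ∑ i, D i + (t + 1) := ⟨M - ω * ∑ i, D i - 1, by omega⟩
    calc v (c f - p ^ (ω * ∑ i, (f i : ℕ)) * L) * ∏ i, v (z i ^ (f i : ℕ))
        ≤ v p ^ M * ∏ i, v (z i ^ (f i : ℕ)) := mul_le_mul' (hc f) le_rfl
      _ = v p ^ (t + 1) * (v p ^ (ω * ∑ i, D i) * ∏ i, v (z i ^ (f i : ℕ))) := by
          rw [ht, pow_add, mul_comm (v p ^ (ω * ∑ i, D i)), mul_assoc]
      _ ≤ v p ^ (t + 1) * X := mul_le_mul' le_rfl h1
      _ < 1 * X := mul_lt_mul_of_pos_right (pow_lt_one₀ zero_le hvp (Nat.succ_ne_zero _)) hX1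
      _ = X := one_mul _
  have h5 : ∑ f : (i : Fin n) → Fin (D i + 1), p ^ (ω * ∑ i, (f i : ℕ)) * L *
      ∏ i, z i ^ (f i : ℕ) = -∑ f : (i : Fin n) → Fin (D i + 1),
        (c f - p ^ (ω * ∑ i, (f i : ℕ)) * L) * ∏ i, z i ^ (f i : ℕ) := by
    simp only [sub_mul]
    rw [Finset.sum_sub_distrib, hz]
    ring
  rw [h5, Valuation.map_neg] at hmain
  exact absurd hmain herr.ne

variable {σ : Type} [Fintype σ] [DecidableEq σ]

/-- One point and one prime. -/
theorem critD {n r m : ℕ} (dg : Fin n → ℕ) (hdg : ∀ i, 2 ≤ dg i) (D : Fin r → Fin n → ℕ) {M : ℕ}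
    (hM : ∀ j : Fin r, ((j : ℕ) + 1) * ∑ i, D j i < M) {κ : Type} {τ : κ → ℂ} {p : ℕ} (hp : p.Prime)
    (Y : Set (σ → ℂ)) (s : Fin (m + 1) → σ → ℤ) (D₀ : ℕ) (hgood : RF.Good Y s D₀)
    (hpD : ¬ p ∣ D₀) (hpM : n + r + m < p) (e : Fin n → ℕ) (dd : Fin r → ℕ)
    (F : ∀ i, Fin (dg i + 1) → Sym σ (e i) → ℤ)
    (hF : ∀ i u, (p : ℤ) ∣ F i (Fin.last (dg i)) u - pw _ (vdm s (i : ℕ)) u)
    (C : ∀ j, ((i : Fin n) → Fin (D j i + 1)) → Sym σ (dd j) → ℤ)
    (hC : ∀ j f u, (p : ℤ) ^ M ∣ C j f u -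
      (p : ℤ) ^ (((j : ℕ) + 1) * ∑ i, (f i : ℕ)) * pw _ (vdm s (n + (j : ℕ))) u)
    (y : σ → ℂ) (hy : y ≠ 0) (hyY : y ∈ Y) (z : Fin n → ℂ)
    (hz : ∀ j, ∑ f : (i : Fin n) → Fin (D j i + 1), ev (C j f) y * ∏ i, z i ^ (f i : ℕ) = 0)
    (P : Finset (Fin n)) (hP0 : ∀ i ∈ P, ev (F i (Fin.last (dg i))) y ≠ 0)
    (hP : ∀ i ∈ P, Prep (dyn fun k => ev (F i k) y) (z i))
    (b0 : Fin (m + 1)) (hb0 : ∑ j, (vdm s (n + r + (b0 : ℕ)) j : ℂ) * y j ≠ 0)
    (S : Finset (Fin (m + 1))) (T : Finset (Fin n))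
    (hS : AlgebraicIndependent ℚ (Sum.elim (fun j : T => z j) (Sum.elim
      (fun b : S => (∑ j, (vdm s (n + r + (b0 : ℕ)) j : ℂ) * y j)⁻¹ *
        ∑ j, (vdm s (n + r + ((b : Fin (m + 1)) : ℕ)) j : ℂ) * y j) τ))) :
    S.card + T.card + P.card + r ≤ n + m := by
  classical
  have hp0 : (p : ℂ) ≠ 0 := by exact_mod_cast hp.ne_zero
  have hpQ : (p : ℚ) ≠ 0 := by exact_mod_cast hp.ne_zero
  obtain ⟨V, hVτ, hVT, hVS⟩ := exists_place _ _ τ hS hp
    (fun i : T => if (i : Fin n) ∈ P then (p : ℚ) ^ (r + 1) else 1) (fun _ => (p : ℚ)⁻¹)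
    (fun i => by
      split_ifs
      · exact pow_ne_zero _ hpQ
      · exact one_ne_zero) (fun _ => inv_ne_zero hpQ)
  set v := V.valuation with hv
  have hVp : (p : ℂ) ∈ V.nonunits := hVτ.hp
  have hvp : v (p : ℂ) < 1 := hVτ.lt
  have hvp0 : 0 < v (p : ℂ) := zero_lt_iff.2 ((map_ne_zero _).2 hp0)
  have hTn : ∀ i ∈ T, i ∉ P → v (z i) = 1 := by
    intro i hi hiP
    have h1 := hVT ⟨i, hi⟩
    simpa [hiP] using h1
  have hTP : ∀ i ∈ T, i ∈ P → v ((p : ℂ) ^ (r + 1) * z i) = 1 := by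
    intro i hi hiP
    have h1 := hVT ⟨i, hi⟩
    simpa [hiP] using h1
  obtain ⟨c, hc0, hcV, -, hbu⟩ := hgood p hp hpD V hVp y hy hyY
  have hle : ∀ b, v (∑ j, (vdm s b j : ℂ) * (c • y) j) ≤ 1 := fun b =>
    (ValuationSubring.valuation_le_one_iff V _).2
      (sum_mem fun j _ => mul_mem (intCast_mem V _) (hcV j))
  -- the forms of `S`
  have hS1 : ∀ b ∈ S, v (∑ j, (vdm s (n + r + (b : ℕ)) j : ℂ) * (c • y) j) < 1 := by
    intro b hbS
    have h1 := hVS ⟨b, hbS⟩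
    have h3 : v ((∑ j, (vdm s (n + r + (b0 : ℕ)) j : ℂ) * y j)⁻¹ *
        ∑ j, (vdm s (n + r + (b : ℕ)) j : ℂ) * y j) = v (p : ℂ) := by
      have h2 : v (((p : ℚ)⁻¹ : ℚ) : ℂ) = (v (p : ℂ))⁻¹ := by
        push_cast
        rw [map_inv₀]
      rw [map_mul, h2] at h1
      have h4 : v (p : ℂ) ≠ 0 := (map_ne_zero _).2 hp0
      rw [inv_mul_eq_one₀ h4] at h1
      exact h1.symm
    have h4 : (∑ j, (vdm s (n + r + (b : ℕ)) j : ℂ) * (c • y) j) =
        ((∑ j, (vdm s (n + r + (b0 : ℕ)) j : ℂ) * y j)⁻¹ *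
          ∑ j, (vdm s (n + r + (b : ℕ)) j : ℂ) * y j) *
        (∑ j, (vdm s (n + r + (b0 : ℕ)) j : ℂ) * (c • y) j) := by
      rw [lf_smul, lf_smul]
      field_simp
    rw [h4, map_mul, h3]
    exact (mul_le_of_le_one_right' (hle _)).trans_lt hvp
  let Jb : Finset (Fin r) := Finset.univ.filter fun j =>
    v (∑ i, (vdm s (n + (j : ℕ)) i : ℂ) * (c • y) i) ≠ 1
  let Ib : Finset (Fin n) := Finset.univ.filter fun j =>
    v (∑ i, (vdm s (j : ℕ) i : ℂ) * (c • y) i) ≠ 1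
  have hcard := nonunit_card (m := m) (M := n + r + m) (parR (nn := n)) parR_inj parR_le hp hpM V
    hVp s (c • y) hcV hbu ((Ib.disjSum Jb).disjSum S) (by
      rintro ((i | l) | b) hx'
      · rw [Finset.inl_mem_disjSum, Finset.inl_mem_disjSum] at hx'
        exact (Finset.mem_filter.1 hx').2
      · rw [Finset.inl_mem_disjSum, Finset.inr_mem_disjSum] at hx'
        exact (Finset.mem_filter.1 hx').2
      · rw [Finset.inr_mem_disjSum] at hx'
        exact (hS1 b hx').ne)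
  rw [Finset.card_disjSum, Finset.card_disjSum] at hcard
  have hcastp : v (((p : ℤ) : ℤ) : ℂ) = v (p : ℂ) := by
    push_cast
    rfl
  have hcastM : v (((p : ℤ) ^ M : ℤ) : ℂ) = v (p : ℂ) ^ M := by
    push_cast
    rw [map_pow]
  -- the hot coordinates of `P`
  have hhot : ∀ i ∈ P, 1 < v (z i) → i ∈ Ib := by
    intro i hi h1
    by_contra h2
    have h3 : v (∑ j, (vdm s (i : ℕ) j : ℂ) * (c • y) j) = 1 := by
      by_contra h
      exact h2 (Finset.mem_filter.2 ⟨Finset.mem_univ _, h⟩)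
    have h4 := ev_congr V hcV (p : ℤ) (c' := pw _ (vdm s (i : ℕ))) (hF i)
    rw [ev_pw, ← hv, hcastp] at h4
    have h5 : v (ev (F i (Fin.last (dg i))) (c • y)) = 1 := by
      have h6 : v ((∑ j, (vdm s (i : ℕ) j : ℂ) * (c • y) j) ^ e i) = 1 := by
        rw [map_pow, h3, one_pow]
      have h7 : ev (F i (Fin.last (dg i))) (c • y) = (ev (F i (Fin.last (dg i))) (c • y) -
          (∑ j, (vdm s (i : ℕ) j : ℂ) * (c • y) j) ^ e i) +
          (∑ j, (vdm s (i : ℕ) j : ℂ) * (c • y) j) ^ e i := by ring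
      rw [h7, Valuation.map_add_eq_of_lt_right v (by rw [h6]; exact h4.trans_lt hvp), h6]
    have h6 : (dyn fun k => ev (F i k) y) = dyn fun k => ev (F i k) (c • y) := by
      funext x
      unfold dyn
      have h7 : ∀ k, ev (F i k) (c • y) = c ^ e i * ev (F i k) y := fun k => ev_smul _ _ _
      simp only [h7, mul_assoc]
      rw [← Finset.mul_sum, mul_div_mul_left _ _ (pow_ne_zero _ hc0)]
    have h7 := hP i hi
    rw [h6] at h7
    exact not_prep V (hdg i) _ (fun k => (ValuationSubring.valuation_le_one_iff V _).2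
      (ev_mem V hcV _)) h5 _ h1 h7
  -- the equations
  have heq : ∀ j : Fin r, j ∉ Jb → ∃ i, v ((p : ℂ) ^ ((j : ℕ) + 1) * z i) = 1 := by
    intro j hj
    have h3 : v (∑ i, (vdm s (n + (j : ℕ)) i : ℂ) * (c • y) i) = 1 := by
      by_contra h
      exact hj (Finset.mem_filter.2 ⟨Finset.mem_univ _, h⟩)
    refine eq_val V hp0 hvp (D j) (hM j) (fun f => ev (C j f) (c • y))
      ((∑ i, (vdm s (n + (j : ℕ)) i : ℂ) * (c • y) i) ^ dd j) (by rw [map_pow, h3, one_pow])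
      (fun f => ?_) z ?_
    · have h4 := ev_congr V hcV ((p : ℤ) ^ M) (c' := fun u =>
        (p : ℤ) ^ (((j : ℕ) + 1) * ∑ i, (f i : ℕ)) * pw _ (vdm s (n + (j : ℕ))) u) (hC j f)
      rw [ev_zsmul, ev_pw, ← hv, hcastM] at h4
      push_cast at h4
      exact h4
    · have h7 : ∀ f, ev (C j f) (c • y) = c ^ dd j * ev (C j f) y := fun k => ev_smul _ _ _
      simp only [h7, mul_assoc]
      rw [← Finset.mul_sum, hz j, mul_zero]
  choose ix hix using heq
  -- the hot coordinates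
  have hval : ∀ {q : ℕ} {i : Fin n}, v ((p : ℂ) ^ q * z i) = 1 → v (z i) = (v (p : ℂ) ^ q)⁻¹ := by
    intro q i h
    rw [map_mul, map_pow] at h
    exact eq_inv_of_mul_eq_one_right h
  have hvinj : ∀ {q q' : ℕ}, (v (p : ℂ) ^ q)⁻¹ = (v (p : ℂ) ^ q')⁻¹ → q = q' := by
    intro q q' h
    have h1 := inv_injective h
    exact (pow_right_strictAnti₀ hvp0 hvp).injective h1
  have hval1 : ∀ {q : ℕ} {i : Fin n}, 0 < q → v ((p : ℂ) ^ q * z i) = 1 → 1 < v (z i) := by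
    intro q i hq h
    rw [hval h]
    exact (one_lt_inv₀ (pow_pos hvp0 _)).2 (pow_lt_one₀ zero_le hvp hq.ne')
  let H1 : Finset (Fin n) := (Jbᶜ).attach.image fun j => ix j.1 (Finset.mem_compl.1 j.2)
  have hH1 : H1.card = Jbᶜ.card := by
    rw [Finset.card_image_of_injective, Finset.card_attach]
    intro j j' h
    have h1 := hval (hix j.1 (Finset.mem_compl.1 j.2))
    have h2 := hval (hix j'.1 (Finset.mem_compl.1 j'.2))
    simp only at h
    rw [h, h2] at h1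
    have h3 := hvinj h1
    exact Subtype.ext (Fin.ext (by omega))
  have hmem1 : ∀ i ∈ H1, ∃ q, 0 < q ∧ q < r + 1 ∧ v ((p : ℂ) ^ q * z i) = 1 := by
    intro i hi
    obtain ⟨j, -, rfl⟩ := Finset.mem_image.1 hi
    exact ⟨(j.1 : ℕ) + 1, Nat.succ_pos _, Nat.succ_lt_succ j.1.2, hix _ _⟩
  have hdisT : ∀ i ∈ H1, i ∉ T := by
    intro i hi hiT
    obtain ⟨q, hq0, hq, h1⟩ := hmem1 i hi
    by_cases hiP : i ∈ P
    · have h2 := hval (hTP i hiT hiP)
      rw [hval h1] at h2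
      have := hvinj h2
      omega
    · have h2 := hTn i hiT hiP
      have h3 := hval1 hq0 h1
      rw [h2] at h3
      exact lt_irrefl _ h3
  have hIb1 : ∀ i ∈ H1, i ∈ P → i ∈ Ib := by
    intro i hi hiP
    obtain ⟨q, hq0, -, h1⟩ := hmem1 i hi
    exact hhot i hiP (hval1 hq0 h1)
  have hIb2 : ∀ i ∈ T, i ∈ P → i ∈ Ib := fun i hi hiP =>
    hhot i hiP (hval1 (Nat.succ_pos _) (hTP i hi hiP))
  have hJbc : Jbᶜ.card + Jb.card = r := by
    rw [Finset.card_compl, Fintype.card_fin]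
    have h1 := Finset.card_le_univ Jb
    rw [Fintype.card_fin] at h1
    omega
  -- count
  have h1 : H1.card ≤ (Ib \ (T ∩ P)).card + (Finset.univ \ (P ∪ T)).card := by
    refine (Finset.card_le_card fun i hi => ?_).trans (Finset.card_union_le _ _)
    rw [Finset.mem_union, Finset.mem_sdiff, Finset.mem_sdiff]
    by_cases hiP : i ∈ P
    · exact Or.inl ⟨hIb1 i hi hiP, fun h => hdisT i hi (Finset.mem_inter.1 h).1⟩
    · refine Or.inr ⟨Finset.mem_univ _, fun h => ?_⟩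
      rcases Finset.mem_union.1 h with h | h
      · exact hiP h
      · exact hdisT i hi h
  have hsub : T ∩ P ⊆ Ib := fun i hi =>
    hIb2 i (Finset.mem_inter.1 hi).1 (Finset.mem_inter.1 hi).2
  have h2 := Finset.card_le_card hsub
  rw [Finset.card_sdiff_of_subset hsub, Finset.card_sdiff_of_subset (Finset.subset_univ _),
    Finset.card_univ, Fintype.card_fin] at h1
  have h3 := Finset.card_union_add_card_inter P T
  rw [Finset.inter_comm] at h3
  have h4 := Finset.card_le_univ (P ∪ T)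
  rw [Fintype.card_fin] at h4
  omega

end Pool.Agent.TH971.SR
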