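import Pool.Agent.TH971.SR.R7
import Pool.Agent.TH971.SP.A4

/-!
Pink's conjecture for random subvarieties of powers of elliptic schemes: the residue class.
-/

set_option autoImplicit false

open MvPolynomial

namespace Pool.Agent.TH971.SR

open Pool.Agent.W282.ZP Pool.Agent.W466.EP Pool.Agent.W466.ZP Pool.Agent.W282.RW
  Pool.Agent.TH971.RF Pool.Agent.TH971.SP

/-- The index set of the coefficients. -/
abbrev IdxR {n : ℕ} {q : Fin n → ℕ} {k : ℕ} (N r : ℕ) (ew : Fin n → ℕ) (D : Ix q k → ℕ)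
    (dd : Fin r → ℕ) : Type :=
  Σ x : Fin r × Fin 2 × ((i : Ix q k) → Fin (D i + 1)), Sym (Fin (N + 1)) (dg ew D (dd x.1) x.2.2)

/-- The coefficient forms. -/
def cf {n : ℕ} {q : Fin n → ℕ} {k : ℕ} {N r : ℕ} {ew : Fin n → ℕ} {D : Ix q k → ℕ}
    {dd : Fin r → ℕ} (C : IdxR N r ew D dd → ℤ)
    (x : Fin r × Fin 2 × ((i : Ix q k) → Fin (D i + 1))) :
    Sym (Fin (N + 1)) (dg ew D (dd x.1) x.2.2) → ℤ := fun u => C ⟨x, u⟩

theorem exists_classR {n : ℕ} {q : Fin n → ℕ} {k r m d N : ℕ} (ew : Fin n → ℕ) (D : Ix q k → ℕ)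
    (hD0 : ∀ i, 0 < D i) (hDq : ∀ j, q j.1 ≤ D (Sum.inl j)) (dd : Fin r → ℕ)
    (I : Ideal (MvPolynomial (Fin r) ℂ)) [I.IsPrime]
    (hd : Algebra.trdeg ℂ (MvPolynomial (Fin r) ℂ ⧸ I) = d)
    {κ : Type} (G : κ → MvPolynomial (Fin (N + 1)) ℂ) (hhom : ∀ k, ∃ e, (G k).IsHomogeneous e)
    (halg : ∀ k s, IsAlgebraic ℚ ((G k).coeff s))
    (hdim1 : ∃ t : Fin (m + 1) → Fin (N + 1) → ℂ, ∀ y : Fin (N + 1) → ℂ,
      (∀ k, eval y (G k) = 0) → (∀ b, ∑ j, t b j * y j = 0) → y = 0)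
    (a b : Fin n → MvPolynomial (Fin (N + 1)) ℂ) (ha : ∀ i, (a i).IsHomogeneous (4 * ew i))
    (hb : ∀ i, (b i).IsHomogeneous (6 * ew i))
    (Q₀ : ℕ) (hQ₀ : 0 < Q₀) (C₀ : IdxR N r ew D dd → ℤ) :
    ∃ (K : IntermediateField ℚ ℂ) (Q : ℕ) (Gt : IdxR N r ew D dd → ℤ), Countable K ∧ 0 < Q ∧
      ∀ C : IdxR N r ew D dd → ℤ, (∀ i, (Q : ℤ) ∣ C i - Gt i) →
        (∀ i, (Q₀ : ℤ) ∣ C i - C₀ i) ∧
        ∀ (y : Fin (N + 1) → ℂ) (j0 : Fin (N + 1)), y j0 = 1 → (∀ k, eval y (G k) = 0) →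
        ∀ (P : ∀ i, Fin (q i) → (crv (eval y (a i)) (eval y (b i))).Point) (u : Fin k → ℂ),
          (∀ f ∈ I, homV (fun j => mevC (fun e' => ev (cf C (j, 0, e')) y) (hco P u))
            (fun j => mevC (fun e' => ev (cf C (j, 1, e')) y) (hco P u)) f = 0) →
          ∀ (E : ∀ i, EndRing (eval y (a i)) (eval y (b i)))
            (Λ : ∀ i, Submodule (E i).O (Fin (q i) → (E i).O)),
          (∀ i, ∀ a ∈ Λ i, ∃ t : ℕ, 0 < t ∧ t • ∑ l, (E i).act (a l) (P i l) = 0) →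
          ∀ M₂ : Submodule ℤ (Fin k → ℤ), (∀ a ∈ M₂, ∃ t : ℕ, 0 < t ∧ (∏ w, u w ^ a w) ^ t = 1) →
          ∀ (T1 : Finset (Fin (N + 1))) (T2 : Finset (Ix q k)),
            AlgebraicIndependent K (Sum.elim (fun j : T1 => y j) (fun j : T2 => SP.co P u j)) →
            T1.card + T2.card + ∑ i, Module.finrank (E i).O (Λ i) + Module.finrank ℤ M₂ + r ≤
              Fintype.card (Ix q k) + d + m := by
  classical
  obtain ⟨f, α, β, -, hcor⟩ := exists_corners' I hd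
  obtain ⟨tt, htt⟩ := hdim1
  obtain ⟨s, hs⟩ := int_forms G hhom tt htt
  obtain ⟨D₁, hD₁, hgood⟩ := good_prime G halg hhom s hs
  let Y : Set (Fin (N + 1) → ℂ) := {y | ∀ k, eval y (G k) = 0}
  have hgood' : RF.Good Y s D₁ := hgood
  let cs : Finset ℂ := (Finset.univ.biUnion fun J : Finset (Fin r) =>
      (f J).support.image (f J).coeff) ∪
    (Finset.univ.image fun J : Finset (Fin r) => eval (fun j : J => ((α j : ℤ) : ℂ)) (f J)) ∪
    ((Finset.univ.biUnion fun i => (a i).support.image (a i).coeff) ∪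
      (Finset.univ.biUnion fun i => (b i).support.image (b i).coeff))
  obtain ⟨t, htau, halgt⟩ := exists_tau cs
  set τ : t → ℂ := ((↑) : t → ℂ) with hτ
  obtain ⟨D₀, hD₀, hunit⟩ := const_unit (τ := τ) cs halgt
  obtain ⟨e, he1, he2⟩ := choose_e (fun j => D (Sum.inl j)) hDq
  obtain ⟨p, O, hpinj, hpp⟩ := exists_primes ∅ (max (max D₀ D₁) (max Q₀ (0 + r + m)))
  let Kx : ℕ → ℕ := fun t => ∑ j : Fin r, ((∑ i, ExR D e t j i) + 1)
  have hKx : ∀ (t : ℕ) (j : Fin r), ∑ i, ExR D e t j i + 1 ≤ Kx t := fun t j =>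
    Finset.single_le_sum (f := fun j : Fin r => (∑ i, ExR D e t j i) + 1)
      (fun _ _ => Nat.zero_le _) (Finset.mem_univ j)
  let MM : ℕ := (k - 1) * (2 ^ k * (r + 1) ^ k) + 1
  obtain ⟨Q, Gt, hQ, hclass⟩ := exists_residue_class'
    (κ := IdxR N r ew D dd) (M := MM)
    (fun m => p m)
    (fun m => (hpp m).1) (fun m m' h => Fin.ext (hpinj h))
    (fun m' _ => Kx ((m' : ℕ) + 1))
    (fun m' x => if x.1.2.1 = 0
      then α x.1.1 * pcZ (p m') (ExR D e ((m' : ℕ) + 1) x.1.1) x.1.2.2 *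
        pw _ (vdm s (0 + (x.1.1 : ℕ))) x.2
      else pcZ (p m') (ExR D e ((m' : ℕ) + 1) x.1.1) x.1.2.2 *
        pw _ (vdm s (0 + (x.1.1 : ℕ))) x.2) Q₀ hQ₀
    (fun m => ((le_max_left _ _).trans (le_max_right _ _)).trans_lt (hpp m).2.1) C₀
  have hpD0 : ∀ m, ¬ p m ∣ D₀ := fun m h =>
    absurd (Nat.le_of_dvd hD₀ h) (not_le.2 (((le_max_left _ _).trans (le_max_left _ _)).trans_lt
      (hpp m).2.1))
  have hpD1 : ∀ m, ¬ p m ∣ D₁ := fun m h =>
    absurd (Nat.le_of_dvd hD₁ h) (not_le.2 (((le_max_right _ _).trans (le_max_left _ _)).trans_lt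
      (hpp m).2.1))
  have hpM : ∀ m', 0 + r + m < p m' := fun m' =>
    ((le_max_right _ _).trans (le_max_right _ _)).trans_lt (hpp m').2.1
  -- the properties of the constants
  have hA : ∀ m, ∀ V : ValuationSubring ℂ, SP.Good τ (p m) V → ∀ a ∈ cs, V.valuation a ≤ 1 := by
    intro m V hV a ha
    by_cases h0 : a = 0
    · rw [h0, map_zero]
      exact zero_le_one
    · exact (hunit (p m) (hpD0 m) V hV a ha h0).le
  have has : ∀ i l, (a i).coeff l ≠ 0 → (a i).coeff l ∈ cs := fun i l h0 =>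
    Finset.mem_union_right _ (Finset.mem_union_left _ (Finset.mem_biUnion.2
      ⟨i, Finset.mem_univ _, Finset.mem_image_of_mem _ (MvPolynomial.mem_support_iff.2 h0)⟩))
  have hbs : ∀ i l, (b i).coeff l ≠ 0 → (b i).coeff l ∈ cs := fun i l h0 =>
    Finset.mem_union_right _ (Finset.mem_union_right _ (Finset.mem_biUnion.2
      ⟨i, Finset.mem_univ _, Finset.mem_image_of_mem _ (MvPolynomial.mem_support_iff.2 h0)⟩))
  have hfs : ∀ (J : Finset (Fin r)) l, (f J).coeff l ≠ 0 → (f J).coeff l ∈ cs := fun J l h0 =>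
    Finset.mem_union_left _ (Finset.mem_union_left _
      (Finset.mem_biUnion.2 ⟨J, Finset.mem_univ _, Finset.mem_image_of_mem _
        (MvPolynomial.mem_support_iff.2 h0)⟩))
  have hcs : ∀ J : Finset (Fin r), eval (fun j : J => ((α j : ℤ) : ℂ)) (f J) ∈ cs := fun J =>
    Finset.mem_union_left _ (Finset.mem_union_right _ (Finset.mem_image_of_mem
      (fun J : Finset (Fin r) => eval (fun j : J => ((α j : ℤ) : ℂ)) (f J)) (Finset.mem_univ J)))
  refine ⟨IntermediateField.adjoin ℚ (Set.range τ), Q, Gt, countable_adjoin t, hQ,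
    fun C hC => ?_⟩
  obtain ⟨hc0, hcm⟩ := hclass C hC
  have hCR : ∀ m' : Fin MM, CongR ew D e ((m' : ℕ) + 1) (Kx ((m' : ℕ) + 1)) (p m') α dd
      (fun j => vdm s (0 + (j : ℕ))) (cf C) := by
    intro m' j e'
    refine ⟨fun u => ?_, fun u => ?_⟩
    · have h1 := hcm m' ⟨(j, 0, e'), u⟩
      simpa [cf] using h1
    · have h1 := hcm m' ⟨(j, 1, e'), u⟩
      simpa [cf] using h1
  refine ⟨hc0, ?_⟩
  intro y j0 hj0 hyG P u hz E Λ hΛ M₂ hM₂ T1 T2 hT
  by_contra hcon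
  push Not at hcon
  have hy : y ≠ 0 := by
    intro h0
    rw [h0] at hj0
    exact zero_ne_one hj0
  have hYs : ∀ (c : ℂ) (y : Fin (N + 1) → ℂ), y ∈ Y → c • y ∈ Y := by
    intro c y hy k
    obtain ⟨w, hw⟩ := hhom k
    rw [Pool.Agent.W466.ZC.eval_smul hw, hy k, mul_zero]
  obtain ⟨b0, hb0, S, T, hcard, hind, hyalg⟩ := exch_point htau hD₁ hgood' hYs (0 + r) hy hyG hj0
    (fun j => SP.co P u j) T1 T2 hT
  refine pigeon M₂ (r := r) fun m' => ?_
  refine critR ew D hD0 e he1 he2 (Nat.succ_pos _) (hpp m').1 f α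
    (fun V hV J hJ l => by
      by_cases h0 : (f J).coeff l = 0
      · rw [h0, map_zero]
        exact zero_le_one
      · exact hA m' V hV _ (hfs J l h0))
    (fun V hV J hJ => hunit (p m') (hpD0 m') V hV _ (hcs J) (by
      have h1 := (hcor J hJ).2 (fun _ => true)
      simpa using h1))
    Y s D₁ hgood' (hpD1 m') (hpM m') dd (cf C) (Kx ((m' : ℕ) + 1)) (hKx _) (hCR m') y hy hyG
    (fun i => eval y (a i)) (fun i => eval y (b i)) ?_ P u (fun J hJ => hz _ (hcor J hJ).1) E Λ hΛ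
    M₂ hM₂ b0 hb0 S T hind hyalg ∅ (fun _ _ _ _ _ i hi => absurd hi (Finset.notMem_empty i)) (by
      rw [Finset.card_empty]
      omega)
  intro V hV c hc hcV i
  have hform : ∀ {g : MvPolynomial (Fin (N + 1)) ℂ}, (∀ l, V.valuation (g.coeff l) ≤ 1) →
      V.valuation (eval (c • y) g) ≤ 1 := by
    intro g hg
    refine (ValuationSubring.valuation_le_one_iff V _).2 ?_
    rw [eval_eq]
    exact sum_mem fun l _ => mul_mem ((ValuationSubring.valuation_le_one_iff V _).1 (hg l))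
      (prod_mem fun j _ => pow_mem (hcV j) _)
  constructor
  · have h1 : (c ^ ew i) ^ 4 * eval y (a i) = eval (c • y) (a i) := by
      rw [Pool.Agent.W466.ZC.eval_smul (ha i), ← pow_mul]
      congr 2
      ring
    rw [h1]
    refine hform fun l => ?_
    by_cases h0 : (a i).coeff l = 0
    · rw [h0, map_zero]
      exact zero_le_one
    · exact hA m' V hV _ (has i l h0)
  · have h1 : (c ^ ew i) ^ 6 * eval y (b i) = eval (c • y) (b i) := by
      rw [Pool.Agent.W466.ZC.eval_smul (hb i), ← pow_mul]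
      congr 2
      ring
    rw [h1]
    refine hform fun l => ?_
    by_cases h0 : (b i).coeff l = 0
    · rw [h0, map_zero]
      exact zero_le_one
    · exact hA m' V hV _ (hbs i l h0)

end Pool.Agent.TH971.SR
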