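import Pool.Agent.TH971.SR.D1
import Pool.Agent.TH971.SR.R8

/-!
Preperiodic points of random families of polynomials: the residue class.
-/

set_option autoImplicit false

open MvPolynomial

namespace Pool.Agent.TH971.SR

open Pool.Agent.W282.ZP Pool.Agent.W466.EP Pool.Agent.W466.ZP Pool.Agent.W282.RW
  Pool.Agent.TH971.RF Pool.Agent.TH971.SP

/-- The index set of the coefficients. -/
abbrev IdxD {n r : ℕ} (N : ℕ) (dg e : Fin n → ℕ) (D : Fin r → Fin n → ℕ) (dd : Fin r → ℕ) : Type :=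
  (Σ x : (Σ i : Fin n, Fin (dg i + 1)), Sym (Fin (N + 1)) (e x.1)) ⊕
    (Σ x : (Σ j : Fin r, (i : Fin n) → Fin (D j i + 1)), Sym (Fin (N + 1)) (dd x.1))

theorem exists_classD {n r m N : ℕ} (dg : Fin n → ℕ) (hdg : ∀ i, 2 ≤ dg i) (e : Fin n → ℕ)
    (D : Fin r → Fin n → ℕ) (dd : Fin r → ℕ)
    {κ : Type} (G : κ → MvPolynomial (Fin (N + 1)) ℂ) (hhom : ∀ k, ∃ e, (G k).IsHomogeneous e)
    (halg : ∀ k s, IsAlgebraic ℚ ((G k).coeff s))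
    (hdim1 : ∃ t : Fin (m + 1) → Fin (N + 1) → ℂ, ∀ y : Fin (N + 1) → ℂ,
      (∀ k, eval y (G k) = 0) → (∀ b, ∑ j, t b j * y j = 0) → y = 0)
    (Q₀ : ℕ) (hQ₀ : 0 < Q₀) (C₀ : IdxD N dg e D dd → ℤ) :
    ∃ (K : IntermediateField ℚ ℂ) (Q : ℕ) (Gt : IdxD N dg e D dd → ℤ), Countable K ∧ 0 < Q ∧
      ∀ C : IdxD N dg e D dd → ℤ, (∀ i, (Q : ℤ) ∣ C i - Gt i) →
        (∀ i, (Q₀ : ℤ) ∣ C i - C₀ i) ∧
        ∀ (y : Fin (N + 1) → ℂ) (j0 : Fin (N + 1)), y j0 = 1 → (∀ k, eval y (G k) = 0) →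
        ∀ z : Fin n → ℂ,
          (∀ j, ∑ f : (i : Fin n) → Fin (D j i + 1),
            ev (fun u => C (Sum.inr ⟨⟨j, f⟩, u⟩)) y * ∏ i, z i ^ (f i : ℕ) = 0) →
          ∀ P : Finset (Fin n),
          (∀ i ∈ P, ev (fun u => C (Sum.inl ⟨⟨i, Fin.last (dg i)⟩, u⟩)) y ≠ 0) →
          (∀ i ∈ P, Prep (dyn fun k => ev (fun u => C (Sum.inl ⟨⟨i, k⟩, u⟩)) y) (z i)) →
          ∀ (T1 : Finset (Fin (N + 1))) (T2 : Finset (Fin n)),
            AlgebraicIndependent K (Sum.elim (fun j : T1 => y j) (fun j : T2 => z j)) →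
            T1.card + T2.card + P.card + r ≤ n + m := by
  classical
  obtain ⟨tt, htt⟩ := hdim1
  obtain ⟨s, hs⟩ := int_forms G hhom tt htt
  obtain ⟨D₁, hD₁, hgood⟩ := good_prime G halg hhom s hs
  let Y : Set (Fin (N + 1) → ℂ) := {y | ∀ k, eval y (G k) = 0}
  have hgood' : RF.Good Y s D₁ := hgood
  obtain ⟨t, htau, halgt⟩ := exists_tau (∅ : Finset ℂ)
  set τ : t → ℂ := ((↑) : t → ℂ) with hτ
  obtain ⟨p, O, hpinj, hpp⟩ := exists_primes ∅ (max D₁ (max Q₀ (n + r + m)))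
  let M : ℕ := ∑ j : Fin r, ((j : ℕ) + 1) * ∑ i, D j i + 1
  have hM : ∀ j : Fin r, ((j : ℕ) + 1) * ∑ i, D j i < M := fun j =>
    Nat.lt_succ_of_le (Finset.single_le_sum (f := fun j : Fin r => ((j : ℕ) + 1) * ∑ i, D j i)
      (fun _ _ => Nat.zero_le _) (Finset.mem_univ j))
  obtain ⟨Q, Gt, hQ, hclass⟩ := exists_residue_class'
    (κ := IdxD N dg e D dd) (M := 1)
    (fun m => p m)
    (fun m => (hpp m).1) (fun m m' h => Fin.ext (hpinj h))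
    (fun _ _ => M)
    (fun m' x => match x with
      | Sum.inl z => pw _ (vdm s (z.1.1 : ℕ)) z.2
      | Sum.inr z => (p m' : ℤ) ^ (((z.1.1 : ℕ) + 1) * ∑ i, (z.1.2 i : ℕ)) *
          pw _ (vdm s (n + (z.1.1 : ℕ))) z.2) Q₀ hQ₀
    (fun m => ((le_max_left _ _).trans (le_max_right _ _)).trans_lt (hpp m).2.1) C₀
  have hpD1 : ∀ m, ¬ p m ∣ D₁ := fun m h =>
    absurd (Nat.le_of_dvd hD₁ h) (not_le.2 ((le_max_left _ _).trans_lt (hpp m).2.1))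
  have hpM : ∀ m', n + r + m < p m' := fun m' =>
    ((le_max_right _ _).trans (le_max_right _ _)).trans_lt (hpp m').2.1
  refine ⟨IntermediateField.adjoin ℚ (Set.range τ), Q, Gt, countable_adjoin t, hQ,
    fun C hC => ?_⟩
  obtain ⟨hc0, hcm⟩ := hclass C hC
  refine ⟨hc0, ?_⟩
  intro y j0 hj0 hyG z hz P hP0 hP T1 T2 hT
  have hy : y ≠ 0 := by
    intro h0
    rw [h0] at hj0
    exact zero_ne_one hj0
  have hYs : ∀ (c : ℂ) (y : Fin (N + 1) → ℂ), y ∈ Y → c • y ∈ Y := by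
    intro c y hy k
    obtain ⟨w, hw⟩ := hhom k
    rw [Pool.Agent.W466.ZC.eval_smul hw, hy k, mul_zero]
  obtain ⟨b0, hb0, S, T, hcard, hind, -⟩ := exch_point htau hD₁ hgood' hYs (n + r) hy hyG hj0
    z T1 T2 hT
  have hmain := critD (M := M) dg hdg D hM (hpp (0 : Fin 1)).1 Y s D₁ hgood' (hpD1 _) (hpM _) e dd
    (fun i k u => C (Sum.inl ⟨⟨i, k⟩, u⟩))
    (fun i u => (dvd_pow_self _ (Nat.succ_ne_zero _)).trans
      (hcm (0 : Fin 1) (Sum.inl ⟨⟨i, Fin.last (dg i)⟩, u⟩)))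
    (fun j f u => C (Sum.inr ⟨⟨j, f⟩, u⟩))
    (fun j f u => hcm (0 : Fin 1) (Sum.inr ⟨⟨j, f⟩, u⟩))
    y hy hyG z hz P hP0 hP b0 hb0 S T hind
  omega

end Pool.Agent.TH971.SR
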