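import Pool.Agent.TH971.SR.L1
import Pool.Agent.TH971.SR.P2

/-!
Zilber-Pink for random correspondences between a base and modular curves of any level: one point and
one prime.
-/

set_option autoImplicit false

open MvPolynomial

namespace Pool.Agent.TH971.SR

open Pool.Agent.W282.ZP Pool.Agent.W466.EP Pool.Agent.W466.ZP Pool.Agent.W282.RW
  Pool.Agent.TH971.RF Pool.Agent.TH971.SP

/-- At most `d` of the forms are units. -/
theorem card_base {r d : ℕ} (V : ValuationSubring ℂ) {p : ℕ} (hp : p.Prime)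
    (hp1 : V.valuation (p : ℂ) < 1) (hpr : r < p)
    (f : ∀ J : Finset (Fin r), MvPolynomial J ℂ) (α : Fin r → ℤ)
    (hf : ∀ J : Finset (Fin r), J.card = d + 1 → ∀ l, V.valuation ((f J).coeff l) ≤ 1)
    (hcor : ∀ J : Finset (Fin r), J.card = d + 1 → V.valuation
      (eval (fun j : J => ((α j : ℤ) : ℂ)) (f J)) = 1)
    (cN cM : Fin r → ℂ) (Jg : Finset (Fin r))
    (μ : Fin r → ℂ) (hμ : ∀ j ∈ Jg, V.valuation (μ j) = 1)
    (hN : ∀ j ∈ Jg, V.valuation (cN j - (α j : ℂ) * μ j) ≤ V.valuation (p : ℂ))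
    (hM : ∀ j ∈ Jg, V.valuation (cM j - μ j) ≤ V.valuation (p : ℂ))
    (hz : ∀ J : Finset (Fin r), J.card = d + 1 →
      homV cN cM (rename (Subtype.val : J → Fin r) (f J)) = 0) :
    Jg.card ≤ d := by
  classical
  let D : Fin 0 → ℕ := fun i => i.elim0
  let lam : Fin 0 → Option (Fin 0) := fun i => i.elim0
  have h1 : ∀ (c : ℤ) (e : Expo D), lcoef D lam c e = 1 := by
    intro c e
    have h2 : ∀ S : Finset (Fin 0), lexpo D lam S = e := fun S => funext fun i => i.elim0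
    rw [lcoef, Finset.sum_eq_single (∅ : Finset (Fin 0))]
    · rw [if_pos (h2 _), Finset.card_empty, pow_zero]
    · intro b _ hb
      exact absurd (Finset.eq_empty_of_isEmpty b) hb
    · intro h
      exact absurd (Finset.mem_univ _) h
  have h2 : ∀ a : ℂ, mevX (D := D) (fun _ => a) (fun i : Fin 0 => i.elim0) = a := by
    intro a
    simp [mevX]
  have h3 := card_lab (n := 0) (k := 0) (D := D) V hp hp1 hpr lam f α hf hcor
    (fun j _ => cN j) (fun j _ => cM j) Jg μ hμ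
    (fun j hj e => by
      rw [h1, Int.cast_one, mul_one]
      exact hN j hj)
    (fun j hj e => by
      rw [h1, Int.cast_one, mul_one]
      exact hM j hj)
    (fun i => i.elim0) (fun i => i.elim0) (fun i => i.elim0)
    (fun J hJ => by
      simp only [h2]
      exact hz J hJ)
  simpa using h3

variable {σ : Type} [Fintype σ] [DecidableEq σ]

theorem ev_add {k : ℕ} (F G : Sym σ k → ℤ) (y : σ → ℂ) :
    ev (fun u => F u + G u) y = ev F y + ev G y := by
  rw [ev, ev, ev, ← Finset.sum_add_distrib]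
  refine Finset.sum_congr rfl fun u _ => ?_
  push_cast
  ring

/-- One point and one prime. -/
theorem critL {n r m d kk E M : ℕ} (D : Fin n → ℕ) {κ : Type} {τ : κ → ℂ}
    {p : ℕ} (hp : p.Prime)
    (f : ∀ J : Finset (Fin r), MvPolynomial J ℂ) (α : Fin r → ℤ)
    (hf : ∀ V : ValuationSubring ℂ, SP.Good τ p V → ∀ J : Finset (Fin r), J.card = d + 1 →
      ∀ l, V.valuation ((f J).coeff l) ≤ 1)
    (hcor : ∀ V : ValuationSubring ℂ, SP.Good τ p V → ∀ J : Finset (Fin r), J.card = d + 1 →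
      V.valuation (eval (fun j : J => ((α j : ℤ) : ℂ)) (f J)) = 1)
    (Y : Set (σ → ℂ)) (s : Fin (m + 1) → σ → ℤ) (D₀ : ℕ) (hgood : RF.Good Y s D₀)
    (hpD : ¬ p ∣ D₀) (hpM : n + r + m < p) (dd : Fin r → ℕ) (e : Fin n → ℕ) (he : ∀ i, 0 < e i)
    (heE : ∀ i, e i ≤ E) (hM : (E + 1) ^ (n + 1) ≤ M) (lam : Fin n → Option (Fin kk))
    (C : ∀ x : Fin r × Fin 2, Sym σ (dd x.1) → ℤ)
    (hC0 : ∀ j u, (p : ℤ) ∣ C (j, 0) u - α j * pw _ (vdm s (n + (j : ℕ))) u)
    (hC1 : ∀ j u, (p : ℤ) ∣ C (j, 1) u - pw _ (vdm s (n + (j : ℕ))) u)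
    (P : ∀ i, Fin (D i + 1) → Sym σ (e i) → ℤ)
    (b : (i : Fin n) → Fin (D i + 1) → ℤ)
    (hPn : ∀ i, NonRoot lam i → ∀ a u, (p : ℤ) ^ M ∣ P i a u -
      ((if a = 0 then pw _ (vdm s (i : ℕ)) u else 0) +
        b i a * (p * pw _ (vdm s (nxt lam i : ℕ)) u)))
    (hPr : ∀ i, ¬ NonRoot lam i → ∀ a u, (p : ℤ) ^ M ∣ P i a u -
      b i a * pw _ (vdm s (nxt lam i : ℕ)) u)
    (y : σ → ℂ) (hy : y ≠ 0) (hyY : y ∈ Y) (x : Fin n → ℂ)
    (hz : ∀ J : Finset (Fin r), J.card = d + 1 →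
      homV (fun j => ev (C (j, 0)) y) (fun j => ev (C (j, 1)) y)
        (rename (Subtype.val : J → Fin r) (f J)) = 0)
    (b0 : Fin (m + 1)) (hb0 : ∑ j, (vdm s (n + r + (b0 : ℕ)) j : ℂ) * y j ≠ 0)
    (S : Finset (Fin (m + 1))) (T : Finset (Fin n))
    (hS : AlgebraicIndependent ℚ (Sum.elim (fun j : T => x j) (Sum.elim
      (fun b : S => (∑ j, (vdm s (n + r + (b0 : ℕ)) j : ℂ) * y j)⁻¹ *
        ∑ j, (vdm s (n + r + ((b : Fin (m + 1)) : ℕ)) j : ℂ) * y j) τ)))
    (g : (i : Fin n) → Fin (D i + 1) → ℂ) (hg0 : ∀ i, g i 0 = 1)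
    (hxi : ∀ V : ValuationSubring ℂ, SP.Good τ p V → ∀ i, x i ∈ V → ∀ a,
      V.valuation (g i a) ≤ 1)
    (hxn : ∀ V : ValuationSubring ℂ, SP.Good τ p V → ∀ i, x i ∉ V → ∀ a,
      V.valuation (g i a) ≤ V.valuation (∑ a, (b i a : ℂ) * g i a))
    (hlam : ∀ V : ValuationSubring ℂ, SP.Good τ p V → (∀ i : T, x i ∈ V) →
      (∀ i, lam i = none → x i ∈ V) ∧
      (∀ i i', lam i ≠ none → lam i' = lam i → x i ∈ V → x i' ∈ V))
    (hzP : ∀ i, ∑ a, ev (P i a) y * g i a = 0) :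
    S.card + n + r ≤ kk + d + m := by
  classical
  have hp0 : (p : ℂ) ≠ 0 := by exact_mod_cast hp.ne_zero
  obtain ⟨V, hVτ, hVT, hVS⟩ := exists_place _ _ τ hS hp (fun _ => 1) (fun _ => (p : ℚ)⁻¹)
    (fun _ => one_ne_zero) (fun _ => inv_ne_zero (by exact_mod_cast hp.ne_zero))
  set v := V.valuation with hv
  have hVp : (p : ℂ) ∈ V.nonunits := hVτ.hp
  have hvp : v (p : ℂ) < 1 := hVτ.lt
  have hTV : ∀ i : T, x i ∈ V := by
    intro i
    have h1 := hVT i
    rw [Rat.cast_one, one_mul] at h1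
    exact (ValuationSubring.valuation_le_one_iff V _).1 h1.le
  obtain ⟨hl1, hl2⟩ := hlam V hVτ hTV
  obtain ⟨c, hc0, hcV, -, hbu⟩ := hgood p hp hpD V hVp y hy hyY
  have hle : ∀ b, v (∑ j, (vdm s b j : ℂ) * (c • y) j) ≤ 1 := fun b =>
    (ValuationSubring.valuation_le_one_iff V _).2
      (sum_mem fun j _ => mul_mem (intCast_mem V _) (hcV j))
  -- the forms of `S`
  have hS1 : ∀ b ∈ S, v (∑ j, (vdm s (n + r + (b : ℕ)) j : ℂ) * (c • y) j) < 1 := by
    intro b hbS
    have h1 := hVS ⟨b, hbS⟩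
    have h3 : v ((∑ j, (vdm s (n + r + (b0 : ℕ)) j : ℂ) * y j)⁻¹ *
        ∑ j, (vdm s (n + r + (b : ℕ)) j : ℂ) * y j) = v (p : ℂ) := by
      have h2 : v (((p : ℚ)⁻¹ : ℚ) : ℂ) = (v (p : ℂ))⁻¹ := by
        push_cast
        rw [map_inv₀]
      rw [map_mul, h2] at h1
      have h4 : v (p : ℂ) ≠ 0 := (map_ne_zero _).2 hp0
      rw [inv_mul_eq_one₀ h4] at h1
      exact h1.symm
    have h4 : (∑ j, (vdm s (n + r + (b : ℕ)) j : ℂ) * (c • y) j) =
        ((∑ j, (vdm s (n + r + (b0 : ℕ)) j : ℂ) * y j)⁻¹ *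
          ∑ j, (vdm s (n + r + (b : ℕ)) j : ℂ) * y j) *
        (∑ j, (vdm s (n + r + (b0 : ℕ)) j : ℂ) * (c • y) j) := by
      rw [lf_smul, lf_smul]
      field_simp
    rw [h4, map_mul, h3]
    exact (mul_le_of_le_one_right' (hle _)).trans_lt hvp
  let Jb : Finset (Fin r) := Finset.univ.filter fun j =>
    v (∑ i, (vdm s (n + (j : ℕ)) i : ℂ) * (c • y) i) ≠ 1
  let Ib : Finset (Fin n) := Finset.univ.filter fun j =>
    v (∑ i, (vdm s (j : ℕ) i : ℂ) * (c • y) i) ≠ 1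
  have hcard := nonunit_card (m := m) (M := n + r + m) (parR (nn := n)) parR_inj parR_le hp hpM V
    hVp s (c • y) hcV hbu ((Ib.disjSum Jb).disjSum S) (by
      rintro ((i | l) | b) hx'
      · rw [Finset.inl_mem_disjSum, Finset.inl_mem_disjSum] at hx'
        exact (Finset.mem_filter.1 hx').2
      · rw [Finset.inl_mem_disjSum, Finset.inr_mem_disjSum] at hx'
        exact (Finset.mem_filter.1 hx').2
      · rw [Finset.inr_mem_disjSum] at hx'
        exact (hS1 b hx').ne)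
  rw [Finset.card_disjSum, Finset.card_disjSum] at hcard
  have hJbc : Jbᶜ.card + Jb.card = r := by
    rw [Finset.card_compl, Fintype.card_fin]
    have h1 := Finset.card_le_univ Jb
    rw [Fintype.card_fin] at h1
    omega
  let lf : Fin r → ℂ := fun j => ∑ i, (vdm s (n + (j : ℕ)) i : ℂ) * (c • y) i
  have hlf : ∀ j ∈ Jbᶜ, v (lf j) = 1 := by
    intro j hj
    by_contra h4
    exact (Finset.mem_compl.1 hj) (Finset.mem_filter.2 ⟨Finset.mem_univ _, h4⟩)
  have hcastp : v (((p : ℤ) : ℤ) : ℂ) = v (p : ℂ) := by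
    push_cast
    rfl
  have hcastM : v (((p : ℤ) ^ M : ℤ) : ℂ) = v (p : ℂ) ^ M := by
    push_cast
    rw [map_pow]
  have hmain := card_base V hp hvp (by omega) f α (hf V hVτ) (hcor V hVτ)
    (fun j => ev (C (j, 0)) (c • y)) (fun j => ev (C (j, 1)) (c • y)) Jbᶜ
    (fun j => lf j ^ dd j)
    (fun j hj => by rw [map_pow]; change v (lf j) ^ _ = 1; rw [hlf j hj, one_pow])
    (by
      intro j _
      have h1 := ev_congr V hcV (p : ℤ)
        (c' := fun u => α j * pw _ (vdm s (n + (j : ℕ))) u) (hC0 j)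
      rwa [ev_zsmul, ev_pw, ← hv, hcastp] at h1)
    (by
      intro j _
      have h1 := ev_congr V hcV (p : ℤ)
        (c' := pw _ (vdm s (n + (j : ℕ)))) (hC1 j)
      rwa [ev_pw, ← hv, hcastp] at h1)
    (by
      intro J hJ
      have h1 : ∀ (j : Fin r) (a : Fin 2), ev (C (j, a)) (c • y) = c ^ dd j * ev (C (j, a)) y :=
        fun j a => ev_smul _ _ _
      rw [funext fun j => h1 j 0, funext fun j => h1 j 1]
      rw [homV_scale, hz J hJ, mul_zero])
  -- the modular part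
  let l : Fin n → ℂ := fun i => ∑ j, (vdm s (i : ℕ) j : ℂ) * (c • y) j
  have hnu := nonunits (E := E) (M := M) V hp0 hvp lam e he heE hM l (fun i => hle _)
    (fun i a => ev (P i a) (c • y)) g (fun i a => (b i a : ℂ)) (fun i a => int_le V _)
    (fun i hi a => by
      have h1 := ev_congr V hcV ((p : ℤ) ^ M)
        (c' := fun u => (if a = 0 then pw _ (vdm s (i : ℕ)) u else 0) +
          b i a * (p * pw _ (vdm s (nxt lam i : ℕ)) u)) (hPn i hi a)
      rw [ev_add, ev_zsmul, ev_zsmul, ev_pw, ← hv, hcastM] at h1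
      have h2 : ev (fun u => if a = 0 then pw (e i) (vdm s (i : ℕ)) u else 0) (c • y) =
          if a = 0 then l i ^ e i else 0 := by
        split_ifs with ha
        · rw [ev_pw]
        · simp [ev]
      rw [h2] at h1
      push_cast at h1
      exact h1)
    (fun i hi a => by
      have h1 := ev_congr V hcV ((p : ℤ) ^ M)
        (c' := fun u => b i a * pw _ (vdm s (nxt lam i : ℕ)) u) (hPr i hi a)
      rwa [ev_zsmul, ev_pw, ← hv, hcastM] at h1)
    hg0 x
    (fun i hi => hxi V hVτ i ((ValuationSubring.valuation_le_one_iff V _).1 hi))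
    (fun i hi => hxn V hVτ i fun h =>
      absurd hi (not_lt.2 ((ValuationSubring.valuation_le_one_iff V _).2 h)))
    (fun i hi => (ValuationSubring.valuation_le_one_iff V _).2 (hl1 i hi))
    (fun i i' h1 h2 h3 => (ValuationSubring.valuation_le_one_iff V _).2
      (hl2 i i' h1 h2 ((ValuationSubring.valuation_le_one_iff V _).1 h3)))
    (fun i => by
      have h1 : ∀ a, ev (P i a) (c • y) = c ^ e i * ev (P i a) y := fun a => ev_smul _ _ _
      simp only [h1, mul_assoc]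
      rw [← Finset.mul_sum, hzP i, mul_zero])
  have hIb := nonroot_card lam Ib (fun i hi => Finset.mem_filter.2 ⟨Finset.mem_univ _,
    (hnu i hi).ne⟩)
  omega

end Pool.Agent.TH971.SR
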