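import Pool.Agent.TH971.SR.D2
import Pool.Agent.TH971.SR.L2

/-!
Preperiodic points of random families of polynomials on pull-backs of arbitrary varieties.
-/

set_option autoImplicit false

open MvPolynomial

namespace Pool.Agent.TH971.SR

open Pool.Agent.W282.ZP Pool.Agent.W466.EP Pool.Agent.W466.ZP Pool.Agent.W282.RW
  Pool.Agent.TH971.RF Pool.Agent.TH971.SP

theorem main_val (V : ValuationSubring ℂ) {p : ℂ} {n : ℕ} (D : Fin n → ℕ) {ω : ℕ} (L : ℂ)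
    (hL : V.valuation L = 1) (z : Fin n → ℂ) (hcon : ∀ i, V.valuation (p ^ ω * z i) ≠ 1) :
    V.valuation (L * ∏ i, ∑ a : Fin (D i + 1), (p ^ ω * z i) ^ (a : ℕ)) =
      ∏ i, max 1 (V.valuation (p ^ ω * z i)) ^ D i := by
  rw [map_mul, hL, one_mul, map_prod]
  exact Finset.prod_congr rfl fun i _ => geom_val V (D i) _ (hcon i)

theorem eq_err (V : ValuationSubring ℂ) {p : ℂ} (hvp : V.valuation p < 1) {n : ℕ}
    (D : Fin n → ℕ) {ω M : ℕ} (hM : ω * ∑ i, D i < M)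
    (c : ((i : Fin n) → Fin (D i + 1)) → ℂ) (α L : ℂ)
    (hc : ∀ f, V.valuation (c f - α * (p ^ (ω * ∑ i, (f i : ℕ)) * L)) ≤ V.valuation p ^ M)
    (z : Fin n → ℂ) :
    V.valuation (∑ f, c f * ∏ i, z i ^ (f i : ℕ) -
      α * (L * ∏ i, ∑ a : Fin (D i + 1), (p ^ ω * z i) ^ (a : ℕ))) ≤
      V.valuation p * ∏ i, max 1 (V.valuation (p ^ ω * z i)) ^ D i := by
  classical
  set v := V.valuation with hv
  set X := ∏ i, max 1 (v (p ^ ω * z i)) ^ D i with hX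
  have h1 : L * ∏ i, ∑ a : Fin (D i + 1), (p ^ ω * z i) ^ (a : ℕ) =
      ∑ f : (i : Fin n) → Fin (D i + 1), p ^ (ω * ∑ i, (f i : ℕ)) * L *
        ∏ i, z i ^ (f i : ℕ) := by
    rw [Fintype.prod_sum, Finset.mul_sum]
    refine Finset.sum_congr rfl fun f _ => ?_
    simp only [mul_pow]
    rw [Finset.prod_mul_distrib]
    have h2 : ∏ i, (p ^ ω) ^ (f i : ℕ) = p ^ (ω * ∑ i, (f i : ℕ)) := by
      rw [Finset.prod_pow_eq_pow_sum, ← pow_mul]
    rw [h2]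
    ring
  have h5 : ∑ f, c f * ∏ i, z i ^ (f i : ℕ) -
      α * (L * ∏ i, ∑ a : Fin (D i + 1), (p ^ ω * z i) ^ (a : ℕ)) =
      ∑ f : (i : Fin n) → Fin (D i + 1), (c f - α * (p ^ (ω * ∑ i, (f i : ℕ)) * L)) *
        ∏ i, z i ^ (f i : ℕ) := by
    rw [h1, Finset.mul_sum, ← Finset.sum_sub_distrib]
    refine Finset.sum_congr rfl fun f _ => ?_
    ring
  rw [h5]
  refine Valuation.map_sum_le _ fun f _ => ?_
  rw [map_mul, map_prod]
  have h1 : v p ^ (ω * ∑ i, D i) * ∏ i, v (z i ^ (f i : ℕ)) ≤ X := by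
    have h2 : v p ^ (ω * ∑ i, D i) = ∏ i, v p ^ (ω * D i) := by
      rw [Finset.mul_sum, Finset.prod_pow_eq_pow_sum]
    rw [h2, ← Finset.prod_mul_distrib]
    refine Finset.prod_le_prod' fun i _ => ?_
    have h3 : (f i : ℕ) ≤ D i := Nat.lt_succ_iff.1 (f i).2
    calc v p ^ (ω * D i) * v (z i ^ (f i : ℕ))
        ≤ v p ^ (ω * (f i : ℕ)) * v (z i ^ (f i : ℕ)) :=
          mul_le_mul' (pow_le_pow_right_of_le_one' hvp.le (Nat.mul_le_mul_left _ h3)) le_rfl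
      _ = v (p ^ ω * z i) ^ (f i : ℕ) := by
          rw [map_mul, map_pow, map_pow, mul_pow, ← pow_mul]
      _ ≤ max 1 (v (p ^ ω * z i)) ^ (f i : ℕ) := pow_le_pow_left₀ zero_le (le_max_right _ _) _
      _ ≤ max 1 (v (p ^ ω * z i)) ^ D i := pow_le_pow_right₀ (le_max_left _ _) h3
  obtain ⟨t, ht⟩ : ∃ t, M = ω * ∑ i, D i + (t + 1) := ⟨M - ω * ∑ i, D i - 1, by omega⟩
  calc v (c f - α * (p ^ (ω * ∑ i, (f i : ℕ)) * L)) * ∏ i, v (z i ^ (f i : ℕ))
      ≤ v p ^ M * ∏ i, v (z i ^ (f i : ℕ)) := mul_le_mul' (hc f) le_rfl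
    _ = v p ^ (t + 1) * (v p ^ (ω * ∑ i, D i) * ∏ i, v (z i ^ (f i : ℕ))) := by
        rw [ht, pow_add, mul_comm (v p ^ (ω * ∑ i, D i)), mul_assoc]
    _ ≤ v p ^ (t + 1) * X := mul_le_mul' le_rfl h1
    _ ≤ v p * X := mul_le_mul' (by
        calc v p ^ (t + 1) ≤ v p ^ 1 := pow_le_pow_right_of_le_one' hvp.le (by omega)
          _ = v p := pow_one _) le_rfl

variable {σ : Type} [Fintype σ] [DecidableEq σ]

/-- One point and one prime. -/
theorem critE {n r m d : ℕ} (dg : Fin n → ℕ) (hdg : ∀ i, 2 ≤ dg i) (D : Fin r → Fin n → ℕ) {M : ℕ}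
    (hM : ∀ j : Fin r, ((j : ℕ) + 1) * ∑ i, D j i < M) {κ : Type} {τ : κ → ℂ} {p : ℕ} (hp : p.Prime)
    (f : ∀ J : Finset (Fin r), MvPolynomial J ℂ) (α : Fin r → ℤ)
    (hf : ∀ V : ValuationSubring ℂ, SP.Good τ p V → ∀ J : Finset (Fin r), J.card = d + 1 →
      ∀ l, V.valuation ((f J).coeff l) ≤ 1)
    (hcor : ∀ V : ValuationSubring ℂ, SP.Good τ p V → ∀ J : Finset (Fin r), J.card = d + 1 →
      V.valuation (eval (fun j : J => ((α j : ℤ) : ℂ)) (f J)) = 1)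
    (Y : Set (σ → ℂ)) (s : Fin (m + 1) → σ → ℤ) (D₀ : ℕ) (hgood : RF.Good Y s D₀)
    (hpD : ¬ p ∣ D₀) (hpM : n + r + m < p) (e : Fin n → ℕ) (dd : Fin r → ℕ)
    (F : ∀ i, Fin (dg i + 1) → Sym σ (e i) → ℤ)
    (hF : ∀ i u, (p : ℤ) ∣ F i (Fin.last (dg i)) u - pw _ (vdm s (i : ℕ)) u)
    (C : ∀ j, Fin 2 → ((i : Fin n) → Fin (D j i + 1)) → Sym σ (dd j) → ℤ)
    (hC0 : ∀ j f u, (p : ℤ) ^ M ∣ C j 0 f u -
      α j * (p : ℤ) ^ (((j : ℕ) + 1) * ∑ i, (f i : ℕ)) * pw _ (vdm s (n + (j : ℕ))) u)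
    (hC1 : ∀ j f u, (p : ℤ) ^ M ∣ C j 1 f u -
      (p : ℤ) ^ (((j : ℕ) + 1) * ∑ i, (f i : ℕ)) * pw _ (vdm s (n + (j : ℕ))) u)
    (y : σ → ℂ) (hy : y ≠ 0) (hyY : y ∈ Y) (z : Fin n → ℂ)
    (hz : ∀ J : Finset (Fin r), J.card = d + 1 →
      homV (fun j => ∑ f : (i : Fin n) → Fin (D j i + 1), ev (C j 0 f) y * ∏ i, z i ^ (f i : ℕ))
        (fun j => ∑ f : (i : Fin n) → Fin (D j i + 1), ev (C j 1 f) y * ∏ i, z i ^ (f i : ℕ))
        (rename (Subtype.val : J → Fin r) (f J)) = 0)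
    (P : Finset (Fin n)) (hP0 : ∀ i ∈ P, ev (F i (Fin.last (dg i))) y ≠ 0)
    (hP : ∀ i ∈ P, Prep (dyn fun k => ev (F i k) y) (z i))
    (b0 : Fin (m + 1)) (hb0 : ∑ j, (vdm s (n + r + (b0 : ℕ)) j : ℂ) * y j ≠ 0)
    (S : Finset (Fin (m + 1))) (T : Finset (Fin n))
    (hS : AlgebraicIndependent ℚ (Sum.elim (fun j : T => z j) (Sum.elim
      (fun b : S => (∑ j, (vdm s (n + r + (b0 : ℕ)) j : ℂ) * y j)⁻¹ *
        ∑ j, (vdm s (n + r + ((b : Fin (m + 1)) : ℕ)) j : ℂ) * y j) τ))) :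
    S.card + T.card + P.card + r ≤ n + m + d := by
  classical
  have hp0 : (p : ℂ) ≠ 0 := by exact_mod_cast hp.ne_zero
  have hpQ : (p : ℚ) ≠ 0 := by exact_mod_cast hp.ne_zero
  obtain ⟨V, hVτ, hVT, hVS⟩ := exists_place _ _ τ hS hp
    (fun i : T => if (i : Fin n) ∈ P then (p : ℚ) ^ (r + 1) else 1) (fun _ => (p : ℚ)⁻¹)
    (fun i => by
      split_ifs
      · exact pow_ne_zero _ hpQ
      · exact one_ne_zero) (fun _ => inv_ne_zero hpQ)
  set v := V.valuation with hv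
  have hVp : (p : ℂ) ∈ V.nonunits := hVτ.hp
  have hvp : v (p : ℂ) < 1 := hVτ.lt
  have hvp0 : 0 < v (p : ℂ) := zero_lt_iff.2 ((map_ne_zero _).2 hp0)
  have hTn : ∀ i ∈ T, i ∉ P → v (z i) = 1 := by
    intro i hi hiP
    have h1 := hVT ⟨i, hi⟩
    simpa [hiP] using h1
  have hTP : ∀ i ∈ T, i ∈ P → v ((p : ℂ) ^ (r + 1) * z i) = 1 := by
    intro i hi hiP
    have h1 := hVT ⟨i, hi⟩
    simpa [hiP] using h1
  obtain ⟨c, hc0, hcV, -, hbu⟩ := hgood p hp hpD V hVp y hy hyY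
  have hle : ∀ b, v (∑ j, (vdm s b j : ℂ) * (c • y) j) ≤ 1 := fun b =>
    (ValuationSubring.valuation_le_one_iff V _).2
      (sum_mem fun j _ => mul_mem (intCast_mem V _) (hcV j))
  -- the forms of `S`
  have hS1 : ∀ b ∈ S, v (∑ j, (vdm s (n + r + (b : ℕ)) j : ℂ) * (c • y) j) < 1 := by
    intro b hbS
    have h1 := hVS ⟨b, hbS⟩
    have h3 : v ((∑ j, (vdm s (n + r + (b0 : ℕ)) j : ℂ) * y j)⁻¹ *
        ∑ j, (vdm s (n + r + (b : ℕ)) j : ℂ) * y j) = v (p : ℂ) := by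
      have h2 : v (((p : ℚ)⁻¹ : ℚ) : ℂ) = (v (p : ℂ))⁻¹ := by
        push_cast
        rw [map_inv₀]
      rw [map_mul, h2] at h1
      have h4 : v (p : ℂ) ≠ 0 := (map_ne_zero _).2 hp0
      rw [inv_mul_eq_one₀ h4] at h1
      exact h1.symm
    have h4 : (∑ j, (vdm s (n + r + (b : ℕ)) j : ℂ) * (c • y) j) =
        ((∑ j, (vdm s (n + r + (b0 : ℕ)) j : ℂ) * y j)⁻¹ *
          ∑ j, (vdm s (n + r + (b : ℕ)) j : ℂ) * y j) *
        (∑ j, (vdm s (n + r + (b0 : ℕ)) j : ℂ) * (c • y) j) := by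
      rw [lf_smul, lf_smul]
      field_simp
    rw [h4, map_mul, h3]
    exact (mul_le_of_le_one_right' (hle _)).trans_lt hvp
  let Jb : Finset (Fin r) := Finset.univ.filter fun j =>
    v (∑ i, (vdm s (n + (j : ℕ)) i : ℂ) * (c • y) i) ≠ 1
  let Ib : Finset (Fin n) := Finset.univ.filter fun j =>
    v (∑ i, (vdm s (j : ℕ) i : ℂ) * (c • y) i) ≠ 1
  have hcard := nonunit_card (m := m) (M := n + r + m) (parR (nn := n)) parR_inj parR_le hp hpM V
    hVp s (c • y) hcV hbu ((Ib.disjSum Jb).disjSum S) (by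
      rintro ((i | l) | b) hx'
      · rw [Finset.inl_mem_disjSum, Finset.inl_mem_disjSum] at hx'
        exact (Finset.mem_filter.1 hx').2
      · rw [Finset.inl_mem_disjSum, Finset.inr_mem_disjSum] at hx'
        exact (Finset.mem_filter.1 hx').2
      · rw [Finset.inr_mem_disjSum] at hx'
        exact (hS1 b hx').ne)
  rw [Finset.card_disjSum, Finset.card_disjSum] at hcard
  have hcastp : v (((p : ℤ) : ℤ) : ℂ) = v (p : ℂ) := by
    push_cast
    rfl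
  have hcastM : v (((p : ℤ) ^ M : ℤ) : ℂ) = v (p : ℂ) ^ M := by
    push_cast
    rw [map_pow]
  -- the hot coordinates of `P`
  have hhot : ∀ i ∈ P, 1 < v (z i) → i ∈ Ib := by
    intro i hi h1
    by_contra h2
    have h3 : v (∑ j, (vdm s (i : ℕ) j : ℂ) * (c • y) j) = 1 := by
      by_contra h
      exact h2 (Finset.mem_filter.2 ⟨Finset.mem_univ _, h⟩)
    have h4 := ev_congr V hcV (p : ℤ) (c' := pw _ (vdm s (i : ℕ))) (hF i)
    rw [ev_pw, ← hv, hcastp] at h4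
    have h5 : v (ev (F i (Fin.last (dg i))) (c • y)) = 1 := by
      have h6 : v ((∑ j, (vdm s (i : ℕ) j : ℂ) * (c • y) j) ^ e i) = 1 := by
        rw [map_pow, h3, one_pow]
      have h7 : ev (F i (Fin.last (dg i))) (c • y) = (ev (F i (Fin.last (dg i))) (c • y) -
          (∑ j, (vdm s (i : ℕ) j : ℂ) * (c • y) j) ^ e i) +
          (∑ j, (vdm s (i : ℕ) j : ℂ) * (c • y) j) ^ e i := by ring
      rw [h7, Valuation.map_add_eq_of_lt_right v (by rw [h6]; exact h4.trans_lt hvp), h6]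
    have h6 : (dyn fun k => ev (F i k) y) = dyn fun k => ev (F i k) (c • y) := by
      funext x
      unfold dyn
      have h7 : ∀ k, ev (F i k) (c • y) = c ^ e i * ev (F i k) y := fun k => ev_smul _ _ _
      simp only [h7, mul_assoc]
      rw [← Finset.mul_sum, mul_div_mul_left _ _ (pow_ne_zero _ hc0)]
    have h7 := hP i hi
    rw [h6] at h7
    exact not_prep V (hdg i) _ (fun k => (ValuationSubring.valuation_le_one_iff V _).2
      (ev_mem V hcV _)) h5 _ h1 h7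
  -- the equations
  let lf : Fin r → ℂ := fun j => (∑ i, (vdm s (n + (j : ℕ)) i : ℂ) * (c • y) i) ^ dd j
  let sX : Fin r → ℂ := fun j => lf j * ∏ i, ∑ a : Fin (D j i + 1),
    ((p : ℂ) ^ ((j : ℕ) + 1) * z i) ^ (a : ℕ)
  let Gd : Finset (Fin r) := Finset.univ.filter fun j =>
    j ∉ Jb ∧ ∀ i, v ((p : ℂ) ^ ((j : ℕ) + 1) * z i) ≠ 1
  have hlf : ∀ j, j ∉ Jb → v (lf j) = 1 := by
    intro j hj
    have h3 : v (∑ i, (vdm s (n + (j : ℕ)) i : ℂ) * (c • y) i) = 1 := by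
      by_contra h
      exact hj (Finset.mem_filter.2 ⟨Finset.mem_univ _, h⟩)
    change v (_ ^ dd j) = 1
    rw [map_pow, h3, one_pow]
  have hsX : ∀ j ∈ Gd, v (sX j) = ∏ i, max 1 (v ((p : ℂ) ^ ((j : ℕ) + 1) * z i)) ^ D j i :=
    fun j hj => main_val V (D j) (lf j) (hlf j (Finset.mem_filter.1 hj).2.1) z
      (Finset.mem_filter.1 hj).2.2
  have hX0 : ∀ j ∈ Gd, 0 < v (sX j) := by
    intro j hj
    rw [hsX j hj]
    exact Finset.prod_pos fun i _ => pow_pos (lt_of_lt_of_le zero_lt_one (le_max_left _ _)) _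
  let sc : Fin r → ℂ := fun j => (if j ∈ Gd then (sX j)⁻¹ else 1) * c ^ dd j
  have hval0 : ∀ (j : Fin r) (a : Fin 2), ∑ f : (i : Fin n) → Fin (D j i + 1),
      ev (C j a f) (c • y) * ∏ i, z i ^ (f i : ℕ) = c ^ dd j *
      ∑ f : (i : Fin n) → Fin (D j i + 1), ev (C j a f) y * ∏ i, z i ^ (f i : ℕ) := by
    intro j a
    have h7 : ∀ f, ev (C j a f) (c • y) = c ^ dd j * ev (C j a f) y := fun k => ev_smul _ _ _
    simp only [h7, mul_assoc]
    rw [← Finset.mul_sum]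
  have hdiv : ∀ (j : Fin r) (x a : ℂ), j ∈ Gd → v (x - a * sX j) ≤ v (p : ℂ) * v (sX j) →
      v ((sX j)⁻¹ * x - a * 1) ≤ v (p : ℂ) := by
    intro j x a hj h
    have h0 : sX j ≠ 0 := fun h0 => by
      have h1 := hX0 j hj
      rw [h0, map_zero] at h1
      exact lt_irrefl _ h1
    have h2 : (sX j)⁻¹ * x - a * 1 = (sX j)⁻¹ * (x - a * sX j) := by
      field_simp
    rw [h2, map_mul, map_inv₀]
    calc (v (sX j))⁻¹ * v (x - a * sX j) ≤ (v (sX j))⁻¹ * (v (p : ℂ) * v (sX j)) :=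
          mul_le_mul' le_rfl h
      _ = v (p : ℂ) := by
          rw [mul_comm (v (p : ℂ)), ← mul_assoc, inv_mul_cancel₀ (hX0 j hj).ne', one_mul]
  have hGd : Gd.card ≤ d := by
    refine card_base V hp hvp (by omega) f α (hf V hVτ) (hcor V hVτ)
      (fun j => sc j * ∑ f : (i : Fin n) → Fin (D j i + 1), ev (C j 0 f) y *
        ∏ i, z i ^ (f i : ℕ))
      (fun j => sc j * ∑ f : (i : Fin n) → Fin (D j i + 1), ev (C j 1 f) y *
        ∏ i, z i ^ (f i : ℕ)) Gd (fun _ => 1) (fun _ _ => map_one _) ?_ ?_ ?_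
    · intro j hj
      have h2 : sc j * ∑ f : (i : Fin n) → Fin (D j i + 1), ev (C j 0 f) y *
          ∏ i, z i ^ (f i : ℕ) = (sX j)⁻¹ * ∑ f : (i : Fin n) → Fin (D j i + 1),
          ev (C j 0 f) (c • y) * ∏ i, z i ^ (f i : ℕ) := by
        rw [hval0]
        change (if j ∈ Gd then (sX j)⁻¹ else 1) * c ^ dd j * _ = _
        rw [if_pos hj, mul_assoc]
      rw [h2]
      refine hdiv j _ _ hj ?_
      rw [hsX j hj]
      refine eq_err V hvp (D j) (hM j) (fun f => ev (C j 0 f) (c • y)) (α j) (lf j)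
        (fun f => ?_) z
      have h4 := ev_congr V hcV ((p : ℤ) ^ M) (c' := fun u =>
        α j * (p : ℤ) ^ (((j : ℕ) + 1) * ∑ i, (f i : ℕ)) * pw _ (vdm s (n + (j : ℕ))) u)
        (hC0 j f)
      rw [ev_zsmul, ev_pw, ← hv, hcastM] at h4
      push_cast at h4
      rw [mul_assoc] at h4
      exact h4
    · intro j hj
      have h2 : sc j * ∑ f : (i : Fin n) → Fin (D j i + 1), ev (C j 1 f) y *
          ∏ i, z i ^ (f i : ℕ) = (sX j)⁻¹ * ∑ f : (i : Fin n) → Fin (D j i + 1),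
          ev (C j 1 f) (c • y) * ∏ i, z i ^ (f i : ℕ) := by
        rw [hval0]
        change (if j ∈ Gd then (sX j)⁻¹ else 1) * c ^ dd j * _ = _
        rw [if_pos hj, mul_assoc]
      rw [h2]
      have h9 := hdiv j (∑ f : (i : Fin n) → Fin (D j i + 1),
          ev (C j 1 f) (c • y) * ∏ i, z i ^ (f i : ℕ)) 1 hj ?_
      · simpa using h9
      rw [hsX j hj]
      refine eq_err V hvp (D j) (hM j) (fun f => ev (C j 1 f) (c • y)) 1 (lf j)
        (fun f => ?_) z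
      have h4 := ev_congr V hcV ((p : ℤ) ^ M) (c' := fun u =>
        (p : ℤ) ^ (((j : ℕ) + 1) * ∑ i, (f i : ℕ)) * pw _ (vdm s (n + (j : ℕ))) u)
        (hC1 j f)
      rw [ev_zsmul, ev_pw, ← hv, hcastM] at h4
      push_cast at h4
      rw [one_mul]
      exact h4
    · intro J hJ
      rw [homV_scale, hz J hJ, mul_zero]
  have heq : ∀ j : Fin r, j ∉ Jb ∪ Gd → ∃ i, v ((p : ℂ) ^ ((j : ℕ) + 1) * z i) = 1 := by
    intro j hj
    rw [Finset.mem_union, not_or] at hj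
    by_contra h
    push Not at h
    exact hj.2 (Finset.mem_filter.2 ⟨Finset.mem_univ _, hj.1, h⟩)
  choose ix hix using heq
  -- the hot coordinates
  have hval : ∀ {q : ℕ} {i : Fin n}, v ((p : ℂ) ^ q * z i) = 1 → v (z i) = (v (p : ℂ) ^ q)⁻¹ := by
    intro q i h
    rw [map_mul, map_pow] at h
    exact eq_inv_of_mul_eq_one_right h
  have hvinj : ∀ {q q' : ℕ}, (v (p : ℂ) ^ q)⁻¹ = (v (p : ℂ) ^ q')⁻¹ → q = q' := by
    intro q q' h
    have h1 := inv_injective h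
    exact (pow_right_strictAnti₀ hvp0 hvp).injective h1
  have hval1 : ∀ {q : ℕ} {i : Fin n}, 0 < q → v ((p : ℂ) ^ q * z i) = 1 → 1 < v (z i) := by
    intro q i hq h
    rw [hval h]
    exact (one_lt_inv₀ (pow_pos hvp0 _)).2 (pow_lt_one₀ zero_le hvp hq.ne')
  let H1 : Finset (Fin n) := ((Jb ∪ Gd)ᶜ).attach.image fun j => ix j.1 (Finset.mem_compl.1 j.2)
  have hH1 : H1.card = (Jb ∪ Gd)ᶜ.card := by
    rw [Finset.card_image_of_injective, Finset.card_attach]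
    intro j j' h
    have h1 := hval (hix j.1 (Finset.mem_compl.1 j.2))
    have h2 := hval (hix j'.1 (Finset.mem_compl.1 j'.2))
    simp only at h
    rw [h, h2] at h1
    have h3 := hvinj h1
    exact Subtype.ext (Fin.ext (by omega))
  have hmem1 : ∀ i ∈ H1, ∃ q, 0 < q ∧ q < r + 1 ∧ v ((p : ℂ) ^ q * z i) = 1 := by
    intro i hi
    obtain ⟨j, -, rfl⟩ := Finset.mem_image.1 hi
    exact ⟨(j.1 : ℕ) + 1, Nat.succ_pos _, Nat.succ_lt_succ j.1.2, hix _ _⟩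
  have hdisT : ∀ i ∈ H1, i ∉ T := by
    intro i hi hiT
    obtain ⟨q, hq0, hq, h1⟩ := hmem1 i hi
    by_cases hiP : i ∈ P
    · have h2 := hval (hTP i hiT hiP)
      rw [hval h1] at h2
      have := hvinj h2
      omega
    · have h2 := hTn i hiT hiP
      have h3 := hval1 hq0 h1
      rw [h2] at h3
      exact lt_irrefl _ h3
  have hIb1 : ∀ i ∈ H1, i ∈ P → i ∈ Ib := by
    intro i hi hiP
    obtain ⟨q, hq0, -, h1⟩ := hmem1 i hi
    exact hhot i hiP (hval1 hq0 h1)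
  have hIb2 : ∀ i ∈ T, i ∈ P → i ∈ Ib := fun i hi hiP =>
    hhot i hiP (hval1 (Nat.succ_pos _) (hTP i hi hiP))
  have hJbc : (Jb ∪ Gd)ᶜ.card + (Jb ∪ Gd).card = r := by
    rw [Finset.card_compl, Fintype.card_fin]
    have h1 := Finset.card_le_univ (Jb ∪ Gd)
    rw [Fintype.card_fin] at h1
    omega
  have hun := Finset.card_union_le Jb Gd
  -- count
  have h1 : H1.card ≤ (Ib \ (T ∩ P)).card + (Finset.univ \ (P ∪ T)).card := by
    refine (Finset.card_le_card fun i hi => ?_).trans (Finset.card_union_le _ _)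
    rw [Finset.mem_union, Finset.mem_sdiff, Finset.mem_sdiff]
    by_cases hiP : i ∈ P
    · exact Or.inl ⟨hIb1 i hi hiP, fun h => hdisT i hi (Finset.mem_inter.1 h).1⟩
    · refine Or.inr ⟨Finset.mem_univ _, fun h => ?_⟩
      rcases Finset.mem_union.1 h with h | h
      · exact hiP h
      · exact hdisT i hi h
  have hsub : T ∩ P ⊆ Ib := fun i hi =>
    hIb2 i (Finset.mem_inter.1 hi).1 (Finset.mem_inter.1 hi).2
  have h2 := Finset.card_le_card hsub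
  rw [Finset.card_sdiff_of_subset hsub, Finset.card_sdiff_of_subset (Finset.subset_univ _),
    Finset.card_univ, Fintype.card_fin] at h1
  have h3 := Finset.card_union_add_card_inter P T
  rw [Finset.inter_comm] at h3
  have h4 := Finset.card_le_univ (P ∪ T)
  rw [Fintype.card_fin] at h4
  omega

/-- The index set of the coefficients. -/
abbrev IdxE {n r : ℕ} (N : ℕ) (dg e : Fin n → ℕ) (D : Fin r → Fin n → ℕ) (dd : Fin r → ℕ) : Type :=
  (Σ x : (Σ i : Fin n, Fin (dg i + 1)), Sym (Fin (N + 1)) (e x.1)) ⊕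
    (Σ x : (Σ j : Fin r, Fin 2 × ((i : Fin n) → Fin (D j i + 1))), Sym (Fin (N + 1)) (dd x.1))

theorem exists_classE {n r m d N : ℕ} (dg : Fin n → ℕ) (hdg : ∀ i, 2 ≤ dg i) (e : Fin n → ℕ)
    (D : Fin r → Fin n → ℕ) (dd : Fin r → ℕ)
    (I : Ideal (MvPolynomial (Fin r) ℂ)) [I.IsPrime]
    (hd : Algebra.trdeg ℂ (MvPolynomial (Fin r) ℂ ⧸ I) = d)
    {κ : Type} (G : κ → MvPolynomial (Fin (N + 1)) ℂ) (hhom : ∀ k, ∃ e, (G k).IsHomogeneous e)
    (halg : ∀ k s, IsAlgebraic ℚ ((G k).coeff s))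
    (hdim1 : ∃ t : Fin (m + 1) → Fin (N + 1) → ℂ, ∀ y : Fin (N + 1) → ℂ,
      (∀ k, eval y (G k) = 0) → (∀ b, ∑ j, t b j * y j = 0) → y = 0)
    (Q₀ : ℕ) (hQ₀ : 0 < Q₀) (C₀ : IdxE N dg e D dd → ℤ) :
    ∃ (K : IntermediateField ℚ ℂ) (Q : ℕ) (Gt : IdxE N dg e D dd → ℤ), Countable K ∧ 0 < Q ∧
      ∀ C : IdxE N dg e D dd → ℤ, (∀ i, (Q : ℤ) ∣ C i - Gt i) →
        (∀ i, (Q₀ : ℤ) ∣ C i - C₀ i) ∧
        ∀ (y : Fin (N + 1) → ℂ) (j0 : Fin (N + 1)), y j0 = 1 → (∀ k, eval y (G k) = 0) →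
        ∀ z : Fin n → ℂ,
          (∀ g ∈ I, homV
            (fun j => ∑ f : (i : Fin n) → Fin (D j i + 1),
              ev (fun u => C (Sum.inr ⟨⟨j, 0, f⟩, u⟩)) y * ∏ i, z i ^ (f i : ℕ))
            (fun j => ∑ f : (i : Fin n) → Fin (D j i + 1),
              ev (fun u => C (Sum.inr ⟨⟨j, 1, f⟩, u⟩)) y * ∏ i, z i ^ (f i : ℕ)) g = 0) →
          ∀ P : Finset (Fin n),
          (∀ i ∈ P, ev (fun u => C (Sum.inl ⟨⟨i, Fin.last (dg i)⟩, u⟩)) y ≠ 0) →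
          (∀ i ∈ P, Prep (dyn fun k => ev (fun u => C (Sum.inl ⟨⟨i, k⟩, u⟩)) y) (z i)) →
          ∀ (T1 : Finset (Fin (N + 1))) (T2 : Finset (Fin n)),
            AlgebraicIndependent K (Sum.elim (fun j : T1 => y j) (fun j : T2 => z j)) →
            T1.card + T2.card + P.card + r ≤ n + m + d := by
  classical
  obtain ⟨f, α, β, -, hcor⟩ := exists_corners' I hd
  obtain ⟨tt, htt⟩ := hdim1
  obtain ⟨s, hs⟩ := int_forms G hhom tt htt
  obtain ⟨D₁, hD₁, hgood⟩ := good_prime G halg hhom s hs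
  let Y : Set (Fin (N + 1) → ℂ) := {y | ∀ k, eval y (G k) = 0}
  have hgood' : RF.Good Y s D₁ := hgood
  let cs : Finset ℂ := (Finset.univ.biUnion fun J : Finset (Fin r) =>
      (f J).support.image (f J).coeff) ∪
    (Finset.univ.image fun J : Finset (Fin r) => eval (fun j : J => ((α j : ℤ) : ℂ)) (f J))
  obtain ⟨t, htau, halgt⟩ := exists_tau cs
  set τ : t → ℂ := ((↑) : t → ℂ) with hτ
  obtain ⟨D₀, hD₀, hunit⟩ := const_unit (τ := τ) cs halgt
  obtain ⟨p, O, hpinj, hpp⟩ := exists_primes ∅ (max (max D₀ D₁) (max Q₀ (n + r + m)))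
  let M : ℕ := ∑ j : Fin r, ((j : ℕ) + 1) * ∑ i, D j i + 1
  have hM : ∀ j : Fin r, ((j : ℕ) + 1) * ∑ i, D j i < M := fun j =>
    Nat.lt_succ_of_le (Finset.single_le_sum (f := fun j : Fin r => ((j : ℕ) + 1) * ∑ i, D j i)
      (fun _ _ => Nat.zero_le _) (Finset.mem_univ j))
  obtain ⟨Q, Gt, hQ, hclass⟩ := exists_residue_class'
    (κ := IdxE N dg e D dd) (M := 1)
    (fun m => p m)
    (fun m => (hpp m).1) (fun m m' h => Fin.ext (hpinj h))
    (fun _ _ => M)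
    (fun m' x => match x with
      | Sum.inl z => pw _ (vdm s (z.1.1 : ℕ)) z.2
      | Sum.inr z => if z.1.2.1 = 0 then
          α z.1.1 * (p m' : ℤ) ^ (((z.1.1 : ℕ) + 1) * ∑ i, (z.1.2.2 i : ℕ)) *
            pw _ (vdm s (n + (z.1.1 : ℕ))) z.2
        else (p m' : ℤ) ^ (((z.1.1 : ℕ) + 1) * ∑ i, (z.1.2.2 i : ℕ)) *
          pw _ (vdm s (n + (z.1.1 : ℕ))) z.2) Q₀ hQ₀
    (fun m => ((le_max_left _ _).trans (le_max_right _ _)).trans_lt (hpp m).2.1) C₀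
  have hpD0 : ∀ m, ¬ p m ∣ D₀ := fun m h =>
    absurd (Nat.le_of_dvd hD₀ h) (not_le.2 (((le_max_left _ _).trans (le_max_left _ _)).trans_lt
      (hpp m).2.1))
  have hpD1 : ∀ m, ¬ p m ∣ D₁ := fun m h =>
    absurd (Nat.le_of_dvd hD₁ h) (not_le.2 (((le_max_right _ _).trans (le_max_left _ _)).trans_lt
      (hpp m).2.1))
  -- the properties of the constants
  have hA : ∀ m, ∀ V : ValuationSubring ℂ, SP.Good τ (p m) V → ∀ a ∈ cs, V.valuation a ≤ 1 := by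
    intro m V hV a ha
    by_cases h0 : a = 0
    · rw [h0, map_zero]
      exact zero_le_one
    · exact (hunit (p m) (hpD0 m) V hV a ha h0).le
  have hfs : ∀ (J : Finset (Fin r)) l, (f J).coeff l ≠ 0 → (f J).coeff l ∈ cs := fun J l h0 =>
    Finset.mem_union_left _
      (Finset.mem_biUnion.2 ⟨J, Finset.mem_univ _, Finset.mem_image_of_mem _
        (MvPolynomial.mem_support_iff.2 h0)⟩)
  have hcs : ∀ J : Finset (Fin r), eval (fun j : J => ((α j : ℤ) : ℂ)) (f J) ∈ cs := fun J =>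
    Finset.mem_union_right _ (Finset.mem_image_of_mem
      (fun J : Finset (Fin r) => eval (fun j : J => ((α j : ℤ) : ℂ)) (f J)) (Finset.mem_univ J))
  have hpM : ∀ m', n + r + m < p m' := fun m' =>
    ((le_max_right _ _).trans (le_max_right _ _)).trans_lt (hpp m').2.1
  refine ⟨IntermediateField.adjoin ℚ (Set.range τ), Q, Gt, countable_adjoin t, hQ,
    fun C hC => ?_⟩
  obtain ⟨hc0, hcm⟩ := hclass C hC
  refine ⟨hc0, ?_⟩
  intro y j0 hj0 hyG z hz P hP0 hP T1 T2 hT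
  have hy : y ≠ 0 := by
    intro h0
    rw [h0] at hj0
    exact zero_ne_one hj0
  have hYs : ∀ (c : ℂ) (y : Fin (N + 1) → ℂ), y ∈ Y → c • y ∈ Y := by
    intro c y hy k
    obtain ⟨w, hw⟩ := hhom k
    rw [Pool.Agent.W466.ZC.eval_smul hw, hy k, mul_zero]
  obtain ⟨b0, hb0, S, T, hcard, hind, -⟩ := exch_point htau hD₁ hgood' hYs (n + r) hy hyG hj0
    z T1 T2 hT
  have hmain := critE (M := M) dg hdg D hM (hpp (0 : Fin 1)).1 f α
    (fun V hV J hJ l => by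
      by_cases h0 : (f J).coeff l = 0
      · rw [h0, map_zero]
        exact zero_le_one
      · exact hA (0 : Fin 1) V hV _ (hfs J l h0))
    (fun V hV J hJ => hunit (p (0 : Fin 1)) (hpD0 _) V hV _ (hcs J) (by
      have h1 := (hcor J hJ).2 (fun _ => true)
      simpa using h1))
    Y s D₁ hgood' (hpD1 _) (hpM _) e dd
    (fun i k u => C (Sum.inl ⟨⟨i, k⟩, u⟩))
    (fun i u => (dvd_pow_self _ (Nat.succ_ne_zero _)).trans
      (hcm (0 : Fin 1) (Sum.inl ⟨⟨i, Fin.last (dg i)⟩, u⟩)))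
    (fun j a f u => C (Sum.inr ⟨⟨j, a, f⟩, u⟩))
    (fun j f u => by simpa using hcm (0 : Fin 1) (Sum.inr ⟨⟨j, 0, f⟩, u⟩))
    (fun j f u => by simpa using hcm (0 : Fin 1) (Sum.inr ⟨⟨j, 1, f⟩, u⟩))
    y hy hyG z (fun J hJ => hz _ (hcor J hJ).1) P hP0 hP b0 hb0 S T hind
  omega

end Pool.Agent.TH971.SR
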