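import Pool.Agent.TH971.SR.Q1

/-!
Random correspondences between a base and modular curves of any level: at one place many linear
forms are not units (helper file for Zilber-Pink).
-/

set_option autoImplicit false

open MvPolynomial

namespace Pool.Agent.TH971.SR

open Pool.Agent.W282.ZP Pool.Agent.W466.EP Pool.Agent.W466.ZP Pool.Agent.W282.RW
  Pool.Agent.TH971.RF Pool.Agent.TH971.SP

open Classical in
/-- The next element of the class. -/
noncomputable def nxt {n k : ℕ} (lam : Fin n → Option (Fin k)) (i : Fin n) : Fin n :=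
  if h : ∃ i', lam i' = lam i ∧ i < i' ∧ ∀ l, i < l → l < i' → lam l ≠ lam i then
    h.choose else i

theorem nxt_eq {n k : ℕ} (lam : Fin n → Option (Fin k)) (i i' : Fin n) (h1 : lam i' = lam i)
    (h2 : i < i') (h3 : ∀ l, i < l → l < i' → lam l ≠ lam i) : nxt lam i = i' := by
  classical
  have h : ∃ i', lam i' = lam i ∧ i < i' ∧ ∀ l, i < l → l < i' → lam l ≠ lam i :=
    ⟨i', h1, h2, h3⟩
  rw [nxt, dif_pos h]
  obtain ⟨g1, g2, g3⟩ := h.choose_spec
  rcases lt_trichotomy h.choose i' with hlt | heq | hgt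
  · exact absurd g1 (h3 _ g2 hlt)
  · exact heq
  · exact absurd h1 (g3 _ h2 hgt)

/-- The coordinates which are not the first ones of their class. -/
def NonRoot {n k : ℕ} (lam : Fin n → Option (Fin k)) (i : Fin n) : Prop :=
  lam i = none ∨ ∃ i' < i, lam i' = lam i

theorem nonroot_card {n k : ℕ} (lam : Fin n → Option (Fin k)) (T : Finset (Fin n))
    (hT : ∀ i, NonRoot lam i → i ∈ T) : n ≤ T.card + k := by
  classical
  have h1 : Tᶜ.card ≤ k := by
    have h2 : ∀ i ∈ Tᶜ, ¬ NonRoot lam i := fun i hi h => (Finset.mem_compl.1 hi) (hT i h)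
    have h3 : ∀ i ∈ Tᶜ, ∃ l, lam i = some l := fun i hi =>
      Option.ne_none_iff_exists'.1 fun h => h2 i hi (Or.inl h)
    have h4 : (Tᶜ.image lam).card = Tᶜ.card := by
      refine Finset.card_image_of_injOn ?_
      intro i hi i' hi' he
      rcases lt_trichotomy i i' with hlt | heq | hgt
      · exact absurd (Or.inr ⟨i, hlt, he⟩) (h2 i' hi')
      · exact heq
      · exact absurd (Or.inr ⟨i', hgt, he.symm⟩) (h2 i hi)
    have h5 : Tᶜ.image lam ⊆ (Finset.univ : Finset (Fin k)).image some := by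
      intro o ho
      obtain ⟨i, hi, rfl⟩ := Finset.mem_image.1 ho
      obtain ⟨l, hl⟩ := h3 i hi
      rw [hl]
      exact Finset.mem_image_of_mem _ (Finset.mem_univ _)
    have h6 := Finset.card_le_card h5
    rw [h4, Finset.card_image_of_injective _ (Option.some_injective _), Finset.card_univ,
      Fintype.card_fin] at h6
    exact h6
  rw [Finset.card_compl, Fintype.card_fin] at h1
  omega

/-- If all functions are integral, the leading term is not a unit. -/
theorem core_int (V : ValuationSubring ℂ) {D : ℕ} (P g : Fin (D + 1) → ℂ) (w : V.ValueGroup)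
    (L : ℂ) (hg0 : g 0 = 1) (hg : ∀ a, V.valuation (g a) ≤ 1)
    (hP0 : V.valuation (P 0 - L) ≤ w) (hP : ∀ a, a ≠ 0 → V.valuation (P a) ≤ w)
    (hz : ∑ a, P a * g a = 0) : V.valuation L ≤ w := by
  classical
  rw [Fin.sum_univ_succ, hg0, mul_one] at hz
  have h1 : V.valuation (P 0) ≤ w := by
    rw [eq_neg_of_add_eq_zero_left hz, Valuation.map_neg]
    refine Valuation.map_sum_le _ fun a _ => ?_
    rw [map_mul]
    exact (mul_le_of_le_one_right' (hg _)).trans (hP _ (Fin.succ_ne_zero a))
  have h2 : L = P 0 - (P 0 - L) := by ring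
  rw [h2]
  exact (Valuation.map_sub _ _ _).trans (max_le h1 hP0)

/-- If the function `∑ b_a g_a` is dominating, its coefficient is small. -/
theorem core_nonint (V : ValuationSubring ℂ) {D : ℕ} (P g b : Fin (D + 1) → ℂ)
    (w : V.ValueGroup) (L L' : ℂ) (hg0 : g 0 = 1)
    (hdom : ∀ a, V.valuation (g a) ≤ V.valuation (∑ a, b a * g a))
    (hP : ∀ a, V.valuation (P a - ((if a = 0 then L else 0) + b a * L')) ≤ w)
    (hL : V.valuation L ≤ w) (hz : ∑ a, P a * g a = 0) : V.valuation L' ≤ w := by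
  classical
  set S := ∑ a, b a * g a with hS
  have h1 : 1 ≤ V.valuation S := by
    have := hdom 0
    rwa [hg0, map_one] at this
  have h2 : L' * S = -(∑ a, (P a - ((if a = 0 then L else 0) + b a * L')) * g a) - L := by
    have h3 : ∑ a, (P a - ((if a = 0 then L else 0) + b a * L')) * g a =
        ∑ a, P a * g a - (∑ a, (if a = 0 then L else 0) * g a + L' * S) := by
      rw [hS, Finset.mul_sum, ← Finset.sum_add_distrib, ← Finset.sum_sub_distrib]
      refine Finset.sum_congr rfl fun a _ => ?_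
      ring
    have h4 : ∑ a, (if a = 0 then L else 0) * g a = L := by
      rw [Finset.sum_eq_single 0]
      · rw [if_pos rfl, hg0, mul_one]
      · intro a _ ha
        rw [if_neg ha, zero_mul]
      · intro h
        exact absurd (Finset.mem_univ _) h
    rw [h3, h4, hz]
    ring
  have h5 : V.valuation (L' * S) ≤ w * V.valuation S := by
    rw [h2]
    refine (Valuation.map_sub _ _ _).trans (max_le ?_ ?_)
    · rw [Valuation.map_neg]
      refine Valuation.map_sum_le _ fun a _ => ?_
      rw [map_mul]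
      exact mul_le_mul' (hP a) (hdom a)
    · exact hL.trans (le_mul_of_one_le_right' h1)
  rw [map_mul] at h5
  exact le_of_mul_le_mul_right h5 (zero_lt_one.trans_le h1)

/-- Many linear forms are not units. -/
theorem nonunits {n k E M : ℕ} {D : Fin n → ℕ} (V : ValuationSubring ℂ)
    {p : ℂ} (hp0 : p ≠ 0) (hp1 : V.valuation p < 1) (lam : Fin n → Option (Fin k))
    (e : Fin n → ℕ) (he : ∀ i, 0 < e i) (heE : ∀ i, e i ≤ E) (hM : (E + 1) ^ (n + 1) ≤ M)
    (l : Fin n → ℂ) (hl : ∀ i, V.valuation (l i) ≤ 1)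
    (P g b : (i : Fin n) → Fin (D i + 1) → ℂ) (hb : ∀ i a, V.valuation (b i a) ≤ 1)
    (hPn : ∀ i, NonRoot lam i → ∀ a, V.valuation (P i a - ((if a = 0 then l i ^ e i else 0) +
      b i a * (p * l (nxt lam i) ^ e i))) ≤ V.valuation p ^ M)
    (hPr : ∀ i, ¬ NonRoot lam i → ∀ a, V.valuation (P i a -
      b i a * l (nxt lam i) ^ e i) ≤ V.valuation p ^ M)
    (hg0 : ∀ i, g i 0 = 1) (x : Fin n → ℂ)
    (hxi : ∀ i, V.valuation (x i) ≤ 1 → ∀ a, V.valuation (g i a) ≤ 1)
    (hxn : ∀ i, 1 < V.valuation (x i) → ∀ a,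
      V.valuation (g i a) ≤ V.valuation (∑ a, b i a * g i a))
    (hnone : ∀ i, lam i = none → V.valuation (x i) ≤ 1)
    (hcl : ∀ i i', lam i ≠ none → lam i' = lam i →
      V.valuation (x i) ≤ 1 → V.valuation (x i') ≤ 1)
    (hz : ∀ i, ∑ a, P i a * g i a = 0) :
    ∀ i, NonRoot lam i → V.valuation (l i) < 1 := by
  classical
  set v := V.valuation with hv
  have hvp : 0 < v p := zero_lt_iff.2 ((map_ne_zero _).2 hp0)
  have hE1 : ∀ a : ℕ, 1 ≤ (E + 1) ^ a := fun a => Nat.one_le_pow _ _ (Nat.succ_pos _)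
  have hM1 : 1 ≤ M := (hE1 _).trans hM
  have hpanti : ∀ a b : ℕ, a ≤ b → v p ^ b ≤ v p ^ a := fun a b h =>
    pow_le_pow_right_of_le_one' hp1.le h
  have hpM : v p ^ M ≤ v p := by
    calc v p ^ M ≤ v p ^ 1 := hpanti 1 M hM1
      _ = v p := pow_one _
  -- the integral case
  have hint : ∀ i, NonRoot lam i → v (x i) ≤ 1 → v (l i) < 1 := by
    intro i hi hG
    have hpb : ∀ a, v (b i a * (p * l (nxt lam i) ^ e i)) ≤ v p := by
      intro a
      rw [map_mul, map_mul, map_pow]
      calc v (b i a) * (v p * v (l (nxt lam i)) ^ e i) ≤ 1 * (v p * 1) :=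
            mul_le_mul' (hb i a) (mul_le_mul' le_rfl (pow_le_one' (hl _) _))
        _ = v p := by rw [one_mul, mul_one]
    have h1 : v (l i ^ e i) ≤ v p := by
      refine core_int V (P i) (g i) (v p) (l i ^ e i) (hg0 i) (hxi i hG) ?_ (fun a ha => ?_) (hz i)
      · have h2 : P i 0 - l i ^ e i = (P i 0 - ((if (0 : Fin (D i + 1)) = 0 then l i ^ e i else 0) +
            b i 0 * (p * l (nxt lam i) ^ e i))) + b i 0 * (p * l (nxt lam i) ^ e i) := by
          rw [if_pos rfl]
          ring
        rw [h2]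
        exact (Valuation.map_add _ _ _).trans (max_le ((hPn i hi 0).trans hpM) (hpb 0))
      · have h2 : P i a = (P i a - ((if a = 0 then l i ^ e i else 0) +
            b i a * (p * l (nxt lam i) ^ e i))) + b i a * (p * l (nxt lam i) ^ e i) := by
          rw [if_neg ha]
          ring
        rw [h2]
        exact (Valuation.map_add _ _ _).trans (max_le ((hPn i hi a).trans hpM) (hpb a))
    by_contra hcon
    have h4 : v (l i) = 1 := le_antisymm (hl i) (not_lt.1 hcon)
    rw [map_pow, h4, one_pow] at h1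
    exact absurd h1 (not_le.2 hp1)
  -- the chain
  have hchain : ∀ (N : ℕ) (i : Fin n), (i : ℕ) = N → NonRoot lam i → lam i ≠ none →
      1 < v (x i) → v (l i) ≤ v p ^ ((E + 1) ^ (n - (i : ℕ))) := by
    intro N
    induction N using Nat.strong_induction_on with
    | _ N ih =>
    intro i hiN hi hin hG
    have hex : ∃ i' < i, lam i' = lam i := hi.resolve_left hin
    -- the previous element
    obtain ⟨i0, hi0lt, hi0c, hi0max⟩ : ∃ i0 < i, lam i0 = lam i ∧
        ∀ l, i0 < l → l < i → lam l ≠ lam i := by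
      let F : Finset (Fin n) := Finset.univ.filter fun i' => i' < i ∧ lam i' = lam i
      have hF : F.Nonempty := by
        obtain ⟨i', h1, h2⟩ := hex
        exact ⟨i', Finset.mem_filter.2 ⟨Finset.mem_univ _, h1, h2⟩⟩
      have h1 := Finset.mem_filter.1 (F.max'_mem hF)
      refine ⟨F.max' hF, h1.2.1, h1.2.2, fun l hl1 hl2 h => ?_⟩
      have h2 := F.le_max' l (Finset.mem_filter.2 ⟨Finset.mem_univ _, hl2, h⟩)
      exact absurd hl1 (not_lt.2 h2)
    have hnx : nxt lam i0 = i := nxt_eq lam i0 i hi0c.symm hi0lt fun l h1 h2 h =>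
      hi0max l h1 h2 (h.trans hi0c)
    have hG0 : 1 < v (x i0) := by
      by_contra hcon
      exact absurd (hcl i0 i (by rw [hi0c]; exact hin) hi0c.symm (not_lt.1 hcon)) (not_le.2 hG)
    set K : ℕ := (E + 1) ^ (n - (i : ℕ)) with hK
    have hK0 : E * K + 1 ≤ (E + 1) ^ (n - (i0 : ℕ)) := by
      have h1 : (i0 : ℕ) < (i : ℕ) := hi0lt
      have h2 : n - (i : ℕ) + 1 ≤ n - (i0 : ℕ) := by
        have := i.2
        omega
      calc E * K + 1 ≤ E * K + K := by
            have := hE1 (n - (i : ℕ))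
            omega
        _ = (E + 1) ^ (n - (i : ℕ) + 1) := by rw [pow_succ, hK]; ring
        _ ≤ (E + 1) ^ (n - (i0 : ℕ)) := Nat.pow_le_pow_right (Nat.succ_pos _) h2
    have hKM : E * K + 1 ≤ M := hK0.trans ((Nat.pow_le_pow_right (Nat.succ_pos _) (by omega)).trans
      hM)
    have hpl : v (p * l i ^ e i0) ≤ v p ^ (E * K + 1) := by
      by_cases hr : NonRoot lam i0
      · have h1 := ih (i0 : ℕ) (by rw [← hiN]; exact hi0lt) i0 rfl hr (by rw [hi0c]; exact hin) hG0
        have h2 := hPn i0 hr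
        rw [hnx] at h2
        refine core_nonint V (P i0) (g i0) (b i0) _ (l i0 ^ e i0) _ (hg0 i0) (hxn i0 hG0)
          (fun a => (h2 a).trans (hpanti _ _ hKM)) ?_ (hz i0)
        rw [map_pow]
        calc v (l i0) ^ e i0 ≤ v (l i0) ^ 1 :=
              pow_le_pow_right_of_le_one' (hl i0) (he i0)
          _ = v (l i0) := pow_one _
          _ ≤ v p ^ ((E + 1) ^ (n - (i0 : ℕ))) := h1
          _ ≤ v p ^ (E * K + 1) := hpanti _ _ hK0
      · have h2 := hPr i0 hr
        rw [hnx] at h2
        have h3 : v (l i ^ e i0) ≤ v p ^ (E * K + 1) := by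
          refine core_nonint V (P i0) (g i0) (b i0) _ 0 _ (hg0 i0) (hxn i0 hG0)
            (fun a => ?_) ?_ (hz i0)
          · have h4 : (if a = 0 then (0 : ℂ) else 0) = 0 := by split_ifs <;> rfl
            rw [h4, zero_add]
            exact (h2 a).trans (hpanti _ _ hKM)
          · rw [map_zero]
            exact zero_le
        rw [map_mul]
        exact (mul_le_of_le_one_left' hp1.le).trans h3
    have h4 : v (l i) ^ e i0 ≤ v p ^ (E * K) := by
      rw [map_mul, map_pow, pow_succ, mul_comm (v p)] at hpl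
      exact le_of_mul_le_mul_right hpl hvp
    have h5 : v (l i) ^ e i0 ≤ (v p ^ K) ^ e i0 := by
      rw [← pow_mul]
      refine h4.trans (hpanti _ _ ?_)
      rw [mul_comm]
      exact Nat.mul_le_mul_right _ (heE i0)
    exact (pow_le_pow_iff_left₀ zero_le zero_le (he i0).ne').1 h5
  intro i hi
  by_cases hin : lam i = none
  · exact hint i hi (hnone i hin)
  · by_cases hG : v (x i) ≤ 1
    · exact hint i hi hG
    · have h1 := hchain _ i rfl hi hin (not_le.1 hG)
      refine h1.trans_lt (pow_lt_one₀ zero_le hp1 ?_)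
      have := hE1 (n - (i : ℕ))
      omega

/-- domination at the cusps -/
theorem val_cusp (V : ValuationSubring ℂ) {M : ℕ} (A : Fin (M + 1) → Polynomial ℂ)
    (hdeg : ∀ k, (A k).natDegree ≤ (A (Fin.last M)).natDegree)
    (hA : ∀ k l, (A k).coeff l ≠ 0 → V.valuation ((A k).coeff l) = 1)
    (hA0 : A (Fin.last M) ≠ 0) {x g s : ℂ} (hx : 1 < V.valuation x)
    (h : ∑ k : Fin (M + 1), (A k).eval x * (g ^ (k : ℕ) * s ^ (M - (k : ℕ))) = 0) :
    V.valuation g ≤ V.valuation s := by
  classical
  set v := V.valuation with hv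
  by_contra hcon
  push Not at hcon
  have hg0 : 0 < v g := lt_of_le_of_lt zero_le hcon
  have hx0 : 0 < v x := zero_lt_one.trans hx
  set q := (A (Fin.last M)).natDegree with hq
  have hle : ∀ k, v ((A k).eval x) ≤ v x ^ q := by
    intro k
    rw [Polynomial.eval_eq_sum_range]
    refine v.map_sum_le fun l hl => ?_
    have hl' : l ≤ q := (Nat.lt_succ_iff.1 (Finset.mem_range.1 hl)).trans (hdeg k)
    rw [map_mul, map_pow]
    have h1 : v ((A k).coeff l) ≤ 1 := by
      by_cases h0 : (A k).coeff l = 0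
      · rw [h0, map_zero]
        exact zero_le
      · exact (hA k l h0).le
    calc v ((A k).coeff l) * v x ^ l ≤ 1 * v x ^ q :=
          mul_le_mul' h1 (pow_le_pow_right₀ hx.le hl')
      _ = v x ^ q := one_mul _
  have hlead : v ((A (Fin.last M)).eval x) = v x ^ q := by
    rw [Polynomial.eval_eq_sum_range, Finset.sum_range_succ]
    have h1 : v ((A (Fin.last M)).coeff q * x ^ q) = v x ^ q := by
      rw [map_mul, map_pow, hA _ _ (by
        rw [hq, Polynomial.coeff_natDegree]
        exact Polynomial.leadingCoeff_ne_zero.2 hA0), one_mul]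
    have h2 : v (∑ l ∈ Finset.range q, (A (Fin.last M)).coeff l * x ^ l) < v x ^ q := by
      refine Valuation.map_sum_lt _ (pow_pos hx0 _).ne' fun l hl => ?_
      rw [map_mul, map_pow]
      have h3 : v ((A (Fin.last M)).coeff l) ≤ 1 := by
        by_cases h0 : (A (Fin.last M)).coeff l = 0
        · rw [h0, map_zero]
          exact zero_le
        · exact (hA _ l h0).le
      calc v ((A (Fin.last M)).coeff l) * v x ^ l ≤ 1 * v x ^ l := mul_le_mul' h3 le_rfl
        _ = v x ^ l := one_mul _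
        _ < v x ^ q := pow_lt_pow_right₀ hx (Finset.mem_range.1 hl)
    rw [Valuation.map_add_eq_of_lt_right v (h2.trans_eq h1.symm), h1]
  rw [Fin.sum_univ_castSucc] at h
  have h1 : v ((A (Fin.last M)).eval x * (g ^ ((Fin.last M : Fin (M + 1)) : ℕ) *
      s ^ (M - ((Fin.last M : Fin (M + 1)) : ℕ)))) = v x ^ q * v g ^ M := by
    rw [Fin.val_last, Nat.sub_self, pow_zero, mul_one, map_mul, map_pow, hlead]
  rw [eq_neg_of_add_eq_zero_right h, Valuation.map_neg] at h1
  have h2 : v (∑ k : Fin M, (A k.castSucc).eval x * (g ^ ((k.castSucc : Fin (M + 1)) : ℕ) *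
      s ^ (M - ((k.castSucc : Fin (M + 1)) : ℕ)))) < v x ^ q * v g ^ M := by
    refine Valuation.map_sum_lt _ (mul_pos (pow_pos hx0 _) (pow_pos hg0 _)).ne' fun k _ => ?_
    rw [map_mul, map_mul, map_pow, map_pow, Fin.val_castSucc]
    refine lt_of_le_of_lt (mul_le_mul' (hle _) le_rfl) ?_
    refine mul_lt_mul_of_pos_left ?_ (pow_pos hx0 _)
    have h3 : M = (k : ℕ) + (M - (k : ℕ)) := by
      have := k.2
      omega
    calc v g ^ (k : ℕ) * v s ^ (M - (k : ℕ)) < v g ^ (k : ℕ) * v g ^ (M - (k : ℕ)) := by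
          refine mul_lt_mul_of_pos_left ?_ (pow_pos hg0 _)
          refine pow_lt_pow_left₀ hcon zero_le ?_
          have := k.2
          omega
      _ = v g ^ M := by rw [← pow_add, ← h3]
  exact h2.ne h1

end Pool.Agent.TH971.SR
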