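import Pool.Agent.TH971.SR.L2

/-!
Zilber-Pink for random correspondences between a base and modular curves of any level: the residue
class.
-/

set_option autoImplicit false

open MvPolynomial

namespace Pool.Agent.TH971.SR

open Pool.Agent.W282.ZP Pool.Agent.W466.EP Pool.Agent.W466.ZP Pool.Agent.W282.RW
  Pool.Agent.TH971.RF Pool.Agent.TH971.SP

/-- The index set of the coefficients. -/
abbrev IdxL {n : ℕ} (N r : ℕ) (D : Fin n → ℕ) (dd : Fin r → ℕ) (e : Fin n → ℕ) : Type :=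
  (Σ x : Fin r × Fin 2, Sym (Fin (N + 1)) (dd x.1)) ⊕
    (Σ x : (Σ i : Fin n, Fin (D i + 1)), Sym (Fin (N + 1)) (e x.1))

open Classical in
/-- The targets for the coefficients of the correspondences. -/
noncomputable def tgtL {n kk m N : ℕ} (p : ℕ) (s : Fin (m + 1) → Fin (N + 1) → ℤ) (D : Fin n → ℕ)
    (e : Fin n → ℕ) (b : (i : Fin n) → Fin (D i + 1) → ℤ) (lam : Fin n → Option (Fin kk))
    (x : Σ i : Fin n, Fin (D i + 1)) (u : Sym (Fin (N + 1)) (e x.1)) : ℤ :=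
  if NonRoot lam x.1 then
    (if x.2 = 0 then pw _ (vdm s (x.1 : ℕ)) u else 0) +
      b x.1 x.2 * (p * pw _ (vdm s (nxt lam x.1 : ℕ)) u)
  else b x.1 x.2 * pw _ (vdm s (nxt lam x.1 : ℕ)) u

theorem exists_classL {n r m d N : ℕ} (D : Fin n → ℕ) (b : (i : Fin n) → Fin (D i + 1) → ℤ)
    (M₁ : (i : Fin n) → Fin (D i + 1) → ℕ)
    (A₁ : (i : Fin n) → (a : Fin (D i + 1)) → Fin (M₁ i a) → Polynomial ℂ)
    (M₂ : (i : Fin n) → Fin (D i + 1) → ℕ)
    (A₂ : (i : Fin n) → (a : Fin (D i + 1)) → Fin (M₂ i a + 1) → Polynomial ℂ)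
    (hA₂ : ∀ i a k, (A₂ i a k).natDegree ≤ (A₂ i a (Fin.last _)).natDegree)
    (hA₂0 : ∀ i a, A₂ i a (Fin.last _) ≠ 0)
    (dd : Fin r → ℕ) (e : Fin n → ℕ) (he : ∀ i, 0 < e i)
    (I : Ideal (MvPolynomial (Fin r) ℂ)) [I.IsPrime]
    (hd : Algebra.trdeg ℂ (MvPolynomial (Fin r) ℂ ⧸ I) = d)
    {κ : Type} (G : κ → MvPolynomial (Fin (N + 1)) ℂ) (hhom : ∀ k, ∃ e, (G k).IsHomogeneous e)
    (halg : ∀ k s, IsAlgebraic ℚ ((G k).coeff s))
    (hdim1 : ∃ t : Fin (m + 1) → Fin (N + 1) → ℂ, ∀ y : Fin (N + 1) → ℂ,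
      (∀ k, eval y (G k) = 0) → (∀ b, ∑ j, t b j * y j = 0) → y = 0) (Γ : Finset ℂ)
    (Q₀ : ℕ) (hQ₀ : 0 < Q₀) (C₀ : IdxL N r D dd e → ℤ) :
    ∃ (K : IntermediateField ℚ ℂ) (Q : ℕ) (Gt : IdxL N r D dd e → ℤ), Countable K ∧ 0 < Q ∧
      ∀ C : IdxL N r D dd e → ℤ, (∀ i, (Q : ℤ) ∣ C i - Gt i) →
        (∀ i, (Q₀ : ℤ) ∣ C i - C₀ i) ∧
        ∀ (rZ : ℕ) (cls : Fin n → Option (Fin rZ)) (x : Fin n → ℂ), rZ ≤ n →
          (∀ i, cls i = none → IsIntegral (Algebra.adjoin ℤ (Γ : Set ℂ)) (x i)) →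
          (∀ i i' l, cls i = some l → cls i' = some l →
            IsIntegral (Algebra.adjoin ℤ {x i}) (x i')) →
        ∀ g : (i : Fin n) → Fin (D i + 1) → ℂ, (∀ i, g i 0 = 1) →
          (∀ i a, g i a ^ M₁ i a +
            ∑ k : Fin (M₁ i a), (A₁ i a k).eval (x i) * g i a ^ (k : ℕ) = 0) →
          (∀ i a, ∑ k : Fin (M₂ i a + 1), (A₂ i a k).eval (x i) *
            (g i a ^ (k : ℕ) * (∑ a, (b i a : ℂ) * g i a) ^ (M₂ i a - (k : ℕ))) = 0) →
        ∀ (y : Fin (N + 1) → ℂ) (j0 : Fin (N + 1)), y j0 = 1 → (∀ k, eval y (G k) = 0) →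
          (∀ f ∈ I, homV (fun j => ev (fun u => C (Sum.inl ⟨(j, 0), u⟩)) y)
            (fun j => ev (fun u => C (Sum.inl ⟨(j, 1), u⟩)) y) f = 0) →
          (∀ i, ∑ a, ev (fun u => C (Sum.inr ⟨⟨i, a⟩, u⟩)) y * g i a = 0) →
          ∀ (T1 : Finset (Fin (N + 1))) (T2 : Finset (Fin n)),
            AlgebraicIndependent K (Sum.elim (fun j : T1 => y j) (fun j : T2 => x j)) →
            T1.card + T2.card + n + r ≤ rZ + d + m := by
  classical
  obtain ⟨f, α, β, -, hcor⟩ := exists_corners' I hd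
  obtain ⟨tt, htt⟩ := hdim1
  obtain ⟨s, hs⟩ := int_forms G hhom tt htt
  obtain ⟨D₁, hD₁, hgood⟩ := good_prime G halg hhom s hs
  let Y : Set (Fin (N + 1) → ℂ) := {y | ∀ k, eval y (G k) = 0}
  have hgood' : RF.Good Y s D₁ := hgood
  let cs : Finset ℂ := (((Finset.univ.biUnion fun J : Finset (Fin r) =>
      (f J).support.image (f J).coeff) ∪
    (Finset.univ.image fun J : Finset (Fin r) => eval (fun j : J => ((α j : ℤ) : ℂ)) (f J))) ∪ Γ) ∪
    ((Finset.univ.biUnion fun i : Fin n => Finset.univ.biUnion fun a : Fin (D i + 1) =>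
      Finset.univ.biUnion fun k : Fin (M₁ i a) => (A₁ i a k).support.image (A₁ i a k).coeff) ∪
    (Finset.univ.biUnion fun i : Fin n => Finset.univ.biUnion fun a : Fin (D i + 1) =>
      Finset.univ.biUnion fun k : Fin (M₂ i a + 1) => (A₂ i a k).support.image (A₂ i a k).coeff))
  obtain ⟨t, htau, halgt⟩ := exists_tau cs
  set τ : t → ℂ := ((↑) : t → ℂ) with hτ
  obtain ⟨D₀, hD₀, hunit⟩ := const_unit (τ := τ) cs halgt
  obtain ⟨p, O, hpinj, hpp⟩ := exists_primes ∅ (max (max D₀ D₁) (max Q₀ (n + r + m)))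
  let E : ℕ := ∑ i, e i
  have heE : ∀ i, e i ≤ E := fun i => Finset.single_le_sum (f := e) (fun _ _ => Nat.zero_le _)
    (Finset.mem_univ i)
  let M : ℕ := (E + 1) ^ (n + 1)
  let ι0 := (kk : Fin (n + 1)) × (Fin n → Option (Fin kk))
  let eqv : ι0 ≃ Fin (Fintype.card ι0) := Fintype.equivFin ι0
  obtain ⟨Q, Gt, hQ, hclass⟩ := exists_residue_class'
    (κ := IdxL N r D dd e) (M := Fintype.card ι0)
    (fun m => p m)
    (fun m => (hpp m).1) (fun m m' h => Fin.ext (hpinj h))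
    (fun _ _ => M)
    (fun m' x => match x with
      | Sum.inl z => if z.1.2 = 0 then α z.1.1 * pw _ (vdm s (n + (z.1.1 : ℕ))) z.2
          else pw _ (vdm s (n + (z.1.1 : ℕ))) z.2
      | Sum.inr z => tgtL (p m') s D e b (eqv.symm m').2 z.1 z.2) Q₀ hQ₀
    (fun m => ((le_max_left _ _).trans (le_max_right _ _)).trans_lt (hpp m).2.1) C₀
  have hpD0 : ∀ m, ¬ p m ∣ D₀ := fun m h =>
    absurd (Nat.le_of_dvd hD₀ h) (not_le.2 (((le_max_left _ _).trans (le_max_left _ _)).trans_lt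
      (hpp m).2.1))
  have hpD1 : ∀ m, ¬ p m ∣ D₁ := fun m h =>
    absurd (Nat.le_of_dvd hD₁ h) (not_le.2 (((le_max_right _ _).trans (le_max_left _ _)).trans_lt
      (hpp m).2.1))
  have hpM : ∀ m', n + r + m < p m' := fun m' =>
    ((le_max_right _ _).trans (le_max_right _ _)).trans_lt (hpp m').2.1
  -- the properties of the constants
  have hA : ∀ m, ∀ V : ValuationSubring ℂ, SP.Good τ (p m) V → ∀ a ∈ cs, V.valuation a ≤ 1 := by
    intro m V hV a ha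
    by_cases h0 : a = 0
    · rw [h0, map_zero]
      exact zero_le_one
    · exact (hunit (p m) (hpD0 m) V hV a ha h0).le
  have hfs : ∀ (J : Finset (Fin r)) l, (f J).coeff l ≠ 0 → (f J).coeff l ∈ cs := fun J l h0 =>
    Finset.mem_union_left _ (Finset.mem_union_left _ (Finset.mem_union_left _
      (Finset.mem_biUnion.2 ⟨J, Finset.mem_univ _, Finset.mem_image_of_mem _
        (MvPolynomial.mem_support_iff.2 h0)⟩)))
  have hcs : ∀ J : Finset (Fin r), eval (fun j : J => ((α j : ℤ) : ℂ)) (f J) ∈ cs := fun J =>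
    Finset.mem_union_left _ (Finset.mem_union_left _ (Finset.mem_union_right _
      (Finset.mem_image_of_mem
      (fun J : Finset (Fin r) => eval (fun j : J => ((α j : ℤ) : ℂ)) (f J)) (Finset.mem_univ J))))
  have hΓ : ∀ m', ∀ V : ValuationSubring ℂ, SP.Good τ (p m') V → ∀ γ ∈ Γ, γ ≠ 0 →
      V.valuation γ = 1 := fun m' V hV γ hγ h0 =>
    hunit (p m') (hpD0 m') V hV γ (Finset.mem_union_left _ (Finset.mem_union_right _ hγ)) h0
  have h1s : ∀ i a k l, (A₁ i a k).coeff l ≠ 0 → (A₁ i a k).coeff l ∈ cs := fun i a k l h0 =>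
    Finset.mem_union_right _ (Finset.mem_union_left _ (Finset.mem_biUnion.2 ⟨i, Finset.mem_univ _,
      Finset.mem_biUnion.2 ⟨a, Finset.mem_univ _, Finset.mem_biUnion.2 ⟨k, Finset.mem_univ _,
        Finset.mem_image_of_mem _ (Polynomial.mem_support_iff.2 h0)⟩⟩⟩))
  have h2s : ∀ i a k l, (A₂ i a k).coeff l ≠ 0 → (A₂ i a k).coeff l ∈ cs := fun i a k l h0 =>
    Finset.mem_union_right _ (Finset.mem_union_right _ (Finset.mem_biUnion.2 ⟨i, Finset.mem_univ _,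
      Finset.mem_biUnion.2 ⟨a, Finset.mem_univ _, Finset.mem_biUnion.2 ⟨k, Finset.mem_univ _,
        Finset.mem_image_of_mem _ (Polynomial.mem_support_iff.2 h0)⟩⟩⟩))
  refine ⟨IntermediateField.adjoin ℚ (Set.range τ), Q, Gt, countable_adjoin t, hQ,
    fun C hC => ?_⟩
  obtain ⟨hc0, hcm⟩ := hclass C hC
  refine ⟨hc0, ?_⟩
  intro rZ cls x hrn hconst hrel g hg0 hg1 hg2 y j0 hj0 hyG hz hzP T1 T2 hT
  have hy : y ≠ 0 := by
    intro h0
    rw [h0] at hj0
    exact zero_ne_one hj0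
  have hYs : ∀ (c : ℂ) (y : Fin (N + 1) → ℂ), y ∈ Y → c • y ∈ Y := by
    intro c y hy k
    obtain ⟨w, hw⟩ := hhom k
    rw [Pool.Agent.W466.ZC.eval_smul hw, hy k, mul_zero]
  obtain ⟨b0, hb0, S, T, hcard, hind, -⟩ := exch_point htau hD₁ hgood' hYs (n + r) hy hyG hj0
    x T1 T2 hT
  let c00 : ι0 := ⟨⟨0, Nat.succ_pos _⟩, fun _ => none⟩
  obtain ⟨hTr, hpat⟩ := patternG (τ := τ) (Γ := Γ) cls x hconst hrel T hind
    (hpp (eqv c00)).1 (hΓ _)
  have hkk : rZ - T.card < n + 1 := by omega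
  obtain ⟨lam, hlam⟩ := hpat (rZ - T.card) (by omega)
  let c : ι0 := ⟨⟨rZ - T.card, hkk⟩, lam⟩
  have hcoef : ∀ {P : Polynomial ℂ}, (∀ l, P.coeff l ≠ 0 → P.coeff l ∈ cs) →
      ∀ V : ValuationSubring ℂ, SP.Good τ (p (eqv c)) V → ∀ l, V.valuation (P.coeff l) ≤ 1 := by
    intro P hP V hV l
    by_cases h0 : P.coeff l = 0
    · rw [h0, map_zero]
      exact zero_le_one
    · exact hA (eqv c) V hV _ (hP l h0)
  have htg : ∀ i a u, ((p (eqv c) : ℕ) : ℤ) ^ M ∣ C (Sum.inr ⟨⟨i, a⟩, u⟩) -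
      tgtL (p (eqv c)) s D e b lam ⟨i, a⟩ u := by
    intro i a u
    have h1 := hcm (eqv c) (Sum.inr ⟨⟨i, a⟩, u⟩)
    rw [Equiv.symm_apply_apply] at h1
    exact h1
  have hM0 : M ≠ 0 := pow_ne_zero _ (Nat.succ_ne_zero _)
  have hmain := critL (kk := rZ - T.card) (E := E) (M := M) D (hpp (eqv c)).1 f α
    (fun V hV J hJ l => by
      by_cases h0 : (f J).coeff l = 0
      · rw [h0, map_zero]
        exact zero_le_one
      · exact hA (eqv c) V hV _ (hfs J l h0))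
    (fun V hV J hJ => hunit (p (eqv c)) (hpD0 (eqv c)) V hV _ (hcs J) (by
      have h1 := (hcor J hJ).2 (fun _ => true)
      simpa using h1))
    Y s D₁ hgood' (hpD1 (eqv c)) (hpM (eqv c)) dd e he heE le_rfl lam
    (fun z u => C (Sum.inl ⟨z, u⟩))
    (by
      intro j u
      have h1 := (dvd_pow_self _ hM0).trans (hcm (eqv c) (Sum.inl ⟨(j, 0), u⟩))
      simpa using h1)
    (by
      intro j u
      have h1 := (dvd_pow_self _ hM0).trans (hcm (eqv c) (Sum.inl ⟨(j, 1), u⟩))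
      simpa using h1)
    (fun i a u => C (Sum.inr ⟨⟨i, a⟩, u⟩)) b
    (by
      intro i hi a u
      have h1 := htg i a u
      simp only [tgtL, if_pos hi] at h1
      exact h1)
    (by
      intro i hi a u
      have h1 := htg i a u
      simp only [tgtL, if_neg hi] at h1
      exact h1)
    y hy hyG x (fun J hJ => hz _ (hcor J hJ).1) b0 hb0 S T hind g hg0
    (fun V hV i hi a => val_int V (A₁ i a) (fun k => hcoef (h1s i a k) V hV) (hg1 i a)
      ((ValuationSubring.valuation_le_one_iff V _).2 hi))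
    (fun V hV i hi a => val_cusp V (A₂ i a) (hA₂ i a)
      (fun k l h0 => hunit (p (eqv c)) (hpD0 (eqv c)) V hV _ (h2s i a k l h0) h0) (hA₂0 i a)
      (by
        by_contra hcon
        exact hi ((ValuationSubring.valuation_le_one_iff V _).1 (not_lt.1 hcon)))
      (hg2 i a))
    (fun V hV hTV => hlam V (hΓ _ V hV) hTV)
    hzP
  omega

end Pool.Agent.TH971.SR
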