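import Pool.Agent.TH971.SR.P2

/-!
Zilber-Pink for random correspondences: the residue class.
-/

set_option autoImplicit false

open MvPolynomial

namespace Pool.Agent.TH971.SR

open Pool.Agent.W282.ZP Pool.Agent.W466.EP Pool.Agent.W466.ZP Pool.Agent.W282.RW
  Pool.Agent.TH971.RF Pool.Agent.TH971.SP

/-- The index set of the coefficients. -/
abbrev IdxP {n : ℕ} (N r : ℕ) (D : Fin n → ℕ) (dd : Fin r → ℕ) : Type :=
  Σ x : Fin r × Fin 2 × Expo D, Sym (Fin (N + 1)) (dd x.1)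

theorem exists_classP {n r m d N : ℕ} (D : Fin n → ℕ) (dd : Fin r → ℕ)
    (I : Ideal (MvPolynomial (Fin r) ℂ)) [I.IsPrime]
    (hd : Algebra.trdeg ℂ (MvPolynomial (Fin r) ℂ ⧸ I) = d)
    {κ : Type} (G : κ → MvPolynomial (Fin (N + 1)) ℂ) (hhom : ∀ k, ∃ e, (G k).IsHomogeneous e)
    (halg : ∀ k s, IsAlgebraic ℚ ((G k).coeff s))
    (hdim1 : ∃ t : Fin (m + 1) → Fin (N + 1) → ℂ, ∀ y : Fin (N + 1) → ℂ,
      (∀ k, eval y (G k) = 0) → (∀ b, ∑ j, t b j * y j = 0) → y = 0) (Γ : Finset ℂ)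
    (Q₀ : ℕ) (hQ₀ : 0 < Q₀) (C₀ : IdxP N r D dd → ℤ) :
    ∃ (K : IntermediateField ℚ ℂ) (Q : ℕ) (Gt : IdxP N r D dd → ℤ), Countable K ∧ 0 < Q ∧
      ∀ C : IdxP N r D dd → ℤ, (∀ i, (Q : ℤ) ∣ C i - Gt i) →
        (∀ i, (Q₀ : ℤ) ∣ C i - C₀ i) ∧
        ∀ (rZ : ℕ) (cls : Fin n → Option (Fin rZ)) (x : Fin n → ℂ), rZ ≤ n →
          (∀ i, cls i = none → IsIntegral (Algebra.adjoin ℤ (Γ : Set ℂ)) (x i)) →
          (∀ i i' l, cls i = some l → cls i' = some l →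
            IsIntegral (Algebra.adjoin ℤ {x i}) (x i')) →
        ∀ (y : Fin (N + 1) → ℂ) (j0 : Fin (N + 1)), y j0 = 1 → (∀ k, eval y (G k) = 0) →
          (∀ f ∈ I, homV (fun j => mevX (fun e' => ev (fun u => C ⟨(j, 0, e'), u⟩) y) x)
            (fun j => mevX (fun e' => ev (fun u => C ⟨(j, 1, e'), u⟩) y) x) f = 0) →
          ∀ (T1 : Finset (Fin (N + 1))) (T2 : Finset (Fin n)),
            AlgebraicIndependent K (Sum.elim (fun j : T1 => y j) (fun j : T2 => x j)) →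
            T1.card + T2.card + r ≤ rZ + d + m := by
  classical
  obtain ⟨f, α, β, -, hcor⟩ := exists_corners' I hd
  obtain ⟨tt, htt⟩ := hdim1
  obtain ⟨s, hs⟩ := int_forms G hhom tt htt
  obtain ⟨D₁, hD₁, hgood⟩ := good_prime G halg hhom s hs
  let Y : Set (Fin (N + 1) → ℂ) := {y | ∀ k, eval y (G k) = 0}
  have hgood' : RF.Good Y s D₁ := hgood
  let cs : Finset ℂ := ((Finset.univ.biUnion fun J : Finset (Fin r) =>
      (f J).support.image (f J).coeff) ∪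
    (Finset.univ.image fun J : Finset (Fin r) => eval (fun j : J => ((α j : ℤ) : ℂ)) (f J))) ∪ Γ
  obtain ⟨t, htau, halgt⟩ := exists_tau cs
  set τ : t → ℂ := ((↑) : t → ℂ) with hτ
  obtain ⟨D₀, hD₀, hunit⟩ := const_unit (τ := τ) cs halgt
  obtain ⟨p, O, hpinj, hpp⟩ := exists_primes ∅ (max (max D₀ D₁) (max Q₀ (0 + r + m)))
  let ι0 := (kk : Fin (n + 1)) × (Fin n → Option (Fin kk))
  let eqv : ι0 ≃ Fin (Fintype.card ι0) := Fintype.equivFin ι0
  obtain ⟨Q, Gt, hQ, hclass⟩ := exists_residue_class'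
    (κ := IdxP N r D dd) (M := Fintype.card ι0)
    (fun m => p m)
    (fun m => (hpp m).1) (fun m m' h => Fin.ext (hpinj h))
    (fun _ _ => 1)
    (fun m' x => if x.1.2.1 = 0
      then α x.1.1 * lcoef D (eqv.symm m').2 ((x.1.1 : ℕ) + 1) x.1.2.2 *
        pw _ (vdm s (0 + (x.1.1 : ℕ))) x.2
      else lcoef D (eqv.symm m').2 ((x.1.1 : ℕ) + 1) x.1.2.2 *
        pw _ (vdm s (0 + (x.1.1 : ℕ))) x.2) Q₀ hQ₀
    (fun m => ((le_max_left _ _).trans (le_max_right _ _)).trans_lt (hpp m).2.1) C₀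
  have hpD0 : ∀ m, ¬ p m ∣ D₀ := fun m h =>
    absurd (Nat.le_of_dvd hD₀ h) (not_le.2 (((le_max_left _ _).trans (le_max_left _ _)).trans_lt
      (hpp m).2.1))
  have hpD1 : ∀ m, ¬ p m ∣ D₁ := fun m h =>
    absurd (Nat.le_of_dvd hD₁ h) (not_le.2 (((le_max_right _ _).trans (le_max_left _ _)).trans_lt
      (hpp m).2.1))
  have hpM : ∀ m', 0 + r + m < p m' := fun m' =>
    ((le_max_right _ _).trans (le_max_right _ _)).trans_lt (hpp m').2.1
  -- the properties of the constants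
  have hA : ∀ m, ∀ V : ValuationSubring ℂ, SP.Good τ (p m) V → ∀ a ∈ cs, V.valuation a ≤ 1 := by
    intro m V hV a ha
    by_cases h0 : a = 0
    · rw [h0, map_zero]
      exact zero_le_one
    · exact (hunit (p m) (hpD0 m) V hV a ha h0).le
  have hfs : ∀ (J : Finset (Fin r)) l, (f J).coeff l ≠ 0 → (f J).coeff l ∈ cs := fun J l h0 =>
    Finset.mem_union_left _ (Finset.mem_union_left _
      (Finset.mem_biUnion.2 ⟨J, Finset.mem_univ _, Finset.mem_image_of_mem _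
        (MvPolynomial.mem_support_iff.2 h0)⟩))
  have hcs : ∀ J : Finset (Fin r), eval (fun j : J => ((α j : ℤ) : ℂ)) (f J) ∈ cs := fun J =>
    Finset.mem_union_left _ (Finset.mem_union_right _ (Finset.mem_image_of_mem
      (fun J : Finset (Fin r) => eval (fun j : J => ((α j : ℤ) : ℂ)) (f J)) (Finset.mem_univ J)))
  have hΓ : ∀ m', ∀ V : ValuationSubring ℂ, SP.Good τ (p m') V → ∀ γ ∈ Γ, γ ≠ 0 →
      V.valuation γ = 1 := fun m' V hV γ hγ h0 =>
    hunit (p m') (hpD0 m') V hV γ (Finset.mem_union_right _ hγ) h0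
  refine ⟨IntermediateField.adjoin ℚ (Set.range τ), Q, Gt, countable_adjoin t, hQ,
    fun C hC => ?_⟩
  obtain ⟨hc0, hcm⟩ := hclass C hC
  refine ⟨hc0, ?_⟩
  intro rZ cls x hrn hconst hrel y j0 hj0 hyG hz T1 T2 hT
  have hy : y ≠ 0 := by
    intro h0
    rw [h0] at hj0
    exact zero_ne_one hj0
  have hYs : ∀ (c : ℂ) (y : Fin (N + 1) → ℂ), y ∈ Y → c • y ∈ Y := by
    intro c y hy k
    obtain ⟨w, hw⟩ := hhom k
    rw [Pool.Agent.W466.ZC.eval_smul hw, hy k, mul_zero]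
  obtain ⟨b0, hb0, S, T, hcard, hind, -⟩ := exch_point htau hD₁ hgood' hYs (0 + r) hy hyG hj0
    x T1 T2 hT
  let c00 : ι0 := ⟨⟨0, Nat.succ_pos _⟩, fun _ => none⟩
  obtain ⟨hTr, hpat⟩ := patternG (τ := τ) (Γ := Γ) cls x hconst hrel T hind
    (hpp (eqv c00)).1 (hΓ _)
  have hkk : rZ - T.card < n + 1 := by omega
  obtain ⟨lam, hlam⟩ := hpat (rZ - T.card) (by omega)
  let c : ι0 := ⟨⟨rZ - T.card, hkk⟩, lam⟩
  have hmain := critP (kk := rZ - T.card) D (hpp (eqv c)).1 f α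
    (fun V hV J hJ l => by
      by_cases h0 : (f J).coeff l = 0
      · rw [h0, map_zero]
        exact zero_le_one
      · exact hA (eqv c) V hV _ (hfs J l h0))
    (fun V hV J hJ => hunit (p (eqv c)) (hpD0 (eqv c)) V hV _ (hcs J) (by
      have h1 := (hcor J hJ).2 (fun _ => true)
      simpa using h1))
    Y s D₁ hgood' (hpD1 (eqv c)) (hpM (eqv c)) dd lam (fun z u => C ⟨z, u⟩)
    (by
      intro j e
      constructor
      · intro u
        have h1 := hcm (eqv c) ⟨(j, 0, e), u⟩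
        rw [pow_one, Equiv.symm_apply_apply] at h1
        simpa using h1
      · intro u
        have h1 := hcm (eqv c) ⟨(j, 1, e), u⟩
        rw [pow_one, Equiv.symm_apply_apply] at h1
        simpa using h1)
    y hy hyG x (fun J hJ => hz _ (hcor J hJ).1) b0 hb0 S T hind
    (fun V hV hTV => hlam V (hΓ _ V hV) hTV)
  omega

end Pool.Agent.TH971.SR
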