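import Pool.Agent.TH971.SR.L1

/-!
Random elements of linear systems of modular functions on products: at one place most of the
components have prescribed reductions, general version (helper file for Zilber-Pink in products of
modular curves of any level).
-/

set_option autoImplicit false

open MvPolynomial

namespace Pool.Agent.TH971.SR

open Pool.Agent.W282.ZP Pool.Agent.TH971.SP

/-- The coefficients of the factor of one variable. -/
def wco {n k : ℕ} (D : Fin n → ℕ) (b : (i : Fin n) → Fin (D i + 1) → ℤ)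
    (lam : Fin n → Option (Fin k)) (S : Finset (Fin k)) (i : Fin n) (a : Fin (D i + 1)) : ℤ :=
  match lam i with
  | none => if a = 0 then 1 else 0
  | some l => if l ∈ S then b i a else if a = 0 then 1 else 0

/-- The coefficients of `∏_l (1 + c ∏_{lam i = l} s_i)`, where `s_i = ∑ b_a g_{i,a}`. -/
def lcoefB {n k : ℕ} (D : Fin n → ℕ) (b : (i : Fin n) → Fin (D i + 1) → ℤ)
    (lam : Fin n → Option (Fin k)) (c : ℤ) (e : Expo D) : ℤ :=
  ∑ S : Finset (Fin k), c ^ S.card * ∏ i, wco D b lam S i (e i)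

theorem mevG_lcoefB {n k : ℕ} (D : Fin n → ℕ) (b : (i : Fin n) → Fin (D i + 1) → ℤ)
    (lam : Fin n → Option (Fin k)) (c : ℤ)
    (g : (i : Fin n) → Fin (D i + 1) → ℂ) (hg : ∀ i, g i 0 = 1) :
    mevG (fun e => (lcoefB D b lam c e : ℂ)) g = ∏ l : Fin k, (1 + (c : ℂ) *
      ∏ i, if lam i = some l then ∑ a, (b i a : ℂ) * g i a else 1) := by
  classical
  have h0 : ∀ i, ∑ a : Fin (D i + 1), ((if a = 0 then (1 : ℤ) else 0 : ℤ) : ℂ) * g i a = 1 := by
    intro i
    rw [Finset.sum_eq_single 0]
    · rw [if_pos rfl, Int.cast_one, one_mul, hg]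
    · intro a _ ha
      rw [if_neg ha, Int.cast_zero, zero_mul]
    · intro h; exact absurd (Finset.mem_univ _) h
  have h1 : ∏ l : Fin k, (1 + (c : ℂ) *
      ∏ i, if lam i = some l then ∑ a, (b i a : ℂ) * g i a else 1) =
      ∑ S : Finset (Fin k), (c : ℂ) ^ S.card *
        ∏ i, ∑ a, ((wco D b lam S i a : ℤ) : ℂ) * g i a := by
    rw [Finset.prod_congr rfl fun l _ => add_comm (1 : ℂ) _, Finset.prod_add, Finset.powerset_univ]
    refine Finset.sum_congr rfl fun S _ => ?_
    rw [Finset.prod_const_one, mul_one, Finset.prod_mul_distrib, Finset.prod_const,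
      Finset.prod_comm]
    congr 1
    refine Finset.prod_congr rfl fun i _ => ?_
    unfold wco
    cases hl : lam i with
    | none => simp only [h0]; simp
    | some l =>
      by_cases hlS : l ∈ S
      · rw [Finset.prod_eq_single l]
        · simp [hlS]
        · intro b _ hb
          rw [if_neg]
          intro h
          exact hb (Option.some_injective _ h).symm
        · intro h; exact absurd hlS h
      · rw [Finset.prod_eq_one]
        · simp only [hlS, if_false, h0]
        · intro b hb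
          rw [if_neg]
          intro h
          have := Option.some_injective _ h
          subst this
          exact hlS hb
  rw [h1, mevG]
  simp only [lcoefB]
  push_cast
  simp only [Finset.sum_mul]
  rw [Finset.sum_comm]
  refine Finset.sum_congr rfl fun S _ => ?_
  rw [Finset.prod_univ_sum, Fintype.piFinset_univ, Finset.mul_sum]
  refine Finset.sum_congr rfl fun e _ => ?_
  rw [Finset.prod_mul_distrib, mul_assoc]

/-- All products are dominated. -/
theorem val_mevB_le (V : ValuationSubring ℂ) {n k : ℕ} (D : Fin n → ℕ)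
    (lam : Fin n → Option (Fin k)) (g : (i : Fin n) → Fin (D i + 1) → ℂ) (s : Fin n → ℂ)
    (hdom : ∀ i a, V.valuation (g i a) ≤ max 1 (V.valuation (s i)))
    (hnone : ∀ i, lam i = none → V.valuation (s i) ≤ 1)
    (hcl : ∀ l, (∀ i, lam i = some l → V.valuation (s i) ≤ 1) ∨
      (∀ i, lam i = some l → 1 ≤ V.valuation (s i)))
    (F : Expo D → ℂ) (w : V.ValueGroup) (hF : ∀ e, V.valuation (F e) ≤ w) :
    V.valuation (mevG F g) ≤ w * ∏ l : Fin k,
      max 1 (V.valuation (∏ i, if lam i = some l then s i else 1)) := by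
  classical
  set v := V.valuation with hv
  refine v.map_sum_le fun e _ => ?_
  rw [map_mul]
  refine mul_le_mul' (hF e) ?_
  rw [map_prod]
  have h1 : ∏ i, v (g i (e i)) ≤ ∏ i, max 1 (v (s i)) :=
    Finset.prod_le_prod' fun i _ => hdom i (e i)
  refine h1.trans ?_
  have h2 : ∀ i, max 1 (v (s i)) = ∏ l : Fin k,
      if lam i = some l then max 1 (v (s i)) else 1 := by
    intro i
    cases hl : lam i with
    | none =>
      have : max 1 (v (s i)) = 1 := max_eq_left (hnone i hl)
      simp [this]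
    | some l =>
      rw [Finset.prod_eq_single l]
      · simp
      · intro b _ hb
        rw [if_neg]
        intro h
        exact hb (Option.some_injective _ h).symm
      · intro h; exact absurd (Finset.mem_univ _) h
  rw [Finset.prod_congr rfl fun i _ => h2 i, Finset.prod_comm]
  refine Finset.prod_le_prod' fun l _ => ?_
  rcases hcl l with hint | hint
  · rw [Finset.prod_eq_one]
    · exact le_max_left _ _
    · intro i _
      split_ifs with h
      · rw [max_eq_left (hint i h)]
      · rfl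
  · refine le_trans (le_of_eq ?_) (le_max_right _ _)
    rw [map_prod]
    refine Finset.prod_congr rfl fun i _ => ?_
    split_ifs with h
    · rw [max_eq_right (hint i h)]
    · rw [map_one]

/-- One place: at most `k + d` components are good. -/
theorem card_labB {n k r d : ℕ} {D : Fin n → ℕ} (b : (i : Fin n) → Fin (D i + 1) → ℤ)
    (V : ValuationSubring ℂ) {p : ℕ} (hp : p.Prime)
    (hp1 : V.valuation (p : ℂ) < 1) (hpr : r < p) (lam : Fin n → Option (Fin k))
    (f : ∀ J : Finset (Fin r), MvPolynomial J ℂ) (α : Fin r → ℤ)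
    (hf : ∀ J : Finset (Fin r), J.card = d + 1 → ∀ l, V.valuation ((f J).coeff l) ≤ 1)
    (hcor : ∀ J : Finset (Fin r), J.card = d + 1 → V.valuation
      (eval (fun j : J => ((α j : ℤ) : ℂ)) (f J)) = 1)
    (cN cM : Fin r → Expo D → ℂ) (Jg : Finset (Fin r))
    (μ : Fin r → ℂ) (hμ : ∀ j ∈ Jg, V.valuation (μ j) = 1)
    (hN : ∀ j ∈ Jg, ∀ e, V.valuation (cN j e - (α j : ℂ) *
      (μ j * (lcoefB D b lam ((j : ℕ) + 1) e : ℂ))) ≤ V.valuation (p : ℂ))
    (hM : ∀ j ∈ Jg, ∀ e, V.valuation (cM j e - μ j * (lcoefB D b lam ((j : ℕ) + 1) e : ℂ)) ≤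
      V.valuation (p : ℂ))
    (g : (i : Fin n) → Fin (D i + 1) → ℂ) (hg : ∀ i, g i 0 = 1)
    (s : Fin n → ℂ) (hs : ∀ i, s i = ∑ a, (b i a : ℂ) * g i a)
    (hdom : ∀ i a, V.valuation (g i a) ≤ max 1 (V.valuation (s i)))
    (hnone : ∀ i, lam i = none → V.valuation (s i) ≤ 1)
    (hcl : ∀ l, (∀ i, lam i = some l → V.valuation (s i) ≤ 1) ∨
      (∀ i, lam i = some l → 1 ≤ V.valuation (s i)))
    (hz : ∀ J : Finset (Fin r), J.card = d + 1 →
      homV (fun j => mevG (cN j) g) (fun j => mevG (cM j) g)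
        (rename (Subtype.val : J → Fin r) (f J)) = 0) :
    Jg.card ≤ k + d := by
  classical
  by_contra hcon
  push Not at hcon
  set v := V.valuation with hv
  let yl : Fin k → ℂ := fun l => ∏ i, if lam i = some l then s i else 1
  set Y : V.ValueGroup := ∏ l : Fin k, max 1 (v (yl l)) with hY
  have hY1 : 1 ≤ Y := Finset.one_le_prod' fun l _ => le_max_left _ _
  have hY0 : 0 < Y := zero_lt_one.trans_le hY1
  let cj : Fin r → ℤ := fun j => (j : ℕ) + 1
  let Pj : Fin r → ℂ := fun j => mevG (fun e => (lcoefB D b lam (cj j) e : ℂ)) g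
  have hPj : ∀ j, Pj j = ∏ l, (1 + (cj j : ℂ) * yl l) := by
    intro j
    have h1 := mevG_lcoefB D b lam (cj j) g hg
    simp only [← hs] at h1
    exact h1
  have hcj : ∀ j, v ((cj j : ℤ) : ℂ) = 1 := by
    intro j
    refine val_int_unit V hp hp1 ?_
    intro h
    have h1 : ((p : ℕ) : ℤ) ≤ (j : ℕ) + 1 := Int.le_of_dvd (by positivity) h
    have := j.2
    omega
  have hcjj : ∀ j j', j ≠ j' → v (((cj j - cj j' : ℤ)) : ℂ) = 1 := by
    intro j j' hne
    refine val_int_unit V hp hp1 ?_
    intro h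
    have hne' : (j : ℕ) ≠ j' := fun h => hne (Fin.ext h)
    have h1 := Int.natAbs_dvd_natAbs.2 h
    have h2 : (cj j - cj j').natAbs ≠ 0 := by
      simp only [cj]
      omega
    have h3 := Nat.le_of_dvd (Nat.pos_of_ne_zero h2) h1
    simp only [cj, Int.natAbs_natCast] at h3
    have := j.2
    have := j'.2
    omega
  have hsmall := Pool.Agent.W282.ZP.RM.card_small V yl cj hcj hcjj
    (Jg.filter fun j => v (Pj j) ≠ Y)
    (fun j hj => by
      have h := (Finset.mem_filter.1 hj).2
      rwa [hPj] at h)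
  have hk : Nat.card {l : Fin k // v (yl l) = 1} ≤ k := by
    have h1 := Nat.card_le_card_of_injective (Subtype.val : {l : Fin k // v (yl l) = 1} → Fin k)
      Subtype.val_injective
    rwa [Nat.card_eq_fintype_card (α := Fin k), Fintype.card_fin] at h1
  have hlarge : d + 1 ≤ (Jg.filter fun j => v (Pj j) = Y).card := by
    have := Finset.card_filter_add_card_filter_not (s := Jg) (fun j => v (Pj j) = Y)
    have h2 : (Jg.filter fun j : Fin r => ¬ v (Pj j) = Y).card ≤
      Nat.card {l : Fin k // v (yl l) = 1} := hsmall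
    omega
  obtain ⟨J, hJ, hJc⟩ := Finset.exists_subset_card_eq hlarge
  have hJv : ∀ j ∈ J, v (Pj j) = Y := fun j hj => (Finset.mem_filter.1 (hJ hj)).2
  have hJg : ∀ j ∈ J, j ∈ Jg := fun j hj => (Finset.mem_filter.1 (hJ hj)).1
  -- the reductions
  have hdiff : ∀ (F : Expo D → ℂ), (∀ e, v (F e) ≤ v (p : ℂ)) → v (mevG F g) < Y := by
    intro F hF
    have h1 := val_mevB_le V D lam g s hdom hnone hcl F (v (p : ℂ)) hF
    refine lt_of_le_of_lt h1 ?_
    calc v (p : ℂ) * Y < 1 * Y := mul_lt_mul_of_pos_right hp1 hY0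
      _ = Y := one_mul _
  have hsub : ∀ (F G : Expo D → ℂ) (a : ℂ),
      mevG (fun e => F e - a * G e) g = mevG F g - a * mevG G g := by
    intro F G a
    rw [mevG, mevG, mevG, Finset.mul_sum, ← Finset.sum_sub_distrib]
    refine Finset.sum_congr rfl fun e _ => ?_
    ring
  set Nz : Fin r → ℂ := fun j => mevG (cN j) g with hNz
  set Mz : Fin r → ℂ := fun j => mevG (cM j) g with hMz
  have hred : ∀ j ∈ J, Mz j ≠ 0 ∧ v (Nz j / Mz j - (α j : ℂ)) < 1 := by
    intro j hj
    have hμj := hμ j (hJg j hj)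
    have hP1 : v (μ j * Pj j) = Y := by rw [map_mul, hμj, one_mul, hJv j hj]
    have hP0 : μ j * Pj j ≠ 0 := by
      intro h0
      rw [h0, map_zero] at hP1
      exact hY0.ne hP1
    have h1 : v (Nz j - (α j : ℂ) * (μ j * Pj j)) < Y := by
      have := hdiff (fun e => cN j e - ((α j : ℂ) * μ j) * (lcoefB D b lam (cj j) e : ℂ)) (fun e => by
        rw [mul_assoc]
        exact hN j (hJg j hj) e)
      rwa [hsub, mul_assoc] at this
    have h2 : v (Mz j - μ j * Pj j) < Y := by
      have := hdiff (fun e => cM j e - μ j * (lcoefB D b lam (cj j) e : ℂ)) (hM j (hJg j hj))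
      rwa [hsub] at this
    have h3 : v (Nz j / (μ j * Pj j) - (α j : ℂ)) < 1 := by
      have h4 : Nz j / (μ j * Pj j) - (α j : ℂ) =
          (Nz j - (α j : ℂ) * (μ j * Pj j)) / (μ j * Pj j) := by
        rw [sub_div, mul_div_cancel_right₀ _ hP0]
      rw [h4, map_div₀, hP1]
      exact (div_lt_one₀ hY0).2 h1
    have h4 : v (Mz j / (μ j * Pj j) - 1) < 1 := by
      have h5 : Mz j / (μ j * Pj j) - 1 = (Mz j - μ j * Pj j) / (μ j * Pj j) := by
        rw [sub_div, div_self hP0]
      rw [h5, map_div₀, hP1]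
      exact (div_lt_one₀ hY0).2 h2
    obtain ⟨h5, h6⟩ := val_div_sub_lt V (Nz j / (μ j * Pj j)) (Mz j / (μ j * Pj j)) (α j : ℂ)
      (int_le V _) h3 h4
    rw [div_div_div_cancel_right₀ hP0] at h6
    refine ⟨?_, h6⟩
    intro h7
    rw [h7, zero_div] at h5
    exact h5 rfl
  have hdeg : ∀ i, (rename (Subtype.val : J → Fin r) (f J)).degreeOf i ≠ 0 → i ∈ J := by
    intro i hi
    by_contra hiJ
    apply hi
    rw [← Nat.le_zero, degreeOf_le_iff]
    intro k hk
    obtain ⟨k', rfl, -⟩ := coeff_rename_ne_zero _ _ _ (mem_support_iff.1 hk)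
    rw [Finsupp.mapDomain_of_notMem_range]
    rintro ⟨j, rfl⟩
    exact hiJ j.2
  have h1 := hz J hJc
  rw [homV_eq _ _ _ (fun i hi => (hred i (hdeg i hi)).1)] at h1
  have h2 := (mul_eq_zero.1 h1).resolve_left (Finset.prod_ne_zero_iff.2 fun i _ => by
    by_cases hi : (rename (Subtype.val : J → Fin r) (f J)).degreeOf i = 0
    · rw [hi, pow_zero]
      exact one_ne_zero
    · exact pow_ne_zero _ (hred i (hdeg i hi)).1)
  rw [eval_rename] at h2
  have h3 := val_aeval_sub_lt V (f J) (fun l => hf J hJc l) (fun j : J => Nz j / Mz j)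
    (fun j : J => ((α j : ℤ) : ℂ)) (fun j => (hred j j.2).2) (fun j => int_le V _)
  have h2' : aeval (fun j : J => Nz j / Mz j) (f J) = 0 := by
    rw [aeval_eq_eval]
    exact h2
  rw [h2', zero_sub, Valuation.map_neg, aeval_eq_eval, hcor J hJc] at h3
  exact lt_irrefl _ h3

end Pool.Agent.TH971.SR
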