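import Pool.Agent.TH971.SP.A2

/-!
Moving a valuation ring of `ℂ` by an automorphism which fixes a subfield and multiplies
algebraically independent numbers by constants (helper file for Pink's conjecture for random
subvarieties of abelian schemes).
-/

set_option autoImplicit false

open MvPolynomial

namespace Pool.Agent.TH971.SR

open Pool.Agent.TH971.SP

theorem exists_twist {k : Type} [Field k] [Algebra k ℂ] {ι : Type} (x : ι → ℂ)
    (hx : AlgebraicIndependent k x) (a : ι → k) (ha : ∀ i, a i ≠ 0) :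
    ∃ φ : ℂ ≃+* ℂ, (∀ z : k, φ (algebraMap k ℂ z) = algebraMap k ℂ z) ∧
      ∀ i, φ (x i) = algebraMap k ℂ (a i) * x i := by
  classical
  have hr : AlgebraicIndepOn k id (Set.range x) := hx.coe_range
  obtain ⟨s, hxs, hs⟩ := exists_isTranscendenceBasis_superset hr
  let b : s → k := fun z => if h : ∃ i, x i = z then a h.choose else 1
  have hb : ∀ z, b z ≠ 0 := by
    intro z
    by_cases h : ∃ i, x i = z
    · simp only [b, dif_pos h]
      exact ha _
    · simp only [b, dif_neg h]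
      exact one_ne_zero
  have hbx : ∀ i, b ⟨x i, hxs ⟨i, rfl⟩⟩ = a i := by
    intro i
    have h : ∃ j, x j = x i := ⟨i, rfl⟩
    have h1 : b ⟨x i, hxs ⟨i, rfl⟩⟩ = a h.choose := dif_pos h
    rw [h1]
    congr 1
    exact hx.injective h.choose_spec
  let e0 : MvPolynomial s k ≃ₐ[k] MvPolynomial s k :=
    AlgEquiv.ofAlgHom (aeval fun i => C (b i) * X i) (aeval fun i => C (b i)⁻¹ * X i)
      (by
        refine MvPolynomial.algHom_ext fun i => ?_
        rw [AlgHom.comp_apply, aeval_X, map_mul, aeval_X, aeval_C, ← mul_assoc, algebraMap_eq,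
          ← C_mul, inv_mul_cancel₀ (hb i), C_1, one_mul]
        rfl)
      (by
        refine MvPolynomial.algHom_ext fun i => ?_
        rw [AlgHom.comp_apply, aeval_X, map_mul, aeval_X, aeval_C, ← mul_assoc, algebraMap_eq,
          ← C_mul, mul_inv_cancel₀ (hb i), C_1, one_mul]
        rfl)
  let ε := hs.1.aevalEquiv
  let e : Algebra.adjoin k (Set.range ((↑) : s → ℂ)) ≃+* Algebra.adjoin k (Set.range ((↑) : s → ℂ)) :=
    ((ε.symm.trans e0).trans ε).toRingEquiv
  have := IsAlgClosed.isAlgClosure_of_transcendence_basis _ hs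
  let φ : ℂ ≃+* ℂ := IsAlgClosure.equivOfEquiv ℂ ℂ e
  have hφ : ∀ f : MvPolynomial s k, φ (aeval ((↑) : s → ℂ) f) = aeval ((↑) : s → ℂ) (e0 f) := by
    intro f
    have h1 : aeval ((↑) : s → ℂ) f = algebraMap (Algebra.adjoin k (Set.range ((↑) : s → ℂ))) ℂ
        (ε f) := (AlgebraicIndependent.algebraMap_aevalEquiv hs.1 f).symm
    rw [h1]
    have h2 := IsAlgClosure.equivOfEquiv_algebraMap ℂ ℂ e (ε f)
    change φ _ = _ at h2
    rw [h2]
    have h3 : e (ε f) = ε (e0 f) := by
      change ε (e0 (ε.symm (ε f))) = _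
      rw [AlgEquiv.symm_apply_apply]
    rw [h3]
    exact AlgebraicIndependent.algebraMap_aevalEquiv hs.1 (e0 f)
  refine ⟨φ, fun z => ?_, fun i => ?_⟩
  · have h1 := hφ (C z)
    rw [aeval_C] at h1
    have h2 : e0 (C z) = C z := e0.commutes z
    rw [h2, aeval_C] at h1
    exact h1
  · have h1 := hφ (X ⟨x i, hxs ⟨i, rfl⟩⟩)
    rw [aeval_X] at h1
    have h2 : e0 (X ⟨x i, hxs ⟨i, rfl⟩⟩) = C (b ⟨x i, hxs ⟨i, rfl⟩⟩) * X ⟨x i, hxs ⟨i, rfl⟩⟩ :=
      aeval_X _ _
    rw [h2, map_mul, aeval_C, aeval_X, hbx] at h1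
    exact h1

section comap

variable (V : ValuationSubring ℂ) (φ : ℂ ≃+* ℂ)

theorem comap_le_one (z : ℂ) : (V.comap φ.toRingHom).valuation z ≤ 1 ↔ V.valuation (φ z) ≤ 1 := by
  rw [ValuationSubring.valuation_le_one_iff, ValuationSubring.valuation_le_one_iff]
  rfl

theorem comap_le {z w : ℂ} : (V.comap φ.toRingHom).valuation z ≤ (V.comap φ.toRingHom).valuation w ↔
    V.valuation (φ z) ≤ V.valuation (φ w) := by
  by_cases hw : w = 0
  · rw [hw, map_zero, map_zero, map_zero, le_zero_iff, le_zero_iff, map_eq_zero, map_eq_zero,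
      EmbeddingLike.map_eq_zero_iff]
  · have h1 : (V.comap φ.toRingHom).valuation w ≠ 0 := (map_ne_zero _).2 hw
    have h2 : V.valuation (φ w) ≠ 0 := (map_ne_zero _).2 ((map_ne_zero φ).2 hw)
    have h3 := comap_le_one V φ (z / w)
    rw [map_div₀, map_div₀, map_div₀, div_le_one₀ (zero_lt_iff.2 h1),
      div_le_one₀ (zero_lt_iff.2 h2)] at h3
    exact h3

theorem comap_lt {z w : ℂ} : (V.comap φ.toRingHom).valuation z < (V.comap φ.toRingHom).valuation w ↔
    V.valuation (φ z) < V.valuation (φ w) := by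
  rw [lt_iff_le_not_ge, lt_iff_le_not_ge, comap_le, comap_le]

theorem comap_eq {z w : ℂ} : (V.comap φ.toRingHom).valuation z = (V.comap φ.toRingHom).valuation w ↔
    V.valuation (φ z) = V.valuation (φ w) := by
  rw [le_antisymm_iff, le_antisymm_iff, comap_le, comap_le]

theorem comap_eq_one {z : ℂ} : (V.comap φ.toRingHom).valuation z = 1 ↔ V.valuation (φ z) = 1 := by
  have h := comap_eq V φ (z := z) (w := 1)
  rwa [map_one, map_one, map_one] at h

theorem comap_lt_one {z : ℂ} : (V.comap φ.toRingHom).valuation z < 1 ↔ V.valuation (φ z) < 1 := by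
  have h := comap_lt V φ (z := z) (w := 1)
  rwa [map_one, map_one, map_one] at h

end comap

/-- Moving a good place. -/
theorem exists_moved {κ ι : Type} {τ : κ → ℂ} {p : ℕ} {V : ValuationSubring ℂ} (hV : Good τ p V)
    {k : Type} [Field k] [Algebra k ℂ] (hτ : ∀ i, ∃ z : k, algebraMap k ℂ z = τ i) (x : ι → ℂ)
    (hx : AlgebraicIndependent k x) (hx1 : ∀ i, V.valuation (x i) = 1) (b : ι → ℂ)
    (R : ι → ℕ) (hR : ∀ i, 0 < R i) (hbk : ∀ i, ∃ a : k, algebraMap k ℂ a ^ R i * b i = 1) :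
    ∃ V' : ValuationSubring ℂ, Good τ p V' ∧
      (∀ z w : k, V'.valuation (algebraMap k ℂ z) ≤ V'.valuation (algebraMap k ℂ w) ↔
        V.valuation (algebraMap k ℂ z) ≤ V.valuation (algebraMap k ℂ w)) ∧
      ∀ i, V'.valuation (x i ^ R i * b i) = 1 := by
  choose a ha using hbk
  have ha0 : ∀ i, a i ≠ 0 := by
    intro i h0
    have h1 := ha i
    rw [h0, map_zero, zero_pow (hR i).ne', zero_mul] at h1
    exact zero_ne_one h1
  obtain ⟨φ, hφ1, hφ2⟩ := exists_twist x hx a ha0
  have hφτ : ∀ i, φ (τ i) = τ i := by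
    intro i
    obtain ⟨z, hz⟩ := hτ i
    rw [← hz, hφ1]
  have hφf : ∀ f : MvPolynomial κ ℤ, φ (aeval τ f) = aeval τ f := by
    intro f
    have h1 : (φ : ℂ →+* ℂ).comp (aeval τ : MvPolynomial κ ℤ →ₐ[ℤ] ℂ).toRingHom =
        (aeval τ : MvPolynomial κ ℤ →ₐ[ℤ] ℂ).toRingHom := by
      refine MvPolynomial.ringHom_ext (fun z => ?_) (fun i => ?_)
      · simp
      · simp only [RingHom.comp_apply, AlgHom.toRingHom_eq_coe, RingHom.coe_coe, aeval_X]
        exact hφτ i
    exact congrArg (fun g : MvPolynomial κ ℤ →+* ℂ => g f) h1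
  have hb : ∀ i, φ (b i) = b i := by
    intro i
    have h1 : b i = algebraMap k ℂ ((a i)⁻¹ ^ R i) := by
      rw [map_pow, map_inv₀, inv_pow]
      exact eq_inv_of_mul_eq_one_right (ha i)
    rw [h1, hφ1]
  refine ⟨V.comap φ.toRingHom, ⟨?_, ?_, ?_, ?_⟩, ?_, ?_⟩
  · rw [ValuationSubring.mem_nonunits_iff, comap_lt_one, map_natCast]
    exact hV.lt
  · intro i
    rw [← ValuationSubring.valuation_le_one_iff, comap_le_one, hφτ,
      ValuationSubring.valuation_le_one_iff]
    exact hV.mem i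
  · intro f hf
    rw [comap_eq_one, hφf]
    exact hV.gauss f hf
  · intro z
    obtain ⟨M, hM⟩ := hV.arch (φ z)
    refine ⟨M, ?_⟩
    rw [← map_pow, ← map_mul, comap_le_one, map_mul, map_pow, map_natCast, map_mul, map_pow]
    exact hM
  · intro z w
    rw [comap_le, hφ1, hφ1]
  · intro i
    rw [comap_eq_one, map_mul, map_pow, hφ2, hb, mul_pow, map_mul, map_mul, map_pow V.valuation (x i),
      hx1, one_pow, mul_one, ← map_mul, ha, map_one]

end Pool.Agent.TH971.SR
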