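import Pool.Agent.TH971.SP.B1

/-!
Forms in several pairs of variables with complex coefficients which are close to a product: at one
place most of the components of the map have prescribed reductions, unless many coordinates have
prescribed values (helper file for Pink's conjecture for random subvarieties of abelian schemes).
-/

set_option autoImplicit false

open MvPolynomial

namespace Pool.Agent.TH971.SR

open Pool.Agent.W282.ZP Pool.Agent.TH971.SP

variable {ι : Type} [Fintype ι] [DecidableEq ι] {D : ι → ℕ}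

/-- The value of the form of multidegree `D` with coefficients `c` at the point with homogeneous
coordinates `h i`. -/
def mevC (c : ((i : ι) → Fin (D i + 1)) → ℂ) (h : ι → ℂ × ℂ) : ℂ :=
  ∑ e, c e * ∏ i, ((h i).1 ^ (e i : ℕ) * (h i).2 ^ (D i - (e i : ℕ)))

/-- the coefficients of `lam Z ^ m + a X ^ m` -/
def tgC (lam a : ℂ) (m l : ℕ) : ℂ := if l = 0 then lam else if l = m then a else 0

/-- The coefficients of `∏_i (lam_i Z_i ^ D_i + p ^ ω_i X_i ^ D_i)`. -/
def pcC (p : ℕ) (ω : ι → ℕ) (lam : ι → ℂ) (e : (i : ι) → Fin (D i + 1)) : ℂ :=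
  ∏ i, tgC (lam i) ((p : ℂ) ^ ω i) (D i) (e i)

theorem mevC_pcC (hD : ∀ i, 0 < D i) (p : ℕ) (ω : ι → ℕ) (lam : ι → ℂ) (h : ι → ℂ × ℂ) :
    mevC (D := D) (pcC p ω lam) h =
      ∏ i, (lam i * (h i).2 ^ D i + (p : ℂ) ^ ω i * (h i).1 ^ D i) := by
  classical
  have h1 : ∀ i, (lam i * (h i).2 ^ D i + (p : ℂ) ^ ω i * (h i).1 ^ D i) =
      ∑ l : Fin (D i + 1), tgC (lam i) ((p : ℂ) ^ ω i) (D i) l *
        ((h i).1 ^ (l : ℕ) * (h i).2 ^ (D i - (l : ℕ))) := by
    intro i
    have hDi := hD i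
    generalize hd : D i = m at hDi
    obtain ⟨k, rfl⟩ : ∃ k, m = k + 1 := ⟨m - 1, by omega⟩
    rw [Fin.sum_univ_succ, Fin.sum_univ_castSucc]
    have h1 : ∀ l : Fin k, tgC (lam i) ((p : ℂ) ^ ω i) (k + 1)
        (l.castSucc.succ : Fin (k + 1 + 1)) = 0 := by
      intro l
      have hl := l.2
      simp only [tgC, Fin.val_succ, Fin.val_castSucc]
      rw [if_neg (by omega), if_neg (by omega)]
    rw [Finset.sum_eq_zero fun l _ => by rw [h1 l, zero_mul]]
    simp only [tgC, Fin.val_zero, if_true, Fin.val_succ, Fin.val_last]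
    rw [if_neg (by omega)]
    simp
  rw [Finset.prod_congr rfl fun i _ => h1 i, Finset.prod_univ_sum, Fintype.piFinset_univ, mevC]
  refine Finset.sum_congr rfl fun e _ => ?_
  rw [pcC, ← Finset.prod_mul_distrib]

section place

variable (V : ValuationSubring ℂ) {p : ℕ}

/-- the value of a factor -/
theorem factor_valC {ω D : ℕ} (hD : 0 < D) {h : ℂ × ℂ} (hh : Nrm h) (lam : ℂ)
    (hl : V.valuation lam = 1)
    (hbr : ¬ (h.2 = 1 ∧ V.valuation h.1 ^ D * V.valuation (p : ℂ) ^ ω = 1)) :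
    V.valuation (lam * h.2 ^ D + (p : ℂ) ^ ω * h.1 ^ D) = sz V p ω D h := by
  have hv : V.valuation ((p : ℂ) ^ ω * h.1 ^ D) =
      V.valuation (p : ℂ) ^ ω * V.valuation h.1 ^ D := by
    rw [map_mul, map_pow, map_pow]
  rcases hh with hh | rfl
  · rw [hh, one_pow, mul_one, sz, hh, map_one, one_pow]
    rcases lt_trichotomy (V.valuation (p : ℂ) ^ ω * V.valuation h.1 ^ D) 1 with h1 | h1 | h1
    · rw [max_eq_left h1.le, Valuation.map_add_eq_of_lt_left, hl]
      rw [hv, hl]
      exact h1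
    · exact absurd ⟨hh, by rw [mul_comm]; exact h1⟩ hbr
    · rw [max_eq_right h1.le, add_comm, Valuation.map_add_eq_of_lt_left, hv]
      rw [hv, hl]
      exact h1
  · rw [zero_pow hD.ne', mul_zero, zero_add, hv, sz, map_zero, zero_pow hD.ne',
      max_eq_right zero_le]

end place

/-- One place: at least `card Jg - d` coordinates are typical. -/
theorem card_brC (hD : ∀ i, 0 < D i) {r d : ℕ} (V : ValuationSubring ℂ) {p : ℕ} (hp : p.Prime)
    (hp1 : V.valuation (p : ℂ) < 1) (ω : Fin r → ι → ℕ)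
    (hω : ∀ i j j', j ≠ j' → ω j i ≠ ω j' i)
    (f : ∀ J : Finset (Fin r), MvPolynomial J ℂ) (α : Fin r → ℤ)
    (hf : ∀ J : Finset (Fin r), J.card = d + 1 → ∀ l, V.valuation ((f J).coeff l) ≤ 1)
    (hcor : ∀ J : Finset (Fin r), J.card = d + 1 → V.valuation
      (eval (fun j : J => ((α j : ℤ) : ℂ)) (f J)) = 1)
    (cN cM : Fin r → ((i : ι) → Fin (D i + 1)) → ℂ) (Jg : Finset (Fin r))
    (μ : Fin r → ℂ) (lam : Fin r → ι → ℂ) (hμ : ∀ j ∈ Jg, V.valuation (μ j) = 1)
    (hlam : ∀ j ∈ Jg, ∀ i, V.valuation (lam j i) = 1)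
    (hN : ∀ j ∈ Jg, ∀ e, V.valuation (cN j e - (α j : ℂ) * (μ j * pcC p (ω j) (lam j) e)) ≤
      V.valuation (p : ℂ) ^ ((∑ i, ω j i) + 1))
    (hM : ∀ j ∈ Jg, ∀ e, V.valuation (cM j e - μ j * pcC p (ω j) (lam j) e) ≤
      V.valuation (p : ℂ) ^ ((∑ i, ω j i) + 1))
    (h : ι → ℂ × ℂ) (hh : ∀ i, Nrm (h i))
    (hz : ∀ J : Finset (Fin r), J.card = d + 1 →
      homV (fun j => mevC (cN j) h) (fun j => mevC (cM j) h)
        (rename (Subtype.val : J → Fin r) (f J)) = 0)
    (Br : Finset ι)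
    (hBr : ∀ i, i ∉ Br → ∀ j ∈ Jg, ¬ ((h i).2 = 1 ∧
      V.valuation (h i).1 ^ D i * V.valuation (p : ℂ) ^ ω j i = 1)) :
    Jg.card ≤ Br.card + d := by
  classical
  by_contra hcon
  push Not at hcon
  set v := V.valuation with hv
  have hp0 := hp.ne_zero
  have hpv : v (p : ℂ) ≠ 0 := (map_ne_zero _).2 (by exact_mod_cast hp0)
  have hpos : 0 < v (p : ℂ) := zero_lt_iff.2 hpv
  let S : Fin r → ι → V.ValueGroup := fun j i => sz V p (ω j i) (D i) (h i)
  let Y : Fin r → V.ValueGroup := fun j => ∏ i, S j i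
  have hS0 : ∀ j i, 0 < S j i := fun j i => sz_pos V hp0 (hh i)
  have hY0 : ∀ j, 0 < Y j := by
    intro j
    rw [zero_lt_iff]
    exact Finset.prod_ne_zero_iff.2 fun i _ => (hS0 j i).ne'
  let Pj : Fin r → ℂ := fun j => mevC (D := D) (pcC p (ω j) (lam j)) h
  have hPj : ∀ j, Pj j = ∏ i, (lam j i * (h i).2 ^ D i + (p : ℂ) ^ ω j i * (h i).1 ^ D i) :=
    fun j => mevC_pcC hD p (ω j) (lam j) h
  -- the small components
  let Sm : Finset (Fin r) := Jg.filter fun j => v (Pj j) ≠ Y j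
  have hSm : Sm.card ≤ Br.card := by
    have h1 : ∀ j : Sm, ∃ i : ι, i ∈ Br ∧ ((h i).2 = 1 ∧
        v (h i).1 ^ D i * v (p : ℂ) ^ ω j i = 1) := by
      intro j
      by_contra hcon'
      push Not at hcon'
      have hjg : (j : Fin r) ∈ Jg := (Finset.mem_filter.1 j.2).1
      apply (Finset.mem_filter.1 j.2).2
      rw [hPj, map_prod]
      refine Finset.prod_congr rfl fun i _ => ?_
      refine factor_valC V (hD i) (hh i) (lam j i) (hlam j hjg i) ?_
      rintro ⟨h3, h4⟩
      by_cases hi : i ∈ Br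
      · exact hcon' i hi h3 h4
      · exact hBr i hi j hjg ⟨h3, h4⟩
    choose g hg using h1
    have hinj : Function.Injective (fun j : Sm => (⟨g j, (hg j).1⟩ : Br)) := by
      intro j j' hjj
      by_contra hne
      have hjj' : g j = g j' := congrArg Subtype.val hjj
      have h2 := (hg j).2.2
      have h3 := (hg j').2.2
      rw [← hjj'] at h3
      have h4 : v (p : ℂ) ^ ω j (g j) = v (p : ℂ) ^ ω j' (g j) := by
        refine mul_left_cancel₀ (a := v (h (g j)).1 ^ D (g j)) ?_ (h2.trans h3.symm)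
        intro h0
        rw [h0, zero_mul] at h2
        exact zero_ne_one h2
      exact hω (g j) j j' (fun h => hne (Subtype.ext h)) (pow_right_injective₀ hpos hp1.ne h4)
    have h5 := Fintype.card_le_of_injective _ hinj
    simpa using h5
  have hlarge : d + 1 ≤ (Jg.filter fun j => v (Pj j) = Y j).card := by
    have := Finset.card_filter_add_card_filter_not (s := Jg) (fun j => v (Pj j) = Y j)
    have h2 : (Jg.filter fun j : Fin r => ¬ v (Pj j) = Y j).card ≤ Br.card := hSm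
    omega
  obtain ⟨J, hJ, hJc⟩ := Finset.exists_subset_card_eq hlarge
  have hJv : ∀ j ∈ J, v (Pj j) = Y j := fun j hj => (Finset.mem_filter.1 (hJ hj)).2
  have hJg : ∀ j ∈ J, j ∈ Jg := fun j hj => (Finset.mem_filter.1 (hJ hj)).1
  -- the reductions
  have hdiff : ∀ (j : Fin r) (F : ((i : ι) → Fin (D i + 1)) → ℂ),
      (∀ e, v (F e) ≤ v (p : ℂ) ^ ((∑ i, ω j i) + 1)) → v (mevC F h) < Y j := by
    intro j F hF
    refine Valuation.map_sum_lt _ (hY0 j).ne' fun e _ => ?_
    rw [map_mul]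
    calc v (F e) * v (∏ i, ((h i).1 ^ (e i : ℕ) * (h i).2 ^ (D i - (e i : ℕ))))
        ≤ v (p : ℂ) ^ ((∑ i, ω j i) + 1) *
          v (∏ i, ((h i).1 ^ (e i : ℕ) * (h i).2 ^ (D i - (e i : ℕ)))) := mul_le_mul_left (hF e) _
      _ = v (p : ℂ) * ∏ i, (v (p : ℂ) ^ ω j i *
          v ((h i).1 ^ (e i : ℕ) * (h i).2 ^ (D i - (e i : ℕ)))) := by
          rw [pow_succ, ← Finset.prod_pow_eq_pow_sum, map_prod, Finset.prod_mul_distrib]
          ac_rfl
      _ ≤ v (p : ℂ) * Y j := by
          refine mul_le_mul' le_rfl ?_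
          exact Finset.prod_le_prod' fun i _ => sz_ge V hp1 (hh i) (e i)
      _ < 1 * Y j := mul_lt_mul_of_pos_right hp1 (hY0 j)
      _ = Y j := one_mul _
  have hsub : ∀ (F G : ((i : ι) → Fin (D i + 1)) → ℂ) (a : ℂ),
      mevC (fun e => F e - a * G e) h = mevC F h - a * mevC G h := by
    intro F G a
    rw [mevC, mevC, mevC, Finset.mul_sum, ← Finset.sum_sub_distrib]
    refine Finset.sum_congr rfl fun e _ => ?_
    ring
  set Nz : Fin r → ℂ := fun j => mevC (cN j) h with hNz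
  set Mz : Fin r → ℂ := fun j => mevC (cM j) h with hMz
  have hred : ∀ j ∈ J, Mz j ≠ 0 ∧ v (Nz j / Mz j - (α j : ℂ)) < 1 := by
    intro j hj
    have hμj := hμ j (hJg j hj)
    have hμ0 : μ j ≠ 0 := by
      intro h0
      rw [h0, map_zero] at hμj
      exact zero_ne_one hμj
    have hP1 : v (μ j * Pj j) = Y j := by rw [map_mul, hμj, one_mul, hJv j hj]
    have hP0 : μ j * Pj j ≠ 0 := by
      intro h0
      rw [h0, map_zero] at hP1
      exact (hY0 j).ne hP1
    have h1 : v (Nz j - (α j : ℂ) * (μ j * Pj j)) < Y j := by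
      have := hdiff j (fun e => cN j e - ((α j : ℂ) * μ j) * pcC p (ω j) (lam j) e) (fun e => by
        rw [mul_assoc]
        exact hN j (hJg j hj) e)
      rwa [hsub, mul_assoc] at this
    have h2 : v (Mz j - μ j * Pj j) < Y j := by
      have := hdiff j (fun e => cM j e - μ j * pcC p (ω j) (lam j) e) (hM j (hJg j hj))
      rwa [hsub] at this
    have h3 : v (Nz j / (μ j * Pj j) - (α j : ℂ)) < 1 := by
      have h4 : Nz j / (μ j * Pj j) - (α j : ℂ) =
          (Nz j - (α j : ℂ) * (μ j * Pj j)) / (μ j * Pj j) := by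
        rw [sub_div, mul_div_cancel_right₀ _ hP0]
      rw [h4, map_div₀, hP1]
      exact (div_lt_one₀ (hY0 j)).2 h1
    have h4 : v (Mz j / (μ j * Pj j) - 1) < 1 := by
      have h5 : Mz j / (μ j * Pj j) - 1 = (Mz j - μ j * Pj j) / (μ j * Pj j) := by
        rw [sub_div, div_self hP0]
      rw [h5, map_div₀, hP1]
      exact (div_lt_one₀ (hY0 j)).2 h2
    obtain ⟨h5, h6⟩ := val_div_sub_lt V (Nz j / (μ j * Pj j)) (Mz j / (μ j * Pj j)) (α j : ℂ)
      (int_le V _) h3 h4
    rw [div_div_div_cancel_right₀ hP0] at h6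
    refine ⟨?_, h6⟩
    intro h7
    rw [h7, zero_div] at h5
    exact h5 rfl
  have hdeg : ∀ i, (rename (Subtype.val : J → Fin r) (f J)).degreeOf i ≠ 0 → i ∈ J := by
    intro i hi
    by_contra hiJ
    apply hi
    rw [← Nat.le_zero, degreeOf_le_iff]
    intro k hk
    obtain ⟨k', rfl, -⟩ := coeff_rename_ne_zero _ _ _ (mem_support_iff.1 hk)
    rw [Finsupp.mapDomain_of_notMem_range]
    rintro ⟨j, rfl⟩
    exact hiJ j.2
  have h1 := hz J hJc
  rw [homV_eq _ _ _ (fun i hi => (hred i (hdeg i hi)).1)] at h1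
  have h2 := (mul_eq_zero.1 h1).resolve_left (Finset.prod_ne_zero_iff.2 fun i _ => by
    by_cases hi : (rename (Subtype.val : J → Fin r) (f J)).degreeOf i = 0
    · rw [hi, pow_zero]
      exact one_ne_zero
    · exact pow_ne_zero _ (hred i (hdeg i hi)).1)
  rw [eval_rename] at h2
  have h3 := val_aeval_sub_lt V (f J) (fun l => hf J hJc l) (fun j : J => Nz j / Mz j)
    (fun j : J => ((α j : ℤ) : ℂ)) (fun j => (hred j j.2).2) (fun j => int_le V _)
  have h2' : aeval (fun j : J => Nz j / Mz j) (f J) = 0 := by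
    rw [aeval_eq_eval]
    exact h2
  rw [h2', zero_sub, Valuation.map_neg, aeval_eq_eval, hcor J hJc] at h3
  exact lt_irrefl _ h3

/-- The multihomogenization after scaling. -/
theorem homV_scale {κ : Type} [Fintype κ] (N M s : κ → ℂ) (f : MvPolynomial κ ℂ) :
    homV (fun j => s j * N j) (fun j => s j * M j) f = (∏ j, s j ^ f.degreeOf j) * homV N M f := by
  classical
  rw [homV, homV, Finset.mul_sum]
  refine Finset.sum_congr rfl fun k hk => ?_
  rw [mul_left_comm, ← Finset.prod_mul_distrib]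
  congr 1
  refine Finset.prod_congr rfl fun i _ => ?_
  have hki : k i ≤ f.degreeOf i := monomial_le_degreeOf i hk
  rw [mul_pow, mul_pow]
  have h1 : s i ^ f.degreeOf i = s i ^ (k i) * s i ^ (f.degreeOf i - k i) := by
    rw [← pow_add, Nat.add_sub_cancel' hki]
  rw [h1]
  ring

end Pool.Agent.TH971.SR
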