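import Pool.Agent.TH971.SP.B2
import Pool.Agent.TH971.SR.R1
import Pool.Agent.TH971.SR.R2

/-!
The argument at one place with different levels for the different components (helper file for
Pink's conjecture for random subvarieties of abelian schemes).
-/

set_option autoImplicit false

open MvPolynomial

namespace Pool.Agent.TH971.SR

open Pool.Agent.W282.ZP Pool.Agent.W466.EP Pool.Agent.TH971.RF Pool.Agent.TH971.SP

/-- The homogeneous coordinates of a point after scaling. -/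
noncomputable def hcz {n : ℕ} {q : Fin n → ℕ} {k : ℕ} {A B : Fin n → ℂ} (z : Fin n → ℂ)
    (P : ∀ i, Fin (q i) → (crv (A i) (B i)).Point) (u : Fin k → ℂ) : Ix q k → ℂ × ℂ :=
  open Classical in
  Sum.elim (fun j => if P j.1 j.2 = 0 then (1, 0) else (z j.1 ^ 2 * xx (P j.1 j.2), 1))
    (fun w => (u w, 1))

theorem hcz_nrm {n : ℕ} {q : Fin n → ℕ} {k : ℕ} {A B : Fin n → ℂ} (z : Fin n → ℂ)
    (P : ∀ i, Fin (q i) → (crv (A i) (B i)).Point) (u : Fin k → ℂ) (j : Ix q k) :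
    Nrm (hcz z P u j) := by
  classical
  rcases j with j | w
  · by_cases h : P j.1 j.2 = 0
    · right
      simp [hcz, h]
    · left
      simp [hcz, h]
  · left
    rfl

theorem hcz_fin {n : ℕ} {q : Fin n → ℕ} {k : ℕ} {A B : Fin n → ℂ} (z : Fin n → ℂ)
    (P : ∀ i, Fin (q i) → (crv (A i) (B i)).Point) (u : Fin k → ℂ)
    (j : (i : Fin n) × Fin (q i)) (h : (hcz z P u (Sum.inl j)).2 = 1) :
    (hcz z P u (Sum.inl j)).1 = z j.1 ^ 2 * xx (P j.1 j.2) := by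
  classical
  by_cases h0 : P j.1 j.2 = 0
  · rw [show hcz z P u (Sum.inl j) = (1, 0) by simp [hcz, h0]] at h
    exact absurd h zero_ne_one
  · simp [hcz, h0]

/-- The exponents. -/
def ExR {n : ℕ} {q : Fin n → ℕ} {k : ℕ} (D : Ix q k → ℕ) (e : ((i : Fin n) × Fin (q i)) → ℕ)
    (t j : ℕ) : Ix q k → ℕ :=
  Sum.elim (fun l => e l + D (Sum.inl l) * (j + 1)) (fun w => (j + 1) * t ^ (w : ℕ) * D (Sum.inr w))

theorem ExR_ne {n : ℕ} {q : Fin n → ℕ} {k : ℕ} {D : Ix q k → ℕ} (hD : ∀ i, 0 < D i)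
    (e : ((i : Fin n) × Fin (q i)) → ℕ) {t : ℕ} (ht : 0 < t) (i : Ix q k) {j j' : ℕ} (h : j ≠ j') :
    ExR D e t j i ≠ ExR D e t j' i := by
  rcases i with i | w
  · intro h1
    have h2 : e i + D (Sum.inl i) * (j + 1) = e i + D (Sum.inl i) * (j' + 1) := h1
    have h3 := Nat.eq_of_mul_eq_mul_left (hD (Sum.inl i)) (Nat.add_left_cancel h2)
    omega
  · intro h1
    have h2 : (j + 1) * t ^ (w : ℕ) * D (Sum.inr w) = (j' + 1) * t ^ (w : ℕ) * D (Sum.inr w) := h1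
    have h3 := Nat.eq_of_mul_eq_mul_right (hD (Sum.inr w)) h2
    have h4 := Nat.eq_of_mul_eq_mul_right (pow_pos ht _) h3
    omega

theorem one_placeR {n : ℕ} {q : Fin n → ℕ} {k r : ℕ} (D : Ix q k → ℕ) (hD : ∀ i, 0 < D i)
    (e : ((i : Fin n) × Fin (q i)) → ℕ) (he : ∀ j, e j < D (Sum.inl j))
    (hdis : ∀ (i : Fin n) (l l' : Fin (q i)), l ≠ l' →
      e ⟨i, l⟩ * D (Sum.inl ⟨i, l'⟩) ≠ e ⟨i, l'⟩ * D (Sum.inl ⟨i, l⟩))
    {t : ℕ} (ht : 0 < t)
    {κ : Type} {τ : κ → ℂ} {p : ℕ} (hp : p.Prime) (V : ValuationSubring ℂ) (hV : Good τ p V)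
    (A B : Fin n → ℂ) (z : Fin n → ℂ) (hz : ∀ i, z i ≠ 0)
    (hA : ∀ i, V.valuation (z i ^ 4 * A i) ≤ 1) (hB : ∀ i, V.valuation (z i ^ 6 * B i) ≤ 1)
    (P : ∀ i, Fin (q i) → (crv (A i) (B i)).Point) (u : Fin k → ℂ)
    (At : Finset (Ix q k)) (hmemAt : ∀ j, j ∈ At ↔ ¬ ∃ jj : Fin r, ((hcz z P u j).2 = 1 ∧
      V.valuation (hcz z P u j).1 ^ D j * V.valuation (p : ℂ) ^ ExR D e t jj j = 1))
    (T : Finset (Ix q k))
    (hT1 : ∀ j, Sum.inl j ∈ T → V.valuation (z j.1 ^ 2 * xx (P j.1 j.2)) ^ Mo D *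
      V.valuation (p : ℂ) ^ (Mo D + ((j.2 : ℕ) + 1)) = 1)
    (hT2 : ∀ w, Sum.inr w ∈ T →
      V.valuation (u w) * V.valuation (p : ℂ) ^ ((r + 1) * t ^ (w : ℕ)) = 1)
    (E : ∀ i, EndRing (A i) (B i)) (Λ : ∀ i, Submodule (E i).O (Fin (q i) → (E i).O))
    (hΛ : ∀ i, ∀ a ∈ Λ i, ∃ t : ℕ, 0 < t ∧ t • ∑ l, (E i).act (a l) (P i l) = 0)
    (M₂ : Submodule ℤ (Fin k → ℤ)) (hM₂ : ∀ a ∈ M₂, ∃ t : ℕ, 0 < t ∧ (∏ w, u w ^ a w) ^ t = 1)
    (hcon : At.card < T.card + ∑ i, Module.finrank (E i).O (Λ i) + Module.finrank ℤ M₂) :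
    ∃ U : Finset (Fin k), U.card < Module.finrank ℤ M₂ ∧ ∃ χ : Fin k → Fin (r + 1),
      ∀ a ∈ M₂, (∀ w ∈ U, a w = 0) →
      ∑ w, (a w * ((χ w : ℕ) + 1 : ℕ)) * (t ^ (w : ℕ) : ℕ) = 0 := by
  classical
  set v := V.valuation with hv
  have hp1 : v (p : ℂ) < 1 := hV.lt
  have hp0 : (p : ℂ) ≠ 0 := by exact_mod_cast hp.ne_zero
  have hpv0 : v (p : ℂ) ≠ 0 := (map_ne_zero v).2 hp0
  have hpos : 0 < v (p : ℂ) := zero_lt_iff.2 hpv0
  -- numbers
  set Rr : ℕ := ∏ j, D (Sum.inl j) with hRr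
  set Qf : ℕ := ∑ i, q i + 1 with hQf
  have hRr0 : 0 < Rr := Finset.prod_pos fun j _ => hD _
  have hMo : Mo D = Qf * Rr := rfl
  have hMo0 : 0 < Mo D := Nat.mul_pos (Nat.succ_pos _) hRr0
  have hdiv : ∀ j, D (Sum.inl j) * (Rr / D (Sum.inl j)) = Rr := fun j =>
    Nat.mul_div_cancel' (Finset.dvd_prod_of_mem (fun j => D (Sum.inl j)) (Finset.mem_univ j))
  have hdiv0 : ∀ j, 0 < Rr / D (Sum.inl j) := fun j => Nat.pos_of_ne_zero fun h0 => by
    have := hdiv j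
    rw [h0, mul_zero] at this
    omega
  have hlQ : ∀ j : (i : Fin n) × Fin (q i), (j.2 : ℕ) + 1 < Qf := by
    intro j
    have h1 : q j.1 ≤ ∑ i, q i := Finset.single_le_sum (f := q) (fun _ _ => Nat.zero_le _)
      (Finset.mem_univ j.1)
    have h2 := j.2.2
    omega
  have hTA : T ⊆ At := by
    rintro (j | w) hj
    · refine (hmemAt _).2 ?_
      rintro ⟨jj, h1, h2⟩
      rw [hcz_fin z P u j h1] at h2
      have h4 := hT1 j hj
      have h5 : v (p : ℂ) ^ ((e j + D (Sum.inl j) * ((jj : ℕ) + 1)) * Mo D) =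
          v (p : ℂ) ^ ((Mo D + ((j.2 : ℕ) + 1)) * D (Sum.inl j)) := by
        have h6 : (v (z j.1 ^ 2 * xx (P j.1 j.2)) ^ D (Sum.inl j) *
              v (p : ℂ) ^ (e j + D (Sum.inl j) * ((jj : ℕ) + 1))) ^ Mo D =
            (v (z j.1 ^ 2 * xx (P j.1 j.2)) ^ Mo D *
              v (p : ℂ) ^ (Mo D + ((j.2 : ℕ) + 1))) ^ D (Sum.inl j) := by
          rw [h4, one_pow]
          exact (congrArg (· ^ Mo D) h2).trans (one_pow _)
        rw [mul_pow, mul_pow, ← pow_mul, ← pow_mul, ← pow_mul, ← pow_mul,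
          mul_comm (Mo D) (D (Sum.inl j))] at h6
        refine mul_left_cancel₀ (pow_ne_zero _ ?_) h6
        intro h0
        rw [h0, zero_pow hMo0.ne', zero_mul] at h4
        exact zero_ne_one h4
      have h6 := pow_inj_gt hpos hp1 h5
      -- modulo `Qf`
      have h7 : ((j.2 : ℕ) + 1) * D (Sum.inl j) + Mo D * D (Sum.inl j) =
          Mo D * (e j + D (Sum.inl j) * ((jj : ℕ) + 1)) := by
        rw [mul_comm (Mo D) (e j + _), h6]
        ring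
      have h8 : D (Sum.inl j) * (((j.2 : ℕ) + 1) + Mo D) = D (Sum.inl j) *
          (Qf * ((Rr / D (Sum.inl j)) * (e j + D (Sum.inl j) * ((jj : ℕ) + 1)))) := by
        calc D (Sum.inl j) * (((j.2 : ℕ) + 1) + Mo D)
            = ((j.2 : ℕ) + 1) * D (Sum.inl j) + Mo D * D (Sum.inl j) := by ring
          _ = Mo D * (e j + D (Sum.inl j) * ((jj : ℕ) + 1)) := h7
          _ = Qf * Rr * (e j + D (Sum.inl j) * ((jj : ℕ) + 1)) := by rw [hMo]
          _ = Qf * (D (Sum.inl j) * (Rr / D (Sum.inl j))) *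
              (e j + D (Sum.inl j) * ((jj : ℕ) + 1)) := by rw [hdiv]
          _ = _ := by ring
      have h9 := Nat.eq_of_mul_eq_mul_left (hD (Sum.inl j)) h8
      have h10 : Qf ∣ ((j.2 : ℕ) + 1) := by
        have h11 : Qf ∣ ((j.2 : ℕ) + 1) + Mo D := by
          rw [h9]
          exact Dvd.intro _ rfl
        exact (Nat.dvd_add_iff_left (Dvd.intro _ rfl)).2 h11
      have h11 := Nat.le_of_dvd (Nat.succ_pos _) h10
      have h12 := hlQ j
      omega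
    · refine (hmemAt _).2 ?_
      rintro ⟨jj, -, h2⟩
      have h4 := hT2 w hj
      have h2' : v (u w) ^ D (Sum.inr w) *
          v (p : ℂ) ^ (((jj : ℕ) + 1) * t ^ (w : ℕ) * D (Sum.inr w)) = 1 := h2
      have h5 : v (u w) * v (p : ℂ) ^ (((jj : ℕ) + 1) * t ^ (w : ℕ)) = 1 := by
        refine eq_one_of_pow (hD (Sum.inr w)).ne' ?_
        rw [mul_pow, ← pow_mul]
        exact h2'
      have h6 := mul_left_cancel₀ (fun h0 => by
        rw [h0, zero_mul] at h4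
        exact zero_ne_one h4) (h5.trans h4.symm)
      have h7 := pow_inj_gt hpos hp1 h6
      have h8 := Nat.eq_of_mul_eq_mul_right (pow_pos ht _) h7
      have := jj.2
      omega
  -- the elliptic part
  let F : ∀ i, Finset (Fin (q i)) := fun i =>
    Finset.univ.filter fun l => (Sum.inl ⟨i, l⟩ : Ix q k) ∈ At \ T
  have hF : ∀ i, Module.finrank (E i).O (Λ i) ≤ (F i).card := by
    intro i
    by_contra hlt
    push Not at hlt
    obtain ⟨a, haΛ, ha0, haF⟩ := exists_relO (Λ i) (F i) hlt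
    obtain ⟨s, hs, hrel⟩ := hΛ i a haΛ
    obtain ⟨π, hπ⟩ := IsAlgClosed.exists_pow_nat_eq (p : ℂ) hMo0
    have hσR : v (p : ℂ) = v π ^ Mo D := by rw [← hπ, map_pow]
    have hσ0 : 0 < v π := by
      refine zero_lt_iff.2 fun h0 => ?_
      rw [h0, zero_pow hMo0.ne'] at hσR
      exact hpv0 hσR
    have hjc : ∀ l : Fin (q i), ∃ jj : ℕ, l ∉ F i → (Sum.inl ⟨i, l⟩ : Ix q k) ∉ T →
        v (z i ^ 2 * xx (P i l)) ^ D (Sum.inl ⟨i, l⟩) *
          v (p : ℂ) ^ (e ⟨i, l⟩ + D (Sum.inl ⟨i, l⟩) * (jj + 1)) = 1 := by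
      intro l
      by_cases h1 : (Sum.inl ⟨i, l⟩ : Ix q k) ∈ At
      · refine ⟨0, fun h2 h3 => absurd ?_ h2⟩
        exact Finset.mem_filter.2 ⟨Finset.mem_univ _, Finset.mem_sdiff.2 ⟨h1, h3⟩⟩
      · have h3 : ∃ jj : Fin r, ((hcz z P u (Sum.inl ⟨i, l⟩)).2 = 1 ∧
            v (hcz z P u (Sum.inl ⟨i, l⟩)).1 ^ D (Sum.inl ⟨i, l⟩) *
              v (p : ℂ) ^ ExR D e t jj (Sum.inl ⟨i, l⟩) = 1) := by
          by_contra h4
          exact h1 ((hmemAt _).2 h4)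
        obtain ⟨jj, h4, h5⟩ := h3
        refine ⟨jj, fun _ _ => ?_⟩
        rw [hcz_fin z P u ⟨i, l⟩ h4] at h5
        exact h5
    choose jc hjc using hjc
    let lv : Fin (q i) → ℕ := fun l => if (Sum.inl ⟨i, l⟩ : Ix q k) ∈ T
      then Mo D + ((l : ℕ) + 1)
      else Qf * (e ⟨i, l⟩ * (Rr / D (Sum.inl ⟨i, l⟩)) + Rr * (jc l + 1))
    have hlv : ∀ l, (e ⟨i, l⟩ + D (Sum.inl ⟨i, l⟩) * (jc l + 1)) * (Rr / D (Sum.inl ⟨i, l⟩)) =
        e ⟨i, l⟩ * (Rr / D (Sum.inl ⟨i, l⟩)) + Rr * (jc l + 1) := by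
      intro l
      calc (e ⟨i, l⟩ + D (Sum.inl ⟨i, l⟩) * (jc l + 1)) * (Rr / D (Sum.inl ⟨i, l⟩))
          = e ⟨i, l⟩ * (Rr / D (Sum.inl ⟨i, l⟩)) +
            (D (Sum.inl ⟨i, l⟩) * (Rr / D (Sum.inl ⟨i, l⟩))) * (jc l + 1) := by ring
        _ = _ := by rw [hdiv]
    have hsm : ∀ l, e ⟨i, l⟩ * (Rr / D (Sum.inl ⟨i, l⟩)) < Rr := by
      intro l
      calc e ⟨i, l⟩ * (Rr / D (Sum.inl ⟨i, l⟩)) < D (Sum.inl ⟨i, l⟩) * (Rr / D (Sum.inl ⟨i, l⟩)) :=
            Nat.mul_lt_mul_of_pos_right (he _) (hdiv0 _)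
        _ = Rr := hdiv _
    have hval : ∀ l, l ∉ F i → v (z i ^ 2 * xx (P i l)) * v π ^ lv l = 1 := by
      intro l hl
      by_cases hlT : (Sum.inl ⟨i, l⟩ : Ix q k) ∈ T
      · have h1 := hT1 ⟨i, l⟩ hlT
        have h2 : lv l = Mo D + ((l : ℕ) + 1) := if_pos hlT
        refine eq_one_of_pow hMo0.ne' ?_
        rw [h2, mul_pow, ← pow_mul, mul_comm (Mo D + ((l : ℕ) + 1)) (Mo D), pow_mul, ← hσR]
        exact h1
      · have h2 : lv l = Qf * (e ⟨i, l⟩ * (Rr / D (Sum.inl ⟨i, l⟩)) + Rr * (jc l + 1)) :=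
          if_neg hlT
        have h5' := hjc l hl hlT
        refine eq_one_of_pow (hD (Sum.inl ⟨i, l⟩)).ne' ?_
        rw [h2, mul_pow, ← h5', hσR, ← pow_mul, ← pow_mul]
        congr 2
        rw [hMo, ← hlv]
        calc Qf * ((e ⟨i, l⟩ + D (Sum.inl ⟨i, l⟩) * (jc l + 1)) * (Rr / D (Sum.inl ⟨i, l⟩))) *
              D (Sum.inl ⟨i, l⟩)
            = Qf * ((D (Sum.inl ⟨i, l⟩) * (Rr / D (Sum.inl ⟨i, l⟩))) *
              (e ⟨i, l⟩ + D (Sum.inl ⟨i, l⟩) * (jc l + 1))) := by ring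
          _ = Qf * Rr * (e ⟨i, l⟩ + D (Sum.inl ⟨i, l⟩) * (jc l + 1)) := by
              rw [hdiv, mul_assoc]
    have hQM : Qf ∣ Mo D := Dvd.intro _ rfl
    refine rel_placeE hp hV.hp hV.arch (hz i) (hA i) (hB i) (E i) hσR hMo0 hσ0 (P i)
      (Finset.univ.filter fun l => l ∉ F i) lv ?_ ?_ ?_ a ha0 ?_ hs hrel
    · intro l hl
      rw [xx_scl]
      exact hval l (Finset.mem_filter.1 hl).2
    · intro l hl
      by_cases hlT : (Sum.inl ⟨i, l⟩ : Ix q k) ∈ T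
      · have h2 : lv l = Mo D + ((l : ℕ) + 1) := if_pos hlT
        omega
      · have h2 : lv l = Qf * (e ⟨i, l⟩ * (Rr / D (Sum.inl ⟨i, l⟩)) + Rr * (jc l + 1)) :=
          if_neg hlT
        have h3 : Mo D ≤ lv l := by
          rw [h2, hMo]
          refine Nat.mul_le_mul_left _ ((Nat.le_mul_of_pos_right _ (Nat.succ_pos _)).trans
            (Nat.le_add_left _ _))
        omega
    · intro l hl l' hl' hne hmod
      by_cases hlT : (Sum.inl ⟨i, l⟩ : Ix q k) ∈ T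
      · have h2 : lv l = Mo D + ((l : ℕ) + 1) := if_pos hlT
        by_cases hlT' : (Sum.inl ⟨i, l'⟩ : Ix q k) ∈ T
        · have h2' : lv l' = Mo D + ((l' : ℕ) + 1) := if_pos hlT'
          rw [h2, h2'] at hmod
          have h3 : ((l : ℕ) + 1) ≡ ((l' : ℕ) + 1) [MOD Mo D] := Nat.ModEq.add_left_cancel' _ hmod
          have h4 := hlQ ⟨i, l⟩
          have h5 := hlQ ⟨i, l'⟩
          have h6 : Qf ≤ Mo D := Nat.le_mul_of_pos_right _ hRr0
          have h7 := Nat.ModEq.eq_of_lt_of_lt h3 (lt_of_lt_of_le h4 h6) (lt_of_lt_of_le h5 h6)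
          exact hne (Fin.ext (by omega))
        · have h2' : lv l' = Qf * (e ⟨i, l'⟩ * (Rr / D (Sum.inl ⟨i, l'⟩)) + Rr * (jc l' + 1)) :=
            if_neg hlT'
          rw [h2, h2'] at hmod
          have h3 := hmod.of_dvd hQM
          have h4 : ((l : ℕ) + 1) ≡ 0 [MOD Qf] := by
            have h5 : Mo D + ((l : ℕ) + 1) ≡ 0 [MOD Qf] :=
              h3.trans ((Nat.modEq_zero_iff_dvd).2 (Dvd.intro _ rfl))
            have h6 : Mo D ≡ 0 [MOD Qf] := (Nat.modEq_zero_iff_dvd).2 hQM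
            have h7 : Mo D + ((l : ℕ) + 1) ≡ 0 + ((l : ℕ) + 1) [MOD Qf] := h6.add_right _
            rw [zero_add] at h7
            exact h7.symm.trans h5
          have h5 := Nat.le_of_dvd (Nat.succ_pos _) ((Nat.modEq_zero_iff_dvd).1 h4)
          have h6 : (l : ℕ) + 1 < Qf := hlQ ⟨i, l⟩
          omega
      · have h2 : lv l = Qf * (e ⟨i, l⟩ * (Rr / D (Sum.inl ⟨i, l⟩)) + Rr * (jc l + 1)) :=
          if_neg hlT
        by_cases hlT' : (Sum.inl ⟨i, l'⟩ : Ix q k) ∈ T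
        · have h2' : lv l' = Mo D + ((l' : ℕ) + 1) := if_pos hlT'
          rw [h2, h2'] at hmod
          have h3 := hmod.of_dvd hQM
          have h4 : ((l' : ℕ) + 1) ≡ 0 [MOD Qf] := by
            have h5 : Mo D + ((l' : ℕ) + 1) ≡ 0 [MOD Qf] :=
              h3.symm.trans ((Nat.modEq_zero_iff_dvd).2 (Dvd.intro _ rfl))
            have h6 : Mo D ≡ 0 [MOD Qf] := (Nat.modEq_zero_iff_dvd).2 hQM
            have h7 : Mo D + ((l' : ℕ) + 1) ≡ 0 + ((l' : ℕ) + 1) [MOD Qf] := h6.add_right _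
            rw [zero_add] at h7
            exact h7.symm.trans h5
          have h5 := Nat.le_of_dvd (Nat.succ_pos _) ((Nat.modEq_zero_iff_dvd).1 h4)
          have h6 : (l' : ℕ) + 1 < Qf := hlQ ⟨i, l'⟩
          omega
        · have h2' : lv l' = Qf * (e ⟨i, l'⟩ * (Rr / D (Sum.inl ⟨i, l'⟩)) + Rr * (jc l' + 1)) :=
            if_neg hlT'
          rw [h2, h2', hMo] at hmod
          have h3 := Nat.ModEq.mul_left_cancel' (Nat.succ_ne_zero _) hmod
          have hz0 : ∀ x y : ℕ, x + Rr * y ≡ x [MOD Rr] := by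
            intro x y
            have h9 : Rr * y ≡ 0 [MOD Rr] := (Nat.modEq_zero_iff_dvd).2 (Dvd.intro _ rfl)
            have h10 := h9.add_left x
            rwa [add_zero] at h10
          have h4 : e ⟨i, l⟩ * (Rr / D (Sum.inl ⟨i, l⟩)) ≡
              e ⟨i, l'⟩ * (Rr / D (Sum.inl ⟨i, l'⟩)) [MOD Rr] :=
            ((hz0 _ _).symm.trans h3).trans (hz0 _ _)
          have h5 := Nat.ModEq.eq_of_lt_of_lt h4 (hsm l) (hsm l')
          apply hdis i l l' hne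
          have h6 : Rr * (e ⟨i, l⟩ * D (Sum.inl ⟨i, l'⟩)) = Rr * (e ⟨i, l'⟩ * D (Sum.inl ⟨i, l⟩)) := by
            calc Rr * (e ⟨i, l⟩ * D (Sum.inl ⟨i, l'⟩))
                = (D (Sum.inl ⟨i, l⟩) * (Rr / D (Sum.inl ⟨i, l⟩))) *
                  (e ⟨i, l⟩ * D (Sum.inl ⟨i, l'⟩)) := by rw [hdiv]
              _ = (e ⟨i, l⟩ * (Rr / D (Sum.inl ⟨i, l⟩))) *
                  (D (Sum.inl ⟨i, l⟩) * D (Sum.inl ⟨i, l'⟩)) := by ring
              _ = (e ⟨i, l'⟩ * (Rr / D (Sum.inl ⟨i, l'⟩))) *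
                  (D (Sum.inl ⟨i, l⟩) * D (Sum.inl ⟨i, l'⟩)) := by rw [h5]
              _ = (D (Sum.inl ⟨i, l'⟩) * (Rr / D (Sum.inl ⟨i, l'⟩))) *
                  (e ⟨i, l'⟩ * D (Sum.inl ⟨i, l⟩)) := by ring
              _ = Rr * (e ⟨i, l'⟩ * D (Sum.inl ⟨i, l⟩)) := by rw [hdiv]
          exact Nat.eq_of_mul_eq_mul_left hRr0 h6
    · intro l hl
      refine haF l ?_
      by_contra h3
      exact hl (Finset.mem_filter.2 ⟨Finset.mem_univ _, h3⟩)
  -- the torus part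
  let U : Finset (Fin k) := Finset.univ.filter fun w => (Sum.inr w : Ix q k) ∈ At \ T
  have hcount : ∑ i, (F i).card + U.card + T.card ≤ At.card := by
    have h1 : ((Finset.univ.sigma F).disjSum U).card ≤ (At \ T).card := by
      refine Finset.card_le_card ?_
      rintro (⟨i, l⟩ | w) hj
      · rw [Finset.inl_mem_disjSum, Finset.mem_sigma] at hj
        exact (Finset.mem_filter.1 hj.2).2
      · rw [Finset.inr_mem_disjSum] at hj
        exact (Finset.mem_filter.1 hj).2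
    rw [Finset.card_disjSum, Finset.card_sigma, Finset.card_sdiff_of_subset hTA] at h1
    have h2 := Finset.card_le_card hTA
    omega
  have hsumF : ∑ i, Module.finrank (E i).O (Λ i) ≤ ∑ i, (F i).card :=
    Finset.sum_le_sum fun i _ => hF i
  have hχ : ∀ w : Fin k, ∃ χ : Fin (r + 1), w ∉ U →
      v (u w) * v (p : ℂ) ^ (((χ : ℕ) + 1) * t ^ (w : ℕ)) = 1 := by
    intro w
    by_cases hwT : (Sum.inr w : Ix q k) ∈ T
    · exact ⟨Fin.last r, fun _ => by rw [Fin.val_last]; exact hT2 w hwT⟩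
    · by_cases h1 : (Sum.inr w : Ix q k) ∈ At
      · refine ⟨0, fun h2 => absurd ?_ h2⟩
        exact Finset.mem_filter.2 ⟨Finset.mem_univ _, Finset.mem_sdiff.2 ⟨h1, hwT⟩⟩
      · have h3 : ∃ jj : Fin r, ((hcz z P u (Sum.inr w)).2 = 1 ∧
            v (hcz z P u (Sum.inr w)).1 ^ D (Sum.inr w) *
              v (p : ℂ) ^ ExR D e t jj (Sum.inr w) = 1) := by
          by_contra h4
          exact h1 ((hmemAt _).2 h4)
        obtain ⟨jj, -, h5⟩ := h3
        refine ⟨jj.castSucc, fun _ => ?_⟩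
        refine eq_one_of_pow (hD (Sum.inr w)).ne' ?_
        rw [mul_pow, ← pow_mul, Fin.val_castSucc]
        exact h5
  choose χ hχ using hχ
  refine ⟨U, by omega, χ, fun a ha haU => ?_⟩
  obtain ⟨s, hs, h3⟩ := hM₂ a ha
  have h6 := tor_simple (v := v) hpos hp1 u Uᶜ (fun w => ((χ w : ℕ) + 1) * t ^ (w : ℕ)) ?_ a ?_ ?_
  · rw [← h6]
    refine Finset.sum_congr rfl fun w _ => ?_
    push_cast
    ring
  · intro w hw
    exact hχ w (Finset.mem_compl.1 hw)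
  · intro w hw
    rw [Finset.mem_compl, not_not] at hw
    exact haU w hw
  · have h4 := congrArg v h3
    rw [map_pow, map_one] at h4
    exact eq_one_of_pow hs.ne' h4

end Pool.Agent.TH971.SR
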