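import Pool.Agent.TH971.RF.A4

/-!
An exchange lemma for algebraically independent numbers (helper file for Pink's conjecture for
random subvarieties of abelian schemes).
-/

set_option autoImplicit false

open MvPolynomial

namespace Pool.Agent.TH971.SR

theorem exchange {K : Type} [Field K] [Algebra K ℂ] {ι₁ ι₂ σ' : Type} [Fintype ι₁]
    (f : ι₁ → ℂ) (g : σ' → ℂ) (T1 : Finset σ') (x : ι₂ → ℂ) (T2 : Finset ι₂)
    (hg : ∀ j ∈ T1, g j ∈ (AlgebraicIndependent.matroid K ℂ).closure (Set.range f))
    (h : AlgebraicIndependent K (Sum.elim (fun j : T1 => g j) (fun j : T2 => x j))) :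
    ∃ (S : Finset ι₁) (T : Finset ι₂), T ⊆ T2 ∧ T1.card + T2.card ≤ S.card + T.card ∧
      AlgebraicIndependent K (Sum.elim (fun b : S => f b) (fun j : T => x j)) ∧
      ∀ i, f i ∈ (AlgebraicIndependent.matroid K ℂ).closure (Set.range fun b : S => f b) := by
  classical
  set M := AlgebraicIndependent.matroid K ℂ with hM
  have hE : M.E = Set.univ := rfl
  obtain ⟨J, hJ⟩ := M.exists_isBasis (Set.range f) (by rw [hE]; exact Set.subset_univ _)
  have hJr : J ⊆ Set.range f := hJ.subset
  set X : Set ℂ := J ∪ x '' (T2 : Set ι₂) with hX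
  obtain ⟨B, hB, hJB⟩ := hJ.indep.subset_isBasis_of_subset (X := X) Set.subset_union_left
    (by rw [hE]; exact Set.subset_univ _)
  have hBX : B ⊆ X := hB.subset
  have hcl : Set.range f ⊆ M.closure X :=
    hJ.subset_closure.trans (M.closure_subset_closure Set.subset_union_left)
  have hXcl : X ⊆ M.closure X := M.subset_closure X (by rw [hE]; exact Set.subset_univ _)
  -- the rank
  have hrk : ((T1.card + T2.card : ℕ) : ℕ∞) ≤ B.encard := by
    rw [hB.encard_eq_eRk, ← Matroid.eRk_closure_eq, Matroid.le_eRk_iff]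
    refine ⟨Set.range (Sum.elim (fun j : T1 => g j) (fun j : T2 => x j)), ?_, ?_, ?_⟩
    · rintro _ ⟨j | j, rfl⟩
      · have h1 := hg j j.2
        have h2 : M.closure (Set.range f) ⊆ M.closure X :=
          (M.closure_subset_closure hcl).trans (by rw [Matroid.closure_closure])
        exact h2 h1
      · exact hXcl (Or.inr ⟨j, j.2, rfl⟩)
    · rw [AlgebraicIndependent.matroid_indep_iff]
      exact AlgebraicIndependent.coe_range h
    · rw [← Set.image_univ, h.injective.injOn.encard_image, Set.encard_univ]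
      simp
  -- the subsets
  have hs1 : Set.SurjOn f (f ⁻¹' J) J := by
    intro y hy
    obtain ⟨b, rfl⟩ := hJr hy
    exact ⟨b, hy, rfl⟩
  obtain ⟨t1, ht1, hb1⟩ := hs1.exists_bijOn_subset
  have hs2 : Set.SurjOn x ((T2 : Set ι₂) ∩ x ⁻¹' (B \ J)) (B \ J) := by
    intro y hy
    rcases hBX hy.1 with h1 | ⟨j, hj, rfl⟩
    · exact absurd h1 hy.2
    · exact ⟨j, ⟨hj, hy⟩, rfl⟩
  obtain ⟨t2, ht2, hb2⟩ := hs2.exists_bijOn_subset
  have ht2T : t2 ⊆ (T2 : Set ι₂) := ht2.trans Set.inter_subset_left
  have hf2 : t2.Finite := T2.finite_toSet.subset ht2T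
  have hf1 : t1.Finite := t1.toFinite
  refine ⟨hf1.toFinset, hf2.toFinset, ?_, ?_, ?_, ?_⟩
  · intro j hj
    exact ht2T (hf2.mem_toFinset.1 hj)
  · have e1 : J.encard = t1.encard := by
      rw [← hb1.image_eq, hb1.injOn.encard_image]
    have e2 : (B \ J).encard = t2.encard := by
      rw [← hb2.image_eq, hb2.injOn.encard_image]
    have e3 : B.encard = (B \ J).encard + J.encard := (Set.encard_sdiff_add_encard_of_subset hJB).symm
    rw [e3, e1, e2, hf1.encard_eq_coe_toFinset_card, hf2.encard_eq_coe_toFinset_card] at hrk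
    have h4 : ((T1.card + T2.card : ℕ) : ℕ∞) ≤
        ((hf2.toFinset.card + hf1.toFinset.card : ℕ) : ℕ∞) := by
      push_cast
      push_cast at hrk
      exact hrk
    have h5 : T1.card + T2.card ≤ hf2.toFinset.card + hf1.toFinset.card := by exact_mod_cast h4
    omega
  · have h1 : AlgebraicIndependent K (fun y : B => (y : ℂ)) := hB.indep
    let φ : (hf1.toFinset ⊕ hf2.toFinset : Type) → B := Sum.elim
      (fun b => ⟨f b, hJB (hb1.mapsTo (hf1.mem_toFinset.1 b.2))⟩)
      (fun j => ⟨x j, (hb2.mapsTo (hf2.mem_toFinset.1 j.2)).1⟩)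
    have hφ : Function.Injective φ := by
      rintro (b | b) (b' | b') hbb
      · have h2 : f b = f b' := congrArg Subtype.val hbb
        exact congrArg Sum.inl (Subtype.ext (hb1.injOn (hf1.mem_toFinset.1 b.2)
          (hf1.mem_toFinset.1 b'.2) h2))
      · have h2 : f b = x b' := congrArg Subtype.val hbb
        exact absurd (h2 ▸ hb1.mapsTo (hf1.mem_toFinset.1 b.2))
          (hb2.mapsTo (hf2.mem_toFinset.1 b'.2)).2
      · have h2 : x b = f b' := congrArg Subtype.val hbb
        exact absurd (h2.symm ▸ hb1.mapsTo (hf1.mem_toFinset.1 b'.2))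
          (hb2.mapsTo (hf2.mem_toFinset.1 b.2)).2
      · have h2 : x b = x b' := congrArg Subtype.val hbb
        exact congrArg Sum.inr (Subtype.ext (hb2.injOn (hf2.mem_toFinset.1 b.2)
          (hf2.mem_toFinset.1 b'.2) h2))
    have h2 := h1.comp φ hφ
    convert h2 using 1
    funext j
    rcases j with j | j <;> rfl
  · intro i
    have h1 : f i ∈ M.closure J := hJ.subset_closure ⟨i, rfl⟩
    have h2 : J = Set.range fun b : hf1.toFinset => f b := by
      rw [← hb1.image_eq]
      ext y
      constructor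
      · rintro ⟨b, hb, rfl⟩
        exact ⟨⟨b, hf1.mem_toFinset.2 hb⟩, rfl⟩
      · rintro ⟨b, rfl⟩
        exact ⟨b, hf1.mem_toFinset.1 b.2, rfl⟩
    rwa [h2] at h1

end Pool.Agent.TH971.SR
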