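import Pool.Agent.TH971.SR.R3
import Pool.Agent.TH971.SR.R4

/-!
The criterion for one point at one prime (helper file for Pink's conjecture for random subvarieties
of abelian schemes).
-/

set_option autoImplicit false

open MvPolynomial

namespace Pool.Agent.TH971.SR

open Pool.Agent.W282.ZP Pool.Agent.W466.EP Pool.Agent.W466.ZP Pool.Agent.W282.RW
  Pool.Agent.TH971.RF Pool.Agent.TH971.SP

section indep

open scoped IntermediateField.algebraAdjoinAdjoin in
theorem indep_adjoin {ι κ : Type} (x : ι → ℂ) (w : κ → ℂ)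
    (h : AlgebraicIndependent ℚ (Sum.elim x w)) :
    AlgebraicIndependent (IntermediateField.adjoin ℚ (Set.range w)) x := by
  have h1 := (AlgebraicIndependent.sumElim_iff.1 h).2
  have : Algebra.IsAlgebraic (Algebra.adjoin ℚ (Set.range w))
      (IntermediateField.adjoin ℚ (Set.range w)) :=
    IsLocalization.isAlgebraic _ (nonZeroDivisors (Algebra.adjoin ℚ (Set.range w)))
  exact h1.extendScalars _

theorem indep_closure {ι κ : Type} (x : ι → ℂ) (w : κ → ℂ)
    (h : AlgebraicIndependent ℚ (Sum.elim x w)) :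
    AlgebraicIndependent (algebraicClosure (IntermediateField.adjoin ℚ (Set.range w)) ℂ) x :=
  (indep_adjoin x w h).extendScalars _

end indep

theorem good_X {κ : Type} {x : κ → ℂ} {p : ℕ} (hp : p.Prime) {V : ValuationSubring ℂ}
    (hV : SP.Good x p V) (i : κ) : V.valuation (x i) = 1 := by
  classical
  have h2 := hV.gauss (X i) (by
    rw [C_dvd_iff_dvd_coeff]
    intro h3
    have h4 := h3 (Finsupp.single i 1)
    rw [coeff_X, if_pos rfl] at h4
    have h5 : (p : ℤ) ∣ 1 := h4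
    have h6 : p ∣ 1 := by exact_mod_cast h5
    exact hp.one_lt.ne' (Nat.dvd_one.1 h6))
  rwa [aeval_X] at h2

variable {σ : Type} [Fintype σ] [DecidableEq σ]

/-- The weights of the coordinates. -/
def wt {n : ℕ} {q : Fin n → ℕ} {k : ℕ} (ew : Fin n → ℕ) : Ix q k → ℕ :=
  Sum.elim (fun j => 2 * ew j.1) (fun _ => 0)

/-- The degrees of the coefficients. -/
def dg {n : ℕ} {q : Fin n → ℕ} {k : ℕ} (ew : Fin n → ℕ) (D : Ix q k → ℕ) (dd : ℕ)
    (e : (i : Ix q k) → Fin (D i + 1)) : ℕ := dd + ∑ i, wt ew i * (D i - (e i : ℕ))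

/-- the integral targets -/
def pcZ {n : ℕ} {q : Fin n → ℕ} {k : ℕ} {D : Ix q k → ℕ} (p : ℕ) (ω : Ix q k → ℕ)
    (e : (i : Ix q k) → Fin (D i + 1)) : ℤ :=
  ∏ i, if (e i : ℕ) = 0 then 1 else if (e i : ℕ) = D i then (p : ℤ) ^ ω i else 0

theorem pcZ_eq {n : ℕ} {q : Fin n → ℕ} {k : ℕ} {D : Ix q k → ℕ} (ew : Fin n → ℕ) (dd : ℕ)
    (p : ℕ) (ω : Ix q k → ℕ) (lam : ℂ) (e : (i : Ix q k) → Fin (D i + 1)) :
    (pcZ p ω e : ℂ) * lam ^ dg ew D dd e =
      lam ^ dd * pcC p ω (fun i => lam ^ (wt ew i * D i)) e := by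
  rw [pcZ, dg, pow_add, ← Finset.prod_pow_eq_pow_sum, pcC, Int.cast_prod]
  rw [mul_left_comm, ← Finset.prod_mul_distrib]
  congr 1
  refine Finset.prod_congr rfl fun i _ => ?_
  rw [tgC]
  by_cases h0 : (e i : ℕ) = 0
  · rw [if_pos h0, if_pos h0, h0, Nat.sub_zero]
    push_cast
    rw [one_mul]
  · rw [if_neg h0, if_neg h0]
    by_cases h1 : (e i : ℕ) = D i
    · rw [if_pos h1, if_pos h1, h1, Nat.sub_self, mul_zero, pow_zero, mul_one]
      push_cast
      rfl
    · rw [if_neg h1, if_neg h1]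
      push_cast
      rw [zero_mul]

/-- Scaling. -/
theorem mevC_scale {n : ℕ} {q : Fin n → ℕ} {k : ℕ} {D : Ix q k → ℕ} (ew : Fin n → ℕ) (dd : ℕ)
    (C : ∀ e : (i : Ix q k) → Fin (D i + 1), Sym σ (dg ew D dd e) → ℤ) {c : ℂ}
    (y : σ → ℂ) {A B : Fin n → ℂ} (P : ∀ i, Fin (q i) → (crv (A i) (B i)).Point) (u : Fin k → ℂ) :
    mevC (fun e => ev (C e) (c • y)) (hcz (fun i => c ^ ew i) P u) =
      (c ^ dd * ∏ i : Ix q k, (if (hco P u i).2 = 0 then 1 else c ^ (wt ew i * D i))) *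
        mevC (fun e => ev (C e) y) (hco P u) := by
  classical
  rw [mevC, mevC, Finset.mul_sum]
  refine Finset.sum_congr rfl fun e _ => ?_
  have h1 : ∀ i : Ix q k, c ^ (wt ew i * (D i - (e i : ℕ))) *
      ((hcz (fun i => c ^ ew i) P u i).1 ^ (e i : ℕ) *
        (hcz (fun i => c ^ ew i) P u i).2 ^ (D i - (e i : ℕ))) =
      (if (hco P u i).2 = 0 then 1 else c ^ (wt ew i * D i)) *
      ((hco P u i).1 ^ (e i : ℕ) * (hco P u i).2 ^ (D i - (e i : ℕ))) := by
    intro i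
    have hle : (e i : ℕ) ≤ D i := Nat.lt_succ_iff.1 (e i).2
    rcases i with j | w
    · by_cases h0 : P j.1 j.2 = 0
      · have h2 : hcz (fun i => c ^ ew i) P u (Sum.inl j) = (1, 0) := by simp [hcz, h0]
        have h3 : hco P u (Sum.inl j) = (1, 0) := by simp [hco, h0]
        rw [h2, h3, if_pos rfl, one_mul]
        by_cases h4 : (e (Sum.inl j) : ℕ) = D (Sum.inl j)
        · rw [h4, Nat.sub_self, mul_zero, pow_zero, one_mul]
        · have h5 : D (Sum.inl j) - (e (Sum.inl j) : ℕ) ≠ 0 := by omega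
          rw [zero_pow h5, mul_zero, mul_zero]
      · have h2 : hcz (fun i => c ^ ew i) P u (Sum.inl j) =
            ((c ^ ew j.1) ^ 2 * xx (P j.1 j.2), 1) := by simp [hcz, h0]
        have h3 : hco P u (Sum.inl j) = (xx (P j.1 j.2), 1) := by simp [hco, h0]
        rw [h2, h3, if_neg one_ne_zero]
        change c ^ (2 * ew j.1 * (D (Sum.inl j) - (e (Sum.inl j) : ℕ))) *
          (((c ^ ew j.1) ^ 2 * xx (P j.1 j.2)) ^ (e (Sum.inl j) : ℕ) *
            1 ^ (D (Sum.inl j) - (e (Sum.inl j) : ℕ))) =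
          c ^ (2 * ew j.1 * D (Sum.inl j)) * (xx (P j.1 j.2) ^ (e (Sum.inl j) : ℕ) *
            1 ^ (D (Sum.inl j) - (e (Sum.inl j) : ℕ)))
        have h4 : D (Sum.inl j) = (D (Sum.inl j) - (e (Sum.inl j) : ℕ)) + (e (Sum.inl j) : ℕ) :=
          (Nat.sub_add_cancel hle).symm
        have h5 : c ^ (2 * ew j.1 * D (Sum.inl j)) =
            c ^ (2 * ew j.1 * (D (Sum.inl j) - (e (Sum.inl j) : ℕ))) *
              ((c ^ ew j.1) ^ 2) ^ (e (Sum.inl j) : ℕ) := by
          rw [← pow_mul, ← pow_mul, ← pow_add]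
          congr 1
          conv_lhs => rw [h4]
          ring
        rw [h5, mul_pow]
        ring
    · change c ^ (0 * _) * (u w ^ _ * 1 ^ _) = (if (1 : ℂ) = 0 then 1 else c ^ (0 * _)) *
        (u w ^ _ * 1 ^ _)
      rw [zero_mul, zero_mul, if_neg one_ne_zero]
  have h2 : c ^ dg ew D dd e * (∏ i, ((hcz (fun i => c ^ ew i) P u i).1 ^ (e i : ℕ) *
      (hcz (fun i => c ^ ew i) P u i).2 ^ (D i - (e i : ℕ)))) =
      c ^ dd * ∏ i, (c ^ (wt ew i * (D i - (e i : ℕ))) *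
        ((hcz (fun i => c ^ ew i) P u i).1 ^ (e i : ℕ) *
        (hcz (fun i => c ^ ew i) P u i).2 ^ (D i - (e i : ℕ)))) := by
    rw [dg, pow_add, ← Finset.prod_pow_eq_pow_sum, mul_assoc, ← Finset.prod_mul_distrib]
  rw [ev_smul]
  calc c ^ dg ew D dd e * ev (C e) y * (∏ i, ((hcz (fun i => c ^ ew i) P u i).1 ^ (e i : ℕ) *
        (hcz (fun i => c ^ ew i) P u i).2 ^ (D i - (e i : ℕ))))
      = ev (C e) y * (c ^ dg ew D dd e * (∏ i, ((hcz (fun i => c ^ ew i) P u i).1 ^ (e i : ℕ) *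
        (hcz (fun i => c ^ ew i) P u i).2 ^ (D i - (e i : ℕ))))) := by ring
    _ = ev (C e) y * (c ^ dd * ∏ i, ((if (hco P u i).2 = 0 then 1 else c ^ (wt ew i * D i)) *
      ((hco P u i).1 ^ (e i : ℕ) * (hco P u i).2 ^ (D i - (e i : ℕ))))) := by
        rw [h2, Finset.prod_congr rfl fun i _ => h1 i]
    _ = _ := by
        rw [Finset.prod_mul_distrib]
        ring

end Pool.Agent.TH971.SR
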