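import Pool.Agent.TH971.SR.R5

/-!
The criterion for one point at one prime (helper file for Pink's conjecture for random subvarieties
of abelian schemes).
-/

set_option autoImplicit false

open MvPolynomial

namespace Pool.Agent.TH971.SR

open Pool.Agent.W282.ZP Pool.Agent.W466.EP Pool.Agent.W466.ZP Pool.Agent.W282.RW
  Pool.Agent.TH971.RF Pool.Agent.TH971.SP

variable {σ : Type} [Fintype σ] [DecidableEq σ]

/-- the parameters of the linear forms -/
def parR {nn r m : ℕ} : (Fin nn ⊕ Fin r) ⊕ Fin (m + 1) → ℕ :=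
  Sum.elim (Sum.elim (fun i => (i : ℕ)) (fun j => nn + (j : ℕ))) (fun b => nn + r + (b : ℕ))

theorem parR_inj {nn r m : ℕ} : Function.Injective (parR (nn := nn) (r := r) (m := m)) := by
  rintro ((i | j) | b) ((i' | j') | b') h <;>
    simp only [parR, Sum.elim_inl, Sum.elim_inr] at h
  · rw [Fin.ext h]
  · have := i.2
    omega
  · have := i.2
    omega
  · have := i'.2
    omega
  · rw [Fin.ext (show (j : ℕ) = j' by omega)]
  · have := j.2
    omega
  · have := i'.2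
    omega
  · have := j'.2
    omega
  · rw [Fin.ext (show (b : ℕ) = b' by omega)]

theorem parR_le {nn r m : ℕ} (x : (Fin nn ⊕ Fin r) ⊕ Fin (m + 1)) : parR x ≤ nn + r + m := by
  rcases x with (i | j) | b <;> simp only [parR, Sum.elim_inl, Sum.elim_inr] <;> omega

/-- The congruences for the components. -/
def CongR {n : ℕ} {q : Fin n → ℕ} {k r : ℕ} (ew : Fin n → ℕ) (D : Ix q k → ℕ)
    (e : ((i : Fin n) × Fin (q i)) → ℕ) (t K p : ℕ) (α : Fin r → ℤ) (dd : Fin r → ℕ)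
    (L : Fin r → σ → ℤ)
    (C : ∀ x : Fin r × Fin 2 × ((i : Ix q k) → Fin (D i + 1)),
      Sym σ (dg ew D (dd x.1) x.2.2) → ℤ) : Prop :=
  ∀ (j : Fin r) (e' : (i : Ix q k) → Fin (D i + 1)),
    (∀ u, (p : ℤ) ^ K ∣ C (j, 0, e') u - α j * pcZ p (ExR D e t j) e' * pw _ (L j) u) ∧
    (∀ u, (p : ℤ) ^ K ∣ C (j, 1, e') u - pcZ p (ExR D e t j) e' * pw _ (L j) u)

theorem critR {n : ℕ} {q : Fin n → ℕ} {k r d m nn : ℕ} (ew : Fin n → ℕ) (D : Ix q k → ℕ)
    (hD : ∀ i, 0 < D i) (e : ((i : Fin n) × Fin (q i)) → ℕ) (he : ∀ j, e j < D (Sum.inl j))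
    (hdis : ∀ (i : Fin n) (l l' : Fin (q i)), l ≠ l' →
      e ⟨i, l⟩ * D (Sum.inl ⟨i, l'⟩) ≠ e ⟨i, l'⟩ * D (Sum.inl ⟨i, l⟩))
    {t : ℕ} (ht : 0 < t) {κ : Type} {τ : κ → ℂ} {p : ℕ} (hp : p.Prime)
    (f : ∀ J : Finset (Fin r), MvPolynomial J ℂ) (α : Fin r → ℤ)
    (hf : ∀ V : ValuationSubring ℂ, SP.Good τ p V → ∀ J : Finset (Fin r), J.card = d + 1 →
      ∀ l, V.valuation ((f J).coeff l) ≤ 1)
    (hcor : ∀ V : ValuationSubring ℂ, SP.Good τ p V → ∀ J : Finset (Fin r), J.card = d + 1 →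
      V.valuation (eval (fun j : J => ((α j : ℤ) : ℂ)) (f J)) = 1)
    (Y : Set (σ → ℂ)) (s : Fin (m + 1) → σ → ℤ) (D₀ : ℕ) (hgood : RF.Good Y s D₀)
    (hpD : ¬ p ∣ D₀) (hpM : nn + r + m < p) (dd : Fin r → ℕ)
    (C : ∀ x : Fin r × Fin 2 × ((i : Ix q k) → Fin (D i + 1)), Sym σ (dg ew D (dd x.1) x.2.2) → ℤ)
    (K : ℕ) (hK : ∀ j : Fin r, ∑ i, ExR D e t j i + 1 ≤ K)
    (hC : CongR ew D e t K p α dd (fun j => vdm s (nn + (j : ℕ))) C)
    (y : σ → ℂ) (hy : y ≠ 0) (hyY : y ∈ Y) (A B : Fin n → ℂ)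
    (hAB : ∀ V : ValuationSubring ℂ, SP.Good τ p V → ∀ c : ℂ, c ≠ 0 → (∀ j, (c • y) j ∈ V) →
      ∀ i, V.valuation ((c ^ ew i) ^ 4 * A i) ≤ 1 ∧ V.valuation ((c ^ ew i) ^ 6 * B i) ≤ 1)
    (P : ∀ i, Fin (q i) → (crv (A i) (B i)).Point) (u : Fin k → ℂ)
    (hz : ∀ J : Finset (Fin r), J.card = d + 1 →
      homV (fun j => mevC (fun e' => ev (C (j, 0, e')) y) (hco P u))
        (fun j => mevC (fun e' => ev (C (j, 1, e')) y) (hco P u))
        (rename (Subtype.val : J → Fin r) (f J)) = 0)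
    (E : ∀ i, EndRing (A i) (B i)) (Λ : ∀ i, Submodule (E i).O (Fin (q i) → (E i).O))
    (hΛ : ∀ i, ∀ a ∈ Λ i, ∃ t : ℕ, 0 < t ∧ t • ∑ l, (E i).act (a l) (P i l) = 0)
    (M₂ : Submodule ℤ (Fin k → ℤ)) (hM₂ : ∀ a ∈ M₂, ∃ t : ℕ, 0 < t ∧ (∏ w, u w ^ a w) ^ t = 1)
    (b0 : Fin (m + 1)) (hb0 : ∑ j, (vdm s (nn + r + (b0 : ℕ)) j : ℂ) * y j ≠ 0)
    (S : Finset (Fin (m + 1))) (T : Finset (Ix q k))
    (hS : AlgebraicIndependent ℚ (Sum.elim (fun j : T => SP.co P u j) (Sum.elim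
      (fun b : S => (∑ j, (vdm s (nn + r + (b0 : ℕ)) j : ℂ) * y j)⁻¹ *
        ∑ j, (vdm s (nn + r + ((b : Fin (m + 1)) : ℕ)) j : ℂ) * y j) τ)))
    (hyalg : ∀ j, IsAlgebraic (IntermediateField.adjoin ℚ (Set.range (Sum.elim
      (fun b : S => (∑ j, (vdm s (nn + r + (b0 : ℕ)) j : ℂ) * y j)⁻¹ *
        ∑ j, (vdm s (nn + r + ((b : Fin (m + 1)) : ℕ)) j : ℂ) * y j) τ))) (y j))
    (I : Finset (Fin nn))
    (hI : ∀ V : ValuationSubring ℂ, (p : ℂ) ∈ V.nonunits → ∀ c : ℂ, c ≠ 0 →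
      (∀ j, (c • y) j ∈ V) → ∀ i ∈ I, V.valuation (∑ j, (vdm s (i : ℕ) j : ℂ) * (c • y) j) ≠ 1)
    (hcon : Fintype.card (Ix q k) + d + m < S.card + I.card + T.card +
      ∑ i, Module.finrank (E i).O (Λ i) + Module.finrank ℤ M₂ + r) :
    ∃ U : Finset (Fin k), U.card < Module.finrank ℤ M₂ ∧ ∃ χ : Fin k → Fin (r + 1),
      ∀ a ∈ M₂, (∀ w ∈ U, a w = 0) →
      ∑ w, (a w * ((χ w : ℕ) + 1 : ℕ)) * (t ^ (w : ℕ) : ℕ) = 0 := by
  classical
  have hp0 : (p : ℂ) ≠ 0 := by exact_mod_cast hp.ne_zero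
  set form : ℕ → ℂ := fun b => ∑ j, (vdm s b j : ℂ) * y j with hform
  set rt : S → ℂ := fun b => (form (nn + r + (b0 : ℕ)))⁻¹ * form (nn + r + ((b : Fin (m + 1)) : ℕ))
    with hrt
  set w : S ⊕ κ → ℂ := Sum.elim rt τ with hw
  set F := IntermediateField.adjoin ℚ (Set.range w) with hF
  let L := algebraicClosure F ℂ
  -- the first place
  have hS' := algInd_smul hS (Sum.elim (fun _ => 1) (Sum.elim (fun _ => (p : ℚ)⁻¹) (fun _ => 1)))
    (by
      rintro (j | (b | b))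
      · exact one_ne_zero
      · exact inv_ne_zero (by exact_mod_cast hp.ne_zero)
      · exact one_ne_zero)
  obtain ⟨V0, hV0⟩ := exists_good _ hS' hp
  have hV0T : ∀ j : T, V0.valuation (SP.co P u j) = 1 := by
    intro j
    have h1 := good_X hp hV0 (Sum.inl j)
    simpa using h1
  have hV0S : ∀ b : S, V0.valuation (rt b) = V0.valuation (p : ℂ) := by
    intro b
    have h1 := good_X hp hV0 (Sum.inr (Sum.inl b))
    have h2 : V0.valuation ((p : ℂ)⁻¹ * rt b) = 1 := by simpa [hw] using h1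
    rw [map_mul, map_inv₀] at h2
    have h3 : V0.valuation (p : ℂ) ≠ 0 := (map_ne_zero _).2 hp0
    field_simp at h2
    exact h2
  have hV0τ : SP.Good τ p V0 := by
    refine ⟨hV0.hp, fun i => ?_, ?_, hV0.arch⟩
    · have h1 := hV0.mem (Sum.inr (Sum.inr i))
      simpa [hw] using h1
    · refine gauss_comp (fun i => Sum.inr (Sum.inr i))
        (fun a b h => Sum.inr_injective (Sum.inr_injective h)) ?_ hV0.gauss
      intro i
      simp [hw]
  -- the scaling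
  obtain ⟨c, hc0, hcV, -, hcb⟩ := hgood p hp hpD V0 hV0.hp y hy hyY
  obtain ⟨j1, -, hj1⟩ : ∃ j1 ∈ (Finset.univ : Finset σ), ∀ j ∈ (Finset.univ : Finset σ),
      V0.valuation (y j) ≤ V0.valuation (y j1) := by
    refine Finset.exists_max_image _ _ ?_
    by_contra h
    rw [Finset.not_nonempty_iff_eq_empty, Finset.univ_eq_empty_iff] at h
    exact hy (funext fun j => (h.false j).elim)
  have hyj1 : y j1 ≠ 0 := by
    intro h
    apply hy
    funext j
    have h1 := hj1 j (Finset.mem_univ j)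
    rw [h, map_zero, le_zero_iff] at h1
    exact (map_eq_zero V0.valuation).1 h1
  have hvj1 : V0.valuation (y j1) ≠ 0 := (map_ne_zero _).2 hyj1
  set c1 : ℂ := (y j1)⁻¹ with hc1
  have hc10 : c1 ≠ 0 := inv_ne_zero hyj1
  have hbu0 : ∃ b, V0.valuation (∑ j, (s b j : ℂ) * (c1 • y) j) = 1 := by
    obtain ⟨b, hb⟩ := hcb
    refine ⟨b, ?_⟩
    have hle : V0.valuation (∑ j, (s b j : ℂ) * (c1 • y) j) ≤ 1 := by
      rw [ValuationSubring.valuation_le_one_iff]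
      refine sum_mem fun j _ => mul_mem (intCast_mem V0 _) ?_
      rw [← ValuationSubring.valuation_le_one_iff, Pi.smul_apply, smul_eq_mul, map_mul, map_inv₀]
      have h1 := hj1 j (Finset.mem_univ j)
      calc (V0.valuation (y j1))⁻¹ * V0.valuation (y j)
          ≤ (V0.valuation (y j1))⁻¹ * V0.valuation (y j1) := mul_le_mul_right h1 _
        _ = 1 := inv_mul_cancel₀ hvj1
    refine le_antisymm hle ?_
    have h2 : ∑ j, (s b j : ℂ) * (c1 • y) j = c1 * c⁻¹ * ∑ j, (s b j : ℂ) * (c • y) j := by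
      rw [lf_smul, lf_smul, mul_assoc, inv_mul_cancel_left₀ hc0]
    rw [h2, map_mul, hb, mul_one, map_mul, map_inv₀, map_inv₀]
    have h3 : V0.valuation (c * y j1) ≤ 1 :=
      (ValuationSubring.valuation_le_one_iff _ _).2 (hcV j1)
    rw [map_mul] at h3
    have h4 : V0.valuation c ≠ 0 := (map_ne_zero _).2 hc0
    rw [← mul_inv, mul_comm (V0.valuation (y j1))]
    exact (one_le_inv₀ (zero_lt_iff.2 (mul_ne_zero h4 hvj1))).2 h3
  -- elements of the field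
  have hLmem : ∀ {x : ℂ}, IsAlgebraic F x → ∃ z : L, algebraMap L ℂ z = x := fun {x} hx =>
    ⟨⟨x, mem_algebraicClosure_iff.2 hx⟩, rfl⟩
  have hLF : ∀ z : L, IsAlgebraic F (algebraMap L ℂ z) := fun z =>
    mem_algebraicClosure_iff.1 z.2
  have hyL : ∀ j, ∃ z : L, algebraMap L ℂ z = y j := fun j => hLmem (hyalg j)
  choose yL hyL using hyL
  have hτL : ∀ i, ∃ z : L, algebraMap L ℂ z = τ i := by
    intro i
    refine hLmem ?_
    exact isAlgebraic_algebraMap (⟨τ i, IntermediateField.subset_adjoin ℚ _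
      ⟨Sum.inr i, rfl⟩⟩ : F)
  have hrtL : ∀ b, ∃ z : L, algebraMap L ℂ z = rt b := by
    intro b
    refine hLmem ?_
    exact isAlgebraic_algebraMap (⟨rt b, IntermediateField.subset_adjoin ℚ _
      ⟨Sum.inl b, rfl⟩⟩ : F)
  have hTL : AlgebraicIndependent L (fun j : T => SP.co P u j) := indep_closure _ _ hS
  -- moving the place
  let Rt : T → ℕ := fun j => Sum.elim (fun _ => Mo D) (fun _ => 1) (j : Ix q k)
  let bt : T → ℂ := fun j => Sum.elim
    (fun l => (p : ℂ) ^ (Mo D + ((l.2 : ℕ) + 1)) * ((c1 ^ ew l.1) ^ 2) ^ Mo D)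
    (fun v => (p : ℂ) ^ ((r + 1) * t ^ (v : ℕ))) (j : Ix q k)
  have hMo0 : 0 < Mo D := Nat.mul_pos (Nat.succ_pos _) (Finset.prod_pos fun j _ => hD _)
  have hRt : ∀ j, 0 < Rt j := by
    rintro ⟨j | v, hj⟩
    · exact hMo0
    · exact one_pos
  have hbt0 : ∀ j, bt j ≠ 0 := by
    rintro ⟨j | v, hj⟩
    · exact mul_ne_zero (pow_ne_zero _ hp0) (pow_ne_zero _ (pow_ne_zero _ (pow_ne_zero _ hc10)))
    · exact pow_ne_zero _ hp0
  have hbtL : ∀ j, ∃ z : L, algebraMap L ℂ z = bt j := by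
    rintro ⟨j | v, hj⟩
    · refine ⟨(p : L) ^ (Mo D + ((j.2 : ℕ) + 1)) * (((yL j1)⁻¹ ^ ew j.1) ^ 2) ^ Mo D, ?_⟩
      simp only [map_mul, map_pow, map_natCast, map_inv₀, hyL]
      rfl
    · refine ⟨(p : L) ^ ((r + 1) * t ^ (v : ℕ)), ?_⟩
      simp only [map_pow, map_natCast]
      rfl
  have hbk : ∀ j, ∃ a : L, algebraMap L ℂ a ^ Rt j * bt j = 1 := by
    intro j
    obtain ⟨z, hz⟩ := hbtL j
    obtain ⟨x, hx⟩ := IsAlgClosed.exists_pow_nat_eq ((bt j)⁻¹) (hRt j)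
    have h1 : IsAlgebraic F x := by
      have h2 : IsAlgebraic F (x ^ Rt j) := by
        rw [hx, ← hz]
        exact (hLF z).inv
      exact h2.of_pow (hRt j)
    obtain ⟨a, ha⟩ := hLmem h1
    refine ⟨a, ?_⟩
    rw [ha, hx, inv_mul_cancel₀ (hbt0 j)]
  obtain ⟨V, hV, hVL, hVT⟩ := exists_moved hV0τ hτL (fun j : T => SP.co P u j) hTL hV0T bt Rt hRt hbk
  set v := V.valuation with hv
  have hVp : (p : ℂ) ∈ V.nonunits := hV.hp
  have hvp : v (p : ℂ) < 1 := hV.lt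
  -- comparison
  have hle' : ∀ {x x' : ℂ}, (∃ z : L, algebraMap L ℂ z = x) → (∃ z : L, algebraMap L ℂ z = x') →
      (v x ≤ v x' ↔ V0.valuation x ≤ V0.valuation x') := by
    rintro x x' ⟨z, rfl⟩ ⟨z', rfl⟩
    exact hVL z z'
  have h1L : ∃ z : L, algebraMap L ℂ z = (1 : ℂ) := ⟨1, map_one _⟩
  have hc1yL : ∀ j, ∃ z : L, algebraMap L ℂ z = (c1 • y) j := by
    intro j
    refine ⟨(yL j1)⁻¹ * yL j, ?_⟩
    rw [map_mul, map_inv₀, hyL, hyL]
    rfl
  have hcV1 : ∀ j, (c1 • y) j ∈ V := by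
    intro j
    rw [← ValuationSubring.valuation_le_one_iff, ← map_one V.valuation]
    refine (hle' (hc1yL j) h1L).2 ?_
    rw [Pi.smul_apply, smul_eq_mul, map_mul, map_inv₀, map_one]
    have h1 := hj1 j (Finset.mem_univ j)
    calc (V0.valuation (y j1))⁻¹ * V0.valuation (y j)
        ≤ (V0.valuation (y j1))⁻¹ * V0.valuation (y j1) := mul_le_mul_right h1 _
      _ = 1 := inv_mul_cancel₀ hvj1
  have hbu : ∃ b, v (∑ j, (s b j : ℂ) * (c1 • y) j) = 1 := by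
    obtain ⟨b, hb⟩ := hbu0
    choose zc hzc using hc1yL
    have h2 : ∃ z : L, algebraMap L ℂ z = ∑ j, (s b j : ℂ) * (c1 • y) j := by
      refine ⟨∑ j, (s b j : L) * zc j, ?_⟩
      rw [map_sum]
      refine Finset.sum_congr rfl fun j _ => ?_
      rw [map_mul, map_intCast, hzc]
    refine ⟨b, ?_⟩
    rw [← map_one V.valuation]
    refine le_antisymm ((hle' h2 h1L).2 ?_) ((hle' h1L h2).2 ?_)
    · rw [hb, map_one]
    · rw [hb, map_one]
  have hle : ∀ b, v (∑ j, (vdm s b j : ℂ) * (c1 • y) j) ≤ 1 := fun b =>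
    (ValuationSubring.valuation_le_one_iff V _).2
      (sum_mem fun j _ => mul_mem (intCast_mem V _) (hcV1 j))
  -- the forms of `S`
  have hS1 : ∀ b ∈ S, v (∑ j, (vdm s (nn + r + (b : ℕ)) j : ℂ) * (c1 • y) j) < 1 := by
    intro b hbS
    have h3 : v (rt ⟨b, hbS⟩) ≤ v (p : ℂ) := by
      refine (hle' (hrtL _) ⟨(p : L), map_natCast _ _⟩).2 ?_
      rw [hV0S]
    have h4 : (∑ j, (vdm s (nn + r + (b : ℕ)) j : ℂ) * (c1 • y) j) = rt ⟨b, hbS⟩ *
        (∑ j, (vdm s (nn + r + (b0 : ℕ)) j : ℂ) * (c1 • y) j) := by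
      rw [lf_smul, lf_smul, hrt]
      change c1 * form (nn + r + (b : ℕ)) = (form (nn + r + (b0 : ℕ)))⁻¹ *
        form (nn + r + (b : ℕ)) * (c1 * form (nn + r + (b0 : ℕ)))
      have h5 : form (nn + r + (b0 : ℕ)) ≠ 0 := hb0
      field_simp
    rw [h4, map_mul]
    exact (mul_le_of_le_one_right' (hle _)).trans_lt (h3.trans_lt hvp)
  -- the components
  let Jb : Finset (Fin r) := Finset.univ.filter fun j =>
    v (∑ i, (vdm s (nn + (j : ℕ)) i : ℂ) * (c1 • y) i) ≠ 1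
  have hcard := nonunit_card (m := m) (M := nn + r + m) parR parR_inj parR_le hp hpM V hVp s
    (c1 • y) hcV1 hbu ((I.disjSum Jb).disjSum S) (by
      rintro ((i | l) | b) hx'
      · rw [Finset.inl_mem_disjSum, Finset.inl_mem_disjSum] at hx'
        exact hI V hVp c1 hc10 hcV1 i hx'
      · rw [Finset.inl_mem_disjSum, Finset.inr_mem_disjSum] at hx'
        exact (Finset.mem_filter.1 hx').2
      · rw [Finset.inr_mem_disjSum] at hx'
        exact (hS1 b hx').ne)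
  rw [Finset.card_disjSum, Finset.card_disjSum] at hcard
  have hJbc : Jbᶜ.card + Jb.card = r := by
    rw [Finset.card_compl, Fintype.card_fin]
    have h1 := Finset.card_le_univ Jb
    rw [Fintype.card_fin] at h1
    omega
  let z : Fin n → ℂ := fun i => c1 ^ ew i
  have hz0 : ∀ i, z i ≠ 0 := fun i => pow_ne_zero _ hc10
  let Br : Finset (Ix q k) := Finset.univ.filter fun i => ∃ jj : Fin r, ((hcz z P u i).2 = 1 ∧
    v (hcz z P u i).1 ^ D i * v (p : ℂ) ^ ExR D e t jj i = 1)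
  have hBrc : Brᶜ.card + Br.card = Fintype.card (Ix q k) := by
    rw [Finset.card_compl]
    exact Nat.sub_add_cancel (Finset.card_le_univ _)
  let lf : Fin r → ℂ := fun j => ∑ i, (vdm s (nn + (j : ℕ)) i : ℂ) * (c1 • y) i
  have hlf : ∀ j ∈ Jbᶜ, v (lf j) = 1 := by
    intro j hj
    by_contra h4
    exact (Finset.mem_compl.1 hj) (Finset.mem_filter.2 ⟨Finset.mem_univ _, h4⟩)
  have hcastK : v (((p : ℤ) ^ K : ℤ) : ℂ) = v (p : ℂ) ^ K := by
    push_cast
    rw [map_pow]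
  have hmain := card_brC hD V hp hvp (fun j : Fin r => ExR D e t j)
    (fun i j j' hne => ExR_ne hD e ht i (fun h => hne (Fin.ext h))) f α (hf V hV) (hcor V hV)
    (fun j e' => ev (C (j, 0, e')) (c1 • y)) (fun j e' => ev (C (j, 1, e')) (c1 • y)) Jbᶜ
    (fun j => lf j ^ dd j) (fun j i => lf j ^ (wt ew i * D i))
    (fun j hj => by rw [map_pow, hlf j hj, one_pow])
    (fun j hj i => by rw [map_pow, hlf j hj, one_pow])
    (by
      intro j _ e'
      have h1 := ev_congr V hcV1 ((p : ℤ) ^ K)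
        (c' := fun u => (α j * pcZ p (ExR D e t j) e') * pw _ (vdm s (nn + (j : ℕ))) u)
        (hC j e').1
      rw [ev_zsmul, ev_pw, ← hv, hcastK] at h1
      have h2 : ((α j * pcZ p (ExR D e t j) e' : ℤ) : ℂ) *
          (∑ i, (vdm s (nn + (j : ℕ)) i : ℂ) * (c1 • y) i) ^ dg ew D (dd j) e' =
          (α j : ℂ) * (lf j ^ dd j * pcC p (ExR D e t j) (fun i => lf j ^ (wt ew i * D i)) e') := by
        rw [← pcZ_eq, Int.cast_mul, mul_assoc]
      rw [← h2]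
      exact h1.trans (pow_le_pow_right_of_le_one' hvp.le (hK j)))
    (by
      intro j _ e'
      have h1 := ev_congr V hcV1 ((p : ℤ) ^ K)
        (c' := fun u => (pcZ p (ExR D e t j) e') * pw _ (vdm s (nn + (j : ℕ))) u)
        (hC j e').2
      rw [ev_zsmul, ev_pw, ← hv, hcastK] at h1
      have h2 : ((pcZ p (ExR D e t j) e' : ℤ) : ℂ) *
          (∑ i, (vdm s (nn + (j : ℕ)) i : ℂ) * (c1 • y) i) ^ dg ew D (dd j) e' =
          (lf j ^ dd j * pcC p (ExR D e t j) (fun i => lf j ^ (wt ew i * D i)) e') := by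
        rw [← pcZ_eq]
      rw [← h2]
      exact h1.trans (pow_le_pow_right_of_le_one' hvp.le (hK j)))
    (hcz z P u) (hcz_nrm z P u)
    (by
      intro J hJ
      have h1 : ∀ (j : Fin r) (a : Fin 2), mevC (fun e' => ev (C (j, a, e')) (c1 • y)) (hcz z P u) =
          (c1 ^ dd j * ∏ i : Ix q k, (if (hco P u i).2 = 0 then 1 else c1 ^ (wt ew i * D i))) *
            mevC (fun e' => ev (C (j, a, e')) y) (hco P u) := fun j a =>
        mevC_scale ew (dd j) (fun e' => C (j, a, e')) y P u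
      rw [funext fun j => h1 j 0, funext fun j => h1 j 1]
      rw [homV_scale, hz J hJ, mul_zero])
    Br
    (fun i hi j _ h => hi (Finset.mem_filter.2 ⟨Finset.mem_univ _, j, h⟩))
  exact one_placeR D hD e he hdis ht hp V hV A B z hz0
    (fun i => (hAB V hV c1 hc10 hcV1 i).1) (fun i => (hAB V hV c1 hc10 hcV1 i).2) P u Brᶜ
    (fun j => by rw [Finset.mem_compl, Finset.mem_filter]; simp [hv]) T
    (by
      intro j hj
      have h1 := hVT ⟨Sum.inl j, hj⟩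
      have h2 : v (xx (P j.1 j.2) ^ Mo D * ((p : ℂ) ^ (Mo D + ((j.2 : ℕ) + 1)) *
        ((c1 ^ ew j.1) ^ 2) ^ Mo D)) = 1 := h1
      rw [← h2]
      simp only [map_mul, map_pow, z, hv]
      rw [mul_pow]
      have h3 : ∀ a b c : V.ValueGroup, a * b * c = b * (c * a) := fun a b c => by
        rw [mul_comm a b, mul_assoc, mul_comm a c]
      exact h3 _ _ _)
    (by
      intro w hw
      have h1 := hVT ⟨Sum.inr w, hw⟩
      have h2 : v (u w ^ 1 * (p : ℂ) ^ ((r + 1) * t ^ (w : ℕ))) = 1 := h1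
      rw [← h2]
      simp only [map_mul, map_pow, pow_one, hv])
    E Λ hΛ M₂ hM₂ (by omega)

end Pool.Agent.TH971.SR
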