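import Pool.Agent.TH971.SR.R8
import Pool.Agent.TH971.RF.A3
import Pool.Agent.TH971.RF.B2
import Pool.Agent.W466.ZS

/-!
Zilber-Pink for random families of elliptic curves and random pull-backs: the residue class.
-/

set_option autoImplicit false

open MvPolynomial

namespace Pool.Agent.TH971.SR

open Pool.Agent.W282.ZP Pool.Agent.W466.EP Pool.Agent.W466.ZP Pool.Agent.W282.RW
  Pool.Agent.TH971.RF Pool.Agent.TH971.SP

/-- The index set of the coefficients of the `A_i`, `B_i` and of the rational map. -/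
abbrev IdxS {n : ℕ} {q : Fin n → ℕ} {k : ℕ} (N r : ℕ) (ew : Fin n → ℕ) (D : Ix q k → ℕ)
    (dd : Fin r → ℕ) : Type :=
  ((Σ i : Fin n, Sym (Fin (N + 1)) (4 * ew i)) ⊕ (Σ i : Fin n, Sym (Fin (N + 1)) (6 * ew i))) ⊕
    IdxR N r ew D dd

variable {n : ℕ} {q : Fin n → ℕ} {k : ℕ} {N r : ℕ} {ew : Fin n → ℕ} {D : Ix q k → ℕ}
  {dd : Fin r → ℕ}

/-- The forms `A_i`. -/
def fA (C : IdxS N r ew D dd → ℤ) (i : Fin n) : Sym (Fin (N + 1)) (4 * ew i) → ℤ :=
  fun u => C (Sum.inl (Sum.inl ⟨i, u⟩))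

/-- The forms `B_i`. -/
def fB (C : IdxS N r ew D dd → ℤ) (i : Fin n) : Sym (Fin (N + 1)) (6 * ew i) → ℤ :=
  fun u => C (Sum.inl (Sum.inr ⟨i, u⟩))

/-- The coefficients of the rational map. -/
def fC (C : IdxS N r ew D dd → ℤ) : IdxR N r ew D dd → ℤ := fun x => C (Sum.inr x)

theorem exists_classS {n : ℕ} {q : Fin n → ℕ} {k r m d N : ℕ} (ew : Fin n → ℕ)
    (hew : ∀ i, 0 < ew i) (D : Ix q k → ℕ)
    (hD0 : ∀ i, 0 < D i) (hDq : ∀ j, q j.1 ≤ D (Sum.inl j)) (dd : Fin r → ℕ)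
    (I : Ideal (MvPolynomial (Fin r) ℂ)) [I.IsPrime]
    (hd : Algebra.trdeg ℂ (MvPolynomial (Fin r) ℂ ⧸ I) = d)
    {κ : Type} (G : κ → MvPolynomial (Fin (N + 1)) ℂ) (hhom : ∀ k, ∃ e, (G k).IsHomogeneous e)
    (halg : ∀ k s, IsAlgebraic ℚ ((G k).coeff s))
    (hdim1 : ∃ t : Fin (m + 1) → Fin (N + 1) → ℂ, ∀ y : Fin (N + 1) → ℂ,
      (∀ k, eval y (G k) = 0) → (∀ b, ∑ j, t b j * y j = 0) → y = 0)
    (Q₀ : ℕ) (hQ₀ : 0 < Q₀) (C₀ : IdxS N r ew D dd → ℤ) :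
    ∃ (K : IntermediateField ℚ ℂ) (Q : ℕ) (Gt : IdxS N r ew D dd → ℤ), Countable K ∧ 0 < Q ∧
      ∀ C : IdxS N r ew D dd → ℤ, (∀ i, (Q : ℤ) ∣ C i - Gt i) →
        (∀ i, (Q₀ : ℤ) ∣ C i - C₀ i) ∧
        ∀ (rZ : ℕ) (Z : H294ZP.SpecialDatum n rZ) (x : Fin n → ℂ), x ∈ Z.locus →
        ∀ (y : Fin (N + 1) → ℂ) (j0 : Fin (N + 1)), y j0 = 1 → (∀ k, eval y (G k) = 0) →
        (∀ i, dsc (fA C i) (fB C i) y * x i = 6912 * ev (fA C i) y ^ 3) →
        ∀ (P : ∀ i, Fin (q i) → (crv (ev (fA C i) y) (ev (fB C i) y)).Point) (u : Fin k → ℂ),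
          (∀ f ∈ I, homV (fun j => mevC (fun e' => ev (cf (fC C) (j, 0, e')) y) (hco P u))
            (fun j => mevC (fun e' => ev (cf (fC C) (j, 1, e')) y) (hco P u)) f = 0) →
          ∀ (E : ∀ i, EndRing (ev (fA C i) y) (ev (fB C i) y))
            (Λ : ∀ i, Submodule (E i).O (Fin (q i) → (E i).O)),
          (∀ i, ∀ a ∈ Λ i, ∃ t : ℕ, 0 < t ∧ t • ∑ l, (E i).act (a l) (P i l) = 0) →
          ∀ M₂ : Submodule ℤ (Fin k → ℤ), (∀ a ∈ M₂, ∃ t : ℕ, 0 < t ∧ (∏ w, u w ^ a w) ^ t = 1) →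
          ∀ (T1 : Finset (Fin (N + 1))) (T2 : Finset (Ix q k)),
            AlgebraicIndependent K (Sum.elim (fun j : T1 => y j) (fun j : T2 => SP.co P u j)) →
            T1.card + T2.card + ∑ i, Module.finrank (E i).O (Λ i) + Module.finrank ℤ M₂ + r + n ≤
              rZ + Fintype.card (Ix q k) + d + m := by
  classical
  obtain ⟨f, α, β, -, hcor⟩ := exists_corners' I hd
  obtain ⟨tt, htt⟩ := hdim1
  obtain ⟨s, hs⟩ := int_forms G hhom tt htt
  obtain ⟨D₁, hD₁, hgood⟩ := good_prime G halg hhom s hs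
  let Y : Set (Fin (N + 1) → ℂ) := {y | ∀ k, eval y (G k) = 0}
  have hgood' : RF.Good Y s D₁ := hgood
  let cs : Finset ℂ := (Finset.univ.biUnion fun J : Finset (Fin r) =>
      (f J).support.image (f J).coeff) ∪
    (Finset.univ.image fun J : Finset (Fin r) => eval (fun j : J => ((α j : ℤ) : ℂ)) (f J))
  obtain ⟨t, htau, halgt⟩ := exists_tau cs
  set τ : t → ℂ := ((↑) : t → ℂ) with hτ
  obtain ⟨D₀, hD₀, hunit⟩ := const_unit (τ := τ) cs halgt
  obtain ⟨e, he1, he2⟩ := choose_e (fun j => D (Sum.inl j)) hDq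
  obtain ⟨p, O, hpinj, hpp⟩ := exists_primes ∅ (max (max D₀ D₁) (max Q₀ (3 + (n + r + m))))
  let KW : ℕ := 2 * (∑ i, ew i) * (n + 1) + 1
  let Kx : ℕ → ℕ := fun t => (∑ j : Fin r, ((∑ i, ExR D e t j i) + 1)) + KW
  have hKx : ∀ (t : ℕ) (j : Fin r), ∑ i, ExR D e t j i + 1 ≤ Kx t := fun t j =>
    (Finset.single_le_sum (f := fun j : Fin r => (∑ i, ExR D e t j i) + 1)
      (fun _ _ => Nat.zero_le _) (Finset.mem_univ j)).trans (Nat.le_add_right _ _)
  have hKW : ∀ (t : ℕ) (i : Fin n), 2 * ew i * (n + 1) ≤ Kx t := by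
    intro t i
    have h1 : ew i ≤ ∑ i, ew i := Finset.single_le_sum (f := ew) (fun _ _ => Nat.zero_le _)
      (Finset.mem_univ i)
    have h2 : 2 * ew i * (n + 1) ≤ 2 * (∑ i, ew i) * (n + 1) :=
      Nat.mul_le_mul_right _ (Nat.mul_le_mul_left _ h1)
    change _ ≤ _ + (2 * (∑ i, ew i) * (n + 1) + 1)
    omega
  have hKx0 : ∀ t, 0 < Kx t := fun t => by
    change 0 < _ + (2 * (∑ i, ew i) * (n + 1) + 1)
    omega
  let MM : ℕ := (k - 1) * (2 ^ k * (r + 1) ^ k) + 1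
  let ι0 := ((kk : Fin (n + 1)) × (Fin n → Option (Fin kk))) × Fin MM
  let eqv : ι0 ≃ Fin (Fintype.card ι0) := Fintype.equivFin ι0
  let s' : Fin (n + r + m + 1) → Fin (N + 1) → ℤ := fun t => vdm s t
  let a1 : Fin n → Fin (n + r + m + 1) := fun i => ⟨i, by omega⟩
  let tg : (c : ι0) → ℕ → IdxS N r ew D dd → ℤ := fun c pp x =>
    match x with
    | Sum.inl (Sum.inl ⟨i, u⟩) => tA ew s' c.1.2 a1 i u
    | Sum.inl (Sum.inr ⟨i, u⟩) => tB pp ew s' c.1.2 a1 i u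
    | Sum.inr x => if x.1.2.1 = 0
      then α x.1.1 * pcZ pp (ExR D e ((c.2 : ℕ) + 1) x.1.1) x.1.2.2 *
        pw _ (vdm s (n + (x.1.1 : ℕ))) x.2
      else pcZ pp (ExR D e ((c.2 : ℕ) + 1) x.1.1) x.1.2.2 *
        pw _ (vdm s (n + (x.1.1 : ℕ))) x.2
  obtain ⟨Q, Gt, hQ, hclass⟩ := exists_residue_class'
    (κ := IdxS N r ew D dd) (M := Fintype.card ι0)
    (fun m => p m)
    (fun m => (hpp m).1) (fun m m' h => Fin.ext (hpinj h))
    (fun m' _ => Kx (((eqv.symm m').2 : ℕ) + 1))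
    (fun m' x => tg (eqv.symm m') (p m') x) Q₀ hQ₀
    (fun m => ((le_max_left _ _).trans (le_max_right _ _)).trans_lt (hpp m).2.1) C₀
  have hpD0 : ∀ m, ¬ p m ∣ D₀ := fun m h =>
    absurd (Nat.le_of_dvd hD₀ h) (not_le.2 (((le_max_left _ _).trans (le_max_left _ _)).trans_lt
      (hpp m).2.1))
  have hpD1 : ∀ m, ¬ p m ∣ D₁ := fun m h =>
    absurd (Nat.le_of_dvd hD₁ h) (not_le.2 (((le_max_right _ _).trans (le_max_left _ _)).trans_lt
      (hpp m).2.1))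
  have hpM' : ∀ m', 3 + (n + r + m) < p m' := fun m' =>
    ((le_max_right _ _).trans (le_max_right _ _)).trans_lt (hpp m').2.1
  have hpM : ∀ m', n + r + m < p m' := fun m' => by
    have := hpM' m'
    omega
  have hp3 : ∀ m', 3 < p m' := fun m' => by
    have := hpM' m'
    omega
  -- the properties of the constants
  have hA : ∀ m, ∀ V : ValuationSubring ℂ, SP.Good τ (p m) V → ∀ a ∈ cs, V.valuation a ≤ 1 := by
    intro m V hV a ha
    by_cases h0 : a = 0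
    · rw [h0, map_zero]
      exact zero_le_one
    · exact (hunit (p m) (hpD0 m) V hV a ha h0).le
  have hfs : ∀ (J : Finset (Fin r)) l, (f J).coeff l ≠ 0 → (f J).coeff l ∈ cs := fun J l h0 =>
    Finset.mem_union_left _
      (Finset.mem_biUnion.2 ⟨J, Finset.mem_univ _, Finset.mem_image_of_mem _
        (MvPolynomial.mem_support_iff.2 h0)⟩)
  have hcs : ∀ J : Finset (Fin r), eval (fun j : J => ((α j : ℤ) : ℂ)) (f J) ∈ cs := fun J =>
    Finset.mem_union_right _ (Finset.mem_image_of_mem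
      (fun J : Finset (Fin r) => eval (fun j : J => ((α j : ℤ) : ℂ)) (f J)) (Finset.mem_univ J))
  refine ⟨IntermediateField.adjoin ℚ (Set.range τ), Q, Gt, countable_adjoin t, hQ,
    fun C hC => ?_⟩
  obtain ⟨hc0, hcm⟩ := hclass C hC
  have hcm' : ∀ (c : ι0) x, (p (eqv c) : ℤ) ^ Kx ((c.2 : ℕ) + 1) ∣ C x - tg c (p (eqv c)) x := by
    intro c x
    have h1 := hcm (eqv c) x
    simpa only [Equiv.symm_apply_apply] using h1
  have hCR : ∀ c : ι0, CongR ew D e ((c.2 : ℕ) + 1) (Kx ((c.2 : ℕ) + 1)) (p (eqv c)) α dd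
      (fun j => vdm s (n + (j : ℕ))) (cf (fC C)) := by
    intro c j e'
    refine ⟨fun u => ?_, fun u => ?_⟩
    · have h1 := hcm' c (Sum.inr ⟨(j, 0, e'), u⟩)
      simpa [cf, fC, tg] using h1
    · have h1 := hcm' c (Sum.inr ⟨(j, 1, e'), u⟩)
      simpa [cf, fC, tg] using h1
  have hCW : ∀ c : ι0, CongW n c.1.1 (n + r + m) ew (Kx ((c.2 : ℕ) + 1)) (p (eqv c)) c.1.2 s' a1
      (fA C) (fB C) := by
    intro c
    refine congW_of_target (hKx0 _) s' c.1.2 a1 _ _ ?_ ?_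
    · intro i u
      exact hcm' c (Sum.inl (Sum.inl ⟨i, u⟩))
    · intro i u
      exact hcm' c (Sum.inl (Sum.inr ⟨i, u⟩))
  refine ⟨hc0, ?_⟩
  intro rZ Z x hx y j0 hj0 hyG hxy P u hz E Λ hΛ M₂ hM₂ T1 T2 hT
  by_contra hcon
  push Not at hcon
  have hrn : rZ ≤ n := by
    choose f hf using Z.surj
    have hinj : Function.Injective f := by
      intro a b hab
      have h1 := hf a
      rw [hab, hf b] at h1
      exact (Option.some_injective _ h1).symm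
    have := Fintype.card_le_of_injective f hinj
    rwa [Fintype.card_fin, Fintype.card_fin] at this
  obtain ⟨lam, hlam⟩ := pattern (k := rZ) Z x hx ∅ (algebraicIndependent_empty_type)
    (by rw [Finset.card_empty]; omega)
  obtain ⟨I', hI1, hI2⟩ := card_relI lam
  have hy : y ≠ 0 := by
    intro h0
    rw [h0] at hj0
    exact zero_ne_one hj0
  have hYs : ∀ (c : ℂ) (y : Fin (N + 1) → ℂ), y ∈ Y → c • y ∈ Y := by
    intro c y hy k
    obtain ⟨w, hw⟩ := hhom k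
    rw [Pool.Agent.W466.ZC.eval_smul hw, hy k, mul_zero]
  obtain ⟨b0, hb0, S, T, hcard, hind, hyalg⟩ := exch_point htau hD₁ hgood' hYs (n + r) hy hyG hj0
    (fun j => SP.co P u j) T1 T2 hT
  refine pigeon M₂ (r := r) fun m' => ?_
  let c : ι0 := (⟨⟨rZ, Nat.lt_succ_of_le hrn⟩, lam⟩, m')
  have hform : ∀ {V : ValuationSubring ℂ} {c : ℂ}, (∀ j, (c • y) j ∈ V) →
      ∀ i, V.valuation ((c ^ ew i) ^ 4 * ev (fA C i) y) ≤ 1 ∧
        V.valuation ((c ^ ew i) ^ 6 * ev (fB C i) y) ≤ 1 := by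
    intro V c hcV i
    constructor
    · have h3 : (c ^ ew i) ^ 4 * ev (fA C i) y = ev (fA C i) (c • y) := by
        rw [ev_smul, ← pow_mul]
        congr 2
        ring
      rw [h3]
      exact (ValuationSubring.valuation_le_one_iff V _).2 (ev_mem V hcV _)
    · have h3 : (c ^ ew i) ^ 6 * ev (fB C i) y = ev (fB C i) (c • y) := by
        rw [ev_smul, ← pow_mul]
        congr 2
        ring
      rw [h3]
      exact (ValuationSubring.valuation_le_one_iff V _).2 (ev_mem V hcV _)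
  refine critR (nn := n) ew D hD0 e he1 he2 (Nat.succ_pos _) (hpp (eqv c)).1 f α
    (fun V hV J hJ l => by
      by_cases h0 : (f J).coeff l = 0
      · rw [h0, map_zero]
        exact zero_le_one
      · exact hA (eqv c) V hV _ (hfs J l h0))
    (fun V hV J hJ => hunit (p (eqv c)) (hpD0 (eqv c)) V hV _ (hcs J) (by
      have h1 := (hcor J hJ).2 (fun _ => true)
      simpa using h1))
    Y s D₁ hgood' (hpD1 (eqv c)) (hpM (eqv c)) dd (cf (fC C)) (Kx ((m' : ℕ) + 1)) (hKx _) (hCR c) y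
    hy hyG (fun i => ev (fA C i) y) (fun i => ev (fB C i) y)
    (fun V hV c0 hc0 hcV i => hform hcV i) P u (fun J hJ => hz _ (hcor J hJ).1) E Λ hΛ
    M₂ hM₂ b0 hb0 S T hind hyalg I' ?_ (by omega)
  intro V hV c0 hc00 hcV i hi
  obtain ⟨h1, h2⟩ := hlam V (fun i => absurd i.2 (Finset.notMem_empty _))
  refine (core2 hew (hpp (eqv c)).1 (hp3 _) (hKW _) lam s' a1 (fA C) (fB C) (hCW c) V hV (c0 • y)
    hcV x ?_ h1 h2 i (hI1 i hi)).ne
  intro i
  have h3 : dsc (fA C i) (fB C i) (c0 • y) = c0 ^ (12 * ew i) * dsc (fA C i) (fB C i) y :=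
    dsc_smul _ _ _ _
  rw [h3, ev_smul, mul_assoc, hxy]
  have h3 : c0 ^ (12 * ew i) = (c0 ^ (4 * ew i)) ^ 3 := by
    rw [← pow_mul]
    congr 1
    ring
  rw [h3]
  ring

end Pool.Agent.TH971.SR
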