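import Pool.Agent.TH971.SR.Q3
import Pool.Agent.W282.ZP.RMix

/-!
Label polynomials with weights, for products of modular curves of any level and tori (helper file
for Zilber-Pink in mixed Shimura varieties).
-/

set_option autoImplicit false

open MvPolynomial

namespace Pool.Agent.TH971.SR

open Pool.Agent.W282.ZP Pool.Agent.TH971.SP

variable {ι L : Type} [Fintype ι] [DecidableEq ι] [Fintype L] [DecidableEq L]

/-- The value of the combination with coefficients `F` of the products of the numbers `g i a`. -/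
def mvX {D : ι → ℕ} (F : ((i : ι) → Fin (D i + 1)) → ℂ) (g : (i : ι) → Fin (D i + 1) → ℂ) : ℂ :=
  ∑ e : (i : ι) → Fin (D i + 1), F e * ∏ i, g i (e i)

/-- The coefficients of the factor of one variable. -/
def wcoX (D : ι → ℕ) (b : (i : ι) → Fin (D i + 1) → ℤ)
    (lam : ι → Option L) (S : Finset L) (i : ι) (a : Fin (D i + 1)) : ℤ :=
  match lam i with
  | none => if a = 0 then 1 else 0
  | some l => if l ∈ S then b i a else if a = 0 then 1 else 0

/-- The coefficients of `∏_l (1 + c w_l ∏_{lam i = l} s_i)`, where `s_i = ∑ b_a g_{i,a}`. -/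
def lcoX (D : ι → ℕ) (b : (i : ι) → Fin (D i + 1) → ℤ)
    (lam : ι → Option L) (w : L → ℤ) (c : ℤ) (e : (i : ι) → Fin (D i + 1)) : ℤ :=
  ∑ S : Finset L, (∏ l ∈ S, (c * w l)) * ∏ i, wcoX D b lam S i (e i)

theorem mvX_lco (D : ι → ℕ) (b : (i : ι) → Fin (D i + 1) → ℤ)
    (lam : ι → Option L) (w : L → ℤ) (c : ℤ)
    (g : (i : ι) → Fin (D i + 1) → ℂ) (hg : ∀ i, g i 0 = 1) :
    mvX (fun e => (lcoX D b lam w c e : ℂ)) g = ∏ l : L, (1 + (c : ℂ) * ((w l : ℂ) *
      ∏ i, if lam i = some l then ∑ a, (b i a : ℂ) * g i a else 1)) := by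
  classical
  have h0 : ∀ i, ∑ a : Fin (D i + 1), ((if a = 0 then (1 : ℤ) else 0 : ℤ) : ℂ) * g i a = 1 := by
    intro i
    rw [Finset.sum_eq_single 0]
    · rw [if_pos rfl, Int.cast_one, one_mul, hg]
    · intro a _ ha
      rw [if_neg ha, Int.cast_zero, zero_mul]
    · intro h; exact absurd (Finset.mem_univ _) h
  have h1 : ∏ l : L, (1 + (c : ℂ) * ((w l : ℂ) *
      ∏ i, if lam i = some l then ∑ a, (b i a : ℂ) * g i a else 1)) =
      ∑ S : Finset L, (∏ l ∈ S, ((c : ℂ) * (w l : ℂ))) *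
        ∏ i, ∑ a, ((wcoX D b lam S i a : ℤ) : ℂ) * g i a := by
    have h2 : ∀ l : L, (1 + (c : ℂ) * ((w l : ℂ) *
        ∏ i, if lam i = some l then ∑ a, (b i a : ℂ) * g i a else 1)) =
        ((c : ℂ) * (w l : ℂ)) *
          (∏ i, if lam i = some l then ∑ a, (b i a : ℂ) * g i a else 1) + 1 := by
      intro l; ring
    rw [Finset.prod_congr rfl fun l _ => h2 l, Finset.prod_add, Finset.powerset_univ]
    refine Finset.sum_congr rfl fun S _ => ?_
    rw [Finset.prod_const_one, mul_one, Finset.prod_mul_distrib,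
      Finset.prod_comm]
    congr 1
    refine Finset.prod_congr rfl fun i _ => ?_
    unfold wcoX
    cases hl : lam i with
    | none => simp only [h0]; simp
    | some l =>
      by_cases hlS : l ∈ S
      · rw [Finset.prod_eq_single l]
        · simp [hlS]
        · intro b _ hb
          rw [if_neg]
          intro h
          exact hb (Option.some_injective _ h).symm
        · intro h; exact absurd hlS h
      · rw [Finset.prod_eq_one]
        · simp only [hlS, if_false, h0]
        · intro b hb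
          rw [if_neg]
          intro h
          have := Option.some_injective _ h
          subst this
          exact hlS hb
  rw [h1, mvX]
  simp only [lcoX]
  push_cast
  simp only [Finset.sum_mul]
  rw [Finset.sum_comm]
  refine Finset.sum_congr rfl fun S _ => ?_
  rw [Finset.prod_univ_sum, Fintype.piFinset_univ, Finset.mul_sum]
  refine Finset.sum_congr rfl fun e _ => ?_
  rw [mul_assoc, ← Finset.prod_mul_distrib]

/-- All products are dominated. -/
theorem val_mvX_le (V : ValuationSubring ℂ) (D : ι → ℕ)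
    (lam : ι → Option L) (g : (i : ι) → Fin (D i + 1) → ℂ) (m : ι → V.ValueGroup)
    (hm : ∀ i a, V.valuation (g i a) ≤ m i) (hnone : ∀ i, lam i = none → m i ≤ 1)
    (y : L → ℂ) (ρ : L → V.ValueGroup)
    (hρ : ∀ l, ρ l * ∏ i, (if lam i = some l then m i else 1) ≤ max 1 (V.valuation (y l)))
    (F : ((i : ι) → Fin (D i + 1)) → ℂ) (w : V.ValueGroup)
    (hF : ∀ e, V.valuation (F e) ≤ w * ∏ l, ρ l) :
    V.valuation (mvX F g) ≤ w * ∏ l : L, max 1 (V.valuation (y l)) := by
  classical
  set v := V.valuation with hv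
  refine v.map_sum_le fun e _ => ?_
  rw [map_mul, map_prod]
  have h1 : ∏ i, v (g i (e i)) ≤ ∏ i, m i := Finset.prod_le_prod' fun i _ => hm i (e i)
  have h2 : ∀ i, m i ≤ ∏ l : L, if lam i = some l then m i else 1 := by
    intro i
    cases hl : lam i with
    | none =>
      simpa using hnone i hl
    | some l =>
      rw [Finset.prod_eq_single l]
      · simp
      · intro b _ hb
        rw [if_neg]
        intro h
        exact hb (Option.some_injective _ h).symm
      · intro h; exact absurd (Finset.mem_univ _) h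
  calc v (F e) * ∏ i, v (g i (e i)) ≤ (w * ∏ l, ρ l) * ∏ i, ∏ l : L,
        (if lam i = some l then m i else 1) :=
        mul_le_mul' (hF e) (h1.trans (Finset.prod_le_prod' fun i _ => h2 i))
    _ = w * ∏ l, (ρ l * ∏ i, (if lam i = some l then m i else 1)) := by
        rw [Finset.prod_comm, Finset.prod_mul_distrib, mul_assoc]
    _ ≤ w * ∏ l : L, max 1 (v (y l)) := mul_le_mul' le_rfl (Finset.prod_le_prod' fun l _ => hρ l)

/-- One place: the number of the good components is bounded. -/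
theorem card_labX {r d : ℕ} {D : ι → ℕ} (b : (i : ι) → Fin (D i + 1) → ℤ)
    (V : ValuationSubring ℂ) {p : ℕ} (hp : p.Prime)
    (hp1 : V.valuation (p : ℂ) < 1) (hpr : r < p) (lam : ι → Option L) (w : L → ℤ)
    (f : ∀ J : Finset (Fin r), MvPolynomial J ℂ) (α : Fin r → ℤ)
    (hf : ∀ J : Finset (Fin r), J.card = d + 1 → ∀ l, V.valuation ((f J).coeff l) ≤ 1)
    (hcor : ∀ J : Finset (Fin r), J.card = d + 1 → V.valuation
      (eval (fun j : J => ((α j : ℤ) : ℂ)) (f J)) = 1)
    (ρ : L → V.ValueGroup)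
    (cN cM : Fin r → ((i : ι) → Fin (D i + 1)) → ℂ) (Jg : Finset (Fin r))
    (μ : Fin r → ℂ) (hμ : ∀ j ∈ Jg, V.valuation (μ j) = 1)
    (hN : ∀ j ∈ Jg, ∀ e, V.valuation (cN j e - (α j : ℂ) *
      (μ j * (lcoX D b lam w ((j : ℕ) + 1) e : ℂ))) ≤ V.valuation (p : ℂ) * ∏ l, ρ l)
    (hM : ∀ j ∈ Jg, ∀ e, V.valuation (cM j e - μ j * (lcoX D b lam w ((j : ℕ) + 1) e : ℂ)) ≤
      V.valuation (p : ℂ) * ∏ l, ρ l)
    (g : (i : ι) → Fin (D i + 1) → ℂ) (hg : ∀ i, g i 0 = 1)
    (m : ι → V.ValueGroup) (hm : ∀ i a, V.valuation (g i a) ≤ m i)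
    (hnone : ∀ i, lam i = none → m i ≤ 1)
    (yl : L → ℂ) (hyl : ∀ l, yl l = (w l : ℂ) *
      ∏ i, if lam i = some l then ∑ a, (b i a : ℂ) * g i a else 1)
    (hρ : ∀ l, ρ l * ∏ i, (if lam i = some l then m i else 1) ≤ max 1 (V.valuation (yl l)))
    (hz : ∀ J : Finset (Fin r), J.card = d + 1 →
      homV (fun j => mvX (cN j) g) (fun j => mvX (cM j) g)
        (rename (Subtype.val : J → Fin r) (f J)) = 0) :
    Jg.card ≤ Nat.card {l : L // V.valuation (yl l) = 1} + d := by
  classical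
  by_contra hcon
  push Not at hcon
  set v := V.valuation with hv
  set Y : V.ValueGroup := ∏ l : L, max 1 (v (yl l)) with hY
  have hY1 : 1 ≤ Y := Finset.one_le_prod' fun l _ => le_max_left _ _
  have hY0 : 0 < Y := zero_lt_one.trans_le hY1
  let cj : Fin r → ℤ := fun j => (j : ℕ) + 1
  let Pj : Fin r → ℂ := fun j => mvX (fun e => (lcoX D b lam w (cj j) e : ℂ)) g
  have hPj : ∀ j, Pj j = ∏ l, (1 + (cj j : ℂ) * yl l) := by
    intro j
    have h1 := mvX_lco D b lam w (cj j) g hg
    simp only [← hyl] at h1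
    exact h1
  have hcj : ∀ j, v ((cj j : ℤ) : ℂ) = 1 := by
    intro j
    refine val_int_unit V hp hp1 ?_
    intro h
    have h1 : ((p : ℕ) : ℤ) ≤ (j : ℕ) + 1 := Int.le_of_dvd (by positivity) h
    have := j.2
    omega
  have hcjj : ∀ j j', j ≠ j' → v (((cj j - cj j' : ℤ)) : ℂ) = 1 := by
    intro j j' hne
    refine val_int_unit V hp hp1 ?_
    intro h
    have hne' : (j : ℕ) ≠ j' := fun h => hne (Fin.ext h)
    have h1 := Int.natAbs_dvd_natAbs.2 h
    have h2 : (cj j - cj j').natAbs ≠ 0 := by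
      simp only [cj]
      omega
    have h3 := Nat.le_of_dvd (Nat.pos_of_ne_zero h2) h1
    simp only [cj, Int.natAbs_natCast] at h3
    have := j.2
    have := j'.2
    omega
  have hsmall := Pool.Agent.W282.ZP.RM.card_small V yl cj hcj hcjj
    (Jg.filter fun j => v (Pj j) ≠ Y)
    (fun j hj => by
      have h := (Finset.mem_filter.1 hj).2
      rwa [hPj] at h)
  have hlarge : d + 1 ≤ (Jg.filter fun j => v (Pj j) = Y).card := by
    have := Finset.card_filter_add_card_filter_not (s := Jg) (fun j => v (Pj j) = Y)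
    have h2 : (Jg.filter fun j : Fin r => ¬ v (Pj j) = Y).card ≤
      Nat.card {l : L // v (yl l) = 1} := hsmall
    omega
  obtain ⟨J, hJ, hJc⟩ := Finset.exists_subset_card_eq hlarge
  have hJv : ∀ j ∈ J, v (Pj j) = Y := fun j hj => (Finset.mem_filter.1 (hJ hj)).2
  have hJg : ∀ j ∈ J, j ∈ Jg := fun j hj => (Finset.mem_filter.1 (hJ hj)).1
  -- the reductions
  have hdiff : ∀ (F : ((i : ι) → Fin (D i + 1)) → ℂ), (∀ e, v (F e) ≤ v (p : ℂ) * ∏ l, ρ l) →
      v (mvX F g) < Y := by
    intro F hF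
    have h1 := val_mvX_le V D lam g m hm hnone yl ρ hρ F (v (p : ℂ)) hF
    refine lt_of_le_of_lt h1 ?_
    calc v (p : ℂ) * Y < 1 * Y := mul_lt_mul_of_pos_right hp1 hY0
      _ = Y := one_mul _
  have hsub : ∀ (F G : ((i : ι) → Fin (D i + 1)) → ℂ) (a : ℂ),
      mvX (fun e => F e - a * G e) g = mvX F g - a * mvX G g := by
    intro F G a
    rw [mvX, mvX, mvX, Finset.mul_sum, ← Finset.sum_sub_distrib]
    refine Finset.sum_congr rfl fun e _ => ?_
    ring
  set Nz : Fin r → ℂ := fun j => mvX (cN j) g with hNz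
  set Mz : Fin r → ℂ := fun j => mvX (cM j) g with hMz
  have hred : ∀ j ∈ J, Mz j ≠ 0 ∧ v (Nz j / Mz j - (α j : ℂ)) < 1 := by
    intro j hj
    have hμj := hμ j (hJg j hj)
    have hP1 : v (μ j * Pj j) = Y := by rw [map_mul, hμj, one_mul, hJv j hj]
    have hP0 : μ j * Pj j ≠ 0 := by
      intro h0
      rw [h0, map_zero] at hP1
      exact hY0.ne hP1
    have h1 : v (Nz j - (α j : ℂ) * (μ j * Pj j)) < Y := by
      have := hdiff (fun e => cN j e - ((α j : ℂ) * μ j) * (lcoX D b lam w (cj j) e : ℂ)) (fun e => by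
        rw [mul_assoc]
        exact hN j (hJg j hj) e)
      rwa [hsub, mul_assoc] at this
    have h2 : v (Mz j - μ j * Pj j) < Y := by
      have := hdiff (fun e => cM j e - μ j * (lcoX D b lam w (cj j) e : ℂ)) (hM j (hJg j hj))
      rwa [hsub] at this
    have h3 : v (Nz j / (μ j * Pj j) - (α j : ℂ)) < 1 := by
      have h4 : Nz j / (μ j * Pj j) - (α j : ℂ) =
          (Nz j - (α j : ℂ) * (μ j * Pj j)) / (μ j * Pj j) := by
        rw [sub_div, mul_div_cancel_right₀ _ hP0]
      rw [h4, map_div₀, hP1]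
      exact (div_lt_one₀ hY0).2 h1
    have h4 : v (Mz j / (μ j * Pj j) - 1) < 1 := by
      have h5 : Mz j / (μ j * Pj j) - 1 = (Mz j - μ j * Pj j) / (μ j * Pj j) := by
        rw [sub_div, div_self hP0]
      rw [h5, map_div₀, hP1]
      exact (div_lt_one₀ hY0).2 h2
    obtain ⟨h5, h6⟩ := val_div_sub_lt V (Nz j / (μ j * Pj j)) (Mz j / (μ j * Pj j)) (α j : ℂ)
      (int_le V _) h3 h4
    rw [div_div_div_cancel_right₀ hP0] at h6
    refine ⟨?_, h6⟩
    intro h7
    rw [h7, zero_div] at h5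
    exact h5 rfl
  have hdeg : ∀ i, (rename (Subtype.val : J → Fin r) (f J)).degreeOf i ≠ 0 → i ∈ J := by
    intro i hi
    by_contra hiJ
    apply hi
    rw [← Nat.le_zero, degreeOf_le_iff]
    intro k hk
    obtain ⟨k', rfl, -⟩ := coeff_rename_ne_zero _ _ _ (mem_support_iff.1 hk)
    rw [Finsupp.mapDomain_of_notMem_range]
    rintro ⟨j, rfl⟩
    exact hiJ j.2
  have h1 := hz J hJc
  rw [homV_eq _ _ _ (fun i hi => (hred i (hdeg i hi)).1)] at h1
  have h2 := (mul_eq_zero.1 h1).resolve_left (Finset.prod_ne_zero_iff.2 fun i _ => by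
    by_cases hi : (rename (Subtype.val : J → Fin r) (f J)).degreeOf i = 0
    · rw [hi, pow_zero]
      exact one_ne_zero
    · exact pow_ne_zero _ (hred i (hdeg i hi)).1)
  rw [eval_rename] at h2
  have h3 := val_aeval_sub_lt V (f J) (fun l => hf J hJc l) (fun j : J => Nz j / Mz j)
    (fun j : J => ((α j : ℤ) : ℂ)) (fun j => (hred j j.2).2) (fun j => int_le V _)
  have h2' : aeval (fun j : J => Nz j / Mz j) (f J) = 0 := by
    rw [aeval_eq_eval]
    exact h2
  rw [h2', zero_sub, Valuation.map_neg, aeval_eq_eval, hcor J hJc] at h3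
  exact lt_irrefl _ h3

end Pool.Agent.TH971.SR
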