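import Pool.Agent.TH971.SR.X1
import Pool.Agent.TH971.SR.P2
import Pool.Agent.W282.ZP.Mix

/-!
Zilber-Pink for random correspondences between a base and a product of modular curves of any level
and a torus: one point and one prime.
-/

set_option autoImplicit false

open MvPolynomial

namespace Pool.Agent.TH971.SR

open Pool.Agent.W282.ZP Pool.Agent.W466.EP Pool.Agent.W466.ZP Pool.Agent.W282.RW
  Pool.Agent.TH971.RF Pool.Agent.TH971.SP

/-- The functions of all variables. -/
def gX {n k : ℕ} {D : Fin n ⊕ Fin k → ℕ} (g : (i : Fin n) → Fin (D (Sum.inl i) + 1) → ℂ)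
    (u : Fin k → ℂ) : (i : Fin n ⊕ Fin k) → Fin (D i + 1) → ℂ
  | Sum.inl i => g i
  | Sum.inr w => fun a => u w ^ (a : ℕ)

/-- The coefficients of the dominating functions. -/
def bX {n k : ℕ} {D : Fin n ⊕ Fin k → ℕ} (b : (i : Fin n) → Fin (D (Sum.inl i) + 1) → ℤ) :
    (i : Fin n ⊕ Fin k) → Fin (D i + 1) → ℤ
  | Sum.inl i => b i
  | Sum.inr w => fun a => if a = Fin.last (D (Sum.inr w)) then 1 else 0

/-- The labels. -/
def lamX {n k kk : ℕ} (lam : Fin n → Option (Fin kk)) : Fin n ⊕ Fin k → Option (Fin kk ⊕ Fin k)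
  | Sum.inl i => (lam i).map Sum.inl
  | Sum.inr w => some (Sum.inr w)

/-- The weights. -/
def wX {n k : ℕ} (kk : ℕ) (D : Fin n ⊕ Fin k → ℕ) (p t : ℕ) : Fin kk ⊕ Fin k → ℤ
  | Sum.inl _ => 1
  | Sum.inr w => (p : ℤ) ^ (D (Sum.inr w) * t ^ (w : ℕ))

variable {σ : Type} [Fintype σ] [DecidableEq σ]

theorem critX {n k r m d kk t M : ℕ} (D : Fin n ⊕ Fin k → ℕ) (hDk : ∀ w, 0 < D (Sum.inr w))
    (ht : 0 < t) (hM : 1 + ∑ w, D (Sum.inr w) * t ^ (w : ℕ) ≤ M)
    {κ : Type} {τ : κ → ℂ} {p : ℕ} (hp : p.Prime)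
    (f : ∀ J : Finset (Fin r), MvPolynomial J ℂ) (α : Fin r → ℤ)
    (hf : ∀ V : ValuationSubring ℂ, SP.Good τ p V → ∀ J : Finset (Fin r), J.card = d + 1 →
      ∀ l, V.valuation ((f J).coeff l) ≤ 1)
    (hcor : ∀ V : ValuationSubring ℂ, SP.Good τ p V → ∀ J : Finset (Fin r), J.card = d + 1 →
      V.valuation (eval (fun j : J => ((α j : ℤ) : ℂ)) (f J)) = 1)
    (Y : Set (σ → ℂ)) (s : Fin (m + 1) → σ → ℤ) (D₀ : ℕ) (hgood : RF.Good Y s D₀)
    (hpD : ¬ p ∣ D₀) (hpM : 0 + r + m < p) (dd : Fin r → ℕ)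
    (b : (i : Fin n) → Fin (D (Sum.inl i) + 1) → ℤ) (lam : Fin n → Option (Fin kk))
    (C : ∀ x : Fin r × Fin 2 × ((i : Fin n ⊕ Fin k) → Fin (D i + 1)), Sym σ (dd x.1) → ℤ)
    (hC : ∀ (j : Fin r) (e : (i : Fin n ⊕ Fin k) → Fin (D i + 1)),
      (∀ u, (p : ℤ) ^ M ∣ C (j, 0, e) u -
        α j * lcoX D (bX b) (lamX lam) (wX kk D p t) ((j : ℕ) + 1) e *
        pw _ (vdm s (0 + (j : ℕ))) u) ∧
      (∀ u, (p : ℤ) ^ M ∣ C (j, 1, e) u -
        lcoX D (bX b) (lamX lam) (wX kk D p t) ((j : ℕ) + 1) e *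
        pw _ (vdm s (0 + (j : ℕ))) u))
    (y : σ → ℂ) (hy : y ≠ 0) (hyY : y ∈ Y) (x : Fin n → ℂ)
    (g : (i : Fin n) → Fin (D (Sum.inl i) + 1) → ℂ) (hg0 : ∀ i, g i 0 = 1)
    (uu : Fin k → ℂ)
    (hz : ∀ J : Finset (Fin r), J.card = d + 1 →
      homV (fun j => mvX (fun e' => ev (C (j, 0, e')) y) (gX g uu))
        (fun j => mvX (fun e' => ev (C (j, 1, e')) y) (gX g uu))
        (rename (Subtype.val : J → Fin r) (f J)) = 0)
    (b0 : Fin (m + 1)) (hb0 : ∑ j, (vdm s (0 + r + (b0 : ℕ)) j : ℂ) * y j ≠ 0)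
    (S : Finset (Fin (m + 1))) (T : Finset (Fin n)) (T₂ : Finset (Fin k))
    (hS : AlgebraicIndependent ℚ (Sum.elim (fun j : T => x j) (Sum.elim (Sum.elim
      (fun w : T₂ => uu w)
      (fun b : S => (∑ j, (vdm s (0 + r + (b0 : ℕ)) j : ℂ) * y j)⁻¹ *
        ∑ j, (vdm s (0 + r + ((b : Fin (m + 1)) : ℕ)) j : ℂ) * y j)) τ)))
    (hxi : ∀ V : ValuationSubring ℂ, SP.Good τ p V → ∀ i, x i ∈ V → ∀ a,
      V.valuation (g i a) ≤ 1)
    (hxn : ∀ V : ValuationSubring ℂ, SP.Good τ p V → ∀ i, x i ∉ V → ∀ a,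
      V.valuation (g i a) ≤ V.valuation (∑ a, (b i a : ℂ) * g i a))
    (hlam : ∀ V : ValuationSubring ℂ, SP.Good τ p V → (∀ i : T, x i ∈ V) →
      (∀ i, lam i = none → x i ∈ V) ∧
      (∀ i i', lam i ≠ none → lam i' = lam i → x i ∈ V → x i' ∈ V))
    (M₂ : Submodule ℤ (Fin k → ℤ))
    (hM₂ : ∀ V : ValuationSubring ℂ, SP.Good τ p V → ∀ a ∈ M₂,
      V.valuation (∏ w, uu w ^ a w) = 1)
    (hcon : kk + k + d + m < S.card + T₂.card + Module.finrank ℤ M₂ + r) :
    ∃ U : Finset (Fin k), U.card < Module.finrank ℤ M₂ ∧ ∃ χ : Fin k → Fin (1 + 1),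
      ∀ a ∈ M₂, (∀ w ∈ U, a w = 0) →
      ∑ w, (a w * ((χ w : ℕ) + 1 : ℕ)) * (t ^ (w : ℕ) : ℕ) = 0 := by
  classical
  have hp0 : (p : ℂ) ≠ 0 := by exact_mod_cast hp.ne_zero
  have hpQ : (p : ℚ) ≠ 0 := by exact_mod_cast hp.ne_zero
  obtain ⟨V, hVτ, hVT, hVS⟩ := exists_place _ _ τ hS hp (fun _ => 1)
    (Sum.elim (fun w : T₂ => (p : ℚ) ^ (2 * t ^ ((w : Fin k) : ℕ))) (fun _ => (p : ℚ)⁻¹))
    (fun _ => one_ne_zero) (by
      rintro (w | b)
      · exact pow_ne_zero _ hpQ
      · exact inv_ne_zero hpQ)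
  set v := V.valuation with hv
  have hVp : (p : ℂ) ∈ V.nonunits := hVτ.hp
  have hvp : v (p : ℂ) < 1 := hVτ.lt
  have hvp0 : 0 < v (p : ℂ) := zero_lt_iff.2 ((map_ne_zero _).2 hp0)
  have hTV : ∀ i : T, x i ∈ V := by
    intro i
    have h1 := hVT i
    rw [Rat.cast_one, one_mul] at h1
    exact (ValuationSubring.valuation_le_one_iff V _).1 h1.le
  have hT₂v : ∀ w ∈ T₂, v (p : ℂ) ^ (2 * t ^ (w : ℕ)) * v (uu w) = 1 := by
    intro w hw
    have h1 := hVS (Sum.inl ⟨w, hw⟩)
    simpa using h1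
  obtain ⟨hl1, hl2⟩ := hlam V hVτ hTV
  obtain ⟨c, hc0, hcV, -, hbu⟩ := hgood p hp hpD V hVp y hy hyY
  have hle : ∀ b, v (∑ j, (vdm s b j : ℂ) * (c • y) j) ≤ 1 := fun b =>
    (ValuationSubring.valuation_le_one_iff V _).2
      (sum_mem fun j _ => mul_mem (intCast_mem V _) (hcV j))
  -- the forms of `S`
  have hS1 : ∀ b ∈ S, v (∑ j, (vdm s (0 + r + (b : ℕ)) j : ℂ) * (c • y) j) < 1 := by
    intro b hbS
    have h1 := hVS (Sum.inr ⟨b, hbS⟩)
    have h3 : v ((∑ j, (vdm s (0 + r + (b0 : ℕ)) j : ℂ) * y j)⁻¹ *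
        ∑ j, (vdm s (0 + r + (b : ℕ)) j : ℂ) * y j) = v (p : ℂ) := by
      have h2 : v (((p : ℚ)⁻¹ : ℚ) : ℂ) = (v (p : ℂ))⁻¹ := by
        push_cast
        rw [map_inv₀]
      rw [Sum.elim_inr, Sum.elim_inr, map_mul, h2] at h1
      have h4 : v (p : ℂ) ≠ 0 := (map_ne_zero _).2 hp0
      rw [inv_mul_eq_one₀ h4] at h1
      exact h1.symm
    have h4 : (∑ j, (vdm s (0 + r + (b : ℕ)) j : ℂ) * (c • y) j) =
        ((∑ j, (vdm s (0 + r + (b0 : ℕ)) j : ℂ) * y j)⁻¹ *
          ∑ j, (vdm s (0 + r + (b : ℕ)) j : ℂ) * y j) *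
        (∑ j, (vdm s (0 + r + (b0 : ℕ)) j : ℂ) * (c • y) j) := by
      rw [lf_smul, lf_smul]
      field_simp
    rw [h4, map_mul, h3]
    exact (mul_le_of_le_one_right' (hle _)).trans_lt hvp
  let Jb : Finset (Fin r) := Finset.univ.filter fun j =>
    v (∑ i, (vdm s (0 + (j : ℕ)) i : ℂ) * (c • y) i) ≠ 1
  have hcard := nonunit_card (m := m) (M := 0 + r + m) (parR (nn := 0)) parR_inj parR_le hp hpM V
    hVp s (c • y) hcV hbu (((∅ : Finset (Fin 0)).disjSum Jb).disjSum S) (by
      rintro ((i | l) | b) hx'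
      · exact i.elim0
      · rw [Finset.inl_mem_disjSum, Finset.inr_mem_disjSum] at hx'
        exact (Finset.mem_filter.1 hx').2
      · rw [Finset.inr_mem_disjSum] at hx'
        exact (hS1 b hx').ne)
  rw [Finset.card_disjSum, Finset.card_disjSum, Finset.card_empty, zero_add] at hcard
  have hJbc : Jbᶜ.card + Jb.card = r := by
    rw [Finset.card_compl, Fintype.card_fin]
    have h1 := Finset.card_le_univ Jb
    rw [Fintype.card_fin] at h1
    omega
  let lf : Fin r → ℂ := fun j => ∑ i, (vdm s (0 + (j : ℕ)) i : ℂ) * (c • y) i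
  have hlf : ∀ j ∈ Jbᶜ, v (lf j) = 1 := by
    intro j hj
    by_contra h4
    exact (Finset.mem_compl.1 hj) (Finset.mem_filter.2 ⟨Finset.mem_univ _, h4⟩)
  have hcastM : v (((p : ℤ) ^ M : ℤ) : ℂ) = v (p : ℂ) ^ M := by
    push_cast
    rw [map_pow]
  -- the labels
  let sg : Fin n → ℂ := fun i => ∑ a, (b i a : ℂ) * g i a
  let q : Fin k → ℕ := fun w => D (Sum.inr w) * t ^ (w : ℕ)
  let yl : Fin kk ⊕ Fin k → ℂ := Sum.elim (fun l => ∏ i, if lam i = some l then sg i else 1)
    (fun w => (p : ℂ) ^ q w * uu w ^ D (Sum.inr w))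
  let mm : Fin n ⊕ Fin k → V.ValueGroup := Sum.elim (fun i => max 1 (v (sg i)))
    (fun w => max 1 (v (uu w)) ^ D (Sum.inr w))
  let ρ : Fin kk ⊕ Fin k → V.ValueGroup := Sum.elim (fun _ => 1) (fun w => v (p : ℂ) ^ q w)
  have hρprod : v (p : ℂ) ^ M ≤ v (p : ℂ) * ∏ l, ρ l := by
    rw [Fintype.prod_sum_type]
    simp only [ρ, Sum.elim_inl, Sum.elim_inr, Finset.prod_const_one, one_mul]
    rw [Finset.prod_pow_eq_pow_sum, ← pow_succ', add_comm]
    exact pow_le_pow_right_of_le_one' hvp.le hM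
  have hsi : ∀ i, x i ∈ V → v (sg i) ≤ 1 := fun i hi =>
    v.map_sum_le fun a _ => by
      rw [map_mul]
      exact mul_le_one' (int_le V _) (hxi V hVτ i hi a)
  have hsn : ∀ i, x i ∉ V → 1 ≤ v (sg i) := fun i hi => by
    have := hxn V hVτ i hi 0
    rwa [hg0, map_one] at this
  have hmap : ∀ (i : Fin n) (l : Fin kk), (lamX (k := k) lam (Sum.inl i) = some (Sum.inl l)) ↔
      lam i = some l := by
    intro i l
    simp only [lamX]
    cases lam i with
    | none => simp
    | some l' => simp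
  have hmap' : ∀ (i : Fin n) (w : Fin k), lamX lam (Sum.inl i) ≠ some (Sum.inr w) := by
    intro i w
    simp only [lamX]
    cases lam i with
    | none => simp
    | some l' => simp
  have hmain := card_labX (D := D) (bX b) V hp hvp (by omega) (lamX lam) (wX kk D p t) f α
    (hf V hVτ) (hcor V hVτ) ρ
    (fun j e' => ev (C (j, 0, e')) (c • y)) (fun j e' => ev (C (j, 1, e')) (c • y)) Jbᶜ
    (fun j => lf j ^ dd j)
    (fun j hj => by rw [map_pow]; change v (lf j) ^ _ = 1; rw [hlf j hj, one_pow])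
    (by
      intro j _ e'
      have h1 := ev_congr V hcV ((p : ℤ) ^ M)
        (c' := fun u => (α j * lcoX D (bX b) (lamX lam) (wX kk D p t) ((j : ℕ) + 1) e') *
          pw _ (vdm s (0 + (j : ℕ))) u)
        (hC j e').1
      rw [ev_zsmul, ev_pw, ← hv, hcastM] at h1
      have h2 : ((α j * lcoX D (bX b) (lamX lam) (wX kk D p t) ((j : ℕ) + 1) e' : ℤ) : ℂ) *
          (∑ i, (vdm s (0 + (j : ℕ)) i : ℂ) * (c • y) i) ^ dd j =
          (α j : ℂ) * (lf j ^ dd j *
            (lcoX D (bX b) (lamX lam) (wX kk D p t) ((j : ℕ) + 1) e' : ℂ)) := by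
        push_cast
        ring
      rw [← h2]
      exact h1.trans hρprod)
    (by
      intro j _ e'
      have h1 := ev_congr V hcV ((p : ℤ) ^ M)
        (c' := fun u => (lcoX D (bX b) (lamX lam) (wX kk D p t) ((j : ℕ) + 1) e') *
          pw _ (vdm s (0 + (j : ℕ))) u)
        (hC j e').2
      rw [ev_zsmul, ev_pw, ← hv, hcastM] at h1
      have h2 : ((lcoX D (bX b) (lamX lam) (wX kk D p t) ((j : ℕ) + 1) e' : ℤ) : ℂ) *
          (∑ i, (vdm s (0 + (j : ℕ)) i : ℂ) * (c • y) i) ^ dd j =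
          (lf j ^ dd j *
            (lcoX D (bX b) (lamX lam) (wX kk D p t) ((j : ℕ) + 1) e' : ℂ)) := by
        push_cast
        ring
      rw [← h2]
      exact h1.trans hρprod)
    (gX g uu)
    (by
      rintro (i | w)
      · exact hg0 i
      · change uu w ^ ((0 : Fin (D (Sum.inr w) + 1)) : ℕ) = 1
        rw [Fin.val_zero, pow_zero])
    mm
    (by
      rintro (i | w) a
      · change v (g i a) ≤ max 1 (v (sg i))
        by_cases hi : x i ∈ V
        · exact (hxi V hVτ i hi a).trans (le_max_left _ _)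
        · exact (hxn V hVτ i hi a).trans (le_max_right _ _)
      · change v (uu w ^ (a : ℕ)) ≤ max 1 (v (uu w)) ^ D (Sum.inr w)
        rw [map_pow]
        calc v (uu w) ^ (a : ℕ) ≤ max 1 (v (uu w)) ^ (a : ℕ) := by
              gcongr
              exact le_max_right _ _
          _ ≤ max 1 (v (uu w)) ^ D (Sum.inr w) :=
            pow_le_pow_right₀ (le_max_left _ _) (Nat.lt_succ_iff.1 a.2))
    (by
      rintro (i | w) hi
      · have h1 : lam i = none := by
          simpa [lamX] using hi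
        exact max_le le_rfl (hsi i (hl1 i h1))
      · simp [lamX] at hi)
    yl
    (by
      rintro (l | w)
      · rw [Fintype.prod_sum_type]
        have h1 : ∏ w : Fin k, (if lamX (kk := kk) lam (Sum.inr w) = some (Sum.inl l) then
            ∑ a, ((bX b (Sum.inr w) a : ℤ) : ℂ) * gX g uu (Sum.inr w) a else 1) = 1 :=
          Finset.prod_eq_one fun w _ => by simp [lamX]
        rw [h1, mul_one]
        change ∏ i, (if lam i = some l then sg i else 1) = ((1 : ℤ) : ℂ) * _
        rw [Int.cast_one, one_mul]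
        refine Finset.prod_congr rfl fun i _ => ?_
        by_cases h : lam i = some l
        · rw [if_pos h, if_pos ((hmap i l).2 h)]
          rfl
        · rw [if_neg h, if_neg (fun h' => h ((hmap i l).1 h'))]
      · rw [Fintype.prod_sum_type]
        have h1 : ∏ i : Fin n, (if lamX (kk := kk) lam (Sum.inl i) = some (Sum.inr w) then
            ∑ a, ((bX b (Sum.inl i) a : ℤ) : ℂ) * gX g uu (Sum.inl i) a else 1) = 1 :=
          Finset.prod_eq_one fun i _ => if_neg (hmap' i w)
        have h2 : ∏ w' : Fin k, (if lamX (kk := kk) lam (Sum.inr w') = some (Sum.inr w) then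
            ∑ a, ((bX b (Sum.inr w') a : ℤ) : ℂ) * gX g uu (Sum.inr w') a else 1) =
            uu w ^ D (Sum.inr w) := by
          rw [Finset.prod_eq_single w]
          · rw [if_pos (by simp [lamX])]
            rw [Finset.sum_eq_single (Fin.last (D (Sum.inr w)))]
            · simp [bX, gX]
            · intro a _ ha
              simp [bX, ha]
            · intro h
              exact absurd (Finset.mem_univ _) h
          · intro w' _ hw'
            rw [if_neg]
            intro h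
            apply hw'
            simpa [lamX] using h
          · intro h
            exact absurd (Finset.mem_univ _) h
        rw [h1, h2, one_mul]
        change (p : ℂ) ^ q w * uu w ^ D (Sum.inr w) =
          (((p : ℤ) ^ (D (Sum.inr w) * t ^ (w : ℕ)) : ℤ) : ℂ) * uu w ^ D (Sum.inr w)
        push_cast
        rfl)
    (by
      rintro (l | w)
      · rw [Fintype.prod_sum_type]
        have h1 : ∏ w : Fin k, (if lamX (kk := kk) lam (Sum.inr w) = some (Sum.inl l) then
            mm (Sum.inr w) else 1) = 1 :=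
          Finset.prod_eq_one fun w _ => by simp [lamX]
        rw [h1, mul_one]
        change 1 * _ ≤ max 1 (v (∏ i, (if lam i = some l then sg i else 1)))
        rw [one_mul]
        have h2 : ∏ i, (if lamX (k := k) lam (Sum.inl i) = some (Sum.inl l) then
            mm (Sum.inl i) else 1) = ∏ i, (if lam i = some l then max 1 (v (sg i)) else 1) := by
          refine Finset.prod_congr rfl fun i _ => ?_
          by_cases h : lam i = some l
          · rw [if_pos h, if_pos ((hmap i l).2 h)]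
            rfl
          · rw [if_neg h, if_neg (fun h' => h ((hmap i l).1 h'))]
        rw [h2]
        by_cases h : ∃ i, lam i = some l ∧ x i ∈ V
        · obtain ⟨i, hi, hiV⟩ := h
          rw [Finset.prod_eq_one]
          · exact le_max_left _ _
          · intro i' _
            split_ifs with h
            · exact max_eq_left (hsi i' (hl2 i i' (by rw [hi]; exact Option.some_ne_none _)
                (h.trans hi.symm) hiV))
            · rfl
        · push Not at h
          refine le_trans (le_of_eq ?_) (le_max_right _ _)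
          rw [map_prod]
          refine Finset.prod_congr rfl fun i _ => ?_
          split_ifs with h'
          · rw [max_eq_right (hsn i (h i h'))]
          · rw [map_one]
      · rw [Fintype.prod_sum_type]
        have h1 : ∏ i : Fin n, (if lamX (kk := kk) lam (Sum.inl i) = some (Sum.inr w) then
            mm (Sum.inl i) else 1) = 1 :=
          Finset.prod_eq_one fun i _ => if_neg (hmap' i w)
        have h2 : ∏ w' : Fin k, (if lamX (kk := kk) lam (Sum.inr w') = some (Sum.inr w) then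
            mm (Sum.inr w') else 1) = max 1 (v (uu w)) ^ D (Sum.inr w) := by
          rw [Finset.prod_eq_single w]
          · rw [if_pos (by simp [lamX])]
            rfl
          · intro w' _ hw'
            rw [if_neg]
            intro h
            apply hw'
            simpa [lamX] using h
          · intro h
            exact absurd (Finset.mem_univ _) h
        rw [h1, h2, one_mul]
        change v (p : ℂ) ^ q w * _ ≤ max 1 (v ((p : ℂ) ^ q w * uu w ^ D (Sum.inr w)))
        rw [map_mul, map_pow, map_pow]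
        rcases le_total (v (uu w)) 1 with h | h
        · rw [max_eq_left h, one_pow, mul_one]
          exact (pow_le_one' hvp.le _).trans (le_max_left _ _)
        · rw [max_eq_right h]
          exact le_max_right _ _)
    (by
      intro J hJ
      have h1 : ∀ (j : Fin r) (a : Fin 2), mvX (fun e' => ev (C (j, a, e')) (c • y)) (gX g uu) =
          c ^ dd j * mvX (fun e' => ev (C (j, a, e')) y) (gX g uu) := by
        intro j a
        rw [mvX, mvX, Finset.mul_sum]
        refine Finset.sum_congr rfl fun e _ => ?_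
        rw [ev_smul, mul_assoc]
      rw [funext fun j => h1 j 0, funext fun j => h1 j 1]
      rw [homV_scale, hz J hJ, mul_zero])
  -- the torus labels
  let Y' : Finset (Fin k) := Finset.univ.filter fun w => v (yl (Sum.inr w)) = 1
  have hY'v : ∀ w ∈ Y', v (p : ℂ) ^ (t ^ (w : ℕ)) * v (uu w) = 1 := by
    intro w hw
    have h1 : v ((p : ℂ) ^ q w * uu w ^ D (Sum.inr w)) = 1 := (Finset.mem_filter.1 hw).2
    have h2 : (v (p : ℂ) ^ (t ^ (w : ℕ)) * v (uu w)) ^ D (Sum.inr w) = 1 := by
      rw [← h1, map_mul, map_pow, map_pow, mul_pow, ← pow_mul]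
      simp only [q]
      rw [mul_comm (t ^ (w : ℕ))]
    rcases lt_trichotomy (v (p : ℂ) ^ (t ^ (w : ℕ)) * v (uu w)) 1 with h3 | h3 | h3
    · exact absurd h2 (pow_lt_one₀ zero_le h3 (hDk w).ne').ne
    · exact h3
    · exact absurd h2 (one_lt_pow₀ h3 (hDk w).ne').ne'
  have hdisj : Disjoint T₂ Y' := by
    rw [Finset.disjoint_left]
    intro w hw hw'
    have h1 := hT₂v w hw
    have h2 := hY'v w hw'
    have h3 : v (p : ℂ) ^ (t ^ (w : ℕ)) = 1 := by
      have h4 : v (p : ℂ) ^ (2 * t ^ (w : ℕ)) = v (p : ℂ) ^ (t ^ (w : ℕ)) *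
          v (p : ℂ) ^ (t ^ (w : ℕ)) := by rw [two_mul, pow_add]
      rw [h4, mul_assoc, h2, mul_one] at h1
      exact h1
    exact absurd h3 (pow_lt_one₀ zero_le hvp (pow_pos ht _).ne').ne
  have hcount : Nat.card {l : Fin kk ⊕ Fin k // v (yl l) = 1} ≤ kk + Y'.card := by
    have h1 : Nat.card {l : Fin kk ⊕ Fin k // v (yl l) = 1} =
        (Finset.univ.filter fun l : Fin kk ⊕ Fin k => v (yl l) = 1).card := by
      rw [Nat.card_eq_fintype_card, Fintype.card_subtype]
    rw [h1]
    have h2 : (Finset.univ.filter fun l : Fin kk ⊕ Fin k => v (yl l) = 1) ⊆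
        (Finset.univ : Finset (Fin kk)).disjSum Y' := by
      rintro (l | w) h
      · simp
      · rw [Finset.inr_mem_disjSum]
        exact Finset.mem_filter.2 ⟨Finset.mem_univ _, (Finset.mem_filter.1 h).2⟩
    have h3 := Finset.card_le_card h2
    rwa [Finset.card_disjSum, Finset.card_univ, Fintype.card_fin] at h3
  have hmain' : Jbᶜ.card ≤ Nat.card {l : Fin kk ⊕ Fin k // v (yl l) = 1} + d := hmain
  have h8 : Jbᶜ.card ≤ kk + Y'.card + d := by
    have := hcount
    omega
  have h9 : Jb.card + S.card ≤ m := hcard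
  refine ⟨(T₂ ∪ Y')ᶜ, ?_, fun w => if w ∈ T₂ then 1 else 0, ?_⟩
  · rw [Finset.card_compl, Fintype.card_fin, Finset.card_union_of_disjoint hdisj]
    have h1 := Finset.card_le_univ (T₂ ∪ Y')
    rw [Fintype.card_fin, Finset.card_union_of_disjoint hdisj] at h1
    omega
  · intro a ha haU
    have h1 := hM₂ V hVτ a ha
    rw [map_prod] at h1
    have h2 : ∀ w, v (uu w ^ a w) = (v (p : ℂ) ^ (-((a w * (((if w ∈ T₂ then (1 : Fin (1 + 1))
        else 0 : Fin (1 + 1)) : ℕ) + 1 : ℕ)) * (t ^ (w : ℕ) : ℕ)) : ℤ)) := by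
      intro w
      rw [map_zpow₀]
      by_cases hw : w ∈ T₂
      · have h3 := hT₂v w hw
        have h4 : v (uu w) = (v (p : ℂ) ^ (2 * t ^ (w : ℕ)))⁻¹ :=
          (inv_eq_of_mul_eq_one_right h3).symm
        rw [h4, if_pos hw, ← zpow_natCast, ← zpow_neg, ← zpow_mul]
        congr 1
        push_cast
        simp
        ring
      · by_cases hw' : w ∈ Y'
        · have h3 := hY'v w hw'
          have h4 : v (uu w) = (v (p : ℂ) ^ (t ^ (w : ℕ)))⁻¹ :=
            (inv_eq_of_mul_eq_one_right h3).symm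
          rw [h4, if_neg hw, ← zpow_natCast, ← zpow_neg, ← zpow_mul]
          congr 1
          push_cast
          simp
          ring
        · have h5 : a w = 0 := haU w (by
            rw [Finset.mem_compl, Finset.mem_union]
            rintro (h | h)
            · exact hw h
            · exact hw' h)
          rw [h5]
          simp
    rw [Finset.prod_congr rfl fun w _ => h2 w] at h1
    have h6 : ∀ (F : Finset (Fin k)) (z : Fin k → ℤ), ∏ w ∈ F, v (p : ℂ) ^ z w =
        v (p : ℂ) ^ (∑ w ∈ F, z w) := by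
      intro F z
      induction F using Finset.induction_on with
      | empty => simp
      | insert w F hw ih =>
        rw [Finset.prod_insert hw, Finset.sum_insert hw, ih, zpow_add₀ hvp0.ne']
    rw [h6] at h1
    have h7 := zpow_eq_one V _ hvp0 hvp h1
    rw [Finset.sum_neg_distrib] at h7
    exact neg_eq_zero.1 h7

end Pool.Agent.TH971.SR
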