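import Pool.Agent.TH971.SR.X2

/-!
Zilber-Pink for random correspondences between a base and a product of modular curves of any level
and a torus: the residue class.
-/

set_option autoImplicit false

open MvPolynomial

namespace Pool.Agent.TH971.SR

open Pool.Agent.W282.ZP Pool.Agent.W466.EP Pool.Agent.W466.ZP Pool.Agent.W282.RW
  Pool.Agent.TH971.RF Pool.Agent.TH971.SP

/-- The index set of the coefficients. -/
abbrev IdxX {n k : ℕ} (N r : ℕ) (D : Fin n ⊕ Fin k → ℕ) (dd : Fin r → ℕ) : Type :=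
  Σ x : Fin r × Fin 2 × ((i : Fin n ⊕ Fin k) → Fin (D i + 1)), Sym (Fin (N + 1)) (dd x.1)

theorem exists_classX {n k r m d N : ℕ} (D : Fin n ⊕ Fin k → ℕ) (hDk : ∀ w, 0 < D (Sum.inr w))
    (b : (i : Fin n) → Fin (D (Sum.inl i) + 1) → ℤ)
    (M₁ : (i : Fin n) → Fin (D (Sum.inl i) + 1) → ℕ)
    (A₁ : (i : Fin n) → (a : Fin (D (Sum.inl i) + 1)) → Fin (M₁ i a) → Polynomial ℂ)
    (Mc : (i : Fin n) → Fin (D (Sum.inl i) + 1) → ℕ)
    (Ac : (i : Fin n) → (a : Fin (D (Sum.inl i) + 1)) → Fin (Mc i a + 1) → Polynomial ℂ)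
    (hAc : ∀ i a k, (Ac i a k).natDegree ≤ (Ac i a (Fin.last _)).natDegree)
    (hAc0 : ∀ i a, Ac i a (Fin.last _) ≠ 0)
    (dd : Fin r → ℕ)
    (I : Ideal (MvPolynomial (Fin r) ℂ)) [I.IsPrime]
    (hd : Algebra.trdeg ℂ (MvPolynomial (Fin r) ℂ ⧸ I) = d)
    {κ : Type} (G : κ → MvPolynomial (Fin (N + 1)) ℂ) (hhom : ∀ k, ∃ e, (G k).IsHomogeneous e)
    (halg : ∀ k s, IsAlgebraic ℚ ((G k).coeff s))
    (hdim1 : ∃ t : Fin (m + 1) → Fin (N + 1) → ℂ, ∀ y : Fin (N + 1) → ℂ,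
      (∀ k, eval y (G k) = 0) → (∀ b, ∑ j, t b j * y j = 0) → y = 0) (Γ : Finset ℂ)
    (Q₀ : ℕ) (hQ₀ : 0 < Q₀) (C₀ : IdxX N r D dd → ℤ) :
    ∃ (K : IntermediateField ℚ ℂ) (Q : ℕ) (Gt : IdxX N r D dd → ℤ), Countable K ∧ 0 < Q ∧
      ∀ C : IdxX N r D dd → ℤ, (∀ i, (Q : ℤ) ∣ C i - Gt i) →
        (∀ i, (Q₀ : ℤ) ∣ C i - C₀ i) ∧
        ∀ (rZ : ℕ) (cls : Fin n → Option (Fin rZ)) (x : Fin n → ℂ), rZ ≤ n →
          (∀ i, cls i = none → IsIntegral (Algebra.adjoin ℤ (Γ : Set ℂ)) (x i)) →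
          (∀ i i' l, cls i = some l → cls i' = some l →
            IsIntegral (Algebra.adjoin ℤ {x i}) (x i')) →
        ∀ g : (i : Fin n) → Fin (D (Sum.inl i) + 1) → ℂ, (∀ i, g i 0 = 1) →
          (∀ i a, g i a ^ M₁ i a +
            ∑ k : Fin (M₁ i a), (A₁ i a k).eval (x i) * g i a ^ (k : ℕ) = 0) →
          (∀ i a, ∑ k : Fin (Mc i a + 1), (Ac i a k).eval (x i) *
            (g i a ^ (k : ℕ) * (∑ a, (b i a : ℂ) * g i a) ^ (Mc i a - (k : ℕ))) = 0) →
        ∀ (uu : Fin k → ℂ) (M₂ : Submodule ℤ (Fin k → ℤ)) (η : Fin k → ℂ),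
          (∀ w, DivHull Γ (η w)) → (∀ a ∈ M₂, ∏ w, uu w ^ a w = ∏ w, η w ^ a w) →
        ∀ (y : Fin (N + 1) → ℂ) (j0 : Fin (N + 1)), y j0 = 1 → (∀ k, eval y (G k) = 0) →
          (∀ f ∈ I, homV (fun j => mvX (fun e' => ev (fun u => C ⟨(j, 0, e'), u⟩) y) (gX g uu))
            (fun j => mvX (fun e' => ev (fun u => C ⟨(j, 1, e'), u⟩) y) (gX g uu)) f = 0) →
          ∀ (T1 : Finset (Fin (N + 1))) (T2 : Finset (Fin n ⊕ Fin k)),
            AlgebraicIndependent K (Sum.elim (fun j : T1 => y j)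
              (fun j : T2 => (Sum.elim x uu : Fin n ⊕ Fin k → ℂ) j)) →
            T1.card + T2.card + Module.finrank ℤ M₂ + r ≤ rZ + k + d + m := by
  classical
  obtain ⟨f, α, β, -, hcor⟩ := exists_corners' I hd
  obtain ⟨tt, htt⟩ := hdim1
  obtain ⟨s, hs⟩ := int_forms G hhom tt htt
  obtain ⟨D₁, hD₁, hgood⟩ := good_prime G halg hhom s hs
  let Y : Set (Fin (N + 1) → ℂ) := {y | ∀ k, eval y (G k) = 0}
  have hgood' : RF.Good Y s D₁ := hgood
  let cs : Finset ℂ := (((Finset.univ.biUnion fun J : Finset (Fin r) =>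
      (f J).support.image (f J).coeff) ∪
    (Finset.univ.image fun J : Finset (Fin r) => eval (fun j : J => ((α j : ℤ) : ℂ)) (f J))) ∪ Γ) ∪
    ((Finset.univ.biUnion fun i : Fin n =>
      Finset.univ.biUnion fun a : Fin (D (Sum.inl i) + 1) =>
      Finset.univ.biUnion fun k : Fin (M₁ i a) => (A₁ i a k).support.image (A₁ i a k).coeff) ∪
    (Finset.univ.biUnion fun i : Fin n =>
      Finset.univ.biUnion fun a : Fin (D (Sum.inl i) + 1) =>
      Finset.univ.biUnion fun k : Fin (Mc i a + 1) => (Ac i a k).support.image (Ac i a k).coeff))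
  obtain ⟨t, htau, halgt⟩ := exists_tau cs
  set τ : t → ℂ := ((↑) : t → ℂ) with hτ
  obtain ⟨D₀, hD₀, hunit⟩ := const_unit (τ := τ) cs halgt
  obtain ⟨p, O, hpinj, hpp⟩ := exists_primes ∅ (max (max D₀ D₁) (max Q₀ (0 + r + m)))
  let MM : ℕ := (k - 1) * (2 ^ k * (1 + 1) ^ k) + 1
  let ι0 := ((kk : Fin (n + 1)) × (Fin n → Option (Fin kk))) × Fin MM
  let eqv : ι0 ≃ Fin (Fintype.card ι0) := Fintype.equivFin ι0
  let Mt : ℕ → ℕ := fun t => 1 + ∑ w, D (Sum.inr w) * t ^ (w : ℕ)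
  obtain ⟨Q, Gt, hQ, hclass⟩ := exists_residue_class'
    (κ := IdxX N r D dd) (M := Fintype.card ι0)
    (fun m => p m)
    (fun m => (hpp m).1) (fun m m' h => Fin.ext (hpinj h))
    (fun m' _ => Mt (((eqv.symm m').2 : ℕ) + 1))
    (fun m' x => if x.1.2.1 = 0
      then α x.1.1 * lcoX D (bX b) (lamX (eqv.symm m').1.2)
        (wX (eqv.symm m').1.1 D (p m') (((eqv.symm m').2 : ℕ) + 1)) ((x.1.1 : ℕ) + 1) x.1.2.2 *
        pw _ (vdm s (0 + (x.1.1 : ℕ))) x.2
      else lcoX D (bX b) (lamX (eqv.symm m').1.2)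
        (wX (eqv.symm m').1.1 D (p m') (((eqv.symm m').2 : ℕ) + 1)) ((x.1.1 : ℕ) + 1) x.1.2.2 *
        pw _ (vdm s (0 + (x.1.1 : ℕ))) x.2) Q₀ hQ₀
    (fun m => ((le_max_left _ _).trans (le_max_right _ _)).trans_lt (hpp m).2.1) C₀
  have hpD0 : ∀ m, ¬ p m ∣ D₀ := fun m h =>
    absurd (Nat.le_of_dvd hD₀ h) (not_le.2 (((le_max_left _ _).trans (le_max_left _ _)).trans_lt
      (hpp m).2.1))
  have hpD1 : ∀ m, ¬ p m ∣ D₁ := fun m h =>
    absurd (Nat.le_of_dvd hD₁ h) (not_le.2 (((le_max_right _ _).trans (le_max_left _ _)).trans_lt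
      (hpp m).2.1))
  have hpM : ∀ m', 0 + r + m < p m' := fun m' =>
    ((le_max_right _ _).trans (le_max_right _ _)).trans_lt (hpp m').2.1
  -- the properties of the constants
  have hA : ∀ m, ∀ V : ValuationSubring ℂ, SP.Good τ (p m) V → ∀ a ∈ cs, V.valuation a ≤ 1 := by
    intro m V hV a ha
    by_cases h0 : a = 0
    · rw [h0, map_zero]
      exact zero_le_one
    · exact (hunit (p m) (hpD0 m) V hV a ha h0).le
  have hfs : ∀ (J : Finset (Fin r)) l, (f J).coeff l ≠ 0 → (f J).coeff l ∈ cs := fun J l h0 =>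
    Finset.mem_union_left _ (Finset.mem_union_left _ (Finset.mem_union_left _
      (Finset.mem_biUnion.2 ⟨J, Finset.mem_univ _, Finset.mem_image_of_mem _
        (MvPolynomial.mem_support_iff.2 h0)⟩)))
  have hcs : ∀ J : Finset (Fin r), eval (fun j : J => ((α j : ℤ) : ℂ)) (f J) ∈ cs := fun J =>
    Finset.mem_union_left _ (Finset.mem_union_left _ (Finset.mem_union_right _
      (Finset.mem_image_of_mem
      (fun J : Finset (Fin r) => eval (fun j : J => ((α j : ℤ) : ℂ)) (f J)) (Finset.mem_univ J))))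
  have hΓ : ∀ m', ∀ V : ValuationSubring ℂ, SP.Good τ (p m') V → ∀ γ ∈ Γ, γ ≠ 0 →
      V.valuation γ = 1 := fun m' V hV γ hγ h0 =>
    hunit (p m') (hpD0 m') V hV γ (Finset.mem_union_left _ (Finset.mem_union_right _ hγ)) h0
  have h1s : ∀ i a k l, (A₁ i a k).coeff l ≠ 0 → (A₁ i a k).coeff l ∈ cs := fun i a k l h0 =>
    Finset.mem_union_right _ (Finset.mem_union_left _ (Finset.mem_biUnion.2 ⟨i, Finset.mem_univ _,
      Finset.mem_biUnion.2 ⟨a, Finset.mem_univ _, Finset.mem_biUnion.2 ⟨k, Finset.mem_univ _,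
        Finset.mem_image_of_mem _ (Polynomial.mem_support_iff.2 h0)⟩⟩⟩))
  have h2s : ∀ i a k l, (Ac i a k).coeff l ≠ 0 → (Ac i a k).coeff l ∈ cs := fun i a k l h0 =>
    Finset.mem_union_right _ (Finset.mem_union_right _ (Finset.mem_biUnion.2 ⟨i, Finset.mem_univ _,
      Finset.mem_biUnion.2 ⟨a, Finset.mem_univ _, Finset.mem_biUnion.2 ⟨k, Finset.mem_univ _,
        Finset.mem_image_of_mem _ (Polynomial.mem_support_iff.2 h0)⟩⟩⟩))
  refine ⟨IntermediateField.adjoin ℚ (Set.range τ), Q, Gt, countable_adjoin t, hQ,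
    fun C hC => ?_⟩
  obtain ⟨hc0, hcm⟩ := hclass C hC
  refine ⟨hc0, ?_⟩
  intro rZ cls x hrn hconst hrel g hg0 hg1 hg2 uu M₂ η hη hM₂ y j0 hj0 hyG hz T1 T2 hT
  by_contra hcon
  push Not at hcon
  have hy : y ≠ 0 := by
    intro h0
    rw [h0] at hj0
    exact zero_ne_one hj0
  have hYs : ∀ (c : ℂ) (y : Fin (N + 1) → ℂ), y ∈ Y → c • y ∈ Y := by
    intro c y hy k
    obtain ⟨w, hw⟩ := hhom k
    rw [Pool.Agent.W466.ZC.eval_smul hw, hy k, mul_zero]
  obtain ⟨b0, hb0, S, T, hcard, hind, -⟩ := exch_point htau hD₁ hgood' hYs (0 + r) hy hyG hj0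
    (Sum.elim x uu) T1 T2 hT
  have hTc := Finset.card_toLeft_add_card_toRight (u := T)
  set Ta := T.toLeft with hTa
  set Tb := T.toRight with hTb
  have hind' : AlgebraicIndependent ℚ (Sum.elim (fun j : Ta => x j) (Sum.elim (Sum.elim
      (fun w : Tb => uu w)
      (fun b : S => (∑ j, (vdm s (0 + r + (b0 : ℕ)) j : ℂ) * y j)⁻¹ *
        ∑ j, (vdm s (0 + r + ((b : Fin (m + 1)) : ℕ)) j : ℂ) * y j)) τ)) := by
    let ff : Ta ⊕ ((Tb ⊕ S) ⊕ t) → T ⊕ (S ⊕ t) := Sum.elim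
      (fun j => Sum.inl ⟨Sum.inl j, Finset.mem_toLeft.1 j.2⟩)
      (Sum.elim (Sum.elim (fun j => Sum.inl ⟨Sum.inr j, Finset.mem_toRight.1 j.2⟩)
        (fun b => Sum.inr (Sum.inl b))) (fun b => Sum.inr (Sum.inr b)))
    have hff : Function.Injective ff := by
      rintro (a1 | ((a1 | a1) | a1)) (a2 | ((a2 | a2) | a2)) h <;>
        simp only [ff, Sum.elim_inl, Sum.elim_inr] at h
      · have h1 := congrArg Subtype.val (Sum.inl_injective h)
        rw [Subtype.ext (Sum.inl_injective h1)]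
      · have h1 := congrArg Subtype.val (Sum.inl_injective h)
        exact absurd h1 Sum.inl_ne_inr
      · exact absurd h Sum.inl_ne_inr
      · exact absurd h Sum.inl_ne_inr
      · have h1 := congrArg Subtype.val (Sum.inl_injective h)
        exact absurd h1 Sum.inr_ne_inl
      · have h1 := congrArg Subtype.val (Sum.inl_injective h)
        rw [Subtype.ext (Sum.inr_injective h1)]
      · exact absurd h Sum.inl_ne_inr
      · exact absurd h Sum.inl_ne_inr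
      · exact absurd h Sum.inr_ne_inl
      · exact absurd h Sum.inr_ne_inl
      · rw [Sum.inl_injective (Sum.inr_injective h)]
      · exact absurd (Sum.inr_injective h) Sum.inl_ne_inr
      · exact absurd h Sum.inr_ne_inl
      · exact absurd h Sum.inr_ne_inl
      · exact absurd (Sum.inr_injective h) Sum.inr_ne_inl
      · rw [Sum.inr_injective (Sum.inr_injective h)]
    have h5 := hind.comp ff hff
    convert h5 using 1
    funext z
    rcases z with a | ((a | a) | a) <;> rfl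
  let c00 : ι0 := (⟨⟨0, Nat.succ_pos _⟩, fun _ => none⟩, ⟨0, Nat.succ_pos _⟩)
  obtain ⟨hTr, hpat⟩ := patternG (τ := τ) (Γ := Γ) cls x hconst hrel Ta hind'
    (hpp (eqv c00)).1 (hΓ _)
  have hkk : rZ - Ta.card < n + 1 := by omega
  obtain ⟨lam, hlam⟩ := hpat (rZ - Ta.card) (by omega)
  refine pigeon M₂ (r := 1) fun m' => ?_
  let c : ι0 := (⟨⟨rZ - Ta.card, hkk⟩, lam⟩, m')
  have hcoef : ∀ {P : Polynomial ℂ}, (∀ l, P.coeff l ≠ 0 → P.coeff l ∈ cs) →
      ∀ V : ValuationSubring ℂ, SP.Good τ (p (eqv c)) V → ∀ l, V.valuation (P.coeff l) ≤ 1 := by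
    intro P hP V hV l
    by_cases h0 : P.coeff l = 0
    · rw [h0, map_zero]
      exact zero_le_one
    · exact hA (eqv c) V hV _ (hP l h0)
  exact critX (kk := rZ - Ta.card) (t := (m' : ℕ) + 1) (M := Mt ((m' : ℕ) + 1)) D hDk
    (Nat.succ_pos _) le_rfl (hpp (eqv c)).1 f α
    (fun V hV J hJ l => by
      by_cases h0 : (f J).coeff l = 0
      · rw [h0, map_zero]
        exact zero_le_one
      · exact hA (eqv c) V hV _ (hfs J l h0))
    (fun V hV J hJ => hunit (p (eqv c)) (hpD0 (eqv c)) V hV _ (hcs J) (by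
      have h1 := (hcor J hJ).2 (fun _ => true)
      simpa using h1))
    Y s D₁ hgood' (hpD1 (eqv c)) (hpM (eqv c)) dd b lam (fun z u => C ⟨z, u⟩)
    (by
      intro j e
      constructor
      · intro u
        have h1 := hcm (eqv c) ⟨(j, 0, e), u⟩
        rw [Equiv.symm_apply_apply] at h1
        simpa using h1
      · intro u
        have h1 := hcm (eqv c) ⟨(j, 1, e), u⟩
        rw [Equiv.symm_apply_apply] at h1
        simpa using h1)
    y hy hyG x g hg0 uu (fun J hJ => hz _ (hcor J hJ).1) b0 hb0 S Ta Tb hind'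
    (fun V hV i hi a => val_int V (A₁ i a) (fun k => hcoef (h1s i a k) V hV) (hg1 i a)
      ((ValuationSubring.valuation_le_one_iff V _).2 hi))
    (fun V hV i hi a => val_cusp V (Ac i a) (hAc i a)
      (fun k l h0 => hunit (p (eqv c)) (hpD0 (eqv c)) V hV _ (h2s i a k l h0) h0) (hAc0 i a)
      (by
        by_contra hcon
        exact hi ((ValuationSubring.valuation_le_one_iff V _).1 (not_lt.1 hcon)))
      (hg2 i a))
    (fun V hV hTV => hlam V (hΓ _ V hV) hTV)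
    M₂
    (fun V hV a ha => by
      rw [hM₂ a ha, map_prod]
      refine Finset.prod_eq_one fun w _ => ?_
      rw [map_zpow₀, (hη w).val V (hΓ _ V hV), one_zpow])
    (by omega)

end Pool.Agent.TH971.SR
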