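import Pool.Agent.TH971.SR.L2
import Pool.Agent.W282.ZP.Mix

/-!
Zilber-Pink for random correspondences between a base and modular curves of any level and tori: one
point and one prime.
-/

set_option autoImplicit false

open MvPolynomial

namespace Pool.Agent.TH971.SR

open Pool.Agent.W282.ZP Pool.Agent.W466.EP Pool.Agent.W466.ZP Pool.Agent.W282.RW
  Pool.Agent.TH971.RF Pool.Agent.TH971.SP

/-- The size of the roots of a polynomial with one slope. -/
theorem val_root (V : ValuationSubring ℂ) {p : ℂ} (hp0 : p ≠ 0) (hp1 : V.valuation p < 1)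
    {D M q : ℕ} (hD : 0 < D) (hM : D * q < M) (hq : 0 < q) (R : Fin (D + 1) → ℂ) (u L : ℂ)
    (hL : V.valuation L = 1) (hR0 : V.valuation (R 0 - p ^ (D * q) * L) ≤ V.valuation p ^ M)
    (hRl : V.valuation (R (Fin.last D) - L) ≤ V.valuation p ^ M)
    (hR : ∀ a, a ≠ 0 → a ≠ Fin.last D → V.valuation (R a) ≤ V.valuation p ^ M)
    (hz : ∑ a : Fin (D + 1), R a * u ^ (a : ℕ) = 0) : V.valuation u = V.valuation p ^ q := by
  classical
  set v := V.valuation with hv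
  have hvp0 : 0 < v p := zero_lt_iff.2 ((map_ne_zero _).2 hp0)
  have hMq : v p ^ M < v p ^ (D * q) := pow_lt_pow_right_of_lt_one₀ hvp0 hp1 hM
  have hM1 : v p ^ M < 1 := pow_lt_one₀ zero_le hp1 (by omega)
  have h0 : v (R 0) = v p ^ (D * q) := by
    have h1 : v (p ^ (D * q) * L) = v p ^ (D * q) := by rw [map_mul, map_pow, hL, mul_one]
    have h2 : R 0 = (R 0 - p ^ (D * q) * L) + p ^ (D * q) * L := by ring
    rw [h2, Valuation.map_add_eq_of_lt_right v (by rw [h1]; exact hR0.trans_lt hMq), h1]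
  have hl : v (R (Fin.last D)) = 1 := by
    have h2 : R (Fin.last D) = (R (Fin.last D) - L) + L := by ring
    rw [h2, Valuation.map_add_eq_of_lt_right v (by rw [hL]; exact hRl.trans_lt hM1), hL]
  have hne : (0 : Fin (D + 1)) ≠ Fin.last D := by
    intro h
    have := congrArg Fin.val h
    simp at this
    omega
  -- the other terms
  have hsplit : R 0 + R (Fin.last D) * u ^ D +
      ∑ a ∈ (Finset.univ.erase (0 : Fin (D + 1))).erase (Fin.last D), R a * u ^ (a : ℕ) = 0 := by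
    rw [← hz, ← Finset.add_sum_erase _ _ (Finset.mem_univ (0 : Fin (D + 1))),
      ← Finset.add_sum_erase _ _ (Finset.mem_erase.2 ⟨hne.symm, Finset.mem_univ (Fin.last D)⟩)]
    rw [Fin.val_zero, pow_zero, mul_one, Fin.val_last]
    ring
  set E := ∑ a ∈ (Finset.univ.erase (0 : Fin (D + 1))).erase (Fin.last D), R a * u ^ (a : ℕ)
    with hE
  have hEb : ∀ w : V.ValueGroup, w ≠ 0 → (∀ a : ℕ, 0 < a → a < D → v p ^ M * v u ^ a < w) →
      v E < w := by
    intro w hw0 hw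
    refine Valuation.map_sum_lt _ hw0 fun a ha => ?_
    have h1 : a ≠ Fin.last D := (Finset.mem_erase.1 ha).1
    have h2 : a ≠ 0 := (Finset.mem_erase.1 (Finset.mem_erase.1 ha).2).1
    rw [map_mul, map_pow]
    refine lt_of_le_of_lt (mul_le_mul' (hR a h2 h1) le_rfl) (hw a ?_ ?_)
    · exact Nat.pos_of_ne_zero fun h => h2 (Fin.ext h)
    · exact lt_of_le_of_ne (Nat.lt_succ_iff.1 a.2) fun h => h1 (Fin.ext (by simpa using h))
  have hlu : v (R (Fin.last D) * u ^ D) = v u ^ D := by rw [map_mul, map_pow, hl, one_mul]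
  rcases lt_trichotomy (v u) (v p ^ q) with h | h | h
  · exfalso
    have h1 : v u ^ D < v p ^ (D * q) := by
      rw [mul_comm, pow_mul]
      exact pow_lt_pow_left₀ h zero_le hD.ne'
    have h2 : v E < v p ^ (D * q) := by
      refine hEb _ (pow_pos hvp0 _).ne' fun a _ _ => ?_
      refine lt_of_le_of_lt (mul_le_of_le_one_right' (pow_le_one' ?_ _)) hMq
      exact h.le.trans (pow_le_one' hp1.le _)
    have h3 : v (R 0) < v p ^ (D * q) := by
      have h4 : R 0 = -(R (Fin.last D) * u ^ D) - E := by linear_combination hsplit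
      rw [h4]
      refine (Valuation.map_sub _ _ _).trans_lt (max_lt ?_ h2)
      rw [Valuation.map_neg, hlu]
      exact h1
    rw [h0] at h3
    exact lt_irrefl _ h3
  · exact h
  · exfalso
    have hvu : 0 < v u := lt_of_le_of_lt zero_le h
    have h1 : v p ^ (D * q) < v u ^ D := by
      rw [mul_comm, pow_mul]
      exact pow_lt_pow_left₀ h zero_le hD.ne'
    have h2 : v E < v u ^ D := by
      refine hEb _ (pow_pos hvu _).ne' fun a _ ha => ?_
      rcases le_total (v u) 1 with h5 | h5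
      · exact lt_of_le_of_lt (mul_le_of_le_one_right' (pow_le_one' h5 _)) (hMq.trans h1)
      · calc v p ^ M * v u ^ a < 1 * v u ^ a := mul_lt_mul_of_pos_right hM1 (pow_pos hvu _)
          _ = v u ^ a := one_mul _
          _ ≤ v u ^ D := pow_le_pow_right₀ h5 ha.le
    have h3 : v (R (Fin.last D) * u ^ D) < v u ^ D := by
      have h4 : R (Fin.last D) * u ^ D = -(R 0) - E := by linear_combination hsplit
      rw [h4]
      refine (Valuation.map_sub _ _ _).trans_lt (max_lt ?_ h2)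
      rw [Valuation.map_neg, h0]
      exact h1
    rw [hlu] at h3
    exact lt_irrefl _ h3

variable {σ : Type} [Fintype σ] [DecidableEq σ]

/-- One point and one prime. -/
theorem critY {n r k m d kk E M t : ℕ} (D : Fin n → ℕ) (Dt : Fin k → ℕ) (hDt : ∀ w, 0 < Dt w)
    (ht : 0 < t) (hMt : ∀ w, Dt w * t ^ ((w : Fin k) : ℕ) < M) {κ : Type} {τ : κ → ℂ}
    {p : ℕ} (hp : p.Prime)
    (f : ∀ J : Finset (Fin r), MvPolynomial J ℂ) (α : Fin r → ℤ)
    (hf : ∀ V : ValuationSubring ℂ, SP.Good τ p V → ∀ J : Finset (Fin r), J.card = d + 1 →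
      ∀ l, V.valuation ((f J).coeff l) ≤ 1)
    (hcor : ∀ V : ValuationSubring ℂ, SP.Good τ p V → ∀ J : Finset (Fin r), J.card = d + 1 →
      V.valuation (eval (fun j : J => ((α j : ℤ) : ℂ)) (f J)) = 1)
    (Y : Set (σ → ℂ)) (s : Fin (m + 1) → σ → ℤ) (D₀ : ℕ) (hgood : RF.Good Y s D₀)
    (hpD : ¬ p ∣ D₀) (hpM : n + r + k + m < p) (dd : Fin r → ℕ) (e : Fin n → ℕ) (he : ∀ i, 0 < e i)
    (heE : ∀ i, e i ≤ E) (hM : (E + 1) ^ (n + 1) ≤ M) (lam : Fin n → Option (Fin kk))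
    (C : ∀ x : Fin r × Fin 2, Sym σ (dd x.1) → ℤ)
    (hC0 : ∀ j u, (p : ℤ) ∣ C (j, 0) u - α j * pw _ (vdm s (n + (j : ℕ))) u)
    (hC1 : ∀ j u, (p : ℤ) ∣ C (j, 1) u - pw _ (vdm s (n + (j : ℕ))) u)
    (P : ∀ i, Fin (D i + 1) → Sym σ (e i) → ℤ)
    (b : (i : Fin n) → Fin (D i + 1) → ℤ)
    (hPn : ∀ i, NonRoot lam i → ∀ a u, (p : ℤ) ^ M ∣ P i a u -
      ((if a = 0 then pw _ (vdm s (i : ℕ)) u else 0) +
        b i a * (p * pw _ (vdm s (nxt lam i : ℕ)) u)))
    (hPr : ∀ i, ¬ NonRoot lam i → ∀ a u, (p : ℤ) ^ M ∣ P i a u -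
      b i a * pw _ (vdm s (nxt lam i : ℕ)) u)
    (et : Fin k → ℕ) (R : ∀ w, Fin (Dt w + 1) → Sym σ (et w) → ℤ)
    (hR0 : ∀ w u, (p : ℤ) ^ M ∣ R w 0 u -
      (p : ℤ) ^ (Dt w * t ^ (w : ℕ)) * pw _ (vdm s (n + r + (w : ℕ))) u)
    (hRl : ∀ w u, (p : ℤ) ^ M ∣ R w (Fin.last (Dt w)) u - pw _ (vdm s (n + r + (w : ℕ))) u)
    (hR : ∀ w a, a ≠ 0 → a ≠ Fin.last (Dt w) → ∀ u, (p : ℤ) ^ M ∣ R w a u)
    (y : σ → ℂ) (hy : y ≠ 0) (hyY : y ∈ Y) (x : Fin n → ℂ) (uu : Fin k → ℂ)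
    (hz : ∀ J : Finset (Fin r), J.card = d + 1 →
      homV (fun j => ev (C (j, 0)) y) (fun j => ev (C (j, 1)) y)
        (rename (Subtype.val : J → Fin r) (f J)) = 0)
    (b0 : Fin (m + 1)) (hb0 : ∑ j, (vdm s (n + r + k + (b0 : ℕ)) j : ℂ) * y j ≠ 0)
    (S : Finset (Fin (m + 1))) (T : Finset (Fin n)) (T₂ : Finset (Fin k))
    (hS : AlgebraicIndependent ℚ (Sum.elim (fun j : T => x j) (Sum.elim (Sum.elim
      (fun w : T₂ => uu w)
      (fun b : S => (∑ j, (vdm s (n + r + k + (b0 : ℕ)) j : ℂ) * y j)⁻¹ *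
        ∑ j, (vdm s (n + r + k + ((b : Fin (m + 1)) : ℕ)) j : ℂ) * y j)) τ)))
    (g : (i : Fin n) → Fin (D i + 1) → ℂ) (hg0 : ∀ i, g i 0 = 1)
    (hxi : ∀ V : ValuationSubring ℂ, SP.Good τ p V → ∀ i, x i ∈ V → ∀ a,
      V.valuation (g i a) ≤ 1)
    (hxn : ∀ V : ValuationSubring ℂ, SP.Good τ p V → ∀ i, x i ∉ V → ∀ a,
      V.valuation (g i a) ≤ V.valuation (∑ a, (b i a : ℂ) * g i a))
    (hlam : ∀ V : ValuationSubring ℂ, SP.Good τ p V → (∀ i : T, x i ∈ V) →
      (∀ i, lam i = none → x i ∈ V) ∧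
      (∀ i i', lam i ≠ none → lam i' = lam i → x i ∈ V → x i' ∈ V))
    (hzP : ∀ i, ∑ a, ev (P i a) y * g i a = 0)
    (hzR : ∀ w, ∑ a : Fin (Dt w + 1), ev (R w a) y * uu w ^ (a : ℕ) = 0)
    (M₂ : Submodule ℤ (Fin k → ℤ))
    (hM₂ : ∀ V : ValuationSubring ℂ, SP.Good τ p V → ∀ a ∈ M₂,
      V.valuation (∏ w, uu w ^ a w) = 1)
    (hcon : kk + d + m < S.card + T₂.card + n + Module.finrank ℤ M₂ + r) :
    ∃ U : Finset (Fin k), U.card < Module.finrank ℤ M₂ ∧ ∃ χ : Fin k → Fin (1 + 1),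
      ∀ a ∈ M₂, (∀ w ∈ U, a w = 0) →
      ∑ w, (a w * ((χ w : ℕ) + 1 : ℕ)) * (t ^ (w : ℕ) : ℕ) = 0 := by
  classical
  have hp0 : (p : ℂ) ≠ 0 := by exact_mod_cast hp.ne_zero
  have hpQ : (p : ℚ) ≠ 0 := by exact_mod_cast hp.ne_zero
  obtain ⟨V, hVτ, hVT, hVS⟩ := exists_place _ _ τ hS hp (fun _ => 1)
    (Sum.elim (fun w : T₂ => ((p : ℚ) ^ (2 * t ^ ((w : Fin k) : ℕ)))⁻¹) (fun _ => (p : ℚ)⁻¹))
    (fun _ => one_ne_zero) (by
      rintro (w | b)
      · exact inv_ne_zero (pow_ne_zero _ hpQ)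
      · exact inv_ne_zero hpQ)
  set v := V.valuation with hv
  have hVp : (p : ℂ) ∈ V.nonunits := hVτ.hp
  have hvp : v (p : ℂ) < 1 := hVτ.lt
  have hTV : ∀ i : T, x i ∈ V := by
    intro i
    have h1 := hVT i
    rw [Rat.cast_one, one_mul] at h1
    exact (ValuationSubring.valuation_le_one_iff V _).1 h1.le
  have hvp0 : 0 < v (p : ℂ) := zero_lt_iff.2 ((map_ne_zero _).2 hp0)
  have hT₂v : ∀ w ∈ T₂, v (uu w) = v (p : ℂ) ^ (2 * t ^ (w : ℕ)) := by
    intro w hw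
    have h1 := hVS (Sum.inl ⟨w, hw⟩)
    have h2 : (v (p : ℂ) ^ (2 * t ^ (w : ℕ)))⁻¹ * v (uu w) = 1 := by simpa using h1
    exact ((inv_mul_eq_one₀ (pow_pos hvp0 _).ne').1 h2).symm
  obtain ⟨hl1, hl2⟩ := hlam V hVτ hTV
  obtain ⟨c, hc0, hcV, -, hbu⟩ := hgood p hp hpD V hVp y hy hyY
  have hle : ∀ b, v (∑ j, (vdm s b j : ℂ) * (c • y) j) ≤ 1 := fun b =>
    (ValuationSubring.valuation_le_one_iff V _).2
      (sum_mem fun j _ => mul_mem (intCast_mem V _) (hcV j))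
  -- the forms of `S`
  have hS1 : ∀ b ∈ S, v (∑ j, (vdm s (n + r + k + (b : ℕ)) j : ℂ) * (c • y) j) < 1 := by
    intro b hbS
    have h1 := hVS (Sum.inr ⟨b, hbS⟩)
    have h3 : v ((∑ j, (vdm s (n + r + k + (b0 : ℕ)) j : ℂ) * y j)⁻¹ *
        ∑ j, (vdm s (n + r + k + (b : ℕ)) j : ℂ) * y j) = v (p : ℂ) := by
      have h2 : v (((p : ℚ)⁻¹ : ℚ) : ℂ) = (v (p : ℂ))⁻¹ := by
        push_cast
        rw [map_inv₀]
      rw [Sum.elim_inr, Sum.elim_inr, map_mul, h2] at h1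
      have h4 : v (p : ℂ) ≠ 0 := (map_ne_zero _).2 hp0
      rw [inv_mul_eq_one₀ h4] at h1
      exact h1.symm
    have h4 : (∑ j, (vdm s (n + r + k + (b : ℕ)) j : ℂ) * (c • y) j) =
        ((∑ j, (vdm s (n + r + k + (b0 : ℕ)) j : ℂ) * y j)⁻¹ *
          ∑ j, (vdm s (n + r + k + (b : ℕ)) j : ℂ) * y j) *
        (∑ j, (vdm s (n + r + k + (b0 : ℕ)) j : ℂ) * (c • y) j) := by
      rw [lf_smul, lf_smul]
      field_simp
    rw [h4, map_mul, h3]
    exact (mul_le_of_le_one_right' (hle _)).trans_lt hvp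
  let Jb : Finset (Fin r) := Finset.univ.filter fun j =>
    v (∑ i, (vdm s (n + (j : ℕ)) i : ℂ) * (c • y) i) ≠ 1
  let Ib : Finset (Fin n) := Finset.univ.filter fun j =>
    v (∑ i, (vdm s (j : ℕ) i : ℂ) * (c • y) i) ≠ 1
  let Wb : Finset (Fin k) := Finset.univ.filter fun j =>
    v (∑ i, (vdm s (n + r + (j : ℕ)) i : ℂ) * (c • y) i) ≠ 1
  have hcard := nonunit_card (m := m) (M := n + r + k + m) (par (n := n)) par_inj par_le hp hpM V
    hVp s (c • y) hcV hbu (((Ib.disjSum Jb).disjSum Wb).disjSum S) (by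
      rintro (((i | l) | w) | b) hx'
      · rw [Finset.inl_mem_disjSum, Finset.inl_mem_disjSum, Finset.inl_mem_disjSum] at hx'
        exact (Finset.mem_filter.1 hx').2
      · rw [Finset.inl_mem_disjSum, Finset.inl_mem_disjSum, Finset.inr_mem_disjSum] at hx'
        exact (Finset.mem_filter.1 hx').2
      · rw [Finset.inl_mem_disjSum, Finset.inr_mem_disjSum] at hx'
        exact (Finset.mem_filter.1 hx').2
      · rw [Finset.inr_mem_disjSum] at hx'
        exact (hS1 b hx').ne)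
  rw [Finset.card_disjSum, Finset.card_disjSum, Finset.card_disjSum] at hcard
  have hJbc : Jbᶜ.card + Jb.card = r := by
    rw [Finset.card_compl, Fintype.card_fin]
    have h1 := Finset.card_le_univ Jb
    rw [Fintype.card_fin] at h1
    omega
  let lf : Fin r → ℂ := fun j => ∑ i, (vdm s (n + (j : ℕ)) i : ℂ) * (c • y) i
  have hlf : ∀ j ∈ Jbᶜ, v (lf j) = 1 := by
    intro j hj
    by_contra h4
    exact (Finset.mem_compl.1 hj) (Finset.mem_filter.2 ⟨Finset.mem_univ _, h4⟩)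
  have hcastp : v (((p : ℤ) : ℤ) : ℂ) = v (p : ℂ) := by
    push_cast
    rfl
  have hcastM : v (((p : ℤ) ^ M : ℤ) : ℂ) = v (p : ℂ) ^ M := by
    push_cast
    rw [map_pow]
  have hmain := card_base V hp hvp (by omega) f α (hf V hVτ) (hcor V hVτ)
    (fun j => ev (C (j, 0)) (c • y)) (fun j => ev (C (j, 1)) (c • y)) Jbᶜ
    (fun j => lf j ^ dd j)
    (fun j hj => by rw [map_pow]; change v (lf j) ^ _ = 1; rw [hlf j hj, one_pow])
    (by
      intro j _
      have h1 := ev_congr V hcV (p : ℤ)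
        (c' := fun u => α j * pw _ (vdm s (n + (j : ℕ))) u) (hC0 j)
      rwa [ev_zsmul, ev_pw, ← hv, hcastp] at h1)
    (by
      intro j _
      have h1 := ev_congr V hcV (p : ℤ)
        (c' := pw _ (vdm s (n + (j : ℕ)))) (hC1 j)
      rwa [ev_pw, ← hv, hcastp] at h1)
    (by
      intro J hJ
      have h1 : ∀ (j : Fin r) (a : Fin 2), ev (C (j, a)) (c • y) = c ^ dd j * ev (C (j, a)) y :=
        fun j a => ev_smul _ _ _
      rw [funext fun j => h1 j 0, funext fun j => h1 j 1]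
      rw [homV_scale, hz J hJ, mul_zero])
  -- the modular part
  let l : Fin n → ℂ := fun i => ∑ j, (vdm s (i : ℕ) j : ℂ) * (c • y) j
  have hnu := nonunits (E := E) (M := M) V hp0 hvp lam e he heE hM l (fun i => hle _)
    (fun i a => ev (P i a) (c • y)) g (fun i a => (b i a : ℂ)) (fun i a => int_le V _)
    (fun i hi a => by
      have h1 := ev_congr V hcV ((p : ℤ) ^ M)
        (c' := fun u => (if a = 0 then pw _ (vdm s (i : ℕ)) u else 0) +
          b i a * (p * pw _ (vdm s (nxt lam i : ℕ)) u)) (hPn i hi a)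
      rw [ev_add, ev_zsmul, ev_zsmul, ev_pw, ← hv, hcastM] at h1
      have h2 : ev (fun u => if a = 0 then pw (e i) (vdm s (i : ℕ)) u else 0) (c • y) =
          if a = 0 then l i ^ e i else 0 := by
        split_ifs with ha
        · rw [ev_pw]
        · simp [ev]
      rw [h2] at h1
      push_cast at h1
      exact h1)
    (fun i hi a => by
      have h1 := ev_congr V hcV ((p : ℤ) ^ M)
        (c' := fun u => b i a * pw _ (vdm s (nxt lam i : ℕ)) u) (hPr i hi a)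
      rwa [ev_zsmul, ev_pw, ← hv, hcastM] at h1)
    hg0 x
    (fun i hi => hxi V hVτ i ((ValuationSubring.valuation_le_one_iff V _).1 hi))
    (fun i hi => hxn V hVτ i fun h =>
      absurd hi (not_lt.2 ((ValuationSubring.valuation_le_one_iff V _).2 h)))
    (fun i hi => (ValuationSubring.valuation_le_one_iff V _).2 (hl1 i hi))
    (fun i i' h1 h2 h3 => (ValuationSubring.valuation_le_one_iff V _).2
      (hl2 i i' h1 h2 ((ValuationSubring.valuation_le_one_iff V _).1 h3)))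
    (fun i => by
      have h1 : ∀ a, ev (P i a) (c • y) = c ^ e i * ev (P i a) y := fun a => ev_smul _ _ _
      simp only [h1, mul_assoc]
      rw [← Finset.mul_sum, hzP i, mul_zero])
  have hIb := nonroot_card lam Ib (fun i hi => Finset.mem_filter.2 ⟨Finset.mem_univ _,
    (hnu i hi).ne⟩)
  -- the torus part
  have hgoodw : ∀ w, w ∉ Wb → v (uu w) = v (p : ℂ) ^ (t ^ (w : ℕ)) := by
    intro w hw
    have h1 : v (∑ i, (vdm s (n + r + (w : ℕ)) i : ℂ) * (c • y) i) = 1 := by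
      by_contra h
      exact hw (Finset.mem_filter.2 ⟨Finset.mem_univ _, h⟩)
    have h2 : ∑ a : Fin (Dt w + 1), ev (R w a) (c • y) * uu w ^ (a : ℕ) = 0 := by
      have h3 : ∀ a, ev (R w a) (c • y) = c ^ et w * ev (R w a) y := fun a => ev_smul _ _ _
      simp only [h3, mul_assoc]
      rw [← Finset.mul_sum, hzR w, mul_zero]
    have hev0 : ∀ {q : ℕ} (F : Sym σ q → ℤ), (∀ u, (p : ℤ) ^ M ∣ F u) →
        v (ev F (c • y)) ≤ v (p : ℂ) ^ M := by
      intro q F hF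
      have h1 := ev_congr V hcV ((p : ℤ) ^ M) (c := F) (c' := fun _ => 0) (fun u => by
        rw [sub_zero]
        exact hF u)
      have h2 : ev (fun _ : Sym σ q => (0 : ℤ)) (c • y) = 0 := by simp [ev]
      rwa [h2, sub_zero, ← hv, hcastM] at h1
    have h4 := ev_congr V hcV ((p : ℤ) ^ M)
      (c' := fun u => (p : ℤ) ^ (Dt w * t ^ (w : ℕ)) * pw _ (vdm s (n + r + (w : ℕ))) u) (hR0 w)
    rw [ev_zsmul, ev_pw, ← hv, hcastM] at h4
    push_cast at h4
    have h5 := ev_congr V hcV ((p : ℤ) ^ M) (hRl w)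
    rw [ev_pw, ← hv, hcastM] at h5
    exact val_root V hp0 hvp (hDt w) (hMt w) (pow_pos ht _)
      (fun a => ev (R w a) (c • y)) (uu w)
      ((∑ i, (vdm s (n + r + (w : ℕ)) i : ℂ) * (c • y) i) ^ et w)
      (by rw [map_pow, h1, one_pow]) h4 h5 (fun a h6 h7 => hev0 _ (hR w a h6 h7)) h2
  have hT₂b : T₂ ⊆ Wb := by
    intro w hw
    by_contra h
    have h1 := hT₂v w hw
    rw [hgoodw w h, two_mul, pow_add] at h1
    have h2 : v (p : ℂ) ^ (t ^ (w : ℕ)) ≠ 0 := (pow_pos hvp0 _).ne'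
    have h3 : v (p : ℂ) ^ (t ^ (w : ℕ)) = 1 := by
      have h4 : v (p : ℂ) ^ (t ^ (w : ℕ)) * 1 =
          v (p : ℂ) ^ (t ^ (w : ℕ)) * v (p : ℂ) ^ (t ^ (w : ℕ)) := by rwa [mul_one]
      exact (mul_left_cancel₀ h2 h4).symm
    exact absurd h3 (pow_lt_one₀ zero_le hvp (pow_pos ht _).ne').ne
  refine ⟨Wb \ T₂, ?_, fun w => if w ∈ T₂ then 1 else 0, ?_⟩
  · rw [Finset.card_sdiff_of_subset hT₂b]
    have h1 := Finset.card_le_card hT₂b
    omega
  · intro a ha haU
    have h1 := hM₂ V hVτ a ha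
    rw [map_prod] at h1
    have h2 : ∀ w, v (uu w ^ a w) = (v (p : ℂ) ^ (((a w * (((if w ∈ T₂ then (1 : Fin (1 + 1))
        else 0 : Fin (1 + 1)) : ℕ) + 1 : ℕ)) * (t ^ (w : ℕ) : ℕ)) : ℤ)) := by
      intro w
      rw [map_zpow₀]
      by_cases hw : w ∈ T₂
      · rw [hT₂v w hw, if_pos hw, ← zpow_natCast, ← zpow_mul]
        congr 1
        push_cast
        simp
        ring
      · by_cases hw' : w ∈ Wb
        · have h5 : a w = 0 := haU w (Finset.mem_sdiff.2 ⟨hw', hw⟩)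
          rw [h5]
          simp
        · rw [hgoodw w hw', if_neg hw, ← zpow_natCast, ← zpow_mul]
          congr 1
          push_cast
          simp
          ring
    rw [Finset.prod_congr rfl fun w _ => h2 w] at h1
    have h6 : ∀ (F : Finset (Fin k)) (z : Fin k → ℤ), ∏ w ∈ F, v (p : ℂ) ^ z w =
        v (p : ℂ) ^ (∑ w ∈ F, z w) := by
      intro F z
      induction F using Finset.induction_on with
      | empty => simp
      | insert w F hw ih =>
        rw [Finset.prod_insert hw, Finset.sum_insert hw, ih, zpow_add₀ hvp0.ne']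
    rw [h6] at h1
    exact zpow_eq_one V _ hvp0 hvp h1

end Pool.Agent.TH971.SR
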